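import Mathlib
import Pool.Agent.Lib.MP_16ef92_ag.AL.NA1
import Pool.Agent.Lib.MP_16ef92_ag.AL.NA2

set_option autoImplicit false
set_option linter.unusedSectionVars false
set_option linter.unusedVariables false

namespace Pool.Agent.Lib.MP_16ef92_ag.GV

open Polynomial Module LinearMap AL

noncomputable section

section alg

variable {R Z T : Type} [CommRing R] [IsDomain R] [IsPrincipalIdealRing R] [AddCommGroup Z]
  [Module R Z] [Module.Free R Z] [Module.Finite R Z] [AddCommGroup T] [Module R T]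
  [Module.Free R T] [Module.Finite R T] {ι : T →ₗ[R] Z} {g : End R Z} {t : End R T}

theorem unif_aeval {A B : Type} [AddCommGroup A] [Module R A] [AddCommGroup B] [Module R B]
    {i : A →ₗ[R] B} {f : End R A} {g : End R B} (h : ∀ x, i (f x) = g (i x)) (P : R[X]) (x : A) :
    i (aeval f P x) = aeval g P (i x) := by
  induction P using Polynomial.induction_on' with
  | add p q hp hq => simp only [map_add, LinearMap.add_apply, hp, hq]
  | monomial n c =>
    simp only [aeval_monomial, End.mul_apply, Module.algebraMap_end_apply, map_smul, na2b_pow h]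

/-- A polynomial in `g` that does not vanish at one maps everything to a fixed line. -/
theorem sim_poly (hc : ∀ x, ι (t x) = g (ι x)) (h : Sim ι g) :
    ∃ (P : R[X]) (z₀ : Z), P.eval 1 ≠ 0 ∧ (g - 1) z₀ ∈ range ι ∧
      ∀ z, ∃ b : R, aeval g P z - b • z₀ ∈ range ι := by
  obtain ⟨W, _, _, _, _, p, w, -, hp, hn, hw, -, -⟩ := exists_quot hc
  have hs : ∀ z, p ((g - 1) z) = (w - 1) (p z) := fun z => by
    simp only [LinearMap.sub_apply, End.one_apply, map_sub, hw]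
  obtain ⟨z₁, hz, h⟩ := h
  have h0 : (w - 1) (p z₁) = 0 := by rw [← hs]; exact (hn _).2 hz
  have h1 : ∀ y, (w - 1) ((w - 1) y) = 0 → ∃ a b : R, a ≠ 0 ∧ a • y + b • p z₁ = 0 := fun y hy => by
    obtain ⟨z, rfl⟩ := hp y
    obtain ⟨a, b, ha, e⟩ := h z ((hn _).1 (by rw [hs, hs, hy]))
    exact ⟨a, b, ha, by simpa using (hn _).2 e⟩
  have h2 : ∀ (k : ℕ) y, ((w - 1) ^ k) y = 0 → (w - 1) y = 0 := fun k => by
    induction k with
    | zero => intro y hy; rw [show y = 0 by simpa using hy, map_zero]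
    | succ k ih =>
      intro y hy
      obtain ⟨a, b, ha, e⟩ := h1 y (ih _ (by rwa [pow_succ] at hy))
      have := congrArg (w - 1 : End R W) e
      rw [map_add, map_smul, map_smul, h0, smul_zero, add_zero, map_zero, smul_eq_zero] at this
      exact this.resolve_left ha
  obtain ⟨v, hv⟩ := finrank_le_one_iff.1 ((rank_le_one_iff w).2 ⟨p z₁, sub_eq_zero.1 h0, h1⟩)
  obtain ⟨z₂, hz₂⟩ := hp v
  obtain ⟨P, e, hP⟩ := exists_eq_pow_rootMultiplicity_mul_and_not_dvd w.charpoly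
    w.charpoly_monic.ne_zero 1
  obtain ⟨a, ha, hb⟩ := na2b_bound ι
  refine ⟨C a * P, a • z₂, ?_, ?_, fun z => ?_⟩
  · rw [eval_mul, eval_C]
    exact mul_ne_zero ha fun r => hP (dvd_iff_isRoot.2 r)
  · obtain ⟨k, hk⟩ := (na2a_mem w _).1 v.2
    rw [map_smul]
    exact hb _ ((hn _).1 (by rw [hs, hz₂, h2 k _ hk]))
  · obtain ⟨c, hc'⟩ := hv ⟨aeval w P (p z), (na2a_mem w _).2 ⟨rootMultiplicity 1 w.charpoly, by
      rw [show w - 1 = aeval w (X - C 1 : R[X]) by simp, ← map_pow, ← End.mul_apply, ← map_mul, ← e,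
        aeval_self_charpoly, LinearMap.zero_apply]⟩⟩
    refine ⟨c, ?_⟩
    rw [map_mul, aeval_C, End.mul_apply, Module.algebraMap_end_apply, smul_comm c, ← smul_sub]
    refine hb _ ((hn _).1 ?_)
    rw [map_sub, map_smul, unif_aeval hw, hz₂]
    exact sub_eq_zero.2 (congrArg Subtype.val hc').symm

theorem nul_smul {b : R} (hb : b ≠ 0) {z : Z} : Nul ι (b • z) ↔ Nul ι z :=
  ⟨fun ⟨a, ha, x, hx⟩ => ⟨a * b, mul_ne_zero ha hb, x, by rw [← hx, mul_smul]⟩,
    (na2b_U ι).smul_mem b⟩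

/-- The same for `G = b (g - 1)` and the eigenvalue zero. -/
theorem sim_poly0 (hc : ∀ x, ι (t x) = g (ι x)) (h : Sim ι g) {b : R} (hb : b ≠ 0) :
    ∃ (P : R[X]) (z₀ : Z), P.coeff 0 ≠ 0 ∧ (b • (g - 1)) z₀ ∈ range ι ∧
      ∀ z, ∃ c : R, aeval (b • (g - 1)) P z - c • z₀ ∈ range ι := by
  obtain ⟨P, z₀, h1, h2, h3⟩ := sim_poly (ι := ι) (g := b • (g - 1) + 1) (t := b • (t - 1) + 1)
    (fun x => by simp [hc]) (by
      obtain ⟨z₀, h1, h2⟩ := h
      refine ⟨z₀, ?_, fun z hz => h2 z ?_⟩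
      · rwa [add_sub_cancel_right, LinearMap.smul_apply, nul_smul hb]
      · rwa [add_sub_cancel_right, LinearMap.smul_apply, nul_smul hb, LinearMap.smul_apply,
          map_smul, nul_smul hb] at hz)
  refine ⟨P.comp (X + 1), z₀, ?_, by rwa [add_sub_cancel_right] at h2, fun z => ?_⟩
  · rwa [coeff_zero_eq_eval_zero, eval_comp, eval_add, eval_X, eval_one, zero_add]
  · simpa only [aeval_comp, map_add, aeval_X, map_one] using h3 z

end alg

section rel

universe w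

variable {l : ℕ} [hl : Fact l.Prime] {I : Type} [Fintype I] {Z : I → Type}
  [∀ i, AddCommGroup (Z i)] [∀ i, Module ℤ_[l] (Z i)] {G : ∀ i, End ℤ_[l] (Z i)}
  {B : ∀ i, Submodule ℤ_[l] (Z i)} {e m : ℕ}

variable (G B e) in
/-- One polynomial with constant term `l ^ e` maps each `Z i / B i` to a line killed by `G i`. -/
def Ln : Prop := (∀ i, ∀ z ∈ B i, G i z ∈ B i) ∧ ∃ (P : ℤ_[l][X]) (z₀ : ∀ i, Z i),
  P.coeff 0 = (l : ℤ_[l]) ^ e ∧ (∀ i, G i (z₀ i) ∈ B i) ∧
    ∀ i z, ∃ c : ℤ_[l], aeval (G i) P z - c • z₀ i ∈ B i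

theorem exists_ln (hB : ∀ i, ∀ z ∈ B i, G i z ∈ B i)
    (h : ∀ i, ∃ (P : ℤ_[l][X]) (z₀ : Z i), P.coeff 0 ≠ 0 ∧ G i z₀ ∈ B i ∧
      ∀ z, ∃ c : ℤ_[l], aeval (G i) P z - c • z₀ ∈ B i) : ∃ e, Ln G B e := by
  classical
  choose P z₀ h1 h2 h3 using h
  have h0 : (∏ i, P i).coeff 0 ≠ 0 := by
    rw [coeff_zero_prod]
    exact Finset.prod_ne_zero_iff.2 fun i _ => h1 i
  refine ⟨((∏ i, P i).coeff 0).valuation, hB,
    (∏ i, P i) * C (((PadicInt.unitCoeff h0)⁻¹ : ℤ_[l]ˣ) : ℤ_[l]), z₀, ?_, h2, fun i z => ?_⟩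
  · rw [coeff_mul_C, Units.mul_inv_eq_iff_eq_mul, mul_comm, ← PadicInt.unitCoeff_spec h0]
  · generalize (((PadicInt.unitCoeff h0)⁻¹ : ℤ_[l]ˣ) : ℤ_[l]) = u
    rw [← Finset.mul_prod_erase _ _ (Finset.mem_univ i), mul_assoc, map_mul, End.mul_apply]
    exact h3 i _

theorem unif_approx (m : ℕ) (P : ℤ_[l][X]) : ∃ (R : ℤ[X]) (Q : ℤ_[l][X]),
    P = R.map (Int.castRingHom _) + C ((l : ℤ_[l]) ^ m) * Q := by
  induction P using Polynomial.induction_on' with
  | add p q hp hq =>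
    obtain ⟨R, Q, rfl⟩ := hp
    obtain ⟨R', Q', rfl⟩ := hq
    exact ⟨R + R', Q + Q', by rw [Polynomial.map_add]; ring⟩
  | monomial n c =>
    obtain ⟨b, hb⟩ := Ideal.mem_span_singleton.1 (PadicInt.appr_spec m c)
    refine ⟨monomial n (c.appr m : ℤ), monomial n b, ?_⟩
    rw [map_monomial, C_mul_monomial, ← map_add, ← hb]
    simp

variable {H : Type w} [AddCommGroup H] {φ : H →+ H} {Cl : H → (∀ i, Z i) → Prop}

variable (G B m φ Cl) in
/-- An equivariant relation from the sum of the `Z i / (B i + l ^ m)` to `H`. -/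
structure Rl : Prop where
  sub : ∀ x z x' z', Cl x z → Cl x' z' → Cl (x - x') (z - z')
  act : ∀ x z, Cl x z → Cl (φ x) fun i => G i (z i)
  kill : ∀ x z, Cl x z → (∀ i, ∃ y, z i - (l : ℤ_[l]) ^ m • y ∈ B i) → x = 0

variable {x x' : H} {z z' : ∀ i, Z i}

theorem Rl.zero (h : Rl G B m φ Cl) (hx : Cl x z) : Cl 0 0 := by simpa using h.sub _ _ _ _ hx hx

theorem Rl.add (h : Rl G B m φ Cl) (hx : Cl x z) (hx' : Cl x' z') : Cl (x + x') (z + z') := by
  simpa using h.sub _ _ _ _ hx (h.sub _ _ _ _ (h.zero hx) hx')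

theorem Rl.zsmul (h : Rl G B m φ Cl) (hx : Cl x z) (a : ℤ) : Cl (a • x) (a • z) := by
  induction a using Int.induction_on with
  | zero => simpa using h.zero hx
  | succ a ih => simpa only [add_smul, one_smul] using h.add ih hx
  | pred a ih => simpa only [sub_smul, one_smul] using h.sub _ _ _ _ ih hx

theorem Rl.sum (h : Rl G B m φ Cl) (h0 : Cl 0 0) {J : Type} (s : Finset J) {x : J → H}
    {z : J → ∀ i, Z i} (hx : ∀ j, Cl (x j) (z j)) : Cl (∑ j ∈ s, x j) (∑ j ∈ s, z j) := by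
  classical
  induction s using Finset.induction_on with
  | empty => simpa using h0
  | insert a s ha ih =>
    rw [Finset.sum_insert ha, Finset.sum_insert ha]
    exact h.add (hx a) ih

theorem Rl.aeval (h : Rl G B m φ Cl) (hx : Cl x z) (R : ℤ[X]) :
    Cl (aeval (φ.toIntLinearMap : End ℤ H) R x)
      fun i => aeval (G i) (R.map (Int.castRingHom ℤ_[l])) (z i) := by
  induction R using Polynomial.induction_on' with
  | add p q hp hq =>
    simp only [Polynomial.map_add, map_add, LinearMap.add_apply]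
    exact h.add hp hq
  | monomial n c =>
    have h1 : Cl (((φ.toIntLinearMap : End ℤ H) ^ n) x) fun i => (G i ^ n) (z i) := by
      induction n with
      | zero => exact hx
      | succ n ih =>
        simp only [pow_succ', End.mul_apply]
        exact h.act _ _ ih
    simp only [map_monomial, aeval_monomial, End.mul_apply, Module.algebraMap_end_apply,
      eq_intCast, Int.cast_smul_eq_zsmul]
    exact h.zsmul h1 c

/-- An integral polynomial that does the same at level `m`. -/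
theorem Ln.level (h : Ln G B e) : ∃ z₀ : ∀ i, Z i, (∀ i, G i (z₀ i) ∈ B i) ∧ ∀ m : ℕ, ∃ R : ℤ[X],
    ∀ i z, ∃ (c : ℤ_[l]) (y : Z i), aeval (G i) ((R * X + C ((l : ℤ) ^ e)).map (Int.castRingHom ℤ_[l])) z -
      c • z₀ i - (l : ℤ_[l]) ^ m • y ∈ B i := by
  obtain ⟨-, P, z₀, h1, h2, h3⟩ := h
  refine ⟨z₀, h2, fun m => ?_⟩
  obtain ⟨R, Q, e1⟩ := unif_approx m P.divX
  refine ⟨R, fun i z => ?_⟩
  obtain ⟨c, hc⟩ := h3 i z
  refine ⟨c, -aeval (G i) (Q * X) z, ?_⟩
  have e2 : P = (R * X + C ((l : ℤ) ^ e)).map (Int.castRingHom ℤ_[l]) +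
      C ((l : ℤ_[l]) ^ m) * (Q * X) := by
    rw [← P.divX_mul_X_add, e1, h1, Polynomial.map_add, Polynomial.map_mul, map_X, map_C]
    simp only [eq_intCast, Int.cast_pow, Int.cast_natCast]
    ring
  rw [e2, map_add, map_mul, aeval_C, LinearMap.add_apply, End.mul_apply,
    Module.algebraMap_end_apply] at hc
  refine (congrArg (· ∈ B i) ?_).mp hc
  module

theorem unif_eval (R : ℤ[X]) (k : ℤ) (y : H) :
    aeval (φ.toIntLinearMap : End ℤ H) (R * X + C k) y =
      aeval (φ.toIntLinearMap : End ℤ H) R (φ y) + k • y := by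
  rw [map_add, map_mul, aeval_X, aeval_C, LinearMap.add_apply, End.mul_apply,
    Module.algebraMap_end_apply]
  rfl

/-- The uniform bound: semisimplicity of the eigenvalue zero at every level. -/
theorem Ln.ss (h : Ln G B e) (hR : Rl G B m φ Cl) (hx : Cl x z) {a : ℕ} (h0 : a • φ (φ x) = 0) :
    (a * l ^ e) • φ x = 0 := by
  obtain ⟨z₀, h2, h3⟩ := h.level
  obtain ⟨R, h3⟩ := h3 m
  have h4 := hR.kill _ _ (hR.aeval (hR.act _ _ hx) (R * X + C ((l : ℤ) ^ e))) fun i => by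
    obtain ⟨c, y, hc⟩ := h3 i (z i)
    refine ⟨G i y, ?_⟩
    have h5 := add_mem (h.1 i _ hc) ((B i).smul_mem c (h2 i))
    rw [map_sub, map_sub, map_smul, map_smul, unif_aeval (i := G i) (f := G i) (g := G i)
      fun _ => rfl] at h5
    refine (congrArg (· ∈ B i) ?_).mp h5
    abel
  have h5 := congrArg (a • ·) h4
  simp only [unif_eval, smul_add, smul_zero] at h5
  rw [← map_nsmul, h0, map_zero, zero_add] at h5
  rw [mul_smul, ← h5, ← natCast_zsmul (φ x), Nat.cast_pow]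

theorem unif_prim {J : Type} [Fintype J] (hJ : Fintype.card I < Fintype.card J)
    (c : J → I → ℤ_[l]) : ∃ v : J → ℤ_[l], (∃ j, ‖v j‖ = 1) ∧ ∑ j, v j • c j = 0 := by
  obtain ⟨v, hv, j, hj⟩ := Fintype.not_linearIndependent_iff.1 fun h : LinearIndependent ℤ_[l] c =>
    hJ.not_ge (by simpa using h.fintype_card_le_finrank)
  obtain ⟨k, -, hk⟩ := Finset.exists_max_image Finset.univ (fun j => ‖v j‖) ⟨j, Finset.mem_univ j⟩
  have h0 : v k ≠ 0 := fun e => hj (by simpa [e] using hk j (Finset.mem_univ j))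
  have h1 : ∀ j, ∃ u, v j = v k * u := fun j => by
    by_cases e : v j = 0
    · exact ⟨0, by simp [e]⟩
    · refine ⟨⟨(v j : ℚ_[l]) / v k, ?_⟩, Subtype.ext ?_⟩
      · rw [norm_div, div_le_one (norm_pos_iff.2 (by simpa using h0))]
        exact hk j (Finset.mem_univ j)
      · exact (mul_div_cancel₀ _ (by simpa using h0)).symm
  choose u hu using h1
  refine ⟨u, ⟨k, by rw [mul_left_cancel₀ h0 ((hu k).symm.trans (mul_one _).symm), norm_one]⟩,
    smul_right_injective _ h0 ?_⟩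
  simp only [Finset.smul_sum, smul_smul, ← hu, hv, smul_zero]

theorem unif_val {y : H} (hy : l ^ m • y = 0) {a : ℤ_[l]} {n : ℕ}
    (h : (l : ℤ_[l]) ^ m ∣ a - n) : (PadicInt.toZModPow m a).val • y = n • y := by
  have h1 := zp_zero.2 h
  rw [map_sub, map_natCast, sub_eq_zero] at h1
  rw [h1, ZMod.val_natCast]
  conv_rhs => rw [← Nat.mod_add_div n (l ^ m), add_smul, mul_comm, mul_smul, hy, smul_zero, add_zero]

theorem unif_dvd (m : ℕ) (a : ℤ_[l]) :
    (l : ℤ_[l]) ^ m ∣ a - ((PadicInt.toZModPow m a).val : ℕ) := zp_zero.1 (by simp)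

/-- The multiplicity bound: more than `card I` vectors of the kernel are dependent. -/
theorem Ln.dep (h : Ln G B e) {H : ℕ → Type w} [∀ m, AddCommGroup (H m)] {φ : ∀ m, H m →+ H m}
    {Cl : ∀ m, H m → (∀ i, Z i) → Prop} (hR : ∀ m, Rl G B m (φ m) (Cl m))
    (tr : ∀ m, H (m + 1) →+ H m) {J : Type} [Fintype J] (hJ : Fintype.card I < Fintype.card J)
    {x : J → ∀ m, H m} (hx : ∀ j m, tr m (x j (m + 1)) = x j m) (hp : ∀ j m, l ^ m • x j m = 0)
    {k : ℕ} (hk : k ≠ 0) (ht : ∀ j m, ∃ z, Cl m (k • x j m) z) {a : ℕ} (ha : a ≠ 0)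
    (h0 : ∀ j m, a • φ m (x j m) = 0) :
    ∃ v : J → ℤ_[l], v ≠ 0 ∧ ∀ m, ∑ j, (PadicInt.toZModPow m (v j)).val • x j m = 0 := by
  obtain ⟨z₀, -, h3⟩ := h.level
  have : Nonempty J := Fintype.card_pos_iff.1 (by omega)
  let n := a * l ^ e * k
  have hn : ∀ j m, l ^ m • n • x j m = 0 := fun j m => by rw [smul_comm, hp, smul_zero]
  let A : ℕ → Set (J → ℤ_[l]) := fun m =>
    {v | (∃ j, ‖v j‖ = 1) ∧ ∑ j, (PadicInt.toZModPow m (v j)).val • n • x j m = 0}
  have hc : ∀ m, IsClosed (A m) := fun m => by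
    refine IsClosed.inter (s₁ := {v : J → ℤ_[l] | ∃ j, ‖v j‖ = 1}) ?_ ?_
    · rw [Set.ofPred_exists]
      exact isClosed_iUnion_of_finite fun j => isClosed_eq (by fun_prop) continuous_const
    · refine IsLocallyConstant.isClosed_fiber ((IsLocallyConstant.iff_eventually_eq _).2 fun v => ?_) _
      have h1 : ∀ j, ∀ᶠ u : J → ℤ_[l] in nhds v,
          PadicInt.toZModPow m (u j) = PadicInt.toZModPow m (v j) := fun j => by
        have h2 : (0 : ℝ) < (l : ℝ) ^ (-m : ℤ) := zpow_pos (by exact_mod_cast hl.out.pos) _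
        filter_upwards [(continuous_apply j).continuousAt.eventually
          (Metric.closedBall_mem_nhds (v j) h2)] with u hu
        rw [← sub_eq_zero, ← map_sub, zp_zero, ← Ideal.mem_span_singleton,
          ← PadicInt.norm_le_pow_iff_mem_span_pow]
        exact mem_closedBall_iff_norm.1 hu
      filter_upwards [Filter.eventually_all.2 h1] with u hu
      simp only [hu]
  obtain ⟨v, hv⟩ := IsCompact.nonempty_iInter_of_sequence_nonempty_isCompact_isClosed A
    (fun m v hv => ⟨hv.1, by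
      have h1 := congrArg (tr m) hv.2
      simp only [map_sum, map_nsmul, hx, map_zero] at h1
      rw [← h1]
      exact Finset.sum_congr rfl fun j _ => unif_val (hn j m)
        ((pow_dvd_pow _ m.le_succ).trans (unif_dvd _ _))⟩) (fun m => by
      obtain ⟨R, h3⟩ := h3 m
      choose z hz using fun j => ht j m
      choose c y hc using fun j i => h3 i (z j i)
      obtain ⟨v, hv, h4⟩ := unif_prim hJ c
      choose u hu using fun j => unif_dvd m (v j)
      refine ⟨v, hv, ?_⟩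
      have h5 := (hR m).kill _ _ ((hR m).sum ((hR m).zero (hz (Classical.arbitrary J))) Finset.univ
        fun j => (hR m).zsmul ((hR m).aeval (hz j) (R * X + C ((l : ℤ) ^ e)))
          ((PadicInt.toZModPow m (v j)).val : ℕ)) fun i => by
        refine ⟨∑ j, (((PadicInt.toZModPow m (v j)).val : ℤ_[l]) • y j i - (u j * c j i) • z₀ i), ?_⟩
        have h6 := congrArg (· • z₀ i) (congrFun h4 i)
        simp only [Finset.sum_apply, Pi.smul_apply, smul_eq_mul, Finset.sum_smul, Pi.zero_apply,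
          zero_smul] at h6
        rw [Finset.sum_apply, Finset.smul_sum, ← sub_zero (_ - _), ← h6, ← Finset.sum_sub_distrib,
          ← Finset.sum_sub_distrib]
        refine sum_mem fun j _ => ?_
        refine (congrArg (· ∈ B i) ?_).mp
          ((B i).smul_mem ((PadicInt.toZModPow m (v j)).val : ℤ_[l]) (hc j i))
        rw [Pi.smul_apply, natCast_zsmul, ← Nat.cast_smul_eq_nsmul ℤ_[l]]
        have h7 := eq_add_of_sub_eq' (hu j)
        generalize ((PadicInt.toZModPow m (v j)).val : ℤ_[l]) = b at h7 ⊢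
        rw [h7]
        module
      have h6 := congrArg (a • ·) h5
      simp only [Finset.smul_sum, smul_zero] at h6
      rw [← h6]
      refine Finset.sum_congr rfl fun j _ => ?_
      rw [unif_eval, natCast_zsmul, smul_comm a, smul_add, ← map_nsmul, map_nsmul (φ m), smul_comm a,
        h0, smul_zero, map_zero, zero_add, ← Nat.cast_pow, natCast_zsmul, mul_smul, mul_smul])
    (hc 0).isCompact hc
  rw [Set.mem_iInter] at hv
  refine ⟨(n : ℤ_[l]) • v, ?_, fun m => ?_⟩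
  · obtain ⟨j, hj⟩ := (hv 0).1
    refine smul_ne_zero (Nat.cast_ne_zero.2 (mul_ne_zero (mul_ne_zero ha
      (pow_ne_zero _ hl.out.ne_zero)) hk)) fun e => ?_
    simp [e] at hj
  · rw [← (hv m).2]
    refine Finset.sum_congr rfl fun j _ => ?_
    rw [← mul_smul]
    refine unif_val (hp j m) ?_
    rw [Nat.cast_mul _ n, Pi.smul_apply, smul_eq_mul, mul_comm, ← sub_mul]
    exact (unif_dvd m _).mul_right _

end rel

section coc

universe w

variable {Γ : Type} [Group Γ] {Ω : Fam Γ} {σ : Γ ≃* Γ} {l : ℕ} [hl : Fact l.Prime] {I : Type}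
  [Fintype I] {d : I → ℕ} {ρ : ∀ i, Γ →* End ℤ_[l] (Fin (d i) → ℤ_[l])}
  {ψ : ∀ i, End ℤ_[l] (Fin (d i) → ℤ_[l])} {u b : ℤ_[l]} {m : ℕ}

variable (Ω σ ρ ψ u b m) in
/-- A relation from cocycles modulo `l ^ m` to `H` that kills coboundaries and turns
`b (u Ψ - 1)` into `φ`. -/
structure RlC {H : Type w} [AddCommGroup H] (φ : H →+ H)
    (Cl : H → (∀ i, Γ → Fin (d i) → ZMod (l ^ m)) → Prop) : Prop where
  mem : ∀ x c, Cl x c → ∀ i, c i ∈ Zc Ω (rn (ρ i) m)
  sub : ∀ x c x' c', Cl x c → Cl x' c' → Cl (x - x') (c - c')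
  act : ∀ x c, Cl x c → Cl (φ x) fun i g => PadicInt.toZModPow m b •
    (PadicInt.toZModPow m u • redE (PadicInt.toZModPow m) (d i) (ψ i) (c i (σ g)) - c i g)
  kill : ∀ x c, Cl x c → (∀ i, ∃ y, ∀ g, c i g = rn (ρ i) m g y - y) → x = 0

theorem RlC.rl {H : Type w} [AddCommGroup H] {φ : H →+ H}
    {Cl : H → (∀ i, Γ → Fin (d i) → ZMod (l ^ m)) → Prop} (h : RlC Ω σ ρ ψ u b m φ Cl)
    (hC : ∀ i, Cr Ω (ρ i)) (hσ : Ω.Inv σ) (hψ : ∀ i g, ψ i * ρ i (σ g) = ρ i g * ψ i) :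
    Rl (fun i => b • (u • PsiI hσ (hψ i) - 1)) (fun i => range (cob (hC i))) m φ
      fun x z => Cl x fun i => (zr m (z i)).1 := by
  refine ⟨fun x z x' z' hx hx' => ?_, fun x z hx => ?_, fun x z hx hz => h.kill _ _ hx fun i => ?_⟩
  · refine (congrArg (Cl _) ?_).mp (h.sub _ _ _ _ hx hx')
    exact funext fun i => congrArg Subtype.val (map_sub (zr m) (z i) (z' i)).symm
  · refine (congrArg (Cl _) (Eq.symm ?_)).mp (h.act _ _ hx)
    funext i g k
    rw [show (zr m (z i)).1 (σ g) = fun k => PadicInt.toZModPow m ((z i).1 (σ g) k) from rfl,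
      redE_apply]
    simp [zr_apply]
  · obtain ⟨y, v, hv⟩ := hz i
    refine ⟨fun k => PadicInt.toZModPow m (v k), fun g => funext fun k => ?_⟩
    have h1 := congrArg (fun c : Zi Ω (ρ i) => PadicInt.toZModPow m (c.1 g k)) hv
    simp only [cob_apply, Submodule.coe_sub, Submodule.coe_smul, Pi.sub_apply, Pi.smul_apply,
      smul_eq_mul, map_sub, map_mul, zp_zero.2 (dvd_refl ((l : ℤ_[l]) ^ m)), zero_mul,
      sub_zero] at h1
    rw [rn_apply, zr_apply, ← h1, Pi.sub_apply]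

variable (h2 : H2 Ω l) (hC : ∀ i, Cr Ω (ρ i)) (hσ : Ω.Inv σ)
  (hψ : ∀ i g, ψ i * ρ i (σ g) = ρ i g * ψ i) (hf : ∀ i, Module.Finite ℤ_[l] (Zi Ω (ρ i)))
  (hS : ∀ i, Sim (cob (hC i)) (u • PsiI hσ (hψ i))) (hb : b ≠ 0)
include h2 hC

theorem RlC.lift {H : Type w} [AddCommGroup H] {φ : H →+ H}
    {Cl : H → (∀ i, Γ → Fin (d i) → ZMod (l ^ m)) → Prop} (h : RlC Ω σ ρ ψ u b m φ Cl) {x : H}
    {c : ∀ i, Γ → Fin (d i) → ZMod (l ^ m)} (hx : Cl x c) :
    ∃ z : ∀ i, Zi Ω (ρ i), Cl x fun i => (zr m (z i)).1 := by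
  choose z hz using fun i => zr_surj h2 (hC i) m ⟨c i, h.mem x c hx i⟩
  exact ⟨z, by simpa only [hz] using hx⟩

include hf hS hb

theorem ln_of_sim :
    ∃ e, Ln (fun i => b • (u • PsiI hσ (hψ i) - 1)) (fun i => range (cob (hC i))) e := by
  have hc : ∀ i x, cob (hC i) ((u • ψ i) x) = (u • PsiI hσ (hψ i)) (cob (hC i) x) := fun i x => by
    rw [LinearMap.smul_apply, LinearMap.smul_apply, map_smul]
    refine congrArg _ (Subtype.ext (_root_.funext fun g => ?_))
    rw [PsiI_apply, cob_apply, cob_apply, map_sub, ← End.mul_apply, ← End.mul_apply, hψ]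
  refine exists_ln (fun i z ⟨x, hx⟩ => ⟨b • ((u • ψ i) x - x), ?_⟩) fun i => ?_
  · rw [map_smul, map_sub, hc, hx]
    rfl
  · have := hf i
    exact sim_poly0 (hc i) (hS i) hb

/-- Uniform semisimplicity at all levels. -/
theorem unif_ss : ∃ e : ℕ, ∀ (m : ℕ) (H : Type w) [AddCommGroup H] (φ : H →+ H)
    (Cl : H → (∀ i, Γ → Fin (d i) → ZMod (l ^ m)) → Prop), RlC Ω σ ρ ψ u b m φ Cl →
    ∀ x c, Cl x c → ∀ a : ℕ, a • φ (φ x) = 0 → (a * l ^ e) • φ x = 0 := by
  obtain ⟨e, he⟩ := ln_of_sim h2 hC hσ hψ hf hS hb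
  refine ⟨e, fun m H _ φ Cl h x c hx a h0 => ?_⟩
  obtain ⟨z, hz⟩ := h.lift h2 hC hx
  exact he.ss (h.rl hC hσ hψ) hz h0

/-- More than `card I` compatible families in the kernel are linearly dependent. -/
theorem unif_dep {H : ℕ → Type w} [∀ m, AddCommGroup (H m)] {φ : ∀ m, H m →+ H m}
    {Cl : ∀ m, H m → (∀ i, Γ → Fin (d i) → ZMod (l ^ m)) → Prop}
    (hR : ∀ m, RlC Ω σ ρ ψ u b m (φ m) (Cl m)) (tr : ∀ m, H (m + 1) →+ H m) {J : Type} [Fintype J]
    (hJ : Fintype.card I < Fintype.card J) {x : J → ∀ m, H m}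
    (hx : ∀ j m, tr m (x j (m + 1)) = x j m) (hp : ∀ j m, l ^ m • x j m = 0) {k : ℕ} (hk : k ≠ 0)
    (ht : ∀ j m, ∃ c, Cl m (k • x j m) c) {a : ℕ} (ha : a ≠ 0) (h0 : ∀ j m, a • φ m (x j m) = 0) :
    ∃ v : J → ℤ_[l], v ≠ 0 ∧ ∀ m, ∑ j, (PadicInt.toZModPow m (v j)).val • x j m = 0 := by
  obtain ⟨e, he⟩ := ln_of_sim h2 hC hσ hψ hf hS hb
  exact he.dep (fun m => (hR m).rl hC hσ hψ) tr hJ hx hp hk
    (fun j m => (ht j m).elim fun c hc => (hR m).lift h2 hC hc) ha h0

end coc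

end

end Pool.Agent.Lib.MP_16ef92_ag.GV
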