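import Mathlib
import Pool.Agent.Lib.MP_16ef92_ag.AL.PMain
import Pool.Agent.Lib.MP_16ef92_ag.AL.NA1
import Pool.Agent.Lib.MP_16ef92_ag.AL.NA2

set_option autoImplicit false
set_option linter.unusedSectionVars false
set_option linter.unusedVariables false

namespace Pool.Agent.Lib.MP_16ef92_ag.GV

open Polynomial Module LinearMap AL

noncomputable section

variable {F : Type} [Field F] [Clos F] [Fintype F] [hq : Fact (Odd (Fintype.card F))]
  {N : F[X]} {l d : ℕ} [hl : Fact l.Prime] {ρ : Gam F →* End ℤ_[l] (Fin d → ℤ_[l])}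
  {a : kk F → ℕ → ℤ} {s : Gam F}

/-- The restriction to the geometric Galois group. -/
abbrev rg (ρ : Gam F →* End ℤ_[l] (Fin d → ℤ_[l])) : Geo F →* End ℤ_[l] (Fin d → ℤ_[l]) :=
  ρ.comp (Geo F).subtype

/-- The action of `s` on the continuous cocycles. -/
abbrev Ps (N : F[X]) (ρ : Gam F →* End ℤ_[l] (Fin d → ℤ_[l])) (s : Gam F) :
    End ℤ_[l] (Zi (fam N) (rg ρ)) := PsiI (fam_inv (N := N) s) (psi_geo ρ s)

/-- The traces of the Frobenius elements at the good places are the integers `a c r`. -/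
def TrR (N : F[X]) (ρ : Gam F →* End ℤ_[l] (Fin d → ℤ_[l])) (a : kk F → ℕ → ℤ) : Prop :=
  ∀ c : kk F, aeval c N ≠ 0 → ∀ O, Over O (some c) → ∀ f ∈ St O, ∀ r, 0 < r →
    Fr f (Fintype.card F ^ r) → trace _ _ (ρ f) = a c r

/-- A representation that is continuous and unramified at the good places. -/
theorem cr_of (hn : ∀ n, Near fun g => ∀ x i, (l : ℤ_[l]) ^ n ∣ (ρ g x - x) i)
    (hu : GI N fun g => ρ g = 1) : Cr (fam N) (rg ρ) := fun n => by
  let H : Subgroup (Gam F) :=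
    { carrier := {g | ∀ x i, (l : ℤ_[l]) ^ n ∣ (ρ g x - x) i}
      mul_mem' := fun {g h} hg hh x i => by
        have := dvd_add (hg (ρ h x) i) (hh x i)
        rwa [← Pi.add_apply, sub_add_sub_cancel, ← End.mul_apply, ← map_mul] at this
      one_mem' := fun x i => by simp
      inv_mem' := fun {g} hg x i => by
        have := (hg (ρ g⁻¹ x) i).neg_right
        rwa [← Pi.neg_apply, neg_sub, ← End.mul_apply, ← map_mul, mul_inv_cancel, map_one,
          End.one_apply] at this }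
  refine (ev_of H ((hn n).mono fun g hg _ => hg) fun c hc O hO g hg x i => ?_).mono fun g hg => hg
  rw [hu c hc O hO g hg]
  simp

theorem ps_pow (s : Gam F) (j : ℕ) : Ps N ρ s ^ j = Ps N ρ (s ^ j) := by
  induction j with
  | zero =>
    refine LinearMap.ext fun z => Subtype.ext (funext fun g => ?_)
    rw [PsiI_apply, show sgm (s ^ 0) g = g from Subtype.ext (by simp)]
    simp
  | succ j ih =>
    refine LinearMap.ext fun z => Subtype.ext (funext fun g => ?_)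
    rw [pow_succ, ih, End.mul_apply, PsiI_apply, PsiI_apply, PsiI_apply, ← End.mul_apply, ← map_mul,
      ← pow_succ, show sgm s (sgm (s ^ j) g) = sgm (s ^ (j + 1)) g from
        Subtype.ext (by simp [pow_succ, mul_assoc])]

variable (N) in
theorem exists_fixed (j : ℕ) : ∃ B : Finset (kk F), 0 < j →
    ∀ c, c ∈ B ↔ aeval c N ≠ 0 ∧ (c : Om F) ^ Fintype.card F ^ j = c := by
  classical
  refine ⟨(X ^ Fintype.card F ^ j - X : (kk F)[X]).roots.toFinset.filter (aeval · N ≠ 0),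
    fun hj c => ?_⟩
  rw [Finset.mem_filter, Multiset.mem_toFinset, mem_roots (FiniteField.X_pow_card_sub_X_ne_zero _
    (Nat.one_lt_pow hj.ne' Fintype.one_lt_card)), and_comm, IsRoot, eval_sub, eval_pow, eval_X,
    sub_eq_zero, Subtype.ext_iff]
  rfl

theorem trace_lim (hN : N ≠ 0) (hF : (l : F) ≠ 0) (hC : Cr (fam N) (rg ρ)) (hT : TrR N ρ a)
    {j : ℕ} (hj : 0 < j) (hs : Fr s (Fintype.card F ^ j)) (B : Finset (kk F))
    (hB : ∀ c, c ∈ B ↔ aeval c N ≠ 0 ∧ (c : Om F) ^ Fintype.card F ^ j = c) :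
    Module.Free ℤ_[l] (Zi (fam N) (rg ρ)) ∧ Module.Finite ℤ_[l] (Zi (fam N) (rg ρ)) ∧
      ((Fintype.card F ^ j : ℕ) : ℤ_[l]) * trace _ _ (Ps N ρ s) =
        (Fintype.card F ^ j : ℕ) * trace _ _ (ρ s) - ((∑ c ∈ B, a c j : ℤ) : ℤ_[l]) := by
  have key := fun n => tf hN hF ((redE (PadicInt.toZModPow n) d).comp ρ) (hC.rn n) hj hs B hB
    (fun c => a c j) fun c hc O hO f hf hQ => by
      rw [MonoidHom.comp_apply, trace_redE, hT c ((hB c).1 hc).1 O hO f hf j hj hQ, map_intCast]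
  obtain ⟨h1, h2, h3⟩ := limit (h2_fam hF) hC (fam_inv s) (psi_geo ρ s)
    (have : Module.Finite (ZMod (l ^ 1)) (Zc (fam N) (rn (rg ρ) 1)) := (key 1).1
    Module.finite_of_finite (ZMod (l ^ 1)))
  refine ⟨h1, h2, PadicInt.ext_of_toZModPow.1 fun n => ?_⟩
  rw [map_sub, map_mul, map_mul, map_natCast, map_intCast, ← h3, ← trace_redE, Int.cast_sum]
  exact (key n).2

theorem zi_free (hN : N ≠ 0) (hF : (l : F) ≠ 0) (hC : Cr (fam N) (rg ρ)) (hT : TrR N ρ a)
    (hs : Fr s (Fintype.card F)) :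
    Module.Free ℤ_[l] (Zi (fam N) (rg ρ)) ∧ Module.Finite ℤ_[l] (Zi (fam N) (rg ρ)) :=
  have h := trace_lim hN hF hC hT one_pos (hs.pow 1) _ ((exists_fixed N 1).choose_spec one_pos)
  ⟨h.1, h.2.1⟩

theorem ps_cob (hC : Cr (fam N) (rg ρ)) (x : Fin d → ℤ_[l]) :
    Ps N ρ s (cob hC x) = cob hC (ρ s x) := Subtype.ext (_root_.funext fun g => by
  rw [PsiI_apply, cob_apply, cob_apply, map_sub, ← End.mul_apply, ← End.mul_apply, psi_geo])

theorem exists_mult_gen (hN : N ≠ 0) (hF : (l : F) ≠ 0) (hC : Cr (fam N) (rg ρ)) (hT : TrR N ρ a)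
    (hs : Fr s (Fintype.card F)) {u : ℤ_[l]} {e : ℕ} (hu : u * (Fintype.card F : ℤ_[l]) ^ e = 1)
    (h0 : ∀ x, (∀ g ∈ Geo F, ρ g x = x) → u • ρ s x = x → x = 0) : ∃ m, Mult (fun j =>
      -((∑ c ∈ (exists_fixed N j).choose, a c j : ℤ) : ℚ) /
        ((Fintype.card F ^ j : ℕ) : ℚ) ^ (e + 1)) m ∧ (Sim (cob hC) (u • Ps N ρ s) ↔ m ≤ 1) := by
  have key := fun j hj =>
    trace_lim hN hF hC hT hj (hs.pow j) _ ((exists_fixed N j).choose_spec hj)
  obtain ⟨h1, h2, -⟩ := key 1 one_pos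
  refine exists_mult ℚ_[l] (t := u • ρ s) (fun x => ?_) (fun x hx => h0 x fun g hg => ?_) _
    fun j hj => ?_
  · rw [LinearMap.smul_apply, LinearMap.smul_apply, map_smul, ps_cob]
  · exact sub_eq_zero.1 (congrFun (congrArg Subtype.val hx) ⟨g, hg⟩)
  · have h3 := congrArg (algebraMap ℤ_[l] ℚ_[l]) (key j hj).2.2
    have h4 : ((Fintype.card F ^ j : ℕ) : ℚ_[l]) ≠ 0 := by simp
    have h5 : algebraMap ℤ_[l] ℚ_[l] u ^ j * ((Fintype.card F ^ j : ℕ) : ℚ_[l]) ^ e = 1 := by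
      have := congrArg (fun x => algebraMap ℤ_[l] ℚ_[l] x ^ j) hu
      simp only [map_mul, map_pow, map_natCast, map_one, one_pow, mul_pow] at this
      rw [Nat.cast_pow, ← pow_mul, mul_comm j, pow_mul, this]
    rw [map_sub, map_mul, map_mul, map_natCast, map_intCast] at h3
    rw [_root_.smul_pow, _root_.smul_pow, map_smul, map_smul, ps_pow, ← map_pow, map_sub, Rat.cast_div,
      Rat.cast_neg, Rat.cast_intCast, Rat.cast_pow, Rat.cast_natCast,
      eq_div_iff (pow_ne_zero _ h4), smul_eq_mul, smul_eq_mul, map_mul, map_mul, map_pow]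
    linear_combination h3 + (algebraMap ℤ_[l] ℚ_[l] (trace _ _ (Ps N ρ (s ^ j))) -
      algebraMap ℤ_[l] ℚ_[l] (trace _ _ (ρ (s ^ j)))) * ((Fintype.card F ^ j : ℕ) : ℚ_[l]) * h5

/-- Independence of the prime. -/
theorem sim_transfer {l' d' : ℕ} [Fact l'.Prime] {ρ' : Gam F →* End ℤ_[l'] (Fin d' → ℤ_[l'])}
    {s' : Gam F} (hN : N ≠ 0) (hF : (l : F) ≠ 0) (hF' : (l' : F) ≠ 0)
    (hC : Cr (fam N) (rg ρ)) (hC' : Cr (fam N) (rg ρ')) (hT : TrR N ρ a) (hT' : TrR N ρ' a)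
    (hs : Fr s (Fintype.card F)) (hs' : Fr s' (Fintype.card F)) {u : ℤ_[l]} {u' : ℤ_[l']} {e : ℕ}
    (hu : u * (Fintype.card F : ℤ_[l]) ^ e = 1) (hu' : u' * (Fintype.card F : ℤ_[l']) ^ e = 1)
    (h0 : ∀ x, (∀ g ∈ Geo F, ρ g x = x) → u • ρ s x = x → x = 0)
    (h0' : ∀ x, (∀ g ∈ Geo F, ρ' g x = x) → u' • ρ' s' x = x → x = 0)
    (h : Sim (cob hC) (u • Ps N ρ s)) : Sim (cob hC') (u' • Ps N ρ' s') := by
  obtain ⟨m, hm, e1⟩ := exists_mult_gen hN hF hC hT hs hu h0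
  obtain ⟨m', hm', e2⟩ := exists_mult_gen hN hF' hC' hT' hs' hu' h0'
  rw [e2, hm'.unique hm, ← e1]
  exact h

end

end Pool.Agent.Lib.MP_16ef92_ag.GV
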