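import Mathlib
import Pool.Agent.Lib.MP_16ef92_ag.GF.FXd

set_option autoImplicit false
set_option linter.unusedSectionVars false
set_option linter.unusedVariables false

namespace Pool.Agent.Lib.MP_16ef92_ag.GF.GV

open scoped Classical

noncomputable section

/-- A finite index set with a sign that an involution reverses. -/
class Sp where
  ι : Type
  fin : Fintype ι
  bar : ι → ι
  ε : ι → ℤ_[2]
  bb : ∀ a, bar (bar a) = a
  sq : ∀ a, ε a * ε a = 1
  neg : ∀ a, ε (bar a) = -ε a
  pt : ι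

instance [P : Sp] : Fintype P.ι := P.fin

open Sp

variable [P : Sp]

/-- The lattice. -/
abbrev V : Type := ι → ℤ_[2]

/-- The symplectic pairing. -/
def om (x y : V) : ℤ_[2] := ∑ a, ε a * x a * y (bar a)

/-- Vectors divisible by `2^n`. -/
def Dv (n : ℕ) : Submodule ℤ_[2] V where
  carrier := {x | ∀ a, 2 ^ n ∣ x a}
  add_mem' := fun ha hb a => dvd_add (ha a) (hb a)
  zero_mem' := fun _ => dvd_zero _
  smul_mem' := fun c _ h a => Dvd.dvd.mul_left (h a) c

theorem mem_Dv {n : ℕ} {x : V} : x ∈ Dv n ↔ ∀ a, 2 ^ n ∣ x a := Iff.rfl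

theorem mem_Dv_iff {n : ℕ} {x : V} : x ∈ Dv n ↔ ∃ z : V, x = (2 : ℤ_[2]) ^ n • z := by
  constructor
  · intro h
    choose z hz using h
    exact ⟨z, funext hz⟩
  · rintro ⟨z, rfl⟩ a
    exact dvd_mul_right _ _

theorem smul_mem_Dv (n : ℕ) (z : V) : (2 : ℤ_[2]) ^ n • z ∈ Dv n := mem_Dv_iff.2 ⟨z, rfl⟩

theorem Dv_zero (x : V) : x ∈ Dv 0 := by simp [mem_Dv]

theorem Dv_mono {m n : ℕ} (h : m ≤ n) {x : V} (hx : x ∈ Dv n) : x ∈ Dv m :=
  fun a => (pow_dvd_pow 2 h).trans (hx a)

theorem smul_mem_Dv_iff {n m : ℕ} {z : V} : (2 : ℤ_[2]) ^ n • z ∈ Dv (n + m) ↔ z ∈ Dv m := by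
  simp only [mem_Dv, Pi.smul_apply, smul_eq_mul, pow_add]
  exact forall_congr' fun a => mul_dvd_mul_iff_left (by simp)

/-- Endomorphisms of the lattice. -/
abbrev EV : Type := Module.End ℤ_[2] V

theorem map_Dv (f : EV) {n : ℕ} {x : V} (hx : x ∈ Dv n) : f x ∈ Dv n := by
  obtain ⟨z, rfl⟩ := mem_Dv_iff.1 hx
  rw [map_smul]
  exact smul_mem_Dv n _

theorem eq_zero_of_Dv {x : V} (h : ∀ n, x ∈ Dv n) : x = 0 :=
  funext fun a => eq_zero_of_dvd fun n => h n a

theorem two_pow_smul_inj {n : ℕ} {x y : V} (h : (2 : ℤ_[2]) ^ n • x = (2 : ℤ_[2]) ^ n • y) :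
    x = y := smul_right_injective V (by simp) h

theorem two_smul_inj {x y : V} (h : (2 : ℤ_[2]) • x = (2 : ℤ_[2]) • y) : x = y :=
  smul_right_injective V two_ne_zero h

theorem two_smul_Dv (z : V) : (2 : ℤ_[2]) • z ∈ Dv 1 := by simpa using smul_mem_Dv 1 z

theorem lim (C : ℕ → V → Prop) (hne : ∀ n, ∃ x, C n x) (hdec : ∀ n x, C (n + 1) x → C n x)
    (hinv : ∀ n x y, C n x → y - x ∈ Dv n → C n y) : ∃ x, ∀ n, C n x := by
  have hcl : ∀ n, IsClosed {x | C n x} := by
    intro n
    rw [← isOpen_compl_iff, Metric.isOpen_iff]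
    intro x hx
    refine ⟨((2 : ℕ) : ℝ) ^ (-(n : ℤ)), by positivity, fun y hy hC => hx (hinv n y x hC fun a => ?_)⟩
    rw [Metric.mem_ball, dist_comm, dist_pi_lt_iff (by positivity)] at hy
    have := hy a
    rw [dist_eq_norm] at this
    simpa [Ideal.mem_span_singleton] using (PadicInt.norm_le_pow_iff_mem_span_pow _ n).1 this.le
  obtain ⟨x, hx⟩ := IsCompact.nonempty_iInter_of_sequence_nonempty_isCompact_isClosed
    (fun n => {x | C n x}) hdec hne (hcl 0).isCompact hcl
  exact ⟨x, Set.mem_iInter.1 hx⟩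

theorem om_add_left (x y z : V) : om (x + y) z = om x z + om y z := by
  simp [om, mul_add, add_mul, Finset.sum_add_distrib]
theorem om_add_right (x y z : V) : om x (y + z) = om x y + om x z := by
  simp [om, mul_add, Finset.sum_add_distrib]
theorem om_smul_left (a : ℤ_[2]) (x y : V) : om (a • x) y = a * om x y := by
  simp only [om, Finset.mul_sum, Pi.smul_apply, smul_eq_mul]
  exact Finset.sum_congr rfl fun _ _ => by ring
theorem om_smul_right (a : ℤ_[2]) (x y : V) : om x (a • y) = a * om x y := by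
  simp only [om, Finset.mul_sum, Pi.smul_apply, smul_eq_mul]
  exact Finset.sum_congr rfl fun _ _ => by ring

/-- The pairing as a bilinear map. -/
def omL : V →ₗ[ℤ_[2]] V →ₗ[ℤ_[2]] ℤ_[2] :=
  LinearMap.mk₂ _ om om_add_left (fun a x y => om_smul_left a x y) om_add_right
    (fun a x y => om_smul_right a x y)

@[simp] theorem omL_apply (x y : V) : omL x y = om x y := rfl

theorem om_sub_left (x y z : V) : om (x - y) z = om x z - om y z := map_sub (omL.flip z) x y
theorem om_sub_right (x y z : V) : om x (y - z) = om x y - om x z := map_sub (omL x) y z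
theorem om_neg_left (x y : V) : om (-x) y = -om x y := map_neg (omL.flip y) x
theorem om_neg_right (x y : V) : om x (-y) = -om x y := map_neg (omL x) y
theorem om_zero_left (x : V) : om 0 x = 0 := by simp [om]
theorem om_zero_right (x : V) : om x 0 = 0 := by simp [om]

/-- The involution as a permutation. -/
def barE : ι ≃ ι := ⟨bar, bar, bb, bb⟩

theorem bar_inj : Function.Injective (bar : ι → ι) := barE.injective

theorem om_swap (x y : V) : om x y = -om y x := by
  rw [om, om, ← barE.sum_comp, ← Finset.sum_neg_distrib]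
  refine Finset.sum_congr rfl fun a _ => ?_
  change ε (bar a) * x (bar a) * y (bar (bar a)) = _
  rw [Sp.neg, bb]
  ring

theorem om_self (x : V) : om x x = 0 :=
  mul_left_cancel₀ two_ne_zero (by linear_combination om_swap x x)

theorem om_dvd_left {n : ℕ} {x : V} (h : x ∈ Dv n) (y : V) : 2 ^ n ∣ om x y :=
  Finset.dvd_sum fun a _ => ((h a).mul_left _).mul_right _

theorem om_dvd_right {n : ℕ} (x : V) {y : V} (h : y ∈ Dv n) : 2 ^ n ∣ om x y :=
  Finset.dvd_sum fun a _ => (h _).mul_left _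

theorem om_single (x : V) (a : ι) (c : ℤ_[2]) : om x (Pi.single (bar a) c) = ε a * x a * c := by
  rw [om, Finset.sum_eq_single a (fun b _ hb => by
    rw [Pi.single_eq_of_ne (bar_inj.ne hb), mul_zero]) (by simp), Pi.single_eq_same]

theorem exists_dual {r : V} (hr : r ∉ Dv 1) : ∃ s, om r s = 1 := by
  rw [mem_Dv, pow_one, not_forall] at hr
  obtain ⟨a, h⟩ := hr
  obtain ⟨u, hu⟩ := (unit_of_odd h).exists_right_inv
  exact ⟨Pi.single (bar a) (ε a * u), by
    rw [om_single]; linear_combination (r a * u) * Sp.sq a + hu⟩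

theorem om_nd {x : V} (h : ∀ y, om x y = 0) : x = 0 := funext fun a => by
  have := h (Pi.single (bar a) (ε a))
  rw [om_single] at this
  exact (show x a = 0 by linear_combination this - x a * Sp.sq a)

theorem pi_expand (x : V) : x = ∑ a, x a • (Pi.single a 1 : V) := by
  funext b
  simp [Finset.sum_apply, Pi.single_apply]

/-- The multiplier. -/
def dt (f : EV) : ℤ_[2] := om (f (Pi.single pt 1)) (f (Pi.single (bar pt) (ε pt)))

/-- Similitudes. -/
def Sim (f : EV) : Prop := ∀ x y, om (f x) (f y) = dt f * om x y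

theorem om_pt : om (Pi.single pt 1) (Pi.single (bar pt) (ε pt)) = 1 := by
  rw [om_single, Pi.single_eq_same, mul_one, Sp.sq]

theorem dt_one : dt 1 = 1 := om_pt

theorem sim_of {f : EV} {c : ℤ_[2]} (h : ∀ x y, om (f x) (f y) = c * om x y) :
    dt f = c ∧ Sim f := by
  have : dt f = c := by rw [dt, h, om_pt, mul_one]
  exact ⟨this, fun x y => by rw [this, h]⟩

theorem Sim.dt_mul {f : EV} (h : Sim f) (g : EV) : dt (f * g) = dt f * dt g := h _ _

theorem Sim.one : Sim 1 := fun x y => by rw [dt_one, one_mul]; rfl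

theorem Sim.mul {f g : EV} (h : Sim f) (h' : Sim g) : Sim (f * g) :=
  fun x y => by rw [h.dt_mul, mul_assoc, ← h', ← h]; rfl

theorem dt_smul (c : ℤ_[2]) (f : EV) : dt (c • f) = c * c * dt f := by
  simp only [dt, LinearMap.smul_apply, om_smul_left, om_smul_right, mul_assoc]

theorem Sim.smul {f : EV} (h : Sim f) (c : ℤ_[2]) : Sim (c • f) := fun x y => by
  rw [dt_smul, LinearMap.smul_apply, LinearMap.smul_apply, om_smul_left, om_smul_right, h]
  ring

theorem dt_congr {f g : EV} {n : ℕ} (h : ∀ x, f x - g x ∈ Dv n) : 2 ^ n ∣ dt f - dt g := by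
  have : ∀ x y, om (f x) (f y) - om (g x) (g y) = om (f x - g x) (f y) + om (g x) (f y - g y) :=
    fun x y => by
      simp only [om_sub_left, om_sub_right]
      ring
  rw [dt, dt, this]
  exact dvd_add (om_dvd_left (h _) _) (om_dvd_right _ (h _))

/-- Similitudes congruent to the identity modulo two. -/
def G1 : Subgroup EVˣ where
  carrier := {g | (∀ x, g.1 x - x ∈ Dv 1) ∧ Sim g.1}
  mul_mem' := fun {a b} ha hb => ⟨fun x => by
    have := add_mem (ha.1 (b.1 x)) (hb.1 x)
    rwa [sub_add_sub_cancel] at this, ha.2.mul hb.2⟩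
  one_mem' := ⟨fun x => by simp, Sim.one⟩
  inv_mem' := fun {a} ha => ⟨fun x => by
    have := neg_mem (ha.1 (a⁻¹.1 x))
    rwa [neg_sub, ← Module.End.mul_apply, Units.mul_inv, Module.End.one_apply] at this,
    fun x y => by
      have h1 := ha.2.dt_mul a⁻¹.1
      have h2 := ha.2 (a⁻¹.1 x) (a⁻¹.1 y)
      rw [Units.mul_inv, dt_one] at h1
      rw [← Module.End.mul_apply, ← Module.End.mul_apply, Units.mul_inv, Module.End.one_apply,
        Module.End.one_apply] at h2
      rw [h2, ← mul_assoc, mul_comm (dt _), ← h1, one_mul]⟩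

theorem G1.om_map (g : G1) (x y : V) : om (g.1.1 x) (g.1.1 y) = dt g.1.1 * om x y := g.2.2 x y

theorem G1.mul_app (g h : G1) (x : V) : (g * h).1.1 x = g.1.1 (h.1.1 x) := rfl

theorem G1.one_app (x : V) : (1 : G1).1.1 x = x := rfl

theorem G1.inv_app (g : G1) (x : V) : g⁻¹.1.1 (g.1.1 x) = x := by
  rw [← G1.mul_app, inv_mul_cancel, G1.one_app]

theorem G1.app_inv (g : G1) (x : V) : g.1.1 (g⁻¹.1.1 x) = x := by
  rw [← G1.mul_app, mul_inv_cancel, G1.one_app]

theorem G1.dt_mul (g h : G1) : dt (g * h).1.1 = dt g.1.1 * dt h.1.1 := g.2.2.dt_mul _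

theorem smul_triv {c : ℤ_[2]} (hc : c = 1 ∨ c = -1) {x y : V} (h : y - x ∈ Dv 1) :
    c • y - x ∈ Dv 1 := by
  rcases hc with rfl | rfl
  · rwa [one_smul]
  · have := sub_mem (neg_mem h) (two_smul_Dv x)
    exact (congrArg (· ∈ Dv 1) (by module)).mp this

theorem exists_hf (Q : EV) (h : ∀ x, Q x - x ∈ Dv 1) :
    ∃ H : EV, ∀ x, (2 : ℤ_[2]) • H x = x - Q x := by
  have : ∀ x, ∃ y : V, (2 : ℤ_[2]) • y = x - Q x := fun x => by
    obtain ⟨z, hz⟩ := mem_Dv_iff.1 (neg_mem (h x))
    exact ⟨z, by rw [← pow_one (2 : ℤ_[2]), ← hz, neg_sub]⟩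
  choose H hH using this
  exact ⟨⟨⟨H, fun x y => two_smul_inj (by rw [smul_add, hH, hH, hH, map_add]; abel)⟩,
    fun c x => two_smul_inj (by
      rw [RingHom.id_apply, smul_comm, hH, hH, map_smul, smul_sub])⟩, hH⟩

/-- The lattice modulo two. -/
abbrev Vb : Type := ι → Z2

/-- Its endomorphisms. -/
abbrev Nb : Type := Module.End Z2 Vb

/-- The pairing modulo two. -/
def eb (x y : Vb) : Z2 := ∑ a, x a * y (bar a)

/-- Evaluation. -/
def nu (t : Nb) (x : Vb) : Vb := t x

/-- The number of vectors modulo two. -/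
def nv : ℕ := 2 ^ Fintype.card ι

theorem card_Vb : Fintype.card Vb = nv := by simp [nv, ZMod.card]

theorem two_le_nv : 2 ≤ nv :=
  Nat.le_self_pow (Fintype.card_pos_iff.2 ⟨pt⟩).ne' 2

/-- Self-adjoint operators that generate all endomorphisms. -/
structure Gn {Λ : Type} (t : Λ → Nb) : Prop where
  sa : ∀ l x y, eb (nu (t l) x) y = eb x (nu (t l) y)
  gen : Algebra.adjoin Z2 (Set.range t) = ⊤

theorem eb_add_left (x y z : Vb) : eb (x + y) z = eb x z + eb y z := by
  simp [eb, add_mul, Finset.sum_add_distrib]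
theorem eb_add_right (x y z : Vb) : eb x (y + z) = eb x y + eb x z := by
  simp [eb, mul_add, Finset.sum_add_distrib]
theorem eb_smul_left (a : Z2) (x y : Vb) : eb (a • x) y = a * eb x y := by
  simp [eb, Finset.mul_sum, mul_assoc]
theorem eb_smul_right (a : Z2) (x y : Vb) : eb x (a • y) = a * eb x y := by
  simp [eb, Finset.mul_sum, mul_left_comm]
theorem eb_zero_left (x : Vb) : eb 0 x = 0 := by simp [eb]
theorem eb_zero_right (x : Vb) : eb x 0 = 0 := by simp [eb]

theorem eb_single (x : Vb) (a : ι) : eb x (Pi.single (bar a) 1) = x a := by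
  rw [eb, Finset.sum_eq_single a (fun b _ hb => by
    rw [Pi.single_eq_of_ne (bar_inj.ne hb), mul_zero]) (by simp), Pi.single_eq_same, mul_one]

theorem eb_comm (x y : Vb) : eb x y = eb y x := by
  rw [eb, eb, ← barE.sum_comp]
  refine Finset.sum_congr rfl fun a _ => ?_
  change x (bar a) * y (bar (bar a)) = _
  rw [bb, mul_comm]

theorem bar_ne (a : ι) : bar a ≠ a := fun e => by
  have h := Sp.neg a
  rw [e] at h
  have h2 : ε a = 0 := mul_left_cancel₀ two_ne_zero (by linear_combination h)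
  simpa [h2] using Sp.sq a

/-- Reduction modulo two. -/
def rh : V →+ Vb := AddMonoidHom.mk' (fun x a => red 1 (x a)) fun x y => funext fun a => by simp

theorem rh_apply (x : V) (a : ι) : rh x a = red 1 (x a) := rfl

/-- The standard lift. -/
def lb (x : Vb) : V := fun a => (x a).val

theorem rb_lb (x : Vb) : rh (lb x) = x := funext fun a => by simp [rh_apply, lb]

theorem lb_zero : lb 0 = 0 := funext fun a => by simp [lb]

theorem rh_eq_zero {x : V} : rh x = 0 ↔ x ∈ Dv 1 := by
  simp only [funext_iff, rh_apply, Pi.zero_apply, red_eq_zero, mem_Dv]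

theorem rb_eq {x y : V} : rh x = rh y ↔ x - y ∈ Dv 1 := by rw [← rh_eq_zero, map_sub, sub_eq_zero]

theorem rb_smul (c : ℤ_[2]) (x : V) : rh (c • x) = red 1 c • rh x :=
  funext fun a => by simp [rh_apply]

theorem eb_rb (x y : V) : eb (rh x) (rh y) = red 1 (om x y) := by
  rw [om, map_sum]
  refine Finset.sum_congr rfl fun a _ => ?_
  have : red 1 (ε a) = 1 := by
    rcases mul_self_eq_one_iff.1 (Sp.sq a) with h | h <;> simp [h]
  rw [map_mul, map_mul, this, one_mul, rh_apply, rh_apply]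

theorem neg_vb (x : Vb) : -x = x := funext fun a => neg_z2 _

end

end Pool.Agent.Lib.MP_16ef92_ag.GF.GV
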