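import Mathlib
import Pool.Agent.Lib.MP_16ef92_ag.GV.Pad

set_option autoImplicit false
set_option linter.unusedSectionVars false
set_option linter.unusedVariables false

namespace Pool.Agent.Lib.MP_16ef92_ag.GF.GV

open Polynomial
open scoped Classical

noncomputable section

variable [Sp] {F : Type} [Field F] [Clos F] [Fintype F] [hq : Fact (Odd (Fintype.card F))]

variable (F) in
/-- A continuous representation by similitudes that is trivial modulo two. -/
structure RD where
  ro : Gam F →* EV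
  triv : ∀ g x, ro g x - x ∈ Dv 1
  near : ∀ n, Near fun g => ∀ x, ro g x - x ∈ Dv n
  sim : ∀ g, Sim (ro g)

variable (T : RD F)

/-- Continuous cocycles. -/
structure Cy (a : Gam F → V) : Prop where
  mul : ∀ g ∈ Geo F, ∀ h ∈ Geo F, a (g * h) = a g + T.ro g (a h)
  near : ∀ n, Near fun g => g ∈ Geo F → a g ∈ Dv n

/-- Locally torsion. -/
def LT (a : Gam F → V) : Prop :=
  ∀ O x, Over O x → ∃ (j : ℕ) (m : V), ∀ g ∈ Ine O, (2 : ℤ_[2]) ^ j • a g = T.ro g m - m

/-- Locally a coboundary. -/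
def LB (a : Gam F → V) : Prop := ∀ O x, Over O x → ∃ m : V, ∀ g ∈ Ine O, a g = T.ro g m - m

/-- The action of the full Galois group on cochains. -/
def tw (s : Gam F) (a : Gam F → V) : Gam F → V := fun g => T.ro s (a (s⁻¹ * g * s))

variable {T}

theorem om_map (g : Gam F) (x y : V) : om (T.ro g x) (T.ro g y) = dt (T.ro g) * om x y :=
  T.sim g x y

theorem ro_mul (g h : Gam F) (x : V) : T.ro (g * h) x = T.ro g (T.ro h x) := by
  rw [map_mul, Module.End.mul_apply]

theorem ro_one (x : V) : T.ro 1 x = x := by rw [map_one, Module.End.one_apply]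

theorem ro_inv (g : Gam F) (x : V) : T.ro g⁻¹ (T.ro g x) = x := by
  rw [← ro_mul, inv_mul_cancel, ro_one]

theorem ro_inv' (g : Gam F) (x : V) : T.ro g (T.ro g⁻¹ x) = x := by
  rw [← ro_mul, mul_inv_cancel, ro_one]

theorem Cy.one {a : Gam F → V} (h : Cy T a) : a 1 = 0 := by
  have := h.mul 1 (one_mem _) 1 (one_mem _)
  rwa [mul_one, ro_one, left_eq_add] at this

theorem Cy.smul {a : Gam F → V} (h : Cy T a) (c : ℤ_[2]) : Cy T fun g => c • a g :=
  ⟨fun g hg l hl => by rw [h.mul g hg l hl, smul_add, map_smul],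
    fun n => (h.near n).mono fun g hg hg' => Submodule.smul_mem _ _ (hg hg')⟩

theorem Cy.tw {y : Gam F → V} (hy : Cy T y) (s : Gam F) : Cy T (tw T s y) :=
  ⟨fun g hg h hh => by
    unfold GV.tw
    rw [show s⁻¹ * (g * h) * s = s⁻¹ * g * s * (s⁻¹ * h * s) by group,
      hy.mul _ (geo_conj hg s) _ (geo_conj hh s), map_add, ← ro_mul s, ← ro_mul g,
      show s * (s⁻¹ * g * s) = g * s by group],
    fun n => ((hy.near n).conj s).mono fun g hg hg' => map_Dv _ (hg (geo_conj hg' s))⟩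

theorem Cy.sub {a b : Gam F → V} (ha : Cy T a) (hb : Cy T b) : Cy T fun g => a g - b g :=
  ⟨fun g hg h hh => by rw [ha.mul g hg h hh, hb.mul g hg h hh, map_sub]; abel,
    fun n => ((ha.near n).and (hb.near n)).mono fun g hg hg' => sub_mem (hg.1 hg') (hg.2 hg')⟩

theorem LT.smul {a : Gam F → V} (ha : LT T a) (c : ℤ_[2]) : LT T fun g => c • a g :=
  fun O x hO => by
    obtain ⟨j, m, hm⟩ := ha O x hO
    exact ⟨j, c • m, fun g hg => by rw [smul_comm, hm g hg, map_smul, smul_sub]⟩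

theorem LT.sub {a b : Gam F → V} (ha : LT T a) (hb : LT T b) : LT T fun g => a g - b g :=
  fun O x hO => by
    obtain ⟨j, m, hm⟩ := ha O x hO
    obtain ⟨l, n, hn⟩ := hb O x hO
    refine ⟨j + l, (2 : ℤ_[2]) ^ l • m - (2 : ℤ_[2]) ^ j • n, fun g hg => ?_⟩
    rw [map_sub, map_smul, map_smul, pow_add]
    linear_combination (norm := module) (2 : ℤ_[2]) ^ l • hm g hg - (2 : ℤ_[2]) ^ j • hn g hg

theorem LT.tw {a : Gam F → V} (ha : LT T a) (s : Gam F) : LT T (tw T s a) := fun O x hO => by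
  obtain ⟨j, m, hm⟩ := ha (cm s O) (x.map (ck s⁻¹)) (over_cm (by rwa [ck_inv]))
  refine ⟨j, T.ro s m, fun g hg => ?_⟩
  unfold GV.tw
  rw [← map_smul, hm _ (conj_ine (fun z => mem_cm) hg), map_sub, ← ro_mul, ← ro_mul,
    show s * (s⁻¹ * g * s) = g * s by group]

/-- Inertia acts trivially. -/
def GoodAt (T : RD F) (O : ValuationSubring (Om F)) : Prop := ∀ g ∈ Ine O, ∀ y, T.ro g y = y

/-- Inertia acts through the ramified quadratic character. -/
def TwistAt (T : RD F) (O : ValuationSubring (Om F)) (x : Option (kk F)) : Prop :=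
  ∀ g ∈ Ine O, ∀ y, T.ro g y = if sg (pl x) g = 0 then y else -y

/-- Inertia acts by `1 + 2 b ν` with `ν` skew and of saturated image. -/
structure TV (T : RD F) (O : ValuationSubring (Om F)) (x : Option (kk F)) (ν : EV)
    (b : Gam F → ℤ_[2]) : Prop where
  skew : ∀ y z, om (ν y) z = -om y (ν z)
  sat : ∀ y z, (2 : ℤ_[2]) • y = ν z → ∃ w, y = ν w
  par : ∀ g ∈ Ine O, red 1 (b g) = sg (pl x) g
  hb : ∀ g ∈ Ine O, ∀ y, T.ro g y = y + (2 * b g) • ν y

/-- Multiplicative places. -/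
def MultAt (T : RD F) (O : ValuationSubring (Om F)) (x : Option (kk F)) : Prop :=
  ∃ ν b, TV T O x ν b

/-- Every place is good, additive or multiplicative. -/
def Cls (T : RD F) : Prop := ∀ x O, Over O x → GoodAt T O ∨ TwistAt T O x ∨ MultAt T O x

variable {O : ValuationSubring (Om F)} {x : Option (kk F)} {a : Gam F → V} {ν : EV}
  {b : Gam F → ℤ_[2]}

theorem TV.satp (h : TV T O x ν b) (j : ℕ) {y z : V} (e : (2 : ℤ_[2]) ^ j • y = ν z) :
    ∃ w, y = ν w := by
  induction j generalizing z with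
  | zero => exact ⟨z, by simpa using e⟩
  | succ j ih =>
    obtain ⟨w, hw⟩ := h.sat _ z ((smul_smul _ _ _).trans (by rw [← pow_succ', e]))
    exact ih hw

theorem loc_good (hl : LT T a) (hO : Over O x) (h : GoodAt T O) {g : Gam F} (hg : g ∈ Ine O) :
    a g = 0 := by
  obtain ⟨j, m, hm⟩ := hl O x hO
  apply two_pow_smul_inj (n := j)
  rw [hm g hg, h g hg, sub_self, smul_zero]

theorem loc_twist (hl : LT T a) (hO : Over O x) (h : TwistAt T O x) :
    ∃ a₀, ∀ g ∈ Ine O, a g = if sg (pl x) g = 0 then 0 else a₀ := by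
  obtain ⟨j, m, hm⟩ := hl O x hO
  obtain ⟨g₀, hg₀, hs⟩ := hO.exists_sg
  refine ⟨a g₀, fun g hg => two_pow_smul_inj (n := j) ?_⟩
  rw [hm g hg, h g hg]
  split_ifs with h1
  · simp
  · rw [hm g₀ hg₀, h g₀ hg₀, if_neg (by rw [hs]; decide)]

theorem loc_mult (hl : LT T a) (hO : Over O x) (h : TV T O x ν b) :
    ∃ w, ∀ g ∈ Ine O, a g = b g • ν w := by
  obtain ⟨l, m, hlm⟩ := hl O x hO
  obtain ⟨g₀, hg₀, hs⟩ := hO.exists_sg
  obtain ⟨u, hu⟩ := (unit_of_red ((h.par g₀ hg₀).trans hs)).exists_right_inv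
  have h1 := hlm g₀ hg₀
  rw [h.hb g₀ hg₀, add_sub_cancel_left] at h1
  have h2 : (2 : ℤ_[2]) ^ l • (u • a g₀) = ν ((2 : ℤ_[2]) • m) := by
    rw [smul_comm, h1, map_smul, smul_smul, show u * (2 * b g₀) = 2 by linear_combination 2 * hu]
  obtain ⟨w, hw⟩ := h.satp l h2
  refine ⟨w, fun g hg => two_pow_smul_inj (n := l) ?_⟩
  rw [hlm g hg, h.hb g hg, add_sub_cancel_left, ← hw, smul_comm, h2, map_smul, smul_smul, mul_comm]

theorem lb_two (hl : LT T a) (hc : Cls T) : LB T fun g => (2 : ℤ_[2]) • a g := by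
  intro O x hO
  rcases hc x O hO with h | h | ⟨ν, b, h⟩
  · exact ⟨0, fun g hg => by simp [loc_good hl hO h hg]⟩
  · obtain ⟨a₀, h0⟩ := loc_twist hl hO h
    refine ⟨-a₀, fun g hg => ?_⟩
    beta_reduce
    rw [h0 g hg, h g hg]
    split_ifs
    · simp
    · module
  · obtain ⟨w, h0⟩ := loc_mult hl hO h
    refine ⟨w, fun g hg => ?_⟩
    beta_reduce
    rw [h0 g hg, h.hb g hg]
    module

theorem chi_near (D : F[X]) : Near fun g : Gam F => chi D g = 1 := by
  by_cases h : D = 0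
  · exact .of_forall fun g => if_pos h
  · exact (near_sg (ev_ne h)).mono fun g hg => by rw [chi_eq h, hg, sgz_zero]

/-- The quadratic twist. -/
def RD.twist (T : RD F) (D : F[X]) : RD F where
  ro := { toFun := fun g => chi D g • T.ro g
          map_one' := by simp
          map_mul' := fun g l => by rw [map_mul, map_mul, smul_mul_smul_comm] }
  triv g y := smul_triv (chi_cases D g) (T.triv g y)
  near n := ((T.near n).and (chi_near D)).mono fun g hg y => by
    change chi D g • T.ro g y - y ∈ _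
    rw [hg.2, one_smul]
    exact hg.1 y
  sim g := (T.sim g).smul _

theorem twist_ro (D : F[X]) (g : Gam F) : (T.twist D).ro g = chi D g • T.ro g := rfl

/-- The hypotheses on the family: multiplier, local structure, and the types `t` of the primes of
the conductor `N`; `r` is the parity at infinity. -/
structure Fam (T : RD F) (N : F[X]) (r : ℕ) (t : F[X] → Nb) : Prop where
  sq : Squarefree N
  geo : ∀ g ∈ Geo F, dt (T.ro g) = 1
  det : ∀ s, Fr s (Fintype.card F) → dt (T.ro s) = Fintype.card F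
  good : ∀ c, aeval c N ≠ 0 → ∀ O, Over O (some c) → GoodAt T O
  mult : ∀ c, aeval c N = 0 → ∀ O, Over O (some c) → MultAt T O (some c)
  inf : ∀ O, Over O none → if Even r then GoodAt T O else TwistAt T O none
  typ : ∀ l, Prm l → l ∣ N → ∀ c, aeval c l = 0 → ∀ γ, Gen (some c) γ → ∀ y z,
    (2 : ℤ_[2]) • z = y - T.ro γ y → rh z = nu (t l) (rh y)
  gen : Algebra.adjoin Z2 (t '' {l | Prm l ∧ l ∣ N}) = ⊤

end

end Pool.Agent.Lib.MP_16ef92_ag.GF.GV
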