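import Mathlib
import Pool.Agent.Lib.MP_16ef92_ag.GV.Qd

set_option autoImplicit false
set_option linter.unusedSectionVars false
set_option linter.unusedVariables false

namespace Pool.Agent.Lib.MP_16ef92_ag.GF.GV

open Polynomial
open scoped Classical

noncomputable section

variable [Sp]

variable {F : Type} [Field F] [Clos F] [Fintype F] [hq : Fact (Odd (Fintype.card F))]
variable {T : RD F}

/-- A cocycle that has the right shape at one generator of inertia over each place is locally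
torsion. -/
theorem lt_of_gen {a : Gam F → V} (ha : Cy T a)
    (h : ∀ x, ∃ γ μ, Gen x γ ∧ a γ = hL T γ μ) : LT T a := by
  intro O x hO
  obtain ⟨γ, μ, ⟨O0, hO0, hγ, h1⟩, e0⟩ := h x
  have key : ∀ g ∈ Ine O0, a g = hL T g μ := fun g hg => sub_eq_zero.1 (eq_zero_of_Dv fun m =>
    (hq_eq.1 (ine_ext hq_pg hO0 ((cyL_of_cy ha m).mono inf_le_left le_rfl).hm
      (cyL_hL T _ m μ).hm hγ h1 (by rw [e0]) hg)).1)
  obtain ⟨w, hw, h2⟩ := ine_of_over hO0 hO
  refine ⟨1, -((2 : ℤ_[2]) • a w + T.ro w μ), fun g hg => ?_⟩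
  have h3 := ha.mul g hg.1 w hw
  rw [show g * w = w * (w⁻¹ * g * w) by group, ha.mul w hw _ (h2 g hg).1, key _ (h2 g hg),
    ← hL_conj, show w * (w⁻¹ * g * w) * w⁻¹ = g by group] at h3
  have h4 := two_hL T g (T.ro w μ)
  rw [pow_one, map_neg, map_add, map_smul]
  linear_combination (norm := module) h4 - (2 : ℤ_[2]) • h3

/-- One step of the lifting. -/
theorem lift_step (h : Rp T) {γ : Option (kk F) → Gam F} (hγ : ∀ x, Gen x (γ x))
    (μ : Option (kk F) → V) (y : Option (kk F)) {j : ℕ} {n : Gam F → V} (hn : CyL T (Geo F) j n)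
    (ha : ∀ x, x ≠ y → n (γ x) - hL T (γ x) (μ x) ∈ Dv j) :
    ∃ n' : Gam F → V, CyL T (Geo F) (j + 1) n' ∧
      (∀ x, x ≠ y → n' (γ x) - hL T (γ x) (μ x) ∈ Dv (j + 1)) ∧ ∀ g, n' g - n g ∈ Dv j := by
  obtain ⟨ψ, h1, h2, h3⟩ := geo_lift hq_pg (hqDown j)
    (fun b => by
      obtain ⟨a, rfl⟩ := hq_surj b
      exact ⟨_, hqDown_mk j a⟩) hn.hm y hγ
    (fun x => hq' (j + 1) 0 (Nat.zero_le _) ⟨hL T (γ x) (μ x), 0, PG T (γ x)⟩)
    (fun x hx => by
      rw [hqDown_mk, hq_eq]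
      exact ⟨by simpa using neg_mem (ha x hx), by simp, fun _ => by simp⟩)
    (h.fin.subset fun x hx => by
      obtain ⟨O, o1, o2, -⟩ := hγ x
      refine ⟨O, o1, fun hg => hx ?_⟩
      rw [← map_one (hq' (j + 1) 0 _), hq_eq]
      refine ⟨by simp [hL_good hg o2, Hs.one_n], by simp, fun v => ?_⟩
      rw [PG_app, hg _ o2, Hs.one_g, G1.one_app, sub_self]
      exact zero_mem _)
  choose sec hs using hq_surj (m := j + 1) (e := 0) (h := Nat.zero_le _)
  have key : ∀ g, (sec (ψ g)).n - n g ∈ Dv j ∧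
      ∀ v, (sec (ψ g)).g.1.1 v - T.ro g v ∈ Dv (j + 1) := fun g => by
    have := h2 g
    rw [← hs (ψ g), hqDown_mk, hq_eq] at this
    exact ⟨this.1, this.2.2⟩
  refine ⟨fun g => (sec (ψ g)).n, ⟨fun g hg l hl => ?_, h1.near.mono fun g hg g1 g2 => ?_⟩,
    fun x hx => ?_, fun g => (key g).1⟩
  · have := h1.mul g hg l hl
    rw [← hs (ψ (g * l)), ← hs (ψ g), ← hs (ψ l), ← map_mul, hq_eq, Hs.mul_n] at this
    have h4 := add_mem this.1 ((key g).2 (sec (ψ l)).n)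
    exact (congrArg (· ∈ Dv (j + 1)) (by abel)).mp h4
  · have := hg g1 g2
    rw [← hs (ψ g), ← map_one (hq' (j + 1) 0 _), hq_eq, Hs.one_n, sub_zero] at this
    exact this.1
  · have := h3 x hx
    rw [← hs (ψ (γ x)), hq_eq] at this
    exact this.1

/-- Admissible cocycles of finite level lift. -/
theorem exists_lift (h : Rp T) {m : ℕ} {n : Gam F → V} (hn : CyL T (Geo F) m n)
    (ha : ∀ x, ∃ γ μ, Gen x γ ∧ n γ - hL T γ μ ∈ Dv m) :
    ∃ δ : Ad T, ∀ g ∈ Geo F, δ.1 g - n g ∈ Dv m := by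
  choose γ μ hγ hμ using ha
  obtain ⟨c, -, -, hc⟩ := h.exists_neg
  choose! st h1 h2 h3 using fun j n' => lift_step h hγ μ (some c) (j := j) (n := n')
  let N : ℕ → Gam F → V := fun i => Nat.rec n (fun i n' => st (m + i) n') i
  have hN : ∀ i, CyL T (Geo F) (m + i) (N i) ∧
      ∀ x, x ≠ some c → N i (γ x) - hL T (γ x) (μ x) ∈ Dv (m + i) := fun i => by
    induction i with
    | zero => exact ⟨hn, fun x _ => hμ x⟩
    | succ i ih => exact ⟨h1 _ _ ih.1 ih.2, h2 _ _ ih.1 ih.2⟩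
  have hS : ∀ i g, N (i + 1) g - N i g ∈ Dv (m + i) := fun i => h3 _ _ (hN i).1 (hN i).2
  have h0 : ∀ i g, N i g - n g ∈ Dv m := fun i g => by
    induction i with
    | zero => exact (sub_self (n g)).symm ▸ zero_mem _
    | succ i ih => simpa using add_mem (Dv_mono (m.le_add_right i) (hS i g)) ih
  choose δ hδ using fun g => lim (fun i x => x - N i g ∈ Dv i) (fun i => ⟨N i g, by simp⟩)
    (fun i x hx => by simpa using add_mem (Dv_mono i.le_succ hx) (Dv_mono (by omega) (hS i g)))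
    fun i x y hx hy => by simpa using add_mem hy hx
  have cy : Cy T δ := ⟨fun g hg l hl => sub_eq_zero.1 (eq_zero_of_Dv fun i => by
      have := sub_mem (sub_mem (add_mem (hδ (g * l) i)
        (Dv_mono (Nat.le_add_left i m) ((hN i).1.mul g hg l hl))) (hδ g i))
        (map_Dv (T.ro g) (hδ l i))
      rw [map_sub] at this
      exact (congrArg (· ∈ Dv i) (by abel)).mp this),
    fun i => (hN i).1.near.mono fun g hg hg' => by
      simpa using add_mem (hδ g i) (Dv_mono (Nat.le_add_left i m) (hg hg' hg'))⟩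
  refine ⟨⟨δ, cy, lt_of_gen cy fun x => ?_⟩, fun g _ => ?_⟩
  · by_cases hx : x = some c
    · exact ⟨γ x, δ (γ x), hγ x, (hc _ (hx ▸ hγ x) _).symm⟩
    · exact ⟨γ x, μ x, hγ x, sub_eq_zero.1 (eq_zero_of_Dv fun i => by
        simpa using add_mem (hδ (γ x) i) (Dv_mono (Nat.le_add_left i m) ((hN i).2 x hx)))⟩
  · simpa using add_mem (hδ g m) (h0 m g)

/-- Division of admissible cocycles. -/
theorem exists_div (a : Ad T) {m : ℕ} (h : ∀ g ∈ Geo F, a.1 g ∈ Dv m) :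
    ∃ b : Ad T, ∀ g ∈ Geo F, a.1 g = (2 : ℤ_[2]) ^ m • b.1 g := by
  choose! b hb using fun g hg => mem_Dv_iff.1 (h g hg)
  refine ⟨⟨b, ⟨fun g hg l hl => two_pow_smul_inj (n := m) ?_,
    fun n => (a.2.1.near (m + n)).mono fun g hg hg' => ?_⟩, fun O x hO => ?_⟩, hb⟩
  · rw [smul_add, ← map_smul, ← hb g hg, ← hb l hl, ← hb _ (mul_mem hg hl), a.2.1.mul g hg l hl]
  · have := hg hg'
    rwa [hb g hg', smul_mem_Dv_iff] at this
  · obtain ⟨j, v, hv⟩ := a.2.2 O x hO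
    exact ⟨j + m, v, fun g hg => by rw [pow_add, mul_smul, ← hb g hg.1, hv g hg]⟩

/-- Divisibility of classes. -/
theorem mk_div_iff (a : Ad T) (m : ℕ) : (∃ y : MM T, (Nu T).mkQ a = (2 : ℤ_[2]) ^ m • y) ↔
    ∃ t, ∀ g ∈ Geo F, a.1 g - hL T g t ∈ Dv m := by
  constructor
  · rintro ⟨y, hy⟩
    obtain ⟨b, rfl⟩ := (Nu T).mkQ_surjective y
    rw [← map_smul, mk_eq_mk] at hy
    obtain ⟨t, ht⟩ := hy
    exact ⟨t, fun g hg => by rw [ht g hg, add_sub_cancel_right]; exact smul_mem_Dv m _⟩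
  · rintro ⟨t, ht⟩
    obtain ⟨b, h1⟩ := exists_div (a - hb T t) ht
    refine ⟨(Nu T).mkQ b, ?_⟩
    rw [← map_smul, mk_eq_mk]
    exact ⟨t, fun g hg => eq_add_of_sub_eq (h1 g hg)⟩

/-- The classes form a lattice. -/
theorem Rp.lt (h : Rp T) : Lt (MM T) := by
  obtain ⟨c, γ, hγ, hc⟩ := h.exists_neg
  have h0 := hc γ hγ
  have nu : ∀ a : Ad T, (∀ g ∈ Geo F, a.1 g = hL T g (a.1 γ)) → (Nu T).mkQ a = 0 := fun a ha =>
    (Submodule.Quotient.mk_eq_zero _).2 ⟨_, ha⟩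
  refine ⟨fun x hx => ?_, fun x hx => ?_, fun x hx => ?_⟩ <;>
    obtain ⟨a, rfl⟩ := (Nu T).mkQ_surjective x
  · rw [← map_smul] at hx
    obtain ⟨t, ht⟩ := mem_Nu.1 ((Submodule.Quotient.mk_eq_zero _).1 hx)
    have h1 : (2 : ℤ_[2]) • a.1 γ = t := (ht γ hγ.geo).trans (h0 t)
    refine nu a fun g hg => two_smul_inj ?_
    rw [← map_smul, h1]
    exact ht g hg
  · refine nu a fun g hg => sub_eq_zero.1 (eq_zero_of_Dv fun k => ?_)
    obtain ⟨t, ht⟩ := (mk_div_iff a k).1 (hx k)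
    have h1 := ht γ hγ.geo
    rw [h0] at h1
    simpa using sub_mem (ht g hg) (map_Dv (hL T g) h1)
  · rw [← pow_one (2 : ℤ_[2]), mk_div_iff] at hx
    push Not at hx
    obtain ⟨g, hg, h1⟩ := hx (a.1 γ)
    obtain ⟨s, hs⟩ := exists_dual h1
    let φ : Ad T →ₗ[ℤ_[2]] ℤ_[2] := (omL.flip s).comp
      (((LinearMap.proj g : (Gam F → V) →ₗ[ℤ_[2]] V) -
        (hL T g).comp (LinearMap.proj γ : (Gam F → V) →ₗ[ℤ_[2]] V)).comp (Ad T).subtype)
    have hφ : ∀ b : Ad T, φ b = om (b.1 g - hL T g (b.1 γ)) s := fun b => rfl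
    refine ⟨(Nu T).liftQ φ fun b ⟨t, ht⟩ => ?_, (hφ a).trans hs⟩
    rw [LinearMap.mem_ker, hφ, ht γ hγ.geo, h0, ht g hg, sub_self, om_zero_left]

end

end Pool.Agent.Lib.MP_16ef92_ag.GF.GV
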