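import Mathlib
import Pool.Agent.Lib.MP_16ef92_ag.GV.Lift

set_option autoImplicit false
set_option linter.unusedSectionVars false
set_option linter.unusedVariables false

namespace Pool.Agent.Lib.MP_16ef92_ag.GF.GV

open Polynomial
open scoped Classical

noncomputable section

variable [Sp]

variable {F : Type} [Field F] [Clos F] [Fintype F] [hq : Fact (Odd (Fintype.card F))]
variable {T : RD F}

theorem FF_congr {s s' : Gam F} (h : s' * s⁻¹ ∈ Geo F) : FM T s' = FM T s := by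
  obtain ⟨g0, hg0, rfl⟩ : ∃ g0 ∈ Geo F, s' = g0 * s := ⟨_, h, by group⟩
  refine LinearMap.ext fun c => ?_
  obtain ⟨a, rfl⟩ := (Nu T).mkQ_surjective c
  rw [FF_mk, FF_mk, mk_eq_mk]
  have hb := (twL T s a).2.1
  refine ⟨-((2 : ℤ_[2]) • (twL T s a).1 g0), fun g hg => ?_⟩
  have h1 := hb.mul g hg g0 hg0
  have h2 := hb.mul g0 hg0 _ (geo_conj hg g0)
  rw [show g0 * (g0⁻¹ * g * g0) = g * g0 by group, h1] at h2
  have h3 : (twL T (g0 * s) a).1 g = T.ro g0 ((twL T s a).1 (g0⁻¹ * g * g0)) := by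
    rw [twL_apply, twL_apply, ro_mul,
      show (g0 * s)⁻¹ * g * (g0 * s) = s⁻¹ * (g0⁻¹ * g * g0) * s by group]
  rw [h3, map_neg, map_smul, two_hL]
  linear_combination (norm := module) -h2

theorem red_geo {s s' : Gam F} {Q : ℕ} (hs : Fr s Q) (hs' : Fr s' Q) : s' * s⁻¹ ∈ Geo F := by
  refine mem_geo fun c => ?_
  rw [AlgEquiv.mul_apply, ← ck_val, hs', ← hs, ck_val, ← AlgEquiv.mul_apply, mul_inv_cancel,
    AlgEquiv.one_apply]

theorem red_tf (h : Rp T) (j : ℕ) {x : MM T} (hx : (2 : ℤ_[2]) ^ j • x = 0) : x = 0 := by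
  induction j with
  | zero => simpa using hx
  | succ j ih => exact ih (h.lt.tf _ (by rw [← mul_smul, ← pow_succ', hx]))

/-- The eigenvalue one is not semisimple or has multiplicity at least two. -/
def Bad0 (T : RD F) (s : Gam F) : Prop :=
  (∃ c, FM T s (FM T s c - c) = FM T s c - c ∧ FM T s c ≠ c) ∨
    ∃ c₁ c₂, FM T s c₁ = c₁ ∧ FM T s c₂ = c₂ ∧ ∀ α β : ℤ_[2], α • c₁ + β • c₂ = 0 → α = 0 ∧ β = 0

end

end Pool.Agent.Lib.MP_16ef92_ag.GF.GV
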