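import Mathlib
import Pool.Agent.Lib.MP_16ef92_ag.GV.Red
import Pool.Agent.Lib.MP_16ef92_ag.GV.LInd

set_option autoImplicit false
set_option linter.unusedSectionVars false
set_option linter.unusedVariables false

namespace Pool.Agent.Lib.MP_16ef92_ag.GF.GV

open Polynomial Module
open scoped Classical

noncomputable section

variable [Sp] {F : Type} [Field F] [Clos F] [Fintype F] [hq : Fact (Odd (Fintype.card F))]

/-- The operator `s - 1` on cochains. -/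
def so (T : RD F) (s : Gam F) (a : Gam F → V) : Gam F → V := fun g => tw T s a g - a g

/-- A multiple of the cochain is a coboundary on the geometric Galois group. -/
def NuC (T : RD F) (a : Gam F → V) : Prop :=
  ∃ (j : ℕ) (m : V), ∀ g ∈ Geo F, (2 : ℤ_[2]) ^ j • a g = T.ro g m - m

/-- The weight lemma: classes killed by `(s - 1) ^ 2` are locally torsion. -/
def Wt (T : RD F) (N : F[X]) (s : Gam F) : Prop :=
  ∀ a, Cy T a → AL.GI N (fun g => a g = 0) → NuC T (so T s (so T s a)) → LT T a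

variable {T : RD F} {N : F[X]} {s : Gam F} {d : ℕ}
  {ρ : Gam F →* End ℤ_[2] (Fin d → ℤ_[2])} {φ : V ≃ₗ[ℤ_[2]] (Fin d → ℤ_[2])} {u : ℤ_[2]}

theorem dic_dv (φ : V ≃ₗ[ℤ_[2]] (Fin d → ℤ_[2])) {n : ℕ} {x : V} :
    x ∈ Dv n ↔ ∀ i, ((2 : ℕ) : ℤ_[2]) ^ n ∣ φ x i := by
  rw [Nat.cast_ofNat]
  constructor
  · intro h i
    obtain ⟨z, rfl⟩ := mem_Dv_iff.1 h
    rw [map_smul]
    exact dvd_mul_right _ _
  · intro h
    choose y hy using h
    exact mem_Dv_iff.2 ⟨φ.symm y, φ.injective (by rw [map_smul, φ.apply_symm_apply]; exact funext hy)⟩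

theorem dic_unit {c : ℤ_[2]} (hc : c ≠ 0) : ∃ (w : ℤ_[2]) (j : ℕ), w * c = 2 ^ j :=
  ⟨(PadicInt.unitCoeff hc)⁻¹.1, c.valuation, by
    rw [Units.inv_mul_eq_iff_eq_mul]
    exact PadicInt.unitCoeff_spec hc⟩

theorem dic_tf (h : Rp T) {c : ℤ_[2]} (hc : c ≠ 0) {x : MM T} (hx : c • x = 0) : x = 0 := by
  obtain ⟨w, j, e⟩ := dic_unit hc
  exact red_tf h j (by rw [← e, mul_smul, hx, smul_zero])

theorem nuC_iff (h : Rp T) (a : Ad T) : NuC T a.1 ↔ (Nu T).mkQ a = 0 := by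
  constructor
  · rintro ⟨j, m, e⟩
    refine red_tf h j ?_
    rw [← map_smul, Submodule.mkQ_apply, Submodule.Quotient.mk_eq_zero, mem_Nu]
    refine ⟨-((2 : ℤ_[2]) • m), fun g hg => ?_⟩
    rw [map_neg, map_smul, two_hL, neg_sub]
    exact e g hg
  · intro e
    rw [Submodule.mkQ_apply, Submodule.Quotient.mk_eq_zero, mem_Nu] at e
    obtain ⟨t, ht⟩ := e
    exact ⟨1, -t, fun g hg => by rw [pow_one, ht g hg, two_hL, map_neg]; abel⟩

/-- The cochain `a` has coordinates `z`. -/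
def Rz (φ : V ≃ₗ[ℤ_[2]] (Fin d → ℤ_[2])) (a : Gam F → V)
    (z : AL.Zi (AL.fam N) (MP_16ef92_ag.GV.rg ρ)) : Prop := ∀ g : Geo F, z.1 g = φ (a g)

variable {a : Gam F → V} {z : AL.Zi (AL.fam N) (MP_16ef92_ag.GV.rg ρ)}

theorem exists_cy (h1 : ∀ g ∈ Geo F, ∀ x, φ (T.ro g x) = ρ g (φ x))
    (z : AL.Zi (AL.fam N) (MP_16ef92_ag.GV.rg ρ)) :
    ∃ a, Cy T a ∧ AL.GI N (fun g => a g = 0) ∧ Rz φ a z := by
  let a : Gam F → V := fun g => if h : g ∈ Geo F then φ.symm (z.1 ⟨g, h⟩) else 0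
  have ha : ∀ g (h : g ∈ Geo F), φ (a g) = z.1 ⟨g, h⟩ := fun g h => by
    rw [show a g = _ from dif_pos h, φ.apply_symm_apply]
  refine ⟨a, ⟨fun g hg h hh => φ.injective ?_, fun n => ?_⟩, fun c hc O hO g hg => ?_,
    fun g => (ha g g.2).symm⟩
  · rw [map_add, h1 g hg, ha g hg, ha h hh, ha _ (mul_mem hg hh)]
    exact z.2.1 ⟨g, hg⟩ ⟨h, hh⟩
  · exact (AL.ev_near (z.2.2 n)).mono fun g hg h => (dic_dv φ).2 (by rw [ha g h]; exact hg h)
  · exact eq_zero_of_Dv fun n => (dic_dv φ).2 (by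
      rw [ha g hg.1]
      exact AL.ev_ine (z.2.2 n) c hc O hO g hg hg.1)

theorem Cy.exists_rz (h1 : ∀ g ∈ Geo F, ∀ x, φ (T.ro g x) = ρ g (φ x)) (ha : Cy T a)
    (hi : AL.GI N fun g => a g = 0) :
    ∃ z : AL.Zi (AL.fam N) (MP_16ef92_ag.GV.rg ρ), Rz φ a z := by
  refine ⟨⟨fun g => φ (a g), fun g h => ?_, fun n => ?_⟩, fun g => rfl⟩
  · beta_reduce
    rw [Subgroup.coe_mul, ha.mul _ g.2 _ h.2, map_add, h1 _ g.2]
    rfl
  let H : Subgroup (Gam F) :=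
    { carrier := {g | g ∈ Geo F ∧ a g ∈ Dv n}
      mul_mem' := fun {g h} hg hh => ⟨mul_mem hg.1 hh.1, by
        rw [ha.mul g hg.1 h hh.1]
        exact add_mem hg.2 (map_Dv _ hh.2)⟩
      one_mem' := ⟨one_mem _, by rw [ha.one]; exact zero_mem _⟩
      inv_mem' := fun {g} hg => ⟨inv_mem hg.1, by
        have := ha.mul _ (inv_mem hg.1) g hg.1
        rw [inv_mul_cancel, ha.one] at this
        rw [eq_neg_of_add_eq_zero_left this.symm]
        exact neg_mem (map_Dv _ hg.2)⟩ }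
  exact (AL.ev_of H ((ha.near n).mono fun g hg h => ⟨h, hg h⟩) fun c hc O hO g hg =>
    ⟨hg.1, by rw [hi c hc O hO g hg]; exact zero_mem _⟩).mono fun g hg => (dic_dv φ).1 hg.2

theorem Rz.so (h2 : ∀ x, φ (T.ro s x) = u • ρ s (φ x)) (h : Rz φ a z) :
    Rz φ (so T s a) ((u • MP_16ef92_ag.GV.Ps N ρ s - 1) z) := fun g => by
  rw [GV.so, tw, map_sub, h2, ← AL.sgm_val, ← h, ← h]
  rfl

theorem Rz.null (h1 : ∀ g ∈ Geo F, ∀ x, φ (T.ro g x) = ρ g (φ x))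
    (hC : AL.Cr (AL.fam N) (MP_16ef92_ag.GV.rg ρ)) (h : Rz φ a z) :
    NuC T a ↔ AL.Nul (AL.cob hC) z := by
  constructor
  · rintro ⟨j, m, e⟩
    refine ⟨2 ^ j, by simp, φ m, Subtype.ext (funext fun g => ?_)⟩
    rw [AL.cob_apply, Submodule.coe_smul, Pi.smul_apply, h, ← map_smul, e g g.2, map_sub, h1 _ g.2]
    rfl
  · rintro ⟨c, hc, x, e⟩
    obtain ⟨w, j, hw⟩ := dic_unit hc
    refine ⟨j, w • φ.symm x, fun g hg => φ.injective ?_⟩
    have := congrFun (congrArg Subtype.val e) ⟨g, hg⟩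
    rw [AL.cob_apply, Submodule.coe_smul, Pi.smul_apply, h] at this
    rw [← hw, mul_smul, map_smul, map_smul, this, map_sub, h1 g hg, map_smul, φ.apply_symm_apply,
      map_smul, smul_sub]
    rfl

/-- The dictionary at the prime two. -/
theorem sim_of_good (h : Rp T) (hu : ∀ c, aeval c N ≠ 0 → ∀ O, Over O (some c) → GoodAt T O)
    (h1 : ∀ g ∈ Geo F, ∀ x, φ (T.ro g x) = ρ g (φ x)) (h2 : ∀ x, φ (T.ro s x) = u • ρ s (φ x))
    (hC : AL.Cr (AL.fam N) (MP_16ef92_ag.GV.rg ρ)) (hW : Wt T N s) (hB : ¬ Bad0 T s) :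
    AL.Sim (AL.cob hC) (u • MP_16ef92_ag.GV.Ps N ρ s) := by
  rw [Bad0, not_or] at hB
  have hs : ∀ a : Ad T, (twL T s a - a).1 = so T s a.1 := fun a => rfl
  have key : ∀ z, AL.Nul (AL.cob hC) ((u • MP_16ef92_ag.GV.Ps N ρ s - 1)
      ((u • MP_16ef92_ag.GV.Ps N ρ s - 1) z)) →
      ∃ a : Ad T, Rz φ a.1 z ∧ FM T s ((Nu T).mkQ a) = (Nu T).mkQ a := fun z hz => by
    obtain ⟨a, h3, h4, h5⟩ := exists_cy h1 z
    have h6 := (((h5.so h2).so h2).null h1 hC).2 hz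
    refine ⟨⟨a, h3, hW a h3 h4 h6⟩, h5, not_not.1 fun e => hB.1 ⟨_, ?_, e⟩⟩
    generalize ha : (⟨a, h3, hW a h3 h4 h6⟩ : Ad T) = b
    obtain rfl : a = b.1 := congrArg Subtype.val ha
    rw [← hs, ← hs, nuC_iff h, map_sub, ← FF_mk, map_sub, ← FF_mk] at h6
    exact sub_eq_zero.1 h6
  by_cases e : ∃ c, FM T s c = c ∧ c ≠ 0
  · obtain ⟨c, hc, h0⟩ := e
    obtain ⟨a₀, rfl⟩ := (Nu T).mkQ_surjective c
    obtain ⟨z₀, hz₀⟩ := a₀.2.1.exists_rz (N := N) h1 fun c hc O hO g hg =>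
      loc_good a₀.2.2 hO (hu c hc O hO) hg
    refine ⟨z₀, ((hz₀.so h2).null h1 hC).1 ?_, fun z hz => ?_⟩
    · rw [← hs, nuC_iff h, map_sub, ← FF_mk, hc, sub_self]
    · obtain ⟨a, h3, h4⟩ := key z hz
      obtain ⟨α, β, h5, h6⟩ : ∃ α β : ℤ_[2], α • (Nu T).mkQ a + β • (Nu T).mkQ a₀ = 0 ∧
          ¬ (α = 0 ∧ β = 0) := by
        by_contra e
        exact hB.2 ⟨_, _, h4, hc, fun α β h5 => not_not.1 fun h6 => e ⟨α, β, h5, h6⟩⟩
      refine ⟨α, β, fun e => h0 (dic_tf h (fun e' => h6 ⟨e, e'⟩) ?_),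
        (Rz.null (a := (α • a + β • a₀).1) h1 hC fun g => ?_).1 ?_⟩
      · rwa [e, zero_smul, zero_add] at h5
      · change α • z.1 g + β • z₀.1 g = φ (α • a.1 g + β • a₀.1 g)
        rw [h3, hz₀, map_add, map_smul, map_smul]
      · rw [nuC_iff h, map_add, map_smul, map_smul, h5]
  · refine ⟨0, ⟨1, one_ne_zero, 0, by simp⟩, fun z hz => ⟨1, 0, one_ne_zero, ?_⟩⟩
    obtain ⟨a, h3, h4⟩ := key z hz
    rw [one_smul, zero_smul, add_zero, ← h3.null h1 hC, nuC_iff h]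
    exact not_not.1 fun e' => e ⟨_, h4, e'⟩

theorem Bad0.congr {s' : Gam F} {Q : ℕ} (hs : Fr s Q) (hs' : Fr s' Q) (h : Bad0 T s) :
    Bad0 T s' := by
  rwa [Bad0, FF_congr (red_geo hs hs')]

end

end Pool.Agent.Lib.MP_16ef92_ag.GF.GV
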