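import Mathlib
import Pool.Agent.Lib.MP_16ef92_ag.GV.HBd

set_option autoImplicit false
set_option linter.unusedSectionVars false
set_option linter.unusedVariables false

namespace Pool.Agent.Lib.MP_16ef92_ag.GF.GV

open Finset
open scoped Classical

noncomputable section

variable [Sp]

variable {Λ I₀ : Type} [Fintype Λ] [Fintype I₀] {m j : ℕ}

/-- Kernel against annihilator of the image. -/
theorem hb1_ann {K W U : Type} [Field K] [Finite K] [AddCommGroup W] [Module K W] [Finite W]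
    [AddCommGroup U] [Module K U] [Finite U] (L : W →ₗ[K] U) (β : U →ₗ[K] U →ₗ[K] K) :
    Nat.card {ξ // L ξ = 0} * Nat.card U ≤ Nat.card W * Nat.card {w // ∀ ξ, β w (L ξ) = 0} := by
  let Φ : U →ₗ[K] Module.Dual K (LinearMap.range L) := β.domRestrict₂ (LinearMap.range L)
  have e1 : Nat.card {ξ // L ξ = 0} = Nat.card (LinearMap.ker L) := rfl
  have e2 : Nat.card {w // ∀ ξ, β w (L ξ) = 0} = Nat.card (LinearMap.ker Φ) := by
    refine Nat.card_congr (Equiv.subtypeEquivRight fun w => ?_)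
    rw [LinearMap.mem_ker]
    refine ⟨fun h => LinearMap.ext ?_, fun h ξ => LinearMap.congr_fun h ⟨L ξ, ξ, rfl⟩⟩
    rintro ⟨_, ξ, rfl⟩
    exact h ξ
  have h1 := L.finrank_range_add_finrank_ker
  have h2 := Φ.finrank_range_add_finrank_ker
  have h3 := (LinearMap.range Φ).finrank_le
  rw [Subspace.dual_finrank_eq] at h3
  rw [e1, e2, Module.natCard_eq_pow_finrank (K := K) (V := LinearMap.ker L),
    Module.natCard_eq_pow_finrank (K := K) (V := U), Module.natCard_eq_pow_finrank (K := K) (V := W),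
    Module.natCard_eq_pow_finrank (K := K) (V := LinearMap.ker Φ), ← pow_add, ← pow_add]
  exact Nat.pow_le_pow_right Nat.card_pos (by omega)

theorem hb1_two (x : Z2) : x + x = 0 := by
  revert x
  decide

theorem hb1_twoV (x : Vb) : x + x = 0 := funext fun _ => hb1_two _

theorem hb1_swap {x y z u : Z2} (h : x + y = z + u) : x + z = y + u := by
  revert x y z u
  decide

/-- The space of free symbols. -/
abbrev hb1W (Λ I₀ : Type) (m : ℕ) : Type :=
  (i : Fin m) → ((Λ ⊕ I₀) ⊕ {i' : Fin m // i' < i}) → Z2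

/-- The free symbols of an array. -/
def hb1xi (a : I₀ ⊕ Fin m → I₀ ⊕ Fin m → Z2) (b : I₀ ⊕ Fin m → Λ → Z2) : hb1W Λ I₀ m :=
  fun i => Sum.elim (Sum.elim (b (.inr i)) fun i' => a (.inr i) (.inl i'))
    fun i' => a (.inr i) (.inr i'.1)

/-- The symmetric array with given free symbols. -/
def hb1A (ξ : hb1W Λ I₀ m) : I₀ ⊕ Fin m → I₀ ⊕ Fin m → Z2
  | .inl _, .inl _ => 0
  | .inl i', .inr i => ξ i (.inl (.inr i'))
  | .inr i, .inl i' => ξ i (.inl (.inr i'))
  | .inr i, .inr i' => if h : i' < i then ξ i (.inr ⟨i', h⟩) else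
      if h' : i < i' then ξ i' (.inr ⟨i, h'⟩) else 0

def hb1B (ξ : hb1W Λ I₀ m) : I₀ ⊕ Fin m → Λ → Z2
  | .inl _, _ => 0
  | .inr i, l => ξ i (.inl (.inl l))

theorem hb1xi_add (a a' : I₀ ⊕ Fin m → I₀ ⊕ Fin m → Z2) (b b' : I₀ ⊕ Fin m → Λ → Z2) :
    hb1xi (a + a') (b + b') = hb1xi a b + hb1xi a' b' := by
  funext i k
  rcases k with (l | i') | i' <;> rfl

theorem hb1A_add (ξ ξ' : hb1W Λ I₀ m) : hb1A (ξ + ξ') = hb1A ξ + hb1A ξ' := by
  funext p q
  rcases p with p | p <;> rcases q with q | q <;> simp only [hb1A, Pi.add_apply, add_zero]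
  split_ifs <;> simp only [add_zero]

theorem hb1A_smul (r : Z2) (ξ : hb1W Λ I₀ m) : hb1A (r • ξ) = r • hb1A ξ := by
  funext p q
  rcases p with p | p <;> rcases q with q | q <;> simp only [hb1A, Pi.smul_apply, smul_zero]
  split_ifs <;> simp only [smul_zero]

theorem hb1B_add (ξ ξ' : hb1W Λ I₀ m) : hb1B (ξ + ξ') = hb1B ξ + hb1B ξ' := by
  funext p q
  rcases p with p | p <;> simp only [hb1B, Pi.add_apply, add_zero]

theorem hb1B_smul (r : Z2) (ξ : hb1W Λ I₀ m) : hb1B (r • ξ) = r • hb1B ξ := by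
  funext p q
  rcases p with p | p <;> simp only [hb1B, Pi.smul_apply, smul_zero]

theorem hb1_row_add (t : Λ → Nb) (a a' : I₀ ⊕ Fin m → I₀ ⊕ Fin m → Z2)
    (b b' : I₀ ⊕ Fin m → Λ → Z2) (v : Ty Λ I₀ m j) (i : I₀ ⊕ Fin m) (c : Fin j) :
    row t (a + a') (b + b') v i c = row t a b v i c + row t a' b' v i c := by
  simp only [row, Pi.add_apply, add_smul, sum_add_distrib]
  abel

theorem hb1_row_smul (t : Λ → Nb) (r : Z2) (a : I₀ ⊕ Fin m → I₀ ⊕ Fin m → Z2)
    (b : I₀ ⊕ Fin m → Λ → Z2) (v : Ty Λ I₀ m j) (i : I₀ ⊕ Fin m) (c : Fin j) :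
    row t (r • a) (r • b) v i c = r • row t a b v i c := by
  simp only [row, Pi.smul_apply, smul_add (M := Z2) r, smul_sum, smul_smul, smul_eq_mul]

theorem hb1_row_xi (t : Λ → Nb) {a : I₀ ⊕ Fin m → I₀ ⊕ Fin m → Z2} {b : I₀ ⊕ Fin m → Λ → Z2}
    (hs : ∀ i i', i ≠ i' → a i i' = a i' i) (h0 : ∀ i i', a (.inl i) (.inl i') = 0)
    (hb : ∀ i l, b (.inl i) l = 0) (v : Ty Λ I₀ m j) (i : I₀ ⊕ Fin m) (c : Fin j) :
    row t (hb1A (hb1xi a b)) (hb1B (hb1xi a b)) v i c = row t a b v i c := by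
  have hB : hb1B (hb1xi a b) = b := by
    funext p l
    rcases p with p | p
    · exact (hb p l).symm
    · rfl
  have hA : ∀ p q, p ≠ q → hb1A (hb1xi a b) p q = a p q := by
    intro p q hpq
    rcases p with p | p <;> rcases q with q | q
    · exact (h0 p q).symm
    · exact (hs _ _ hpq).symm
    · rfl
    · simp only [hb1A]
      split_ifs with h1 h2
      · rfl
      · exact (hs _ _ hpq).symm
      · exact absurd (congrArg Sum.inr (le_antisymm (not_lt.1 h1) (not_lt.1 h2))) hpq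
  simp only [row, hB]
  refine congrArg (· + _) (sum_congr rfl fun q _ => ?_)
  by_cases hq : i = q
  · rw [hq, hb1_twoV, smul_zero, smul_zero]
  · rw [hA i q hq]

theorem hb1_row_a (t : Λ → Nb) (v : Ty Λ I₀ m j) (p₀ q₀ p : I₀ ⊕ Fin m) (c : Fin j) :
    row t (fun p q => if p = p₀ ∧ q = q₀ then 1 else 0) 0 v p c =
      if p = p₀ then v (some (.inr q₀)) c + v (some (.inr p₀)) c else 0 := by
  simp only [row, Pi.zero_apply, zero_smul, sum_const_zero, add_zero]
  split_ifs with h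
  · rw [sum_eq_single q₀ (fun q _ hq => by rw [if_neg fun h => hq h.2, zero_smul])
      (fun h => absurd (mem_univ _) h), if_pos ⟨h, rfl⟩, one_smul, h]
  · exact sum_eq_zero fun q _ => by rw [if_neg fun h' => h h'.1, zero_smul]

theorem hb1_row_b (t : Λ → Nb) (v : Ty Λ I₀ m j) (p₀ : I₀ ⊕ Fin m) (l₀ : Λ) (p : I₀ ⊕ Fin m)
    (c : Fin j) :
    row t 0 (fun p l => if p = p₀ ∧ l = l₀ then 1 else 0) v p c =
      if p = p₀ then v (some (.inl l₀)) c + nu (t l₀) (v (some (.inr p₀)) c) else 0 := by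
  simp only [row, Pi.zero_apply, zero_smul, sum_const_zero, zero_add]
  split_ifs with h
  · rw [sum_eq_single l₀ (fun q _ hq => by rw [if_neg fun h => hq h.2, zero_smul])
      (fun h => absurd (mem_univ _) h), if_pos ⟨h, rfl⟩, one_smul, h]
  · exact sum_eq_zero fun q _ => by rw [if_neg fun h' => h h'.1, zero_smul]

theorem hb1_sum_ite (w : I₀ ⊕ Fin m → Fin j → Vb) (p₀ : I₀ ⊕ Fin m) (y : Fin j → Vb) :
    ∑ p, ∑ c, eb (w p c) (if p = p₀ then y c else 0) = ∑ c, eb (w p₀ c) (y c) := by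
  rw [sum_eq_single p₀ (fun p _ hp => sum_eq_zero fun c _ => by rw [if_neg hp, eb_zero_right])
    (fun h => absurd (mem_univ _) h)]
  simp only [if_true]

/-- What annihilates all rows is unlinked. -/
theorem hb1_unl (t : Λ → Nb) (v : Ty Λ I₀ m j) (w : I₀ ⊕ Fin m → Fin j → Vb)
    (h : ∀ ξ : hb1W Λ I₀ m, ∑ p, ∑ c, eb (w p c) (row t (hb1A ξ) (hb1B ξ) v p c) = 0) :
    Unl t v w := by
  refine ⟨fun i i' => ?_, fun i l => ?_⟩
  · let a₁ : I₀ ⊕ Fin m → I₀ ⊕ Fin m → Z2 := fun p q => if p = .inr i ∧ q = i' then 1 else 0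
    let a₂ : I₀ ⊕ Fin m → I₀ ⊕ Fin m → Z2 := fun p q => if p = i' ∧ q = .inr i then 1 else 0
    have hr : ∀ p c, row t (hb1A (hb1xi (a₁ + a₂) (0 + 0 : I₀ ⊕ Fin m → Λ → Z2)))
        (hb1B (hb1xi (a₁ + a₂) (0 + 0))) v p c =
        (if p = .inr i then v (some (.inr i')) c + v (some (.inr (.inr i))) c else 0) +
        (if p = i' then v (some (.inr (.inr i))) c + v (some (.inr i')) c else 0) := by
      intro p c
      rw [hb1_row_xi t (a := a₁ + a₂) (b := 0 + 0)
        (fun p q _ => by simp only [a₁, a₂, Pi.add_apply, and_comm, add_comm])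
        (fun p q => by simp [a₁, a₂]) (fun p q => by simp), hb1_row_add, hb1_row_a, hb1_row_a]
    have h1 := h (hb1xi (a₁ + a₂) (0 + 0))
    simp only [hr] at h1
    rw [sum_congr rfl fun p _ => (sum_congr rfl fun c _ => eb_add_right _ _ _).trans
      sum_add_distrib, sum_add_distrib, hb1_sum_ite, hb1_sum_ite, ← sum_add_distrib] at h1
    rw [← h1]
    refine sum_congr rfl fun c _ => ?_
    rw [eb_add_left, add_comm (v (some (.inr i')) c)]
  · let b₁ : I₀ ⊕ Fin m → Λ → Z2 := fun p l' => if p = .inr i ∧ l' = l then 1 else 0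
    have hr : ∀ p c, row t (hb1A (hb1xi 0 b₁)) (hb1B (hb1xi 0 b₁)) v p c =
        if p = .inr i then v (some (.inl l)) c + nu (t l) (v (some (.inr (.inr i))) c) else 0 := by
      intro p c
      rw [hb1_row_xi t (a := 0) (b := b₁) (fun p q _ => rfl) (fun p q => rfl)
        (fun p q => by simp [b₁]), hb1_row_b]
    have h1 := h (hb1xi 0 b₁)
    simp only [hr] at h1
    rwa [hb1_sum_ite] at h1

/-- The rows off `S` as a linear map. -/
def hb1L (t : Λ → Nb) (v : Ty Λ I₀ m j) (S : Finset (Fin m)) :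
    hb1W Λ I₀ m →ₗ[Z2] (I₀ ⊕ Fin m → Fin j → Vb) where
  toFun ξ p c := if ∀ s ∈ S, p ≠ .inr s then row t (hb1A ξ) (hb1B ξ) v p c else 0
  map_add' ξ ξ' := by
    funext p c
    simp only [Pi.add_apply, hb1A_add, hb1B_add, hb1_row_add]
    split_ifs <;> simp only [add_zero]
  map_smul' r ξ := by
    funext p c
    simp only [Pi.smul_apply, hb1A_smul, hb1B_smul, hb1_row_smul, RingHom.id_apply]
    split_ifs <;> simp only [smul_zero]

/-- The pairing. -/
def hb1P (I₀ : Type) [Fintype I₀] (m j : ℕ) :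
    (I₀ ⊕ Fin m → Fin j → Vb) →ₗ[Z2] (I₀ ⊕ Fin m → Fin j → Vb) →ₗ[Z2] Z2 :=
  LinearMap.mk₂ Z2 (fun w y => ∑ p, ∑ c, eb (w p c) (y p c))
    (fun w w' y => by simp only [Pi.add_apply, eb_add_left, sum_add_distrib])
    (fun r w y => by simp only [Pi.smul_apply, eb_smul_left, smul_eq_mul, mul_sum])
    (fun w y y' => by simp only [Pi.add_apply, eb_add_right, sum_add_distrib])
    (fun r w y => by simp only [Pi.smul_apply, eb_smul_right, smul_eq_mul, mul_sum])

theorem hb1_cardV : Nat.card (Fin j → Vb) = nv ^ j := by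
  rw [Nat.card_fun, Nat.card_eq_fintype_card, card_Vb, Nat.card_eq_fintype_card, Fintype.card_fin]

theorem hb1_cardW :
    Nat.card (hb1W Λ I₀ m) = 2 ^ (∑ i : Fin m, (Fintype.card (Λ ⊕ I₀) + i.val)) := by
  rw [Nat.card_pi, ← prod_pow_eq_pow_sum]
  refine prod_congr rfl fun i _ => ?_
  rw [Nat.card_fun, Nat.card_zmod, Nat.card_sum, pow_one, Nat.card_eq_fintype_card,
    Nat.card_eq_fintype_card, Fintype.card_subtype, ← Fin.card_Iio]
  refine congrArg (fun n => 2 ^ (_ + n)) (congrArg card (Finset.ext fun x => ?_))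
  simp only [mem_filter, mem_univ, true_and, mem_Iio]

theorem hb1_card_ann (t : Λ → Nb) (v : Ty Λ I₀ m j) (S : Finset (Fin m)) :
    Nat.card {w // ∀ ξ, hb1P I₀ m j w (hb1L t v S ξ) = 0} ≤
      (nv ^ j) ^ S.card * (univ.filter fun w => Unl t v w).card := by
  let g : {w // ∀ ξ, hb1P I₀ m j w (hb1L t v S ξ) = 0} → (S → Fin j → Vb) × {w // Unl t v w} :=
    fun w => (fun s => w.1 (.inr s.1), ⟨fun p => if ∀ s ∈ S, p ≠ .inr s then w.1 p else 0,
      hb1_unl t v _ fun ξ => by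
        refine Eq.trans ?_ (w.2 ξ)
        refine sum_congr rfl fun p _ => sum_congr rfl fun c _ => ?_
        change _ = eb (w.1 p c)
          (if ∀ s ∈ S, p ≠ .inr s then row t (hb1A ξ) (hb1B ξ) v p c else 0)
        split_ifs
        · rfl
        · rw [eb_zero_right, Pi.zero_apply, eb_zero_left]⟩)
  have hg : Function.Injective g := by
    intro w w' h
    refine Subtype.ext (funext fun p => ?_)
    by_cases hp : ∀ s ∈ S, p ≠ .inr s
    · have h1 := congrFun (congrArg (fun z => z.2.1) h) p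
      simpa only [g, if_pos hp] using h1
    · push Not at hp
      obtain ⟨s, hs, rfl⟩ := hp
      exact congrFun (congrArg Prod.fst h) ⟨s, hs⟩
  refine (Nat.card_le_card_of_injective g hg).trans (le_of_eq ?_)
  rw [Nat.card_prod, Nat.card_fun, hb1_cardV, Nat.card_eq_fintype_card, Fintype.card_coe,
    Nat.card_eq_fintype_card, Fintype.card_subtype]

/-- The first moment: the rows are an affine function of the free symbols; expand the indicator
function in characters (or count with the annihilator of the image).  See the README (block HB1). -/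
theorem count_rows {Ω : Type} {𝒳 : Finset Ω} {a : Ω → I₀ ⊕ Fin m → I₀ ⊕ Fin m → Z2}
    {b : Ω → I₀ ⊕ Fin m → Λ → Z2} (h : Sym 𝒳 a b) (t : Λ → Nb) (v : Ty Λ I₀ m j)
    (S : Finset (Fin m)) (tg : I₀ ⊕ Fin m → Fin j → Vb) :
    ((𝒳.filter fun x => ∀ i, (∀ s ∈ S, i ≠ .inr s) → ∀ c, row t (a x) (b x) v i c = tg i c).card : ℝ)
      * (nv ^ j) ^ (Fintype.card I₀ + m) ≤
      2 * (nv ^ j) ^ S.card * (univ.filter fun w => Unl t v w).card * 𝒳.card := by
  generalize hF : (𝒳.filter fun x =>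
    ∀ i, (∀ s ∈ S, i ≠ .inr s) → ∀ c, row t (a x) (b x) v i c = tg i c) = F
  have hm : ∀ x, x ∈ F ↔ x ∈ 𝒳 ∧
      ∀ i, (∀ s ∈ S, i ≠ .inr s) → ∀ c, row t (a x) (b x) v i c = tg i c := fun x => by
    rw [← hF, mem_filter]
  rcases F.eq_empty_or_nonempty with rfl | ⟨y, hy⟩
  · rw [card_empty, Nat.cast_zero, zero_mul]
    positivity
  have : Fact (Nat.Prime (2 ^ 1)) := ⟨by norm_num⟩
  have hy' := (hm y).1 hy
  let K : Finset (hb1W Λ I₀ m) := univ.filter fun ξ => hb1L t v S ξ = 0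
  have hmap : ∀ x ∈ F, hb1xi (a x) (b x) + hb1xi (a y) (b y) ∈ K := by
    intro x hx
    have hx' := (hm x).1 hx
    refine mem_filter.2 ⟨mem_univ _, funext fun p => funext fun c => ?_⟩
    change (if ∀ s ∈ S, p ≠ .inr s then row t (hb1A _) (hb1B _) v p c else 0) = 0
    split_ifs with hp
    · rw [← hb1xi_add, hb1_row_xi t (a := a x + a y) (b := b x + b y)
        (fun i i' hi => (hb1_swap (h.recip x hx'.1 y hy'.1 i i' hi)))
        (fun i i' => by rw [Pi.add_apply, Pi.add_apply, h.small x hx'.1 y hy'.1, hb1_two])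
        (fun i l => by rw [Pi.add_apply, Pi.add_apply, h.smallb x hx'.1 y hy'.1, hb1_two]),
        hb1_row_add, hx'.2 p hp, hy'.2 p hp, hb1_twoV]
    · rfl
  have hfib : ∀ k : hb1W Λ I₀ m,
      ((F.filter fun x => hb1xi (a x) (b x) + hb1xi (a y) (b y) = k).card : ℝ) *
        Nat.card (hb1W Λ I₀ m) ≤ 2 * 𝒳.card := by
    intro k
    let ξ := k - hb1xi (a y) (b y)
    refine le_trans ?_ (h.dist (fun i z => ξ i (.inl z))
      fun i i' => if h : i' < i then ξ i (.inr ⟨i', h⟩) else 0)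
    rw [hb1_cardW, Nat.cast_pow, Nat.cast_ofNat]
    refine mul_le_mul_of_nonneg_right (Nat.cast_le.2 (card_le_card fun x hx => ?_)) (by positivity)
    obtain ⟨hx, he⟩ := mem_filter.1 hx
    have he' : ξ = hb1xi (a x) (b x) := (eq_sub_of_add_eq he).symm
    refine mem_filter.2 ⟨((hm x).1 hx).1, fun i => ⟨⟨fun l => ?_, fun i' => ?_⟩, fun i' hi => ?_⟩⟩
    · rw [he']
      rfl
    · rw [he']
      rfl
    · rw [dif_pos hi, he']
      rfl
  have h1 : (F.card : ℝ) * Nat.card (hb1W Λ I₀ m) ≤ K.card * (2 * 𝒳.card) := by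
    rw [card_eq_sum_card_fiberwise hmap, Nat.cast_sum, sum_mul, ← nsmul_eq_mul]
    exact sum_le_card_nsmul _ _ _ fun k _ => hfib k
  have h2 := (hb1_ann (hb1L t v S) (hb1P I₀ m j)).trans
    (Nat.mul_le_mul_left _ (hb1_card_ann t v S))
  have e1 : Nat.card {ξ // hb1L t v S ξ = 0} = K.card := by
    rw [Nat.card_eq_fintype_card, Fintype.card_subtype]
  have e2 : Nat.card (I₀ ⊕ Fin m → Fin j → Vb) = (nv ^ j) ^ (Fintype.card I₀ + m) := by
    rw [Nat.card_fun, hb1_cardV, Nat.card_eq_fintype_card, Fintype.card_sum, Fintype.card_fin]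
  rw [e1, e2] at h2
  have h3 : (K.card : ℝ) * (nv ^ j) ^ (Fintype.card I₀ + m) ≤ Nat.card (hb1W Λ I₀ m) *
      ((nv ^ j) ^ S.card * (univ.filter fun w => Unl t v w).card) := by exact_mod_cast h2
  have hW : (0 : ℝ) < Nat.card (hb1W Λ I₀ m) := Nat.cast_pos.2 Nat.card_pos
  refine le_of_mul_le_mul_right ?_ hW
  calc _ = (F.card : ℝ) * Nat.card (hb1W Λ I₀ m) * (nv ^ j) ^ (Fintype.card I₀ + m) := by ring
    _ ≤ K.card * (2 * 𝒳.card) * (nv ^ j) ^ (Fintype.card I₀ + m) :=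
      mul_le_mul_of_nonneg_right h1 (by positivity)
    _ = K.card * (nv ^ j) ^ (Fintype.card I₀ + m) * (2 * 𝒳.card) := by ring
    _ ≤ Nat.card (hb1W Λ I₀ m) * ((nv ^ j) ^ S.card * (univ.filter fun w => Unl t v w).card) *
        (2 * 𝒳.card) := mul_le_mul_of_nonneg_right h3 (by positivity)
    _ = _ := by ring

end

end Pool.Agent.Lib.MP_16ef92_ag.GF.GV
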