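import Mathlib
import Pool.Agent.Lib.MP_16ef92_ag.GV.HBd

set_option autoImplicit false
set_option linter.unusedSectionVars false
set_option linter.unusedVariables false

namespace Pool.Agent.Lib.MP_16ef92_ag.GF.GV

open Finset
open scoped Classical

noncomputable section

variable [Sp]

section aux

/-- Pairwise orthogonal sets for a nondegenerate form over a finite field. -/
theorem hb2_iso {F W : Type} [Field F] [Fintype F] [AddCommGroup W] [Module F W] [Fintype W]
    (B : LinearMap.BilinForm F W) (hB : B.Nondegenerate) (D : Finset W)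
    (hD : ∀ x ∈ D, ∀ y ∈ D, B x y = 0) {N : ℕ} (hN : Fintype.card W = N ^ 2) :
    D.card ≤ N ∧ (D.card = N → ∀ x, (∀ y ∈ D, B y x = 0) → x ∈ D) := by
  have key : ∀ x, (∀ y ∈ D, B y x = 0) → x ∈ B.orthogonal (Submodule.span F (D : Set W)) := by
    intro x hx n hn
    exact (Submodule.span_le (p := LinearMap.ker (B.flip x))).2 (fun y hy => hx y hy) hn
  have h1 : D ⊆ univ.filter fun x => x ∈ Submodule.span F (D : Set W) :=
    fun x hx => mem_filter.2 ⟨mem_univ _, Submodule.subset_span hx⟩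
  have h2 : D ⊆ univ.filter fun x => x ∈ B.orthogonal (Submodule.span F (D : Set W)) :=
    fun x hx => mem_filter.2 ⟨mem_univ _, key x fun y hy => hD y hy x hx⟩
  have h3 : ∀ L : Submodule F W, (univ.filter fun x => x ∈ L).card =
      Fintype.card F ^ Module.finrank F L := fun L => by
    rw [← Module.card_eq_pow_finrank, Fintype.card_subtype]
  have h4 : (univ.filter fun x => x ∈ Submodule.span F (D : Set W)).card *
      (univ.filter fun x => x ∈ B.orthogonal (Submodule.span F (D : Set W))).card = N ^ 2 := by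
    rw [h3, h3, ← pow_add, B.finrank_orthogonal hB, Nat.add_sub_cancel' (Submodule.finrank_le _),
      ← Module.card_eq_pow_finrank, hN]
  have h5 := card_le_card h1
  have h6 := card_le_card h2
  refine ⟨?_, fun e x hx => ?_⟩
  · refine (Nat.pow_le_pow_iff_left two_ne_zero).1 ?_
    rw [← h4, sq]
    exact Nat.mul_le_mul h5 h6
  · have h7 : 0 < N := Nat.pos_of_ne_zero fun h => by
      rw [h] at hN
      exact Fintype.card_ne_zero hN
    have h8 : (univ.filter fun x => x ∈ B.orthogonal (Submodule.span F (D : Set W))).card ≤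
        D.card := by
      refine Nat.le_of_mul_le_mul_left ?_ h7
      calc _ ≤ N ^ 2 := h4 ▸ Nat.mul_le_mul_right _ (e ▸ h5)
        _ = N * D.card := by rw [e, sq]
    rw [eq_of_subset_of_card_le h2 h8]
    exact mem_filter.2 ⟨mem_univ _, key x hx⟩

theorem hb2_self {M : Type} [AddCommGroup M] [Module Z2 M] (x : M) : x + x = 0 := by
  rw [← two_smul Z2, show (2 : Z2) = 0 by decide, zero_smul]

theorem hb2_eq {M : Type} [AddCommGroup M] [Module Z2 M] {x y : M} (h : x + y = 0) : x = y := by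
  rw [← add_zero x, ← hb2_self y, ← add_assoc, h, zero_add]

theorem hb2_eb_nd' (x : Vb) (h : ∀ y, eb x y = 0) : x = 0 :=
  funext fun a => (eb_single x a).symm.trans (h _)

theorem hb2_eb_nd (x : Vb) (h : ∀ y, eb y x = 0) : x = 0 :=
  hb2_eb_nd' x fun y => (eb_comm x y).trans (h y)

theorem hb2_nu_add (t : Nb) (x y : Vb) : nu t (x + y) = nu t x + nu t y := map_add t x y

theorem hb2_nu_smul (t : Nb) (x : Vb) (a : Z2) : nu t (a • x) = a • nu t x := map_smul t a x

theorem hb2_ex (x : Vb) (h : x ≠ 0) : ∃ t : Vb, eb t x = 1 := by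
  by_contra e
  exact h (hb2_eb_nd x fun y => (z2_cases _).resolve_right fun e' => e ⟨y, e'⟩)

variable {j : ℕ}

/-- The pairing of two tuples. -/
def hb2P (j : ℕ) : (Fin j → Vb) →ₗ[Z2] (Fin j → Vb) →ₗ[Z2] Z2 :=
  LinearMap.mk₂ Z2 (fun w n => ∑ c, eb (w c) (n c))
    (fun _ _ _ => by simp only [Pi.add_apply, eb_add_left, sum_add_distrib])
    (fun _ _ _ => by simp only [Pi.smul_apply, eb_smul_left, smul_eq_mul, mul_sum])
    (fun _ _ _ => by simp only [Pi.add_apply, eb_add_right, sum_add_distrib])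
    (fun _ _ _ => by simp only [Pi.smul_apply, eb_smul_right, smul_eq_mul, mul_sum])

theorem hb2P_apply (w n : Fin j → Vb) : hb2P j w n = ∑ c, eb (w c) (n c) := rfl

theorem hb2P_l (w : Fin j → Vb) (h : ∀ n, hb2P j w n = 0) : w = 0 := by
  refine funext fun c => hb2_eb_nd' _ fun y => ?_
  rw [← h (Pi.single c y), hb2P_apply, sum_eq_single c, Pi.single_eq_same]
  · intro b _ hb
    rw [Pi.single_eq_of_ne hb]
    simp [eb]
  · exact fun h => absurd (mem_univ _) h

theorem hb2P_r (n : Fin j → Vb) (h : ∀ w, hb2P j w n = 0) : n = 0 := by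
  refine funext fun c => hb2_eb_nd _ fun y => ?_
  rw [← h (Pi.single c y), hb2P_apply, sum_eq_single c, Pi.single_eq_same]
  · intro b _ hb
    rw [Pi.single_eq_of_ne hb]
    simp [eb]
  · exact fun h => absurd (mem_univ _) h

theorem hb2P_smul (α : Fin j → Z2) (n : Fin j → Vb) (h : ∀ w, hb2P j (fun c => α c • w) n = 0) :
    ∑ c, α c • n c = 0 := by
  refine hb2_eb_nd _ fun y => ?_
  rw [← h y, hb2P_apply]
  simp only [eb_smul_left, ← eb_smul_right]
  exact map_sum (AddMonoidHom.mk' (eb y) (eb_add_right y)) _ _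

/-- Types. -/
abbrev HT (j : ℕ) : Type := (Fin j → Vb) × (Fin j → Vb)

/-- The polar form. -/
def hb2B (j : ℕ) : LinearMap.BilinForm Z2 (HT j) :=
  (hb2P j).compl₁₂ (LinearMap.snd Z2 _ _) (LinearMap.fst Z2 _ _) +
    ((hb2P j).compl₁₂ (LinearMap.snd Z2 _ _) (LinearMap.fst Z2 _ _)).flip

theorem hb2B_apply (x y : HT j) : hb2B j x y = hb2P j x.2 y.1 + hb2P j y.2 x.1 := rfl

theorem hb2B_nd : (hb2B j).Nondegenerate := by
  have h : ∀ x : HT j, (∀ y, hb2B j x y = 0) → x = 0 := fun x hx =>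
    Prod.ext (hb2P_r _ fun w => by simpa [hb2B_apply] using hx (0, w))
      (hb2P_l _ fun n => by simpa [hb2B_apply] using hx (n, 0))
  exact ⟨h, fun x hx => h x fun y => by rw [← hx y, hb2B_apply, hb2B_apply, add_comm]⟩

/-- Unlinked sets of types. -/
def hb2U (S : Finset (HT j)) : Prop := ∀ x ∈ S, ∀ y ∈ S, hb2P j (x + y).2 (x + y).1 = 0

theorem hb2U.orth {S : Finset (HT j)} (h : hb2U S) {a b c : HT j} (ha : a ∈ S) (hb : b ∈ S)
    (hc : c ∈ S) : hb2B j (b + a) (c + a) = 0 := by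
  have h1 := h b hb c hc
  have e : b + c = (b + a) + (c + a) := by
    rw [add_add_add_comm, hb2_self, add_zero]
  have h2 := h b hb a ha
  have h3 := h c hc a ha
  rw [e, Prod.fst_add, Prod.snd_add, map_add, LinearMap.map_add₂, LinearMap.map_add₂, h2, h3,
    zero_add, add_zero, add_comm] at h1
  exact h1

theorem hb2_cardU : Fintype.card (Fin j → Vb) = nv ^ j := by
  rw [Fintype.card_fun, card_Vb, Fintype.card_fin]

theorem hb2_cardT : Fintype.card (HT j) = (nv ^ j) ^ 2 := by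
  rw [Fintype.card_prod, hb2_cardU, sq]

theorem hb2U.struct {S : Finset (HT j)} (h : hb2U S) : S.card ≤ nv ^ j ∧
    (S.card = nv ^ j → ∀ a ∈ S, ∀ x, (∀ b ∈ S, hb2B j (b + a) x = 0) → x + a ∈ S) := by
  have : Fact (Nat.Prime (2 ^ 1)) := ⟨by norm_num⟩
  have key : ∀ a ∈ S, _ := fun a ha => hb2_iso (hb2B j) hb2B_nd (S.image (· + a))
    (fun x hx y hy => by
      obtain ⟨b, hb, rfl⟩ := mem_image.1 hx
      obtain ⟨c, hc, rfl⟩ := mem_image.1 hy
      exact h.orth ha hb hc) hb2_cardT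
  simp only [card_image_of_injective _ (add_left_injective _)] at key
  refine ⟨?_, fun e a ha x hx => ?_⟩
  · rcases S.eq_empty_or_nonempty with rfl | ⟨a, ha⟩
    · exact Nat.zero_le _
    · exact (key a ha).1
  · obtain ⟨b, hb, rfl⟩ := mem_image.1 ((key a ha).2 e x fun y hy => by
      obtain ⟨b, hb, rfl⟩ := mem_image.1 hy
      exact hx b hb)
    rwa [add_assoc, hb2_self, add_zero]

/-- In a maximal unlinked set the first projection is onto or there is a constant combination. -/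
theorem hb2U.max {S : Finset (HT j)} (h : hb2U S) (e : S.card = nv ^ j) {Λ : Type} (t : Λ → Nb)
    (ht : Gn t) (u : Λ → Fin j → Vb)
    (hu : ∀ a ∈ S, ∀ l, hb2P j a.2 (fun c => u l c + nu (t l) (a.1 c)) = 0) :
    (∀ n, ∃ a ∈ S, a.1 = n) ∨ ∃ α : Fin j → Z2, α ≠ 0 ∧ ∃ r : Vb,
      (∀ a ∈ S, ∑ c, α c • a.1 c = r) ∧ ∀ l, ∑ c, α c • u l c = nu (t l) r := by
  by_cases h0 : ∀ w : Fin j → Vb, (∀ a ∈ S, ∀ b ∈ S, hb2P j w (b.1 + a.1) = 0) → w = 0
  · left
    have h1 : Set.InjOn Prod.fst (S : Set (HT j)) := by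
      intro a ha b hb hab
      refine Prod.ext hab (hb2_eq (h0 _ fun c hc d hd => ?_))
      have h2 : ∀ c ∈ S, hb2P j (a.2 + b.2) (c.1 + b.1) = 0 := fun c hc => by
        have h3 := h.orth hb ha hc
        rwa [hb2B_apply, Prod.fst_add a b, hab, hb2_self, map_zero, add_zero] at h3
      have h3 : d.1 + c.1 = (d.1 + b.1) + (c.1 + b.1) := by
        rw [add_add_add_comm, hb2_self, add_zero]
      rw [h3, map_add, h2 c hc, h2 d hd, add_zero]
    have h2 : S.image Prod.fst = univ :=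
      eq_univ_of_card _ (by rw [card_image_of_injOn h1, e, hb2_cardU])
    exact fun n => mem_image.1 (h2 ▸ mem_univ n)
  right
  push Not at h0
  obtain ⟨w, hw, hw0⟩ := h0
  have k1 : ∀ w : Fin j → Vb, (∀ a ∈ S, ∀ b ∈ S, hb2P j w (b.1 + a.1) = 0) → ∀ a ∈ S, ∀ l,
      hb2P j w (fun c => u l c + nu (t l) (a.1 c)) = 0 := by
    intro w hw a ha l
    have h1 := hu _ (h.struct.2 e a ha (0, w) fun b hb => by
      rw [hb2B_apply, map_zero, zero_add]
      exact hw a ha b hb) l
    rw [Prod.snd_add, Prod.fst_add, zero_add, LinearMap.map_add₂, hu a ha l, add_zero] at h1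
    exact h1
  have k2 : ∀ r : Nb, ∀ w : Fin j → Vb, (∀ a ∈ S, ∀ b ∈ S, hb2P j w (b.1 + a.1) = 0) →
      ∀ a ∈ S, ∀ b ∈ S, hb2P j (fun c => r (w c)) (b.1 + a.1) = 0 := by
    intro r
    have hr : r ∈ Algebra.adjoin Z2 (Set.range t) := ht.gen ▸ Algebra.mem_top
    induction hr using Algebra.adjoin_induction with
    | mem r hr =>
      intro w hw a ha b hb
      obtain ⟨l, rfl⟩ := hr
      have h1 := congrArg₂ (· + ·) (k1 w hw b hb l) (k1 w hw a ha l)
      simp only [← map_add, add_zero] at h1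
      rw [← h1, hb2P_apply, hb2P_apply]
      refine sum_congr rfl fun c _ => (ht.sa l _ _).trans ?_
      rw [Pi.add_apply, Pi.add_apply, add_add_add_comm, hb2_self, zero_add, hb2_nu_add]
    | algebraMap z =>
      intro w hw a ha b hb
      exact (LinearMap.map_smul₂ _ z w _).trans (by rw [hw a ha b hb, smul_zero])
    | add r r' _ _ h1 h2 =>
      intro w hw a ha b hb
      exact (LinearMap.map_add₂ _ (fun c => r (w c)) (fun c => r' (w c)) _).trans
        (by rw [h1 w hw a ha b hb, h2 w hw a ha b hb, add_zero])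
    | mul r r' _ _ h1 h2 => exact fun w hw => h1 _ (h2 w hw)
  obtain ⟨c₀, hc₀⟩ := Function.ne_iff.1 hw0
  obtain ⟨s, hs1⟩ := hb2_ex _ hc₀
  have k3 : ∀ y : Vb, ∀ a ∈ S, ∀ b ∈ S,
      hb2P j (fun c => eb s (w c) • y) (b.1 + a.1) = 0 := fun y =>
    k2 ((⟨⟨eb s, eb_add_right s⟩, fun a x => eb_smul_right a s x⟩ : Vb →ₗ[Z2] Z2).smulRight y) w hw
  obtain ⟨a, ha⟩ : S.Nonempty := card_pos.1 (e ▸ Nat.pow_pos (two_pos.trans_le two_le_nv))
  refine ⟨fun c => eb s (w c), fun h1 => ?_, ∑ c, eb s (w c) • a.1 c, fun b hb => ?_, fun l => ?_⟩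
  · exact absurd (hs1.symm.trans (congrFun h1 c₀)) (by decide : ¬ (1 : Z2) = 0)
  · have h1 := hb2P_smul _ _ fun y => k3 y a ha b hb
    simp only [Pi.add_apply, smul_add, sum_add_distrib] at h1
    exact hb2_eq h1
  · have h1 := hb2P_smul _ _ fun y => k1 _ (k3 y) a ha l
    simp only [smul_add, sum_add_distrib, ← hb2_nu_smul] at h1
    exact (hb2_eq h1).trans
      (map_sum (AddMonoidHom.mk' (nu (t l)) (hb2_nu_add (t l))) _ _).symm

variable {Λ I₀ : Type} [Fintype Λ] [Fintype I₀] {m : ℕ}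

/-- All types lie in a set with `N` elements. -/
def hb2A {X I : Type} (N : ℕ) (g : I → X) : Prop := ∃ S : Finset X, S.card = N ∧ ∀ i, g i ∈ S

/-- The types of the large indices lie in a small set up to a rare type. -/
def hb2R {X : Type} [DecidableEq X] (N K : ℕ) (O : Finset (Fin m)) (g : I₀ ⊕ Fin m → X) : Prop :=
  ∃ p : Finset X × X, p.1.card < N ∧ (∀ i, g (.inr i) ∈ insert p.2 p.1) ∧
    (O.filter fun i => g (.inr i) = p.2).card ≤ K

/-- The type map of a pair. -/
def hb2T (v : Ty Λ I₀ m j) (w : I₀ ⊕ Fin m → Fin j → Vb) (i : I₀ ⊕ Fin m) : HT j :=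
  (v (some (.inr i)), w i)

theorem hb2_dich {t : Λ → Nb} (ht : Gn t) (O : Finset (Fin m)) (K : ℕ)
    {v : Ty Λ I₀ m j} {w : I₀ ⊕ Fin m → Fin j → Vb} (h : Unl t v w) :
    (hb2A (nv ^ j) (hb2T v w) ∧ ¬ (Indep t v ∧ ¬ Gnr O K v)) ∨ hb2R (nv ^ j) K O (hb2T v w) := by
  obtain ⟨S, hS⟩ : ∃ S : Finset (HT j), ∀ a, a ∈ S ↔ ∃ i : Fin m, hb2T v w (.inr i) = a :=
    ⟨univ.image fun i => hb2T v w (.inr i), fun a => by simp⟩
  have h1 : ∀ i', hb2U (insert (hb2T v w i') S) := by
    intro i' x hx y hy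
    have e : ∀ x ∈ S, ∀ i, hb2P j (x + hb2T v w i).2 (x + hb2T v w i).1 = 0 := fun x hx i => by
      obtain ⟨i₁, rfl⟩ := (hS x).1 hx
      exact h.1 i₁ i
    rcases mem_insert.1 hx with rfl | hx
    · rcases mem_insert.1 hy with rfl | hy
      · rw [hb2_self]
        exact map_zero _
      · rw [add_comm]
        exact e y hy i'
    · rcases mem_insert.1 hy with rfl | hy
      · exact e x hx i'
      · obtain ⟨i₁, rfl⟩ := (hS y).1 hy
        exact e x hx _
  have hm : ∀ i, hb2T v w (.inr i) ∈ S := fun i => (hS _).2 ⟨i, rfl⟩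
  have hU : hb2U S := fun x hx y hy => by
    obtain ⟨i, -⟩ := (hS x).1 hx
    exact h1 (.inr i) x (mem_insert_of_mem hx) y (mem_insert_of_mem hy)
  rcases hU.struct.1.eq_or_lt with e | e
  · by_cases hK : ∀ a ∈ S, K ≤ (O.filter fun i => hb2T v w (.inr i) = a).card
    · have h2 : ∀ i, hb2T v w i ∈ S := fun i => by
        by_contra h3
        have h4 := (h1 i).struct.1
        rw [card_insert_of_notMem h3, e] at h4
        exact Nat.not_succ_le_self _ h4
      refine .inl ⟨⟨S, e, h2⟩, fun ⟨h3, h4⟩ => ?_⟩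
      rcases hU.max e t ht (fun l => v (some (.inl l))) (fun a ha l => by
        obtain ⟨i, rfl⟩ := (hS a).1 ha
        exact h.2 i l) with h5 | ⟨α, h5, r, h6, h7⟩
      · refine h4 fun τ => ?_
        obtain ⟨a, ha, rfl⟩ := h5 τ
        exact (hK a ha).trans (card_le_card fun i hi =>
          mem_filter.2 ⟨(mem_filter.1 hi).1, congrArg Prod.fst (mem_filter.1 hi).2⟩)
      · exact h3 α h5 ⟨r, fun i => h6 _ (h2 i), h7⟩
    · push Not at hK
      obtain ⟨a, ha, h2⟩ := hK
      exact .inr ⟨(S.erase a, a), e ▸ card_erase_lt_of_mem ha,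
        fun i => (insert_erase ha).ge (hm i), h2.le⟩
  · obtain ⟨a, -, ha⟩ := exists_mem_notMem_of_card_lt_card (s := S) (t := univ)
      (e.trans_le (by rw [card_univ, hb2_cardT]; exact Nat.le_self_pow two_ne_zero _))
    refine .inr ⟨(S, a), e, fun i => mem_insert_of_mem (hm i), ?_⟩
    exact (card_eq_zero.2 (filter_eq_empty_iff.2
      fun i _ (h2 : hb2T v w (.inr i) = a) => ha (h2 ▸ hm i))).trans_le (Nat.zero_le _)

theorem hb2_cntA {X I : Type} [Fintype X] [Fintype I] [DecidableEq I] (N : ℕ) :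
    (univ.filter fun g : I → X => hb2A N g).card ≤ 2 ^ Fintype.card X * N ^ Fintype.card I := by
  have h1 : (univ.filter fun g : I → X => hb2A N g) ⊆
      (univ.filter fun S : Finset X => S.card = N).biUnion fun S => Fintype.piFinset fun _ => S := by
    intro g hg
    obtain ⟨S, h1, h2⟩ := (mem_filter.1 hg).2
    exact mem_biUnion.2 ⟨S, mem_filter.2 ⟨mem_univ _, h1⟩, Fintype.mem_piFinset.2 h2⟩
  refine (card_le_card h1).trans ((card_biUnion_le_card_mul _ _ (N ^ Fintype.card I)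
    fun S hS => ?_).trans (Nat.mul_le_mul_right _ ?_))
  · rw [Fintype.card_piFinset, prod_const, (mem_filter.1 hS).2, card_univ]
  · exact (card_le_univ _).trans_eq Fintype.card_finset

theorem hb2_cntR1 {X : Type} [Fintype X] [DecidableEq X] {N : ℕ} (K : ℕ) (O : Finset (Fin m))
    (p : Finset X × X) (hp : p.1.card < N) :
    ((univ.filter fun g : I₀ ⊕ Fin m → X => (∀ i, g (.inr i) ∈ insert p.2 p.1) ∧
      (O.filter fun i => g (.inr i) = p.2).card ≤ K).card : ℝ) ≤
      2 ^ K * (Fintype.card X ^ Fintype.card I₀ * (N ^ m * (1 - 1 / (2 * N)) ^ O.card)) := by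
  have hN : (p.1.card : ℝ) + 1 ≤ N := by exact_mod_cast hp
  have hN0 : (0 : ℝ) < N := by linarith [(Nat.cast_nonneg p.1.card : (0 : ℝ) ≤ _)]
  let f : I₀ ⊕ Fin m → X → ℝ := Sum.elim (fun _ _ => 1) fun i x =>
    (if x ∈ p.1 then 1 else 0) + if x = p.2 then (if i ∈ O then 1 / 2 else 1) else 0
  have f0 : ∀ i x, 0 ≤ f i x := by
    rintro (i | i) x
    · exact zero_le_one
    · simp only [f, Sum.elim_inr]
      split_ifs <;> norm_num
  calc _ ≤ ∑ g : I₀ ⊕ Fin m → X, 2 ^ K * ∏ i, f i (g i) := by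
        rw [card_eq_sum_ones, Nat.cast_sum]
        refine (sum_le_sum fun g hg => ?_).trans (sum_le_sum_of_subset_of_nonneg (subset_univ _)
          fun g _ _ => mul_nonneg (by positivity) (prod_nonneg fun i _ => f0 _ _))
        obtain ⟨h1, h2⟩ := (mem_filter.1 hg).2
        have h3 : (1 / 2 : ℝ) ^ K ≤ ∏ i, f i (g i) := by
          rw [Fintype.prod_sum_type]
          simp only [f, Sum.elim_inl, Sum.elim_inr, prod_const_one, one_mul]
          calc (1 / 2 : ℝ) ^ K ≤ (1 / 2) ^ (O.filter fun i => g (.inr i) = p.2).card :=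
                pow_le_pow_of_le_one (by norm_num) (by norm_num) h2
            _ = ∏ i : Fin m, if i ∈ O.filter fun i => g (.inr i) = p.2 then (1 / 2 : ℝ) else 1 := by
                rw [prod_ite_mem, univ_inter, prod_const]
            _ ≤ _ := by
                refine prod_le_prod (fun i _ => by split_ifs <;> norm_num) fun i _ => ?_
                have h4 := mem_insert.1 (h1 i)
                simp only [mem_filter]
                by_cases a1 : g (.inr i) = p.2 <;> by_cases a2 : i ∈ O <;>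
                  by_cases a3 : g (.inr i) ∈ p.1 <;>
                  simp only [a1, a2, a3, if_true, if_false, and_self, and_true, and_false,
                    or_self] at h4 ⊢ <;> (try split_ifs) <;> norm_num
        calc ((1 : ℕ) : ℝ) = 2 ^ K * (1 / 2) ^ K := by rw [← mul_pow]; norm_num
          _ ≤ _ := mul_le_mul_of_nonneg_left h3 (by positivity)
    _ = 2 ^ K * ∏ i, ∑ x, f i x := by
        rw [← mul_sum, prod_univ_sum, Fintype.piFinset_univ]
    _ ≤ _ := by
        refine mul_le_mul_of_nonneg_left ?_ (by positivity)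
        rw [Fintype.prod_sum_type]
        refine mul_le_mul (le_of_eq (by simp [f])) ?_
          (prod_nonneg fun i _ => sum_nonneg fun x _ => f0 _ _) (by positivity)
        calc _ ≤ ∏ i : Fin m, (N : ℝ) * if i ∈ O then (1 : ℝ) - 1 / (2 * N) else 1 := by
              refine prod_le_prod (fun i _ => sum_nonneg fun x _ => f0 _ _) fun i _ => ?_
              simp only [f, Sum.elim_inr, sum_add_distrib, sum_ite_mem, univ_inter, sum_const,
                nsmul_eq_mul, mul_one, sum_ite_eq', mem_univ, if_true]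
              split_ifs
              · rw [show (N : ℝ) * (1 - 1 / (2 * N)) = N - 1 / 2 by field_simp]
                linarith
              · linarith
          _ = _ := by
              rw [prod_mul_distrib, prod_const, prod_ite_mem, univ_inter, prod_const, card_univ,
                Fintype.card_fin]

theorem hb2_cntR {X : Type} [Fintype X] [DecidableEq X] {N : ℕ} (hN : 0 < N) (K : ℕ)
    (O : Finset (Fin m)) :
    ((univ.filter fun g : I₀ ⊕ Fin m → X => hb2R N K O g).card : ℝ) ≤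
      2 ^ Fintype.card X * Fintype.card X * (2 ^ K * (Fintype.card X ^ Fintype.card I₀ *
        (N ^ m * (1 - 1 / (2 * N)) ^ O.card))) := by
  have h1 : (univ.filter fun g : I₀ ⊕ Fin m → X => hb2R N K O g) ⊆
      (univ.filter fun p : Finset X × X => p.1.card < N).biUnion fun p =>
        univ.filter fun g : I₀ ⊕ Fin m → X => (∀ i, g (.inr i) ∈ insert p.2 p.1) ∧
          (O.filter fun i => g (.inr i) = p.2).card ≤ K := by
    intro g hg
    obtain ⟨p, h1, h2⟩ := (mem_filter.1 hg).2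
    exact mem_biUnion.2 ⟨p, mem_filter.2 ⟨mem_univ _, h1⟩, mem_filter.2 ⟨mem_univ _, h2⟩⟩
  have h2 : (1 : ℝ) ≤ N := by exact_mod_cast hN
  have h3 : (0 : ℝ) ≤ 1 - 1 / (2 * N) := by
    rw [sub_nonneg, div_le_one (by linarith)]
    linarith
  refine (Nat.cast_le.2 ((card_le_card h1).trans card_biUnion_le)).trans ?_
  rw [Nat.cast_sum]
  refine (sum_le_card_nsmul _ _ _ fun p hp => hb2_cntR1 K O p (mem_filter.1 hp).2).trans ?_
  rw [nsmul_eq_mul]
  refine mul_le_mul_of_nonneg_right ?_ (by positivity)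
  have h4 := card_le_univ (univ.filter fun p : Finset X × X => p.1.card < N)
  rw [Fintype.card_prod, Fintype.card_finset] at h4
  exact_mod_cast h4

theorem hb2_pairs (t : Λ → Nb) (V : Finset (Ty Λ I₀ m j)) (G : Finset (I₀ ⊕ Fin m → HT j))
    (h : ∀ v ∈ V, ∀ w, Unl t v w → hb2T v w ∈ G) :
    ∑ v ∈ V, ((univ.filter fun w => Unl t v w).card : ℝ) ≤
      (nv ^ j) ^ (Fintype.card Λ + 1) * G.card := by
  have h1 : (V.sigma fun v => univ.filter fun w => Unl t v w).card ≤
      ((univ : Finset (Option Λ → Fin j → Vb)) ×ˢ G).card := by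
    refine card_le_card_of_injOn
      (fun x => (fun o => x.1 (o.map .inl), hb2T x.1 x.2)) (fun x hx => ?_) ?_
    · obtain ⟨h2, h3⟩ := mem_sigma.1 hx
      exact mem_product.2 ⟨mem_univ _, h _ h2 _ (mem_filter.1 h3).2⟩
    · rintro ⟨v, w⟩ - ⟨v', w'⟩ - e
      obtain ⟨e1, e2⟩ := Prod.mk.inj e
      obtain rfl : v = v' := funext fun o => by
        rcases o with _ | l | i
        exacts [congrFun e1 none, congrFun e1 (some l), congrArg Prod.fst (congrFun e2 i)]
      obtain rfl : w = w' := funext fun i => congrArg Prod.snd (congrFun e2 i)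
      rfl
  rw [card_sigma, card_product, card_univ, Fintype.card_fun, hb2_cardU, Fintype.card_option] at h1
  exact_mod_cast h1

theorem hb2_M {ρ C N δ : ℝ} (h0 : 0 ≤ ρ) (h1 : ρ < 1) (hC : 0 < C) (hN : 0 < N) (hδ : 0 < δ) :
    ∃ M : ℕ, ∀ r n : ℕ, M * (r + 1) ≤ n → C * N ^ r * ρ ^ n ≤ δ := by
  obtain ⟨M, hM⟩ := exists_pow_lt_of_lt_one (lt_min (div_pos hδ hC) (one_div_pos.2 hN)) h1
  obtain ⟨h2, h3⟩ := lt_min_iff.1 hM
  rw [lt_div_iff₀ hC] at h2
  rw [lt_div_iff₀ hN] at h3
  refine ⟨M, fun r n hn => ?_⟩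
  calc C * N ^ r * ρ ^ n ≤ C * N ^ r * ρ ^ (M * (r + 1)) :=
        mul_le_mul_of_nonneg_left (pow_le_pow_of_le_one h0 h1.le hn) (by positivity)
    _ = ρ ^ M * C * (ρ ^ M * N) ^ r := by rw [pow_mul, pow_succ, mul_pow]; ring
    _ ≤ δ * 1 := mul_le_mul h2.le (pow_le_one₀ (by positivity) h3.le) (by positivity) hδ.le
    _ = δ := mul_one δ

end aux

/-- Counting unlinked pairs; see the README (block HB2). -/
theorem count_unl (j K lam : ℕ) {δ : ℝ} (hδ : 0 < δ) : ∃ M : ℕ,
    ∀ (Λ I₀ : Type) [Fintype Λ] [Fintype I₀] (m : ℕ) (t : Λ → Nb) (O : Finset (Fin m)),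
      Fintype.card Λ = lam → Gn t →
      M * (Fintype.card I₀ + 1) ≤ O.card →
      (∑ v : Ty Λ I₀ m j, ((univ.filter fun w => Unl t v w).card : ℝ) ≤
        (2 ^ ((nv ^ j) ^ 2) * (nv ^ j) ^ (lam + 1) + δ) * (nv ^ j) ^ (Fintype.card I₀ + m)) ∧
      ∑ v ∈ univ.filter fun v : Ty Λ I₀ m j => Indep t v ∧ ¬ Gnr O K v,
        ((univ.filter fun w => Unl t v w).card : ℝ) ≤ δ * (nv ^ j) ^ (Fintype.card I₀ + m) := by
  have h4 : (1 : ℝ) ≤ nv ^ j := one_le_pow₀ (by exact_mod_cast one_le_two.trans two_le_nv)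
  obtain ⟨M, hM⟩ := hb2_M (ρ := 1 - 1 / (2 * nv ^ j))
    (C := (nv ^ j) ^ (lam + 1) * (2 ^ ((nv ^ j) ^ 2) * (nv ^ j) ^ 2 * 2 ^ K)) (N := nv ^ j)
    (by rw [sub_nonneg, div_le_one (by linarith)]; linarith) (sub_lt_self _ (by positivity))
    (by positivity) (by positivity) hδ
  refine ⟨M, fun Λ I₀ _ _ m t O hl ht hO => ?_⟩
  have e : Fintype.card (HT j) = (nv ^ j) ^ 2 := hb2_cardT
  have hA : ((univ.filter fun g : I₀ ⊕ Fin m → HT j => hb2A (nv ^ j) g).card : ℝ) ≤
      2 ^ ((nv ^ j) ^ 2) * (nv ^ j) ^ (Fintype.card I₀ + m) := by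
    have h1 := hb2_cntA (X := HT j) (I := I₀ ⊕ Fin m) (nv ^ j)
    rw [e, Fintype.card_sum, Fintype.card_fin] at h1
    exact_mod_cast h1
  have hR : (nv ^ j : ℝ) ^ (lam + 1) *
      ((univ.filter fun g : I₀ ⊕ Fin m → HT j => hb2R (nv ^ j) K O g).card : ℝ) ≤
      δ * (nv ^ j) ^ (Fintype.card I₀ + m) := by
    have h1 := hb2_cntR (X := HT j) (I₀ := I₀) (N := nv ^ j) (Nat.pow_pos (two_pos.trans_le two_le_nv)) K O
    rw [e] at h1
    push_cast at h1
    refine (mul_le_mul_of_nonneg_left h1 (by positivity)).trans (le_of_eq_of_le ?_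
      (mul_le_mul_of_nonneg_right (hM _ _ hO) (by positivity)))
    have e2 : (((nv : ℝ) ^ j) ^ 2) ^ Fintype.card I₀ =
        (nv ^ j) ^ Fintype.card I₀ * (nv ^ j) ^ Fintype.card I₀ := by
      rw [← mul_pow, sq]
    rw [e2, pow_add (nv ^ j : ℝ) _ m]
    generalize (1 - 1 / (2 * nv ^ j) : ℝ) ^ O.card = x
    ring
  constructor
  · refine (hb2_pairs t univ ((univ.filter fun g => hb2A (nv ^ j) g) ∪
      univ.filter fun g => hb2R (nv ^ j) K O g) fun v _ w h => ?_).trans ?_
    · exact mem_union.2 ((hb2_dich ht O K h).imp (fun h1 => mem_filter.2 ⟨mem_univ _, h1.1⟩)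
        fun h1 => mem_filter.2 ⟨mem_univ _, h1⟩)
    · rw [hl]
      refine (mul_le_mul_of_nonneg_left (Nat.cast_le.2 (card_union_le _ _))
        (by positivity)).trans ?_
      rw [Nat.cast_add, mul_add, add_mul]
      refine add_le_add ((mul_le_mul_of_nonneg_left hA (by positivity)).trans_eq ?_) hR
      rw [← mul_assoc, mul_comm (_ ^ (lam + 1))]
  · refine (hb2_pairs t _ (univ.filter fun g => hb2R (nv ^ j) K O g) fun v hv w h => ?_).trans
      (hl ▸ hR)
    exact mem_filter.2 ⟨mem_univ _, (hb2_dich ht O K h).resolve_left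
      fun h1 => h1.2 (mem_filter.1 hv).2⟩

end

end Pool.Agent.Lib.MP_16ef92_ag.GF.GV
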