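import Mathlib
import Pool.Agent.Lib.MP_16ef92_ag.GV.FXd
import Pool.Agent.Lib.MP_16ef92_ag.GF.ASd
import Pool.Agent.Lib.MP_16ef92_ag.GV.HBd

set_option autoImplicit false
set_option linter.unusedSectionVars false
set_option linter.unusedVariables false

namespace Pool.Agent.Lib.MP_16ef92_ag.GF.GV

open Polynomial
open scoped Classical

noncomputable section

variable [Sp]

/-- The parameters with prescribed values modulo two on the generators. -/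
def Cg {Λ I : Type} (H : Λ → EV) (v : Option (Λ ⊕ I) → Vb) (μ : Prs Λ I) : Prop :=
  rh (μ none) = v none ∧ (∀ l, rh (H l (μ (some (.inl l)))) = v (some (.inl l))) ∧
    ∀ i, rh (μ (some (.inr i))) = v (some (.inr i))

variable {F : Type} [Field F] [Clos F] [Fintype F] [hq : Fact (Odd (Fintype.card F))]
  {Λ I₀ : Type} [Fintype Λ] [Fintype I₀] {m j : ℕ}

/-- The conditions modulo two. -/
def Rows (f : F[X] → Gam F) (lp : Λ → F[X]) (t : Λ → Nb) (v : Ty Λ I₀ m j)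
    (tg : I₀ ⊕ Fin m → Fin j → Vb) (x : I₀ ⊕ Fin m → F[X]) : Prop :=
  ∀ i c, row t (fun i i' => sy f (x i') (x i)) (fun i l => sy f (lp l) (x i)) v i c = tg i c

variable [Fro F]

/-- The alternatives for a twist that is not good. -/
def Alt {Z : Finset F[X]} {bd : ℕ} (R : Pres Z bd) (P : Par F Λ) (t : Λ → Nb) (k : ℕ)
    (n : I₀ ⊕ Fin m → ℕ) (tg₁ : Ty Λ I₀ m 1 → I₀ ⊕ Fin m → Fin 1 → Vb)
    (tg₂ : Option (Fin (k + 1)) → Ty Λ I₀ m 2 → I₀ ⊕ Fin m → Fin 2 → Vb)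
    (x : I₀ ⊕ Fin m → F[X]) : Prop :=
  (∃ v : Ty Λ I₀ m 1, Indep t v ∧ (∃ r, ∀ i, Odd (n i) → v (some (.inr i)) 0 = r) ∧
    Rows R.f P.lp t v (tg₁ v) x) ∨
  ∃ (o : Option (Fin (k + 1))) (v : Ty Λ I₀ m 2), Indep t v ∧ Rows R.f P.lp t v (tg₂ o v) x ∧
    ∀ i ∈ Finset.Ico (stv o) (stv o + k), Ev (Cg P.Hl fun a => v a 0)
      (fun i => lb (v (some (.inr i)) 1)) (thv o) i (dat R P x)

/-- The output of the descent. -/
def Redu (Bad : F[X] → Prop) (lp : Λ → F[X]) (t : Λ → Nb) : Prop :=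
  ∀ k : ℕ, ∃ bd₀ : ℕ, ∀ (Z : Finset F[X]) (bd : ℕ) (R : Pres Z bd), bd₀ ≤ bd → (∀ l, lp l ∈ Z) →
    ∀ (u : F), u ≠ 0 → ∀ d : ℕ, ∃ P : Par F Λ, P.lp = lp ∧
      ∀ (I₀ : Type) [Fintype I₀] (m : ℕ) (n : I₀ ⊕ Fin m → ℕ), ∑ i, n i = d → (∃ i, Odd (n i)) →
        ∃ tg₁ tg₂, ∀ x : I₀ ⊕ Fin m → F[X], (∀ i, x i ∈ Z ∧ (x i).natDegree = n i) →
          Bad (C u * ∏ i, x i) → Alt R P t k n tg₁ tg₂ x

end

end Pool.Agent.Lib.MP_16ef92_ag.GF.GV
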