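import Mathlib
import Pool.Agent.Lib.MP_16ef92_ag.GF.FXmain
import Pool.Agent.Lib.MP_16ef92_ag.GV.FXlat

set_option autoImplicit false
set_option linter.unusedSectionVars false
set_option linter.unusedVariables false

namespace Pool.Agent.Lib.MP_16ef92_ag.GF.GV

open Polynomial Finset
open scoped Classical

noncomputable section

variable [Sp]

variable {F : Type} [Field F] [Clos F] [Fintype F] [hq : Fact (Odd (Fintype.card F))] [Fro F]
  {Z : Finset F[X]} {bd : ℕ} {Λ I S K : Type} [Fintype Λ] [Fintype I] [Fintype S] [Fintype K]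

/-- The base conditions together with the events of the levels in `Ls`. -/
def Evs (R : Pres Z bd) (A : Par F Λ) (Cg : Prs Λ I → Prop) (w : I → V) (θ : ℤ_[2])
    (G : K → I → I → F[X] → F[X] → ZMod (2 ^ 1)) (tg : K → ZMod (2 ^ 1)) (Ls : Finset ℕ)
    (x : I → F[X]) : Prop := Bs G tg x ∧ ∀ i ∈ Ls, Ev Cg w θ i (dat R A x)

variable (Λ I K) in
/-- The low data. -/
abbrev Low : Type := Dat Λ I × (K → ℤ_[2]) × (Fin 5 → ℤ_[2])

instance : Module.Free ℤ_[2] (Prs Λ I) := Module.Free.pi _ _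

instance : Module.Finite ℤ_[2] (Prs Λ I) := Module.Finite.pi

instance : Module.Free ℤ_[2] (Dat Λ I) := Module.Free.prod _ _ _

instance : Module.Finite ℤ_[2] (Dat Λ I) := Module.Finite.prod

theorem finrank_low : Module.finrank ℤ_[2] (Low Λ I K) =
    2 * Fintype.card Sp.ι ^ 2 * (Fintype.card Λ + Fintype.card I + 1) ^ 2 + Fintype.card K + 5 := by
  have h : Module.finrank ℤ_[2] (Prs Λ I) =
      Fintype.card Sp.ι * (Fintype.card Λ + Fintype.card I + 1) := by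
    simp [Module.finrank_pi_fintype, mul_comm]
  simp only [Module.finrank_prod, Module.finrank_linearMap, h, Module.finrank_self,
    Module.finrank_fintype_fun_eq_card, Fintype.card_fin]
  ring

/-- The data rebuilt from low data. -/
def rcd (b a : I) (c : Low Λ I K) : Dat Λ I := c.1 + (2 * FF c.2.2) • Eb b a

/-- The old events, read off the low data. -/
def PrL (Cg : Prs Λ I → Prop) (w : I → V) (θ : ℤ_[2]) (tg : K → ZMod (2 ^ 1)) (Ls : Finset ℕ)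
    (j : ℕ) (b a : I) (c : Low Λ I K) : Prop :=
  (∀ k, red 1 (c.2.1 k) = tg k) ∧ (∀ i ∈ Ls, Ev Cg w θ i (rcd b a c)) ∧ ∃ ν, Ok Cg j (rcd b a c) ν

/-- The new test, read off the low data. -/
def tauL (Cg : Prs Λ I → Prop) (w : I → V) (θ : ℤ_[2]) (j : ℕ) (b a : I) (c : Low Λ I K) :
    ZMod (2 ^ 1) := if ∀ ν, Ok Cg j (rcd b a c) ν → Tst w θ j (rcd b a c) ν then 0 else 1

theorem low_inv (Cg : Prs Λ I → Prop) (w : I → V) (θ : ℤ_[2]) (tg : K → ZMod (2 ^ 1))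
    {Ls : Finset ℕ} {j : ℕ} (hLs : ∀ i ∈ Ls, i < j) (b a : I) (c d c' : Low Λ I K)
    (h : c' = c + (2 : ℤ_[2]) ^ (j + 2) • d) :
    (PrL Cg w θ tg Ls j b a c' ↔ PrL Cg w θ tg Ls j b a c) ∧
      tauL Cg w θ j b a c' = tauL Cg w θ j b a c := by
  subst h
  obtain ⟨t, ht⟩ := FF_add (j + 2) c.2.2 d.2.2
  have h1 : Cl w j (rcd b a (c + (2 : ℤ_[2]) ^ (j + 2) • d)) (rcd b a c) := by
    have := cl_smul (w := w) (i := j) (rcd b a c) (d.1 + (2 * t) • Eb b a)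
    convert this using 1
    simp only [rcd, Prod.fst_add, Prod.snd_add, Prod.smul_fst, Prod.smul_snd, ht]
    module
  have h2 : ∀ k, red 1 ((c + (2 : ℤ_[2]) ^ (j + 2) • d).2.1 k) = red 1 (c.2.1 k) := fun k =>
    red_eq.2 (by simpa using (dvd_pow_self 2 (Nat.succ_ne_zero (j + 1))).mul_right _)
  refine ⟨and_congr (by simp only [h2]) (and_congr (forall₂_congr fun i hi =>
    (h1.mono (hLs i hi).le).ev) (by simp only [h1.ok])), ?_⟩
  simp only [tauL, h1.ok, h1.tst]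

theorem grid_bound (R : Pres Z bd) (A : Par F Λ) {e : S → I} (he : Function.Injective e)
    {a b : S} (hab : a ≠ b) {j : ℕ} (hj : 1 ≤ j) (hS : Fintype.card S = j + 2) (x₀ : I → F[X])
    {Cg : Prs Λ I → Prop} {w : I → V} (θ : ℤ_[2])
    (G : K → I → I → F[X] → F[X] → ZMod (2 ^ 1)) (tg : K → ZMod (2 ^ 1))
    {Ls : Finset ℕ} (hLs : ∀ i ∈ Ls, i < j) (hw : ∀ s, s ≠ b → w (e s) = 0)
    (hC₁ : ∀ μ, Cg μ → ∀ s, s ≠ a → μ (some (.inr (e s))) ∈ Dv 1)
    (hC₂ : ∀ μ, Cg μ → ¬ 2 ∣ om (w (e b)) (μ (some (.inr (e a))))) {E : ℕ} {ε : ℝ}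
    (z : S → Fin E → F[X]) {c : Fin 5 → (S → Fin E) → ℤ_[2]} (hc : ∀ i, c i ∈ Poly ℤ_[2])
    {t : (S → Fin E) → ℤ_[2]} (ht : ∀ x, 2 ^ (j + 1) ∣ (DU R (univ.erase b) a (fun s => z s (x s))
      (R.wd (R.f (z b (x b))))).a - (FF (fun i => c i x) + 2 ^ j * t x))
    (hG : GenA (PrL (fun ν => Cg (kp e a ν)) w θ tg Ls j (e b) (e a))
      (tauL (fun ν => Cg (kp e a ν)) w θ j (e b) (e a)) ε fun x => red 1 (t x)) :
    ∑ x, ((if Evs R A Cg w θ G tg (insert j Ls) (gp e z x₀ x) then (1 : ℝ) else 0) -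
      (if Evs R A Cg w θ G tg Ls (gp e z x₀ x) then (1 : ℝ) else 0) / 2) ≤ ε * E ^ (j + 2) := by
  obtain ⟨l, hl, hcl⟩ := low_dat z x₀ R A he hab hS hw
  let L : (S → Fin E) → Low Λ I K := fun x => (l x, fun k => ∑ i, ∑ i',
    ((G k i i' (gp e z x₀ x i) (gp e z x₀ x i')).val : ℤ_[2]), fun i => c i x)
  have hL : L ∈ Poly (Low Λ I K) := Poly.prod hl (Poly.prod (Poly.pi fun k => Poly.sum _ fun i _ =>
    Poly.sum _ fun i' _ => poly_pair he (by omega) z x₀ i i' fun p r => (G k i i' p r).val)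
    (Poly.pi hc))
  have h1 := hG L hL
  rw [hS, card_filter, card_filter, ← sub_le_iff_le_add'] at h1
  push_cast at h1
  rw [sum_div, ← sum_sub_distrib] at h1
  refine le_trans (sum_le_sum fun x _ => ?_) h1
  obtain ⟨u, hu⟩ := ht x
  have h2 : Cl w j ((dat R A (gp e z x₀ x)).cmp (kp e a))
      (rcd (e b) (e a) (L x) + ((2 : ℤ_[2]) ^ (j + 1) * t x) • Eb (e b) (e a)) := by
    refine (hcl x).trans ?_
    have := cl_smul (w := w) (i := j) (rcd (e b) (e a) (L x) +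
      ((2 : ℤ_[2]) ^ (j + 1) * t x) • Eb (e b) (e a)) (u • Eb (e b) (e a))
    convert this using 1
    rw [eq_add_of_sub_eq hu]
    simp only [rcd, L]
    module
  obtain ⟨h3, h4⟩ := ev_top (Cg := fun ν => Cg (kp e a ν)) (θ := θ) h2 fun ν hν => by
    have := hC₂ _ hν
    rwa [show kp e a ν (some (.inr (e a))) = ν (some (.inr (e a))) from
      LinearMap.congr_fun (pj_kp_a he) ν] at this
  have h5 : ∀ i, Ev Cg w θ i (dat R A (gp e z x₀ x)) ↔ _ := fun i =>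
    ev_cmp (κ := kp e a) fun μ hμ => kp_surj (hC₁ μ hμ)
  have h6 : Bs G tg (gp e z x₀ x) ↔ ∀ k, red 1 ((L x).2.1 k) = tg k := by simp [Bs, L]
  have h7 : PrL (fun ν => Cg (kp e a ν)) w θ tg Ls j (e b) (e a) (L x) →
      Evs R A Cg w θ G tg Ls (gp e z x₀ x) := fun h =>
    ⟨h6.2 h.1, fun i hi => (h5 i).2 ((h3 i (hLs i hi)).2 (h.2.1 i hi))⟩
  by_cases h : Evs R A Cg w θ G tg (insert j Ls) (gp e z x₀ x)
  · obtain ⟨h8, h9⟩ := h4 ((h5 j).1 (h.2 j (mem_insert_self _ _)))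
    have h10 : PrL (fun ν => Cg (kp e a ν)) w θ tg Ls j (e b) (e a) (L x) := ⟨h6.1 h.1,
      fun i hi => (h3 i (hLs i hi)).1 ((h5 i).1 (h.2 i (mem_insert_of_mem hi))), h8⟩
    have h11 : tauL (fun ν => Cg (kp e a ν)) w θ j (e b) (e a) (L x) = red 1 (t x) := by
      rw [tauL, if_congr h9 rfl rfl]
      split_ifs with h12
      · exact (red_eq_zero.2 (by rwa [pow_one])).symm
      · exact ((z2_cases _).resolve_left fun e => h12 (by simpa using red_eq_zero.1 e)).symm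
    rw [if_pos h, if_pos (h7 h10), if_pos ⟨h10, h11⟩, if_pos h10]
  · rw [if_neg h]
    by_cases h10 : PrL (fun ν => Cg (kp e a ν)) w θ tg Ls j (e b) (e a) (L x)
    · rw [if_pos (h7 h10), if_pos h10]
      split_ifs <;> norm_num
    · simp only [h10, false_and, if_false]
      split_ifs <;> norm_num

/-- One more level halves the count on every large cell. -/
theorem halve_cell (R : Pres Z bd) (A : Par F Λ) {e : S → I} (he : Function.Injective e)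
    {a b : S} (hab : a ≠ b) {j : ℕ} (hj : 1 ≤ j) (hS : Fintype.card S = j + 2)
    {n : S → ℕ} (hn : Function.Injective n) (X : S → Finset F[X]) (hX : ∀ s, X s ⊆ Pn F (n s))
    (hXZ : ∀ s, X s ⊆ Z) (x₀ : I → F[X]) {Cg : Prs Λ I → Prop} {w : I → V} (θ : ℤ_[2])
    (G : K → I → I → F[X] → F[X] → ZMod (2 ^ 1)) (tg : K → ZMod (2 ^ 1))
    {Ls : Finset ℕ} (hLs : ∀ i ∈ Ls, i < j) (hw : ∀ s, s ≠ b → w (e s) = 0)
    (hC₁ : ∀ μ, Cg μ → ∀ s, s ≠ a → μ (some (.inr (e s))) ∈ Dv 1)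
    (hC₂ : ∀ μ, Cg μ → ¬ 2 ∣ om (w (e b)) (μ (some (.inr (e a)))))
    {E d : ℕ} {ε ϑ : ℝ} (hE : 0 < E) (hε : 0 < ε) (hε' : 3 * ε ≤ 1) (hϑ : 0 < ϑ)
    (hd : ∀ s, n s ≤ d) (hbd : 2 ^ ((j + 2) * E ^ (j + 2)) ≤ bd)
    (hbox : ∀ s, (E : ℝ) ^ 2 * (2 * 2 ^ ((j + 1) ^ 2 + 1) / ε) ^ ((E + 1) ^ (j + 1)) ≤ (X s).card)
    (hXb : ϑ * (Pn F (n b)).card ≤ (X b).card)
    (hch : 40 * (((2 : ℝ) ^ ((j + 2) * E ^ (j + 2))) ^ 2 * ((j + 1) * E * d + 1)) * E ≤
      (Fintype.card F : ℝ) ^ (n b / 2))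
    (hun : 3 * (2 ^ ((j + 2) * (2 * Fintype.card Sp.ι ^ 2 * (Fintype.card Λ + Fintype.card I + 1) ^ 2 + Fintype.card K + 5) *
      (j + 2) * E ^ (j + 1)) * Real.exp (-(2 * ε ^ 2 * (E : ℝ) ^ (j + 2)))) ≤ ε * ϑ ^ E) :
    ∑ y ∈ Fintype.piFinset X,
      ((if Evs R A Cg w θ G tg (insert j Ls) (Function.extend e y x₀) then (1 : ℝ) else 0) -
        (if Evs R A Cg w θ G tg Ls (Function.extend e y x₀) then (1 : ℝ) else 0) / 2) ≤
      6 * ε * ∏ s, ((X s).card : ℝ) := by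
  have hGn := count_genA (S := S) (E := E) (A := Low Λ I K) (j + 2)
    (PrL (fun ν => Cg (kp e a ν)) w θ tg Ls j (e b) (e a))
    (tauL (fun ν => Cg (kp e a ν)) w θ j (e b) (e a))
    (fun c d => low_inv _ w θ tg hLs (e b) (e a) c d _ rfl) hε
  rw [finrank_low, hS, show j + 2 - 1 = j + 1 from rfl] at hGn
  exact halve_abs R e hab hj hS hn X hX hXZ x₀ hE hε hε' hϑ hd hbd hbox hXb hch (by positivity) hun
    (fun y => (if Evs R A Cg w θ G tg (insert j Ls) y then (1 : ℝ) else 0) -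
      (if Evs R A Cg w θ G tg Ls y then (1 : ℝ) else 0) / 2)
    (fun y => by split_ifs <;> norm_num)
    (GenA (PrL (fun ν => Cg (kp e a ν)) w θ tg Ls j (e b) (e a))
      (tauL (fun ν => Cg (kp e a ν)) w θ j (e b) (e a)) ε) hGn fun z c hc t ht hG =>
    grid_bound R A he hab hj hS x₀ θ G tg hLs hw hC₁ hC₂ z hc ht hG

end

end Pool.Agent.Lib.MP_16ef92_ag.GF.GV
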