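import Mathlib
import Pool.Agent.Lib.MP_16ef92_ag.GF.Num

set_option autoImplicit false
set_option linter.unusedSectionVars false
set_option linter.unusedVariables false

namespace Pool.Agent.Lib.MP_16ef92_ag.GF.GV

open Filter
open scoped Classical

noncomputable section

/-- The inequalities between the parameters, for `L` the binary length of the degree. -/
structure Num (N lm dN jm : ℕ) (ε ζ : ℝ) (c L : ℕ) : Prop where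
  pos : 0 < L
  big : 16 ≤ L ^ c ∧ dN < L ^ c
  box : ∀ j ≤ jm, ∀ n, L ^ c ≤ n → ((L ^ 6 : ℕ) : ℝ) ^ 2 * (2 * 2 ^ ((j + 1) ^ 2 + 1) / ε) ^
    ((L ^ 6 + 1) ^ (j + 1)) ≤ (1 / 2) ^ ((2 * N + 4) * L ^ 2) * 2 ^ (n / 2)
  ch : ∀ j ≤ jm, ∀ n, L ^ c ≤ n → ∀ d < 2 ^ L, 40 * (((2 : ℝ) ^ ((j + 2) * (L ^ 6) ^ (j + 2))) ^ 2 *
    ((j + 1) * (L ^ 6 : ℕ) * d + 1)) * (L ^ 6 : ℕ) ≤ 2 ^ (n / 2)
  un : ∀ j ≤ jm, ∀ r ≤ L ^ 2, 3 * (2 ^ ((j + 2) * (2 * N ^ 2 * (lm + r + 1) ^ 2 + r * 2 * N + 5) * (j + 2) *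
    (L ^ 6) ^ (j + 1)) * Real.exp (-(2 * ε ^ 2 * ((L ^ 6 : ℕ) : ℝ) ^ (j + 2)))) ≤
      ε * ((1 / 2) ^ ((2 * N + 4) * L ^ 2)) ^ L ^ 6
  cell : ∀ r ≤ L ^ 2, (2 : ℝ) ^ (lm + r) * ((2 ^ N) ^ 2) ^ (lm + r + 1) * (1 / 2) ^ ((2 * N + 4) * L ^ 2) ≤ ζ
  sym : ∀ n, L ^ c ≤ n → ∀ d < 2 ^ L, ∀ r ≤ L ^ 2,
    40 * (((2 : ℝ) ^ (lm + r)) ^ 2 * (dN + d + 1 : ℕ)) ≤ 1 / (2 * L ^ 2) * 2 ^ (n / 2)

theorem num_box {N L j a e Q : ℕ} {ε : ℝ} (ha : (1 / 2 : ℝ) ^ a ≤ ε) (h1 : (j + 1) ^ 2 + 2 + a ≤ L)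
    (h2 : (L ^ 6 + 1) ^ (j + 1) ≤ Q) (h3 : (2 * N + 4) * L ≤ Q) (he : 50 * (L * Q) ≤ e) :
    ((L ^ 6 : ℕ) : ℝ) ^ 2 * (2 * 2 ^ ((j + 1) ^ 2 + 1) / ε) ^ ((L ^ 6 + 1) ^ (j + 1)) ≤
      (1 / 2) ^ ((2 * N + 4) * L ^ 2) * 2 ^ e := by
  have h0 : (0 : ℝ) < ε := lt_of_lt_of_le (by positivity) ha
  have a1 : ((L ^ 6 : ℕ) : ℝ) ≤ 2 ^ (6 * L) := by exact_mod_cast num_six L
  have a2 : (2 * 2 ^ ((j + 1) ^ 2 + 1) / ε : ℝ) ≤ 2 ^ L := by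
    rw [div_le_iff₀ h0]
    calc (2 * 2 ^ ((j + 1) ^ 2 + 1) : ℝ) = 2 ^ ((j + 1) ^ 2 + 2 + a) * (1 / 2) ^ a := by
          rw [pow_add _ _ a, mul_assoc, ← mul_pow]; norm_num; ring
      _ ≤ 2 ^ L * ε := by gcongr; norm_num
  rw [one_div, inv_pow, inv_mul_eq_div, le_div_iff₀ (by positivity)]
  calc _ ≤ ((2 : ℝ) ^ (6 * L)) ^ 2 * (2 ^ L) ^ ((L ^ 6 + 1) ^ (j + 1)) * 2 ^ ((2 * N + 4) * L ^ 2) := by
        gcongr
    _ = 2 ^ (6 * L * 2 + L * (L ^ 6 + 1) ^ (j + 1) + (2 * N + 4) * L ^ 2) := by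
        rw [← pow_mul, ← pow_mul, ← pow_add, ← pow_add]
    _ ≤ 2 ^ e := pow_le_pow_right₀ one_le_two (by
        nlinarith [Nat.mul_le_mul_left L h2, Nat.mul_le_mul_left L h3, Nat.le_mul_self L,
          Nat.zero_le (L * Q), Nat.zero_le (N * L * L)])

theorem num_exp {N L l j r a : ℕ} (h1 : (8 * N ^ 2 + 2 * N + 5) * (j + 2) ^ 2 + (2 * N + 5) ≤ L)
    (h2 : l + a + 2 ≤ L) (hr : r ≤ L ^ 2) :
    2 + a + (j + 2) * (2 * N ^ 2 * (l + r + 1) ^ 2 + r * 2 * N + 5) * (j + 2) *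
      (L ^ 6) ^ (j + 1) + (2 * N + 4) * L ^ 2 * L ^ 6 ≤ L * (L ^ 4 * (L ^ 6) ^ (j + 1)) := by
  have h0 : 1 ≤ L := by omega
  have p1 : L ≤ L ^ 2 := Nat.le_self_pow two_ne_zero L
  have p2 : L ^ 2 ≤ L ^ 4 := Nat.pow_le_pow_right h0 (by norm_num)
  have p3 : L ^ 6 ≤ (L ^ 6) ^ (j + 1) := Nat.le_self_pow j.succ_ne_zero _
  have p4 : 1 ≤ (L ^ 6) ^ (j + 1) := Nat.one_le_pow _ _ (by positivity)
  have p5 : (l + r + 1) ^ 2 ≤ (2 * L ^ 2) ^ 2 := Nat.pow_le_pow_left (by omega) 2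
  have p6 : 2 * N ^ 2 * (l + r + 1) ^ 2 + r * 2 * N + 5 ≤ (8 * N ^ 2 + 2 * N + 5) * L ^ 4 := by
    have := Nat.mul_le_mul_left (2 * N ^ 2) p5
    have := Nat.mul_le_mul_left (2 * N) (hr.trans p2)
    nlinarith
  calc _ ≤ L ^ 4 * (L ^ 6) ^ (j + 1) + (j + 2) * ((8 * N ^ 2 + 2 * N + 5) * L ^ 4) * (j + 2) *
        (L ^ 6) ^ (j + 1) + (2 * N + 4) * L ^ 4 * (L ^ 6) ^ (j + 1) := by
        gcongr
        exact le_trans (by omega) (Nat.le_mul_of_pos_right _ p4)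
    _ = ((8 * N ^ 2 + 2 * N + 5) * (j + 2) ^ 2 + (2 * N + 5)) * (L ^ 4 * (L ^ 6) ^ (j + 1)) := by
        ring
    _ ≤ _ := Nat.mul_le_mul_right _ h1

/-- Every factor is bounded by a power of two. -/
theorem num_ev (N lm dN jm : ℕ) {ε ζ : ℝ} (hε : 0 < ε) (hε1 : ε ≤ 1) (hζ : 0 < ζ) :
    ∃ c, 0 < c ∧ ∀ᶠ L in atTop, Num N lm dN jm ε ζ c L := by
  obtain ⟨a, ha⟩ := exists_pow_lt_of_lt_one hε one_half_lt_one
  obtain ⟨b, hb⟩ := exists_pow_lt_of_lt_one hζ one_half_lt_one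
  refine ⟨7 * (jm + 2) + 2, by omega, ?_⟩
  filter_upwards [eventually_ge_atTop (100 + (8 * N ^ 2 + 2 * N + 5) * (jm + 2) ^ 2 +
      (jm + 2) ^ 2 + a + b + lm + 2 * N * (lm + 1) + dN + 2 * N),
    (tendsto_natCast_atTop_atTop (R := ℝ)).eventually_ge_atTop (1 / (2 * ε ^ 2))] with L hL hE
  have h0 : 1 ≤ L := by omega
  have q1 : L ≤ L ^ (7 * (jm + 2)) := Nat.le_self_pow (by omega) L
  have q2 : L ≤ L ^ (7 * (jm + 2) + 2) := Nat.le_self_pow (by omega) L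
  have q3 : ∀ n, L ^ (7 * (jm + 2) + 2) ≤ n → 50 * (L * L ^ (7 * (jm + 2))) ≤ n / 2 := fun n hn => by
    refine (Nat.le_div_iff_mul_le two_pos).2 (le_trans ?_ hn)
    calc _ = 100 * (L * L ^ (7 * (jm + 2))) := by ring
      _ ≤ L * (L * L ^ (7 * (jm + 2))) := Nat.mul_le_mul_right _ (by omega)
      _ = _ := by ring
  have q4 : ∀ j ≤ jm, (L ^ 6 + 1) ^ (j + 2) ≤ L ^ (7 * (jm + 2)) := fun j hj => by
    have : L ^ 6 + 1 ≤ L ^ 7 := by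
      linarith [Nat.one_le_pow 6 L h0, Nat.mul_le_mul_left (L ^ 6) (show 2 ≤ L by omega)]
    rw [pow_mul]
    exact (Nat.pow_le_pow_left this _).trans (Nat.pow_le_pow_right (by omega) (by omega))
  have q5 : ∀ j ≤ jm, (j + 1) ^ 2 + 2 + a ≤ L ∧ j + 2 ≤ L ∧
      (8 * N ^ 2 + 2 * N + 5) * (j + 2) ^ 2 + (2 * N + 5) ≤ L :=
    fun j hj => by
      have h := Nat.pow_le_pow_left (show j + 2 ≤ jm + 2 by omega) 2
      have := Nat.mul_le_mul_left (8 * N ^ 2 + 2 * N + 5) h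
      have := Nat.pow_le_pow_left (show j + 1 ≤ j + 2 by omega) 2
      have := Nat.le_self_pow two_ne_zero (j + 2)
      omega
  have q6 : (2 * N + 4) * L ≤ L ^ (7 * (jm + 2)) :=
    (Nat.mul_le_mul_right L (show _ ≤ L by omega)).trans
      ((sq L).ge.trans (Nat.pow_le_pow_right h0 (by omega)))
  refine ⟨h0, ⟨by omega, by omega⟩, fun j hj n hn => num_box ha.le (q5 j hj).1
    ((Nat.pow_le_pow_right (by omega) (by omega)).trans (q4 j hj)) q6 (q3 n hn),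
    fun j hj n hn d hd => ?_, fun j hj r hr => ?_, fun r hr => ?_, fun n hn d hd r hr => ?_⟩
  · calc _ ≤ 40 * (((2 : ℝ) ^ ((j + 2) * (L ^ 6) ^ (j + 2))) ^ 2 *
          ((j + 1) * (L ^ 6 : ℕ) * 2 ^ L + 1)) * (L ^ 6 : ℕ) := by gcongr
      _ ≤ _ := by
        exact_mod_cast num_ch (q5 j hj).2.1
          ((Nat.pow_le_pow_left (Nat.le_succ _) _).trans (q4 j hj)) q1 (q3 n hn)
  · rw [← pow_mul (1 / 2 : ℝ)]
    refine num_un ha.le ((Nat.cast_le.2 (num_exp (l := lm) (q5 j hj).2.2 (by omega) hr)).trans ?_)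
    rw [div_le_iff₀ (by positivity)] at hE
    push_cast
    calc _ = 1 * ((L : ℝ) * (L ^ 4 * (L ^ 6) ^ (j + 1))) := (one_mul _).symm
      _ ≤ L * (2 * ε ^ 2) * (L * (L ^ 4 * (L ^ 6) ^ (j + 1))) := by gcongr
      _ = _ := by ring
  · refine le_trans ?_ hb.le
    obtain ⟨t, ht⟩ : ∃ t, (2 * N + 4) * L ^ 2 = lm + r + N * 2 * (lm + r + 1) + (b + t) :=
      ⟨(2 * N + 4) * L ^ 2 - (lm + r + N * 2 * (lm + r + 1) + b), by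
        have := Nat.le_self_pow two_ne_zero L
        have h1 := Nat.mul_le_mul_left (2 * N) hr
        have h2 : lm + r + N * 2 * (lm + r + 1) + b ≤ (2 * N + 4) * L ^ 2 := by nlinarith
        omega⟩
    rw [ht, ← pow_mul, ← pow_mul, ← mul_assoc N, ← pow_add, pow_add (1 / 2 : ℝ),
      ← mul_assoc, ← mul_pow, mul_one_div_cancel two_ne_zero, one_pow, one_mul]
    exact pow_le_pow_of_le_one (by norm_num) (by norm_num) (Nat.le_add_right _ _)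
  · rw [one_div, inv_mul_eq_div, le_div_iff₀ (by positivity)]
    exact_mod_cast num_sym (by omega) q1 (q3 n hn) hd hr

end

end Pool.Agent.Lib.MP_16ef92_ag.GF.GV
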