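import Mathlib
import Pool.Agent.Lib.MP_16ef92_ag.GF.SymI
import Pool.Agent.Lib.MP_16ef92_ag.GV.ASd
import Pool.Agent.Lib.MP_16ef92_ag.GV.FXmain
import Pool.Agent.Lib.MP_16ef92_ag.GV.Num

set_option autoImplicit false
set_option linter.unusedSectionVars false
set_option linter.unusedVariables false

namespace Pool.Agent.Lib.MP_16ef92_ag.GF.GV

open Polynomial
open scoped Classical

noncomputable section

variable [Sp]

variable {F : Type} [Field F] [Clos F] [Fintype F] [hq : Fact (Odd (Fintype.card F))] [Fro F]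
  {Λ I₀ : Type} [Fintype Λ] [Fintype I₀] {m : ℕ}

/-- The conditions modulo two at the primes outside `S`. -/
def RowsOff {j : ℕ} (f : F[X] → Gam F) (lp : Λ → F[X]) (t : Λ → Nb) (v : Ty Λ I₀ m j)
    (tg : I₀ ⊕ Fin m → Fin j → Vb) (S : Finset (Fin m)) (x : I₀ ⊕ Fin m → F[X]) : Prop :=
  ∀ i, (∀ s ∈ S, i ≠ .inr s) → ∀ c,
    row t (fun i i' => sy f (x i') (x i)) (fun i l => sy f (lp l) (x i)) v i c = tg i c

/-- The coordinates. -/
def cdb (b : Sp.ι) : Vb →+ Z2 := Pi.evalAddMonoidHom (fun _ => Z2) b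

/-- The rows as sums of functions of two primes. -/
def GG (f : F[X] → Gam F) (lp : Λ → F[X]) (t : Λ → Nb) (v : Ty Λ I₀ m 2)
    (k : (I₀ ⊕ Fin m) × Fin 2 × Sp.ι) (i i' : I₀ ⊕ Fin m) (p r : F[X]) : Z2 :=
  if i = k.1 then cdb k.2.2 (sy f r p • (v (some (.inr i')) k.2.1 + v (some (.inr k.1)) k.2.1) +
    if i' = k.1 then ∑ l, sy f (lp l) p •
      (v (some (.inl l)) k.2.1 + nu (t l) (v (some (.inr k.1)) k.2.1)) else 0) else 0

theorem bs_iff (f : F[X] → Gam F) (lp : Λ → F[X]) (t : Λ → Nb) (v : Ty Λ I₀ m 2)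
    (tg : I₀ ⊕ Fin m → Fin 2 → Vb) (x : I₀ ⊕ Fin m → F[X]) :
    Bs (GG f lp t v) (fun k => cdb k.2.2 (tg k.1 k.2.1)) x ↔ Rows f lp t v tg x := by
  have h : ∀ k, ∑ i, ∑ i', GG f lp t v k i i' (x i) (x i') = cdb k.2.2
      (row t (fun i i' => sy f (x i') (x i)) (fun i l => sy f (lp l) (x i)) v k.1 k.2.1) := by
    intro k
    rw [Finset.sum_eq_single k.1 (fun i _ hi => by simp [GG, hi]) (by simp)]
    simp only [GG, if_true, ← map_sum, Finset.sum_add_distrib, Finset.sum_ite_eq', Finset.mem_univ,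
      row]
  simp only [Bs, h, Rows]
  exact ⟨fun e i c => funext fun b => e (i, c, b), fun e k => by rw [e]⟩

/-- The number of points with the events of the levels in `Ls`. -/
def cnt {Z : Finset F[X]} {bd : ℕ} (R : Pres Z bd) (P : Par F Λ) (t : Λ → Nb) (y : I₀ → F[X])
    (n : Fin m → ℕ) (v : Ty Λ I₀ m 2) (tg : I₀ ⊕ Fin m → Fin 2 → Vb) (θ : ℤ_[2]) (Ls : Finset ℕ) :
    ℝ := ((Fintype.piFinset fun i => Pn F (n i)).filter fun x =>
      Rows R.f P.lp t v tg (Sum.elim y x) ∧ ∀ i ∈ Ls, Ev (Cg P.Hl fun a => v a 0)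
        (fun i => lb (v (some (.inr i)) 1)) θ i (dat R P (Sum.elim y x))).card

/-- Two vectors with pairing one. -/
def va : Vb := Pi.single (Sp.bar Sp.pt) 1

def vb : Vb := Pi.single Sp.pt 1

theorem eb_ba : eb vb va = 1 := (eb_single _ _).trans (Pi.single_eq_same _ _)

theorem va_ne : va ≠ 0 := fun e => absurd (eb_ba.symm.trans (e ▸ eb_zero_right _)) (by decide)

theorem vb_ne : vb ≠ 0 := fun e => absurd (eb_ba.symm.trans (e ▸ eb_zero_left _)) (by decide)

theorem exists_slots {O : Finset (Fin m)} {K j : ℕ} {v : Ty Λ I₀ m 2} (h : Gnr O K v) (hK : 1 ≤ K)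
    (hj : j ≤ K) : ∃ (S : Finset (Fin m)) (a b : S), a ≠ b ∧ S.card = j + 2 ∧
      v (some (.inr (.inr a))) 0 = va ∧ v (some (.inr (.inr b))) 1 = vb ∧
      (∀ s : S, s ≠ a → v (some (.inr (.inr s))) 0 = 0) ∧
      ∀ s : S, s ≠ b → v (some (.inr (.inr s))) 1 = 0 := by
  obtain ⟨a, ha⟩ := Finset.card_pos.1 (hK.trans (h ![va, 0]))
  obtain ⟨b, hb⟩ := Finset.card_pos.1 (hK.trans (h ![0, vb]))
  obtain ⟨U, hU, hc⟩ := Finset.exists_subset_card_eq (hj.trans (h 0))
  have h1 := (Finset.mem_filter.1 ha).2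
  have h2 := (Finset.mem_filter.1 hb).2
  have h3 := fun s hs => (Finset.mem_filter.1 (hU (x := s) hs)).2
  have hab : a ≠ b := fun e => va_ne (congrFun ((e ▸ h1).symm.trans h2) 0)
  have hb' : b ∉ U := fun e => vb_ne (congrFun (h2.symm.trans (h3 _ e)) 1)
  have ha' : a ∉ insert b U := fun e => (Finset.mem_insert.1 e).elim hab fun e =>
    va_ne (congrFun (h1.symm.trans (h3 _ e)) 0)
  refine ⟨insert a (insert b U), ⟨a, by simp⟩, ⟨b, by simp⟩, fun e => hab (congrArg Subtype.val e),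
    by rw [Finset.card_insert_of_notMem ha', Finset.card_insert_of_notMem hb', hc],
    by rw [h1]; rfl, by rw [h2]; rfl, ?_, ?_⟩
  · rintro ⟨s, hs⟩ e
    simp only [Finset.mem_insert] at hs
    rcases hs with rfl | rfl | hs
    · exact (e rfl).elim
    · rw [h2]; rfl
    · rw [h3 s hs]; rfl
  · rintro ⟨s, hs⟩ e
    simp only [Finset.mem_insert] at hs
    rcases hs with rfl | rfl | hs
    · rw [h1]; rfl
    · exact (e rfl).elim
    · rw [h3 s hs]; rfl

theorem extend_elim {Y : Type} (S : Finset (Fin m)) (z : S → Y) (y : I₀ → Y) (x : Fin m → Y) :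
    Function.extend (fun s : S => (Sum.inr s.1 : I₀ ⊕ Fin m)) z (Sum.elim y x) =
      Sum.elim y (Function.extend Subtype.val z x) := by
  funext i
  rcases i with i | i
  · rw [Function.extend_apply' _ _ _ (by simp)]
    rfl
  by_cases h : i ∈ S
  · exact ((Sum.inr_injective.comp Subtype.val_injective).extend_apply z _ ⟨i, h⟩).trans
      (Subtype.val_injective.extend_apply z _ ⟨i, h⟩).symm
  · rw [Function.extend_apply' _ _ _ (by simpa using h), Sum.elim_inr, Sum.elim_inr,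
      Function.extend_apply' _ _ _ (by simpa using h)]

variable {Z : Finset F[X]} {bd : ℕ} {R : Pres Z bd} {P : Par F Λ} {t : Λ → Nb} {y : I₀ → F[X]}
  {n : Fin m → ℕ} {T : ℕ}

/-- The class of a prime in the slot `s`: its symbols with the primes outside `S`. -/
def cls (f : F[X] → Gam F) (lp : Λ → F[X]) (y : I₀ → F[X]) (S : Finset (Fin m)) (s : S)
    (x : Fin m → F[X]) (p : F[X]) (j : Λ ⊕ I₀ ⊕ Fin m) : Z2 :=
  if ∀ s ∈ S, j ≠ .inr (.inr s) then sy f (Sum.elim lp (Sum.elim y x) j) p else 0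

theorem mem_cellSet {ι S Y K : Type} {P : ι → Finset Y} {e : S → ι} {cls : S → (ι → Y) → Y → K}
    {x : ι → Y} {s : S} {p : Y} :
    p ∈ cellSet P e cls x s ↔ p ∈ P (e s) ∧ cls s x p = cls s x (x (e s)) := by simp [cellSet]

theorem cell_sum' {ι S Y K : Type} [Fintype ι] [Fintype S] [Fintype K] [i : DecidableEq ι]
    (P : ι → Finset Y) {e : S → ι} (he : Function.Injective e) (cls : S → (ι → Y) → Y → K)
    (hcls : ∀ s x x', (∀ i, i ∉ Set.range e → x i = x' i) → cls s x = cls s x')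
    (φ ρ : (ι → Y) → ℝ) (hφ : ∀ x, φ x ≤ 1) (hρ : ∀ x, 0 ≤ ρ x) {θ : ℝ} (hθ : 0 ≤ θ)
    (hc : ∀ x ∈ Fintype.piFinset P, ∀ y, (∀ s, y s ∈ cellSet P e cls x s) →
      ρ (Function.extend e y x) = ρ x)
    (hbig : ∀ x ∈ Fintype.piFinset P, (∀ s, θ * (P (e s)).card ≤ (cellSet P e cls x s).card) →
      ∑ y ∈ Fintype.piFinset (cellSet P e cls x), φ (Function.extend e y x) ≤
        ρ x * ∏ s, ((cellSet P e cls x s).card : ℝ)) :
    ∑ x ∈ Fintype.piFinset P, φ x ≤ ∑ x ∈ Fintype.piFinset P, ρ x +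
      Fintype.card S * Fintype.card K * θ * ∏ i, ((P i).card : ℝ) := by
  obtain rfl : i = fun a b => Classical.propDecidable (a = b) := Subsingleton.elim _ _
  exact cell_sum P he cls hcls φ ρ hφ hρ hθ
    (fun x hx y hy => hc x hx y (Fintype.mem_piFinset.1 hy)) hbig

theorem ext_mem {S : Finset (Fin m)} {f : F[X] → Gam F} {lp : Λ → F[X]} {x : Fin m → F[X]}
    (hx : x ∈ Fintype.piFinset fun i => Pn F (n i)) {z : S → F[X]}
    (hz : ∀ s, z s ∈ cellSet (fun i => Pn F (n i)) Subtype.val (cls f lp y S) x s) :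
    Function.extend Subtype.val z x ∈ Fintype.piFinset fun i => Pn F (n i) := by
  rw [Fintype.mem_piFinset] at hx ⊢
  intro i
  by_cases h : i ∈ S
  · rw [Subtype.val_injective.extend_apply z _ ⟨i, h⟩]
    exact (mem_cellSet.1 (hz ⟨i, h⟩)).1
  · rw [Function.extend_apply' _ _ _ (by simpa using h)]
    exact hx i

theorem rowsOff_ext {lp : Λ → F[X]} (h : Cfg Z lp y n T) {σ f : F[X] → Gam F} (hL : Lp Z σ f)
    {S : Finset (Fin m)} {x : Fin m → F[X]} (hx : x ∈ Fintype.piFinset fun i => Pn F (n i))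
    {z : S → F[X]}
    (hz : ∀ s, z s ∈ cellSet (fun i => Pn F (n i)) Subtype.val (cls f lp y S) x s)
    {j : ℕ} (v : Ty Λ I₀ m j) (tg : I₀ ⊕ Fin m → Fin j → Vb) :
    RowsOff f lp t v tg S (Sum.elim y (Function.extend Subtype.val z x)) ↔
      RowsOff f lp t v tg S (Sum.elim y x) := by
  have hx' := ext_mem hx hz
  set x' := Function.extend Subtype.val z x with e0
  have h1 : ∀ i, (∀ s ∈ S, i ≠ .inr s) → Sum.elim y x' i = Sum.elim y x i := by
    rintro (i | i) hi
    · rfl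
    · exact Function.extend_apply' _ _ _ (by rintro ⟨s, rfl⟩; exact hi s s.2 rfl)
  refine forall_congr' fun i => forall_congr' fun hi => forall_congr' fun c => ?_
  suffices ∀ i', sy f (Sum.elim y x' i') (Sum.elim y x' i) =
      sy f (Sum.elim y x i') (Sum.elim y x i) by
    simp only [row, this]
    simp only [h1 i hi]
  intro i'
  by_cases h2 : ∀ s ∈ S, i' ≠ .inr s
  · rw [h1 i hi, h1 i' h2]
  simp only [not_forall, not_not] at h2
  obtain ⟨s, hs, rfl⟩ := h2
  have h3 := fun w hw => sg_recip (hL.prm _ (h.mem hw i)) (hL.prm _ (h.mem hw (.inr s)))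
    (fun e => hi s hs (h.inj' (x := w) hw e)) (hL.dec _ (h.mem hw i)) (hL.dec _ (h.mem hw (.inr s)))
  have h4 := h3 x hx
  have h5 := h3 x' hx'
  have h6 := congrFun (mem_cellSet.1 (hz ⟨s, hs⟩)).2 (.inr i)
  have h7 : x' s = z ⟨s, hs⟩ := Subtype.val_injective.extend_apply z _ ⟨s, hs⟩
  simp only [cls, ne_eq, Sum.inr.injEq, if_pos hi, Sum.elim_inr, ← h7] at h6
  rw [h1 i hi, Sum.elim_inr, (mem_Pn.1 (Fintype.mem_piFinset.1 hx' s)).2] at h5
  rw [Sum.elim_inr, (mem_Pn.1 (Fintype.mem_piFinset.1 hx s)).2, ← h5] at h4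
  rw [h1 i hi]
  exact (add_right_cancel (h4.trans (congrArg _ h6))).symm

/-- One more level halves the count. -/
theorem level (h : Cfg Z P.lp y n T) {dN jm c L d : ℕ} {ε ζ : ℝ} (hT : T = L ^ c)
    (hN : Num (Fintype.card Sp.ι) (Fintype.card Λ) dN jm ε ζ c L) (hr : Fintype.card I₀ + m ≤ L ^ 2) (hd : d < 2 ^ L)
    (hn : ∀ i, n i ≤ d) (hbd : 2 ^ ((jm + 2) * (L ^ 6) ^ (jm + 2)) ≤ bd) (hε : 0 < ε)
    (hε' : 3 * ε ≤ 1) {O : Finset (Fin m)} {v : Ty Λ I₀ m 2} (hv : Gnr O jm v)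
    (tg : I₀ ⊕ Fin m → Fin 2 → Vb) (θ : ℤ_[2]) {j : ℕ} (hj : 1 ≤ j) (hjm : j ≤ jm)
    {Ls : Finset ℕ} (hLs : ∀ i ∈ Ls, i < j) : ∃ S : Finset (Fin m), S.card = j + 2 ∧
      cnt R P t y n v tg θ (insert j Ls) ≤ cnt R P t y n v tg θ Ls / 2 +
        6 * ε * ((Fintype.piFinset fun i => Pn F (n i)).filter fun x =>
          RowsOff R.f P.lp t v tg S (Sum.elim y x)).card +
        (j + 2) * 2 ^ (Fintype.card Λ + (Fintype.card I₀ + m)) * (1 / 2) ^ ((2 * Fintype.card Sp.ι + 4) * L ^ 2) *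
          ∏ i, ((Pn F (n i)).card : ℝ) := by
  obtain ⟨S, a, b, hab, hS, h1, h2, h3, h4⟩ := exists_slots hv (hj.trans hjm) hjm
  refine ⟨S, hS, ?_⟩
  let E : Finset ℕ → (I₀ ⊕ Fin m → F[X]) → Prop := Evs R P (Cg P.Hl fun a => v a 0)
    (fun i => lb (v (some (.inr i)) 1)) θ (GG R.f P.lp t v) (fun k => cdb k.2.2 (tg k.1 k.2.1))
  have hq2 : (2 : ℝ) ≤ Fintype.card F := by exact_mod_cast Fintype.one_lt_card
  have hL := hN.pos
  have key := cell_sum' (fun i => Pn F (n i)) (e := (Subtype.val : S → Fin m)) Subtype.val_injective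
    (cls R.f P.lp y S) (fun s x x' e => by
      funext p j
      unfold cls
      split_ifs with h5
      · rcases j with j | j | j
        · rfl
        · rfl
        · rw [Sum.elim_inr, Sum.elim_inr, Sum.elim_inr, Sum.elim_inr,
            e j (by rintro ⟨s, rfl⟩; exact h5 s s.2 rfl)]
      · rfl)
    (fun x => (if E (insert j Ls) (Sum.elim y x) then (1 : ℝ) else 0) -
      (if E Ls (Sum.elim y x) then (1 : ℝ) else 0) / 2)
    (fun x => if RowsOff R.f P.lp t v tg S (Sum.elim y x) then 6 * ε else 0)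
    (fun x => by split_ifs <;> norm_num) (fun x => by split_ifs <;> positivity)
    (θ := (1 / 2) ^ ((2 * Fintype.card Sp.ι + 4) * L ^ 2)) (by positivity)
    (fun x hx z hz => if_congr (rowsOff_ext h R.lp hx hz v tg) rfl rfl) fun x hx hbig => by
      by_cases h5 : RowsOff R.f P.lp t v tg S (Sum.elim y x)
      · rw [if_pos h5]
        simp only [← extend_elim, E]
        have h6 : ∀ i, L ^ c ≤ n i := fun i => hT ▸ h.le i
        refine le_of_eq_of_le ?_ <| halve_cell R P (e := fun s : S => (Sum.inr s.1 : I₀ ⊕ Fin m))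
          (Sum.inr_injective.comp Subtype.val_injective) hab hj
          (by rw [Fintype.card_coe, hS]) (n := fun s => n s) (h.ninj.comp Subtype.val_injective)
          (cellSet (fun i => Pn F (n i)) Subtype.val (cls R.f P.lp y S) x)
          (fun s p hp => (mem_cellSet.1 hp).1) (fun s p hp => h.xZ _ (mem_cellSet.1 hp).1)
          (Sum.elim y x) (Cg := Cg P.Hl fun a => v a 0) (w := fun i => lb (v (some (.inr i)) 1)) θ
          (GG R.f P.lp t v) (fun k => cdb k.2.2 (tg k.1 k.2.1)) hLs (fun s hs => by rw [h4 s hs, lb_zero])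
          (fun μ hμ s hs => rh_eq_zero.1 ((hμ.2.2 _).trans (h3 s hs))) (fun μ hμ e => ?_)
          (E := L ^ 6) (d := d) (by positivity) hε hε' (by positivity) (fun s => hn s)
          (le_trans (Nat.pow_le_pow_right two_pos (Nat.mul_le_mul (by omega)
            (Nat.pow_le_pow_right (by positivity) (by omega)))) hbd) (fun s => ?_) (hbig b) ?_ ?_
        · exact Finset.sum_congr rfl fun _ _ => by congr
        · have h7 := (eb_rb (lb (v (some (.inr (.inr b))) 1)) (μ (some (.inr (.inr a))))).symm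
          rw [red_eq_zero.2 (by simpa using e), rb_lb, (hμ.2.2 _).trans h1, h2, eb_ba] at h7
          exact absurd h7 (by decide)
        · refine (hN.box j hjm _ (h6 s)).trans (le_trans ?_ (hbig s))
          have := two_pow_le_Pn F (hN.big.1.trans (h6 s))
          exact mul_le_mul_of_nonneg_left (by exact_mod_cast this) (by positivity)
        · exact (hN.ch j hjm _ (h6 b) d (by exact_mod_cast hd)).trans (pow_le_pow_left₀ (by norm_num) hq2 _)
        · simpa only [Fintype.card_prod, Fintype.card_sum, Fintype.card_fin, mul_assoc] using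
            hN.un j hjm _ hr
      · rw [if_neg h5, zero_mul]
        refine Finset.sum_nonpos fun z hz => ?_
        rw [if_neg fun e => h5 ((rowsOff_ext h R.lp hx (by simpa using hz) v tg).1
          fun i _ c => (bs_iff _ _ _ _ _ _).1 e.1 i c)]
        split_ifs <;> norm_num
  simp only [Finset.sum_sub_distrib, ← Finset.sum_div, Finset.sum_boole, E, Evs, bs_iff,
    Fintype.card_coe, hS, Fintype.card_fun, Fintype.card_sum, Fintype.card_fin, ZMod.card,
    Finset.sum_ite, Finset.sum_const, smul_zero, add_zero, nsmul_eq_mul] at key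
  unfold cnt
  push_cast at key
  linarith

end

end Pool.Agent.Lib.MP_16ef92_ag.GF.GV
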