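import Mathlib
import Pool.Agent.Lib.MP_16ef92_ag.GV.Rd

set_option autoImplicit false
set_option linter.unusedSectionVars false
set_option linter.unusedVariables false

namespace Pool.Agent.Lib.MP_16ef92_ag.GF.GV

open scoped Classical

noncomputable section

variable [Sp]

variable {F : Type} [Field F] [Clos F] [Fintype F] [hq : Fact (Odd (Fintype.card F))]
variable {T : RD F} {n : ℕ} {r : Om F}

/-- `f` trivialises the cup product. -/
structure Ph (T : RD F) (f : Gam F → ZMod (2 ^ n)) (a b : Gam F → V) : Prop where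
  mul : ∀ g ∈ Geo F, ∀ h ∈ Geo F, f (g * h) = f g + f h + red n (om (a g) (T.ro g (b h)))
  near : Near fun g => g ∈ Geo F → f g = 0

theorem exists_ph (hr : IsPrimitiveRoot r (2 ^ n)) (hd : ∀ g ∈ Geo F, dt (T.ro g) = 1)
    {a b : Gam F → V} (ha : Cy T a) (hb : Cy T b) : ∃ f : Gam F → ZMod (2 ^ n), Ph T f a b := by
  let C : Coc F n :=
    { c := fun g h => red n (om (a g) (T.ro g (b h)))
      assoc := fun g hg h hh l hl => by
        rw [ha.mul g hg h hh, hb.mul h hh l hl, ro_mul, om_add_left, om_map, hd g hg,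
          map_add (T.ro g), om_add_right]
        simp only [map_add, one_mul]
        ring
      one := fun g _ => by simp [ha.one, hb.one, om_zero_left, om_zero_right]
      near := ((ha.near n).and (hb.near n)).mono fun h hh hh' g _ =>
        ⟨red_eq_zero.2 (om_dvd_right _ (map_Dv _ (hh.2 hh'))),
          red_eq_zero.2 (om_dvd_left (hh.1 hh') _)⟩ }
  have hinv : ∀ g ∈ Geo F, a g⁻¹ = -T.ro g⁻¹ (a g) := fun g hg => by
    have := ha.mul _ (inv_mem hg) g hg
    rw [inv_mul_cancel, ha.one] at this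
    exact eq_neg_of_add_eq_zero_left this.symm
  let Hs : (M : Submodule ℤ_[2] V) → (∀ g, ∀ x ∈ M, T.ro g x ∈ M) → Subgroup (Gam F) := fun M hM =>
    { carrier := {g | g ∈ Geo F ∧ a g ∈ M}
      mul_mem' := fun {g h} hg hh => ⟨mul_mem hg.1 hh.1, by
        rw [ha.mul g hg.1 h hh.1]
        exact add_mem hg.2 (hM _ _ hh.2)⟩
      one_mem' := ⟨one_mem _, by rw [ha.one]; exact zero_mem _⟩
      inv_mem' := fun {g} hg => ⟨inv_mem hg.1, by
        rw [hinv g hg.1]
        exact neg_mem (hM _ _ hg.2)⟩ }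
  have step : ∀ (j : ℕ) (M M' : Submodule ℤ_[2] V) hM hM', Dv (j + 1) ≤ M → M ≤ M' → M' ≤ Dv j →
      (∀ x ∈ M', ∀ y ∈ M', x ∉ M → y ∉ M → x + y ∈ M) → Sec r C (Hs M hM) → Sec r C (Hs M' hM') := by
    intro j M M' hM hM' h1 h2 h3 h4
    refine sec_step hr C _ _ (fun g hg => ⟨hg.1, h2 hg.2⟩) (fun g hg => hg.1)
      ((ha.near (j + 1)).mono fun g hg hg' => ⟨hg', h1 (hg hg')⟩) fun g hg h hh hg' hh' =>
        ⟨mul_mem hg.1 hh.1, ?_⟩
    obtain ⟨z, hz⟩ := mem_Dv_iff.1 (h3 hh.2)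
    have h5 : T.ro g (a h) - a h ∈ Dv (j + 1) := by
      rw [hz, map_smul, ← smul_sub, smul_mem_Dv_iff]
      exact T.triv g z
    have := add_mem (h4 _ hg.2 _ hh.2 (fun e => hg' ⟨hg.1, e⟩) fun e => hh' ⟨hh.1, e⟩) (h1 h5)
    rw [ha.mul g hg.1 h hh.1]
    convert this using 1
    abel
  have hD : ∀ j g, ∀ x ∈ Dv j, T.ro g x ∈ Dv j := fun j g x hx => map_Dv _ hx
  have hpar : ∀ (j : ℕ) (u v : ℤ_[2]), 2 ^ j ∣ u → 2 ^ j ∣ v → ¬ 2 ^ (j + 1) ∣ u →
      ¬ 2 ^ (j + 1) ∣ v → 2 ^ (j + 1) ∣ u + v := by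
    rintro j _ _ ⟨u, rfl⟩ ⟨v, rfl⟩ h1 h2
    obtain ⟨u, rfl | rfl⟩ := parity u
    · exact (h1 ⟨u, by ring⟩).elim
    obtain ⟨v, rfl | rfl⟩ := parity v
    · exact (h2 ⟨v, by ring⟩).elim
    exact ⟨u + v + 1, by ring⟩
  have down : ∀ j, Sec r C (Hs (Dv (j + 1)) (hD _)) → Sec r C (Hs (Dv j) (hD _)) := by
    intro j hS
    let M : Finset Sp.ι → Submodule ℤ_[2] V := fun A =>
      { carrier := {x | x ∈ Dv j ∧ ∀ i, i ∉ A → 2 ^ (j + 1) ∣ x i}
        add_mem' := fun ha hb => ⟨add_mem ha.1 hb.1, fun i hi => dvd_add (ha.2 i hi) (hb.2 i hi)⟩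
        zero_mem' := ⟨zero_mem _, fun _ _ => dvd_zero _⟩
        smul_mem' := fun c _ h => ⟨Submodule.smul_mem _ c h.1,
          fun i hi => Dvd.dvd.mul_left (h.2 i hi) c⟩ }
    have h1 : ∀ A, Dv (j + 1) ≤ M A := fun A x hx => ⟨Dv_mono j.le_succ hx, fun i _ => hx i⟩
    have hM : ∀ A g, ∀ x ∈ M A, T.ro g x ∈ M A := by
      intro A g x hx
      obtain ⟨z, hz⟩ := mem_Dv_iff.1 hx.1
      have h5 : T.ro g x - x ∈ Dv (j + 1) := by
        rw [hz, map_smul, ← smul_sub, smul_mem_Dv_iff]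
        exact T.triv g z
      simpa using add_mem (h1 A h5) hx
    have h2 : ∀ A, Sec r C (Hs (M A) (hM A)) := fun A => by
      induction A using Finset.induction_on with
      | empty =>
        have : Hs (M ∅) (hM ∅) = Hs (Dv (j + 1)) (hD _) := Subgroup.ext fun g =>
          ⟨fun h => ⟨h.1, fun i => h.2.2 i (by simp)⟩, fun h => ⟨h.1, h1 _ h.2⟩⟩
        rwa [this]
      | insert k A hk ih =>
        refine step j _ _ (hM A) (hM _) (h1 A) (fun x hx => ⟨hx.1, fun i hi =>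
          hx.2 i fun e => hi (Finset.mem_insert_of_mem e)⟩) (fun x hx => hx.1)
          (fun x hx y hy hx' hy' => ⟨add_mem hx.1 hy.1, fun i hi => ?_⟩) ih
        have h3 : ∀ z ∈ M (insert k A), z ∉ M A → ¬ 2 ^ (j + 1) ∣ z k := fun z hz hz' e =>
          hz' ⟨hz.1, fun i hi => if h : i = k then h ▸ e else hz.2 i (by simp [h, hi])⟩
        by_cases h : i = k
        · exact h ▸ hpar j _ _ (hx.1 k) (hy.1 k) (h3 x hx hx') (h3 y hy hy')
        · exact dvd_add (hx.2 i (by simp [h, hi])) (hy.2 i (by simp [h, hi]))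
    have : Hs (Dv j) (hD _) = Hs (M Finset.univ) (hM _) := Subgroup.ext fun g =>
      ⟨fun h => ⟨h.1, h.2, fun i hi => (hi (Finset.mem_univ i)).elim⟩, fun h => ⟨h.1, h.2.1⟩⟩
    exact this ▸ h2 _
  have base : Sec r C (Hs (Dv n) (hD _)) :=
    ⟨fun _ => 1, fun _ _ => one_ne_zero, fun g hg h _ => by
      have : C.c g h = 0 := red_eq_zero.2 (om_dvd_left hg.2 _)
      rw [this, ch_zero, map_one, mul_one, mul_one], Near.of_forall fun _ _ => rfl⟩
  have all : ∀ j, Sec r C (Hs (Dv j) (hD _)) → Sec r C (Hs (Dv 0) (hD _)) := by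
    intro j
    induction j with
    | zero => exact id
    | succ j ih => exact fun h => ih (down j h)
  have h0 : Hs (Dv 0) (hD _) = Geo F := by
    ext g
    exact ⟨fun h => h.1, fun h => ⟨h, Dv_zero _⟩⟩
  obtain ⟨f, hf, hn⟩ := phi_of_sec hr C (h0 ▸ all n base)
  exact ⟨f, hf, hn⟩

/-- The local invariant at the place `x` is `k`. -/
def Inv (T : RD F) (r : Om F) (f : Gam F → ZMod (2 ^ n)) (a b : Gam F → V) (x : Option (kk F))
    (k : ZMod (2 ^ n)) : Prop :=
  ∀ O, Over O x → ∀ m, (∀ g ∈ Ine O, b g = T.ro g m - m) →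
    ∀ g ∈ Ine O, f g - red n (om (a g) (T.ro g m)) = k * kap r n (pl x) g

theorem inv_of_one (hr : IsPrimitiveRoot r (2 ^ n)) (hd : ∀ g ∈ Geo F, dt (T.ro g) = 1)
    {a b : Gam F → V} (ha : Cy T a) (hb : Cy T b) (hl : LT T a) {f : Gam F → ZMod (2 ^ n)}
    (hf : Ph T f a b) {x : Option (kk F)} {k : ZMod (2 ^ n)} {O : ValuationSubring (Om F)}
    (hO : Over O x) {m : V} (hm : ∀ g ∈ Ine O, b g = T.ro g m - m)
    (h : ∀ g ∈ Ine O, f g - red n (om (a g) (T.ro g m)) = k * kap r n (pl x) g) :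
    Inv T r f a b x k := by
  intro O' hO' m' hm' t ht
  obtain ⟨g, hg, hOO⟩ := over_trans hO hO'
  have hs := conj_ine hOO ht
  set s := g⁻¹ * t * g with hsdef
  have e1 : t * g = g * s := by rw [hsdef]; group
  have h1 := hf.mul t ht.1 g hg
  rw [e1, hf.mul g hg s hs.1] at h1
  have h2 := ha.mul t ht.1 g hg
  rw [e1, ha.mul g hg s hs.1] at h2
  have h4 : ∀ t ∈ Ine O', T.ro t (m' - (T.ro g m - b g)) = m' - (T.ro g m - b g) := by
    intro t ht
    have hs := conj_ine hOO ht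
    have e1 : t * g = g * (g⁻¹ * t * g) := by group
    have h3 := hb.mul t ht.1 g hg
    rw [e1, hb.mul g hg _ hs.1, hm _ hs, hm' t ht, map_sub, ← ro_mul, ← e1, ro_mul] at h3
    rw [map_sub, map_sub]
    linear_combination (exp := 1) -h3
  obtain ⟨j, l, hjl⟩ := hl O' x hO'
  have h5 : om (a t) (m' - (T.ro g m - b g)) = 0 := by
    apply mul_left_cancel₀ (a := (2 : ℤ_[2]) ^ j) (by simp)
    rw [← om_smul_left, hjl t ht, om_sub_left, mul_zero, sub_eq_zero]
    conv_lhs => rw [← h4 t ht, om_map, hd t ht.1, one_mul]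
  have h6 : T.ro t m' = T.ro g (T.ro s m) - T.ro t (b g) + (m' - (T.ro g m - b g)) := by
    rw [← h4 t ht, ← ro_mul, ← e1, ro_mul, map_sub, map_sub]
    abel
  have h7 : kap r n (pl x) t = kap r n (pl x) s := by
    have h8 := kap_mul hr (geo_prim hr ht.1) (geo_prim hr hg) (geo_pl ht.1 x) (geo_pl hg x) (pl_ne x)
    rw [e1, kap_mul hr (geo_prim hr hg) (geo_prim hr hs.1) (geo_pl hg x) (geo_pl hs.1 x)
      (pl_ne x)] at h8
    linear_combination -h8
  have h9 : a t = a g + T.ro g (a s) - T.ro t (a g) := by rw [h2]; abel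
  have h10 : om (T.ro t (a g)) (T.ro g (T.ro s m)) = om (a g) (T.ro g m) := by
    rw [← ro_mul, ← e1, ro_mul, om_map, hd t ht.1, one_mul]
  have h11 : om (a t) (T.ro g (T.ro s m)) =
      om (a g) (T.ro g (T.ro s m)) + om (a s) (T.ro s m) - om (a g) (T.ro g m) := by
    rw [h9, om_sub_left, om_add_left, h10, om_map, hd g hg, one_mul]
  rw [h7, ← h s hs, h6, om_add_right, h5, add_zero, om_sub_right, h11]
  rw [hm s hs, map_sub, om_sub_right] at h1
  simp only [map_add, map_sub] at h1 ⊢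
  linear_combination -h1

theorem exists_inv (hr : IsPrimitiveRoot r (2 ^ n)) (hd : ∀ g ∈ Geo F, dt (T.ro g) = 1)
    {a b : Gam F → V} (ha : Cy T a) (hb : Cy T b) (hl : LT T a) (hlb : LB T b)
    {f : Gam F → ZMod (2 ^ n)} (hf : Ph T f a b) (x : Option (kk F)) : ∃ k, Inv T r f a b x k := by
  obtain ⟨O, hO⟩ := exists_over x
  obtain ⟨m, hm⟩ := hlb O x hO
  obtain ⟨k, hk⟩ := hO.local_char hr (fun g => f g - red n (om (a g) (T.ro g m))) (by
    intro g hg h hh
    rw [hf.mul g hg.1 h hh.1, ha.mul g hg.1 h hh.1, hm h hh, ro_mul, om_add_left, om_map,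
      hd g hg.1, map_sub, om_sub_right]
    simp only [map_add, map_sub, one_mul]
    ring) ((hf.near.and (ha.near n)).mono fun g hg hg' => by
      rw [hg.1 hg'.1, red_eq_zero.2 (om_dvd_left (hg.2 hg'.1) _), sub_zero])
  exact ⟨k, inv_of_one hr hd ha hb hl hf hO hm hk⟩

/-- The cup product pairing takes the value `k`. -/
def Pair (T : RD F) (r : Om F) (a b : Gam F → V) (k : ZMod (2 ^ n)) : Prop :=
  ∃ f : Gam F → ZMod (2 ^ n), Ph T f a b ∧ ∃ v : Option (kk F) →₀ ZMod (2 ^ n),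
    (∀ x, Inv T r f a b x (v x)) ∧ (v.sum fun _ c => c) = k

theorem exists_pair (hr : IsPrimitiveRoot r (2 ^ n)) (hd : ∀ g ∈ Geo F, dt (T.ro g) = 1)
    {a b : Gam F → V} (ha : Cy T a) (hb : Cy T b) (hl : LT T a) (hlb : LB T b) :
    ∃ k : ZMod (2 ^ n), Pair T r a b k := by
  obtain ⟨f, hf⟩ := exists_ph hr hd ha hb
  choose v hv using exists_inv hr hd ha hb hl hlb hf
  have hfin : (Function.support v).Finite := by
    refine (hf.near.and (ha.near n)).finite_ram.subset fun x hx => ?_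
    obtain ⟨O, hO⟩ := exists_over x
    obtain ⟨m, hm⟩ := hlb O x hO
    obtain ⟨g, hg, hu⟩ := hO.exists_unit hr
    refine ⟨O, hO, g, hg, fun h => hx ?_⟩
    have := hv x O hO m hm g hg
    rw [h.1 hg.1, red_eq_zero.2 (om_dvd_left (h.2 hg.1) _), sub_zero] at this
    exact hu.mul_left_eq_zero.1 this.symm
  exact ⟨_, f, hf, Finsupp.ofSupportFinite v hfin, hv, rfl⟩

theorem Pair.unique (hr : IsPrimitiveRoot r (2 ^ n)) {a b : Gam F → V} (hlb : LB T b)
    {k k' : ZMod (2 ^ n)} (h : Pair T r a b k) (h' : Pair T r a b k') : k = k' := by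
  obtain ⟨f, hf, v, hv, rfl⟩ := h
  obtain ⟨f', hf', v', hv', rfl⟩ := h'
  have := global_sum hr (fun g => f g - f' g)
    (fun g hg h hh => by rw [hf.mul g hg h hh, hf'.mul g hg h hh]; ring)
    ((hf.near.and hf'.near).mono fun g hg hg' => by rw [hg.1 hg', hg.2 hg', sub_zero]) (v - v') (by
      intro x O hO g hg
      obtain ⟨m, hm⟩ := hlb O x hO
      rw [Finsupp.sub_apply, sub_mul, ← hv x O hO m hm g hg, ← hv' x O hO m hm g hg]
      ring)
  rwa [Finsupp.sum_sub_index fun _ _ _ => rfl, sub_eq_zero] at this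

theorem Pair.congr {a b a' b' : Gam F → V} {k : ZMod (2 ^ n)} (h : Pair T r a b k)
    (ha : ∀ g ∈ Geo F, a' g = a g) (hb : ∀ g ∈ Geo F, b' g = b g) : Pair T r a' b' k := by
  obtain ⟨f, hf, v, hv, rfl⟩ := h
  refine ⟨f, ⟨fun g hg h hh => by rw [ha g hg, hb h hh, hf.mul g hg h hh], hf.near⟩, v,
    fun x O hO m hm g hg => ?_, rfl⟩
  rw [ha g hg.1]
  exact hv x O hO m (fun g hg => by rw [← hb g hg.1, hm g hg]) g hg

theorem Pair.add {a a' b : Gam F → V} {k k' : ZMod (2 ^ n)} (h : Pair T r a b k)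
    (h' : Pair T r a' b k') : Pair T r (fun g => a g + a' g) b (k + k') := by
  obtain ⟨f, hf, v, hv, rfl⟩ := h
  obtain ⟨f', hf', v', hv', rfl⟩ := h'
  refine ⟨fun g => f g + f' g, ⟨fun g hg h hh => ?_, (hf.near.and hf'.near).mono fun g hg hg' => by
    rw [hg.1 hg', hg.2 hg', add_zero]⟩, v + v', fun x O hO m hm g hg => ?_,
    Finsupp.sum_add_index' (fun _ => rfl) fun _ _ _ => rfl⟩
  · rw [hf.mul g hg h hh, hf'.mul g hg h hh, om_add_left, map_add]
    ring
  · rw [Finsupp.add_apply, add_mul, ← hv x O hO m hm g hg, ← hv' x O hO m hm g hg, om_add_left,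
      map_add]
    ring

theorem Pair.smul {a b : Gam F → V} {k : ZMod (2 ^ n)} (h : Pair T r a b k) (c : ℤ_[2]) :
    Pair T r (fun g => c • a g) b (red n c * k) := by
  obtain ⟨f, hf, v, hv, rfl⟩ := h
  refine ⟨fun g => red n c * f g, ⟨fun g hg h hh => ?_, hf.near.mono fun g hg hg' => by
    rw [hg hg', mul_zero]⟩, red n c • v, fun x O hO m hm g hg => ?_, ?_⟩
  · rw [hf.mul g hg h hh, om_smul_left, map_mul]
    ring
  · rw [Finsupp.smul_apply, smul_eq_mul, mul_assoc, ← hv x O hO m hm g hg, om_smul_left, map_mul]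
    ring
  · rw [Finsupp.sum_smul_index fun _ => rfl, Finsupp.mul_sum]

theorem pair_cob (hd : ∀ g ∈ Geo F, dt (T.ro g) = 1) {b : Gam F → V} (hb : Cy T b) (w : V) :
    Pair T r (fun g => T.ro g w - w) b (0 : ZMod (2 ^ n)) := by
  refine ⟨fun g => -red n (om w (b g)), ⟨fun g hg h hh => ?_, (hb.near n).mono fun g hg hg' => by
    rw [red_eq_zero.2 (om_dvd_right _ (hg hg')), neg_zero]⟩, 0, fun x O hO m hm g hg => ?_,
    Finsupp.sum_zero_index⟩
  · rw [hb.mul g hg h hh, om_add_right, om_sub_left, om_map, hd g hg, one_mul, map_add, map_sub]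
    ring
  · beta_reduce
    rw [hm g hg, om_sub_right, om_sub_left, om_map, hd g hg.1, one_mul, map_sub, map_sub]
    simp

theorem Pair.cob_right (hd : ∀ g ∈ Geo F, dt (T.ro g) = 1) {a b : Gam F → V} (ha : Cy T a)
    {k : ZMod (2 ^ n)} (h : Pair T r a b k) (z : V) :
    Pair T r a (fun g => b g + (T.ro g z - z)) k := by
  obtain ⟨f, hf, v, hv, rfl⟩ := h
  refine ⟨fun g => f g + red n (om (a g) (T.ro g z)), ⟨fun g hg h hh => ?_,
    (hf.near.and (ha.near n)).mono fun g hg hg' => by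
      rw [hg.1 hg', red_eq_zero.2 (om_dvd_left (hg.2 hg') _), add_zero]⟩, v,
    fun x O hO m hm g hg => ?_, rfl⟩
  · rw [hf.mul g hg h hh, ha.mul g hg h hh, ro_mul, om_add_left, om_map, hd g hg, one_mul]
    simp only [map_add, map_sub, om_add_right, om_sub_right]
    ring
  · rw [← hv x O hO (m - z) (fun g hg => by
      rw [map_sub]
      linear_combination (exp := 1) hm g hg) g hg, map_sub, om_sub_right, map_sub]
    ring

theorem Pair.tw (hr : IsPrimitiveRoot r (2 ^ n)) {a b : Gam F → V} {k : ZMod (2 ^ n)}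
    (h : Pair T r a b k) {s : Gam F} {Q : ℕ} (hs : s r = r ^ Q) {u : ZMod (2 ^ n)}
    (hu : u * Q = 1) : Pair T r (tw T s a) (tw T s b) (red n (dt (T.ro s)) * u * k) := by
  obtain ⟨f, hf, v, hv, rfl⟩ := h
  let E : Option (kk F) ≃ Option (kk F) :=
    ⟨Option.map (ck s), Option.map (ck s⁻¹), fun x => by simpa using ck_inv s⁻¹ x, ck_inv s⟩
  refine ⟨fun g => red n (dt (T.ro s)) * f (s⁻¹ * g * s), ⟨fun g hg h hh => ?_,
    (hf.near.conj s).mono fun g hg hg' => by rw [hg (geo_conj hg' s), mul_zero]⟩,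
    (red n (dt (T.ro s)) * u) • v.equivMapDomain E, fun x O hO m hm g hg => ?_, ?_⟩
  · have e1 : s⁻¹ * (g * h) * s = s⁻¹ * g * s * (s⁻¹ * h * s) := by group
    have e2 : g * s = s * (s⁻¹ * g * s) := by group
    rw [e1, hf.mul _ (geo_conj hg s) _ (geo_conj hh s)]
    unfold GV.tw
    rw [← ro_mul g s, e2, ro_mul s, om_map, map_mul (red n)]
    ring
  · have hO' : Over (cm s O) (x.map (ck s⁻¹)) := over_cm (by rwa [ck_inv])
    have hg' : s⁻¹ * g * s ∈ Ine (cm s O) := conj_ine (fun z => mem_cm) hg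
    have h1 := hv _ _ hO' (T.ro s⁻¹ m) (by
      intro t ht
      have ht' : s * t * s⁻¹ ∈ Ine O := by
        simpa using conj_ine (g := s⁻¹) (O := O) (O' := cm s O)
          (fun z => by rw [mem_cm, self_apply_inv]) ht
      have h2 := congrArg (T.ro s⁻¹) (hm _ ht')
      unfold GV.tw at h2
      rw [ro_inv, map_sub, ← ro_mul, show s⁻¹ * (s * t * s⁻¹) * s = t by group,
        show s⁻¹ * (s * t * s⁻¹) = t * s⁻¹ by group, ro_mul] at h2
      exact h2) _ hg'
    have h2 := kap_conj hr hs hg'.1 (geo_pl hg'.1 (x.map (ck s⁻¹))) (pl_ne _)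
    rw [gam_pl, ck_inv, show s * (s⁻¹ * g * s) * s⁻¹ = g by group] at h2
    have h3 : T.ro g m = T.ro s (T.ro (s⁻¹ * g * s) (T.ro s⁻¹ m)) := by
      rw [← ro_mul, ← ro_mul, show s * (s⁻¹ * g * s) * s⁻¹ = g by group]
    unfold GV.tw
    rw [h3, om_map, map_mul, ← mul_sub, h1, h2, Finsupp.smul_apply, Finsupp.equivMapDomain_apply,
      smul_eq_mul]
    change _ = _ * v (x.map (ck s⁻¹)) * _
    linear_combination (-red n (dt (T.ro s)) * v (x.map (ck s⁻¹)) *
      kap r n (pl (x.map (ck s⁻¹))) (s⁻¹ * g * s)) * hu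
  · rw [Finsupp.sum_smul_index fun _ => rfl, Finsupp.sum_equivMapDomain, Finsupp.mul_sum]

end

end Pool.Agent.Lib.MP_16ef92_ag.GF.GV
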