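import Mathlib
import Pool.Agent.Lib.MP_16ef92_ag.GV.Qd

set_option autoImplicit false
set_option linter.unusedSectionVars false
set_option linter.unusedVariables false

namespace Pool.Agent.Lib.MP_16ef92_ag.GF.GV

open Polynomial
open scoped Classical

noncomputable section

variable [Sp]

variable {F : Type} [Field F] [Clos F] [Fintype F] [hq : Fact (Odd (Fintype.card F))]
variable {T : RD F}

variable [Fro F]

theorem orb_tw (y : Gam F → V) (σ : Gam F) (i : ℕ) :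
    tw T (ss F) y (og σ (i + 1)) = T.ro (ss F) (y (og σ i)) := by
  rw [tw, og_succ, show (ss F)⁻¹ * (ss F * og σ i * (ss F)⁻¹) * ss F = og σ i by group]

theorem orb_ro (w g : Gam F) (x : V) : T.ro (w * g * w⁻¹) (T.ro w x) = T.ro w (T.ro g x) := by
  rw [← ro_mul, ← ro_mul, inv_mul_cancel_right]

theorem orb_pow {m : ℕ} {n δ U : Gam F → V} (hn : CyL T (WW F) m n)
    (h2 : ∀ g ∈ Geo F, tw T (ss F) δ g - (δ g + (T.ro g (n (ss F)) - n (ss F)) +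
      (2 : ℤ_[2]) ^ m • U g) ∈ Dv (m + 1)) {σ : Gam F} (hσ : σ ∈ Geo F) (i : ℕ) :
    T.ro (ss F ^ i) (δ σ) - (δ (og σ i) + (T.ro (og σ i) (n (ss F ^ i)) - n (ss F ^ i)) +
      (2 : ℤ_[2]) ^ m • ∑ j ∈ Finset.range i, U (og σ (j + 1))) ∈ Dv (m + 1) := by
  induction i with
  | zero =>
    have a1 := neg_mem (hn.mul 1 (one_mem _) 1 (one_mem _))
    rw [mul_one, ro_one, neg_sub, add_sub_cancel_right] at a1
    have a2 := neg_mem (ro_dv T σ a1)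
    rw [pow_zero, og_zero, ro_one, Finset.sum_range_zero, smul_zero, add_zero,
      sub_add_cancel_left]
    exact a2
  | succ i ih =>
    have a1 := h2 _ (og_geo hσ (i + 1))
    have a2 := map_Dv (T.ro (ss F)) ih
    have a3 := ro_dv T (ss F) (smul_mem_Dv m (∑ j ∈ Finset.range i, U (og σ (j + 1))))
    have a4 := ro_dv T (og σ (i + 1)) (hn.mul _ ss_mem _ (pow_mem ss_mem i))
    rw [orb_tw] at a1
    rw [map_sub, map_add, map_add, map_sub, ← ro_mul, ← orb_ro, ← og_succ, ← pow_succ'] at a2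
    rw [map_sub, map_add, ← pow_succ'] at a4
    have a5 := sub_mem (add_mem (add_mem a1 a2) a3) a4
    rw [Finset.sum_range_succ, smul_add]
    refine (congrArg (· ∈ Dv (m + 1)) ?_).mp a5
    abel

/-- The orbit formula for cocycles. -/
theorem orb_cy {m : ℕ} {n δ U : Gam F → V} (hn : CyL T (WW F) m n) (hδ : Cy T δ)
    (h1 : ∀ g ∈ Geo F, δ g - n g ∈ Dv m)
    (h2 : ∀ g ∈ Geo F, tw T (ss F) δ g - (δ g + (T.ro g (n (ss F)) - n (ss F)) +
      (2 : ℤ_[2]) ^ m • U g) ∈ Dv (m + 1))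
    {σ f : Gam F} {d : ℕ} (hσ : σ ∈ Geo F) (hf : f * ss F ^ (-(d : ℤ)) ∈ Geo F) {μ : V}
    (h3 : δ σ = hL T σ μ) (h4 : δ (f * σ * f⁻¹) = hL T (f * σ * f⁻¹) μ) :
    hL T (f * σ * f⁻¹) ((2 : ℤ_[2]) • n f + (T.ro f μ - μ)) -
      (2 : ℤ_[2]) ^ m • ∑ i ∈ Finset.range d, U (og σ (i + 1)) ∈ Dv (m + 1) := by
  obtain ⟨w, hw, rfl⟩ : ∃ w ∈ Geo F, f = w * ss F ^ d :=
    ⟨_, hf, by rw [zpow_neg, zpow_natCast, inv_mul_cancel_right]⟩
  have e1 : w * ss F ^ d * σ * (w * ss F ^ d)⁻¹ = w * og σ d * w⁻¹ := by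
    unfold og
    group
  have a0 := hL_conj T σ (w * ss F ^ d) μ
  rw [e1] at h4 a0 ⊢
  have a1 := hδ.mul _ (geo_conj' (og_geo hσ d) w) w hw
  rw [inv_mul_cancel_right, hδ.mul w hw _ (og_geo hσ d)] at a1
  have a2 := map_Dv (T.ro w) (orb_pow hn h2 hσ d)
  have a3 := ro_dv T w (smul_mem_Dv m (∑ j ∈ Finset.range d, U (og σ (j + 1))))
  have a4 := ro_dv T (w * og σ d * w⁻¹)
    (sub_mem (hn.mul w (geo_le hw) _ (pow_mem ss_mem d)) (h1 w hw))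
  rw [map_sub, map_add, map_add, map_sub, ← ro_mul, ← orb_ro, eq_sub_of_add_eq' a1] at a2
  simp only [map_sub, map_add] at a4
  rw [map_add, map_sub, map_smul, two_hL, a0, ← h3, ← h4]
  refine (congrArg (· ∈ Dv (m + 1)) ?_).mp (sub_mem (add_mem a2 a3) a4)
  abel

/-- The telescoping sum over an orbit. -/
theorem orb_tele {y : Gam F → V} (hy : Cy T y) {p : F[X]} {σ f : Gam F} (hp : Prm p)
    (h : Dec p σ f) {u : Vb}
    (hu : ∀ i, rh (tw T (ss F) y (og σ (i + 1)) - y (og σ (i + 1))) = u) :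
    p.natDegree • u = 0 := by
  obtain ⟨c, hc, hg⟩ := h.root
  have a1 := hg p.natDegree
  have a2 := hg 0
  rw [ck_pow, hp.fix hc] at a1
  rw [ck_pow, pow_zero, pow_one] at a2
  have a3 := (cyL_of_cy hy 1).ch le_rfl
  have a4 : rh (y (og σ 0)) = rh (y (og σ p.natDegree)) :=
    funext fun i => (a3.map (Pi.evalAddMonoidHom (fun _ => Z2) i)).gen_eq a2 a1
  simp only [orb_tw, map_sub, rb_ro] at hu
  have a5 := Finset.sum_range_sub' (fun i => rh (y (og σ i))) p.natDegree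
  simpa only [hu, a4, sub_self, Finset.sum_const, Finset.card_range] using a5

theorem orb_loc {b : Gam F → V} (hb : ∀ g ∈ Geo F, tw T (ss F) b g - b g ∈ Dv 1) {σ : Gam F}
    (hσ : σ ∈ Geo F) {μ : V} (h : b σ - hL T σ μ ∈ Dv 1) (i : ℕ) :
    b (og σ i) - hL T (og σ i) μ ∈ Dv 1 := by
  induction i with
  | zero => rwa [og_zero]
  | succ i ih =>
    have a1 := rb_eq.2 (hb _ (og_geo hσ (i + 1)))
    have a2 := map_Dv (hL T (og σ (i + 1))) (T.triv (ss F) μ)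
    rw [map_sub, ← rb_eq, og_succ, hL_conj, rb_ro, ← og_succ] at a2
    rw [orb_tw, rb_ro] at a1
    rw [← rb_eq, ← a1, ← a2]
    exact rb_eq.2 ih

theorem orb_ch {a : Gam F → V} (ha : Cy T a) (μ : V) :
    Ch (Geo F) fun g => red 1 (om (a g) μ) :=
  ⟨fun g hg l hl => by
    rw [ha.mul g hg l hl, om_add_left, map_add, ← eb_rb (T.ro g _), rb_ro, eb_rb],
    (ha.near 1).mono fun g hg h _ => red_eq_zero.2 (om_dvd_left (hg h) μ)⟩

/-- The pairing modulo two as a sum over orbits. -/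
theorem BtS.two_orb {B : Ad T →ₗ[ℤ_[2]] Ad T →ₗ[ℤ_[2]] ℤ_[2]} (hB : BtS T B) {Z : Finset F[X]}
    {σ f : F[X] → Gam F} (hZ : Lp Z σ f)
    (hg : ∀ c, (∀ p ∈ Z, aeval c p ≠ 0) → ∀ O, Over O (some c) → GoodAt T O) (a b : Ad T)
    (hb : ∀ g ∈ Geo F, tw T (ss F) b.1 g - b.1 g ∈ Dv 1) {μ₀ : V} {μ : F[X] → V}
    (h0 : b.1 (sI F) - hL T (sI F) μ₀ ∈ Dv 1) (h1 : ∀ p ∈ Z, b.1 (σ p) - hL T (σ p) (μ p) ∈ Dv 1) :
    red 1 (B a b) = red 1 (om (a.1 (sI F)) μ₀) +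
      ∑ p ∈ Z, red 1 (om (∑ i ∈ Finset.range p.natDegree, a.1 (og (σ p) (i + 1))) (μ p)) := by
  obtain ⟨pt, p1, p2, p3, -⟩ := hZ.pts
  let I : Finset (Σ _ : F[X], ℕ) := Z.sigma fun p => Finset.range p.natDegree
  have hI : ∀ q, q ∈ I ↔ q.1 ∈ Z ∧ q.2 < q.1.natDegree := fun q => by
    simp only [I, Finset.mem_sigma, Finset.mem_range]
  have hinj : ∀ q ∈ I, ∀ r ∈ I, some (pt q.1 q.2) = some (pt r.1 r.2) → q = r := by
    rintro ⟨p, i⟩ h3 ⟨r, j⟩ h4 h5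
    rw [hI] at h3 h4
    obtain ⟨rfl, rfl⟩ := p2 p h3.1 i h3.2 r h4.1 j h4.2 (Option.some.inj h5)
    rfl
  have hc : ∀ x : Option (kk F), ∃ (γ : Gam F) (ν : V), (x = none → γ = sI F ∧ ν = μ₀) ∧
      ∀ q ∈ I, x = some (pt q.1 q.2) → γ = og (σ q.1) q.2 ∧ ν = μ q.1 := fun x => by
    by_cases h3 : ∃ q ∈ I, x = some (pt q.1 q.2)
    · obtain ⟨q, h3, rfl⟩ := h3
      exact ⟨og (σ q.1) q.2, μ q.1, fun h4 => absurd h4 (Option.some_ne_none _),
        fun r h4 h5 => hinj q h3 r h4 h5 ▸ ⟨rfl, rfl⟩⟩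
    · exact ⟨_, _, fun _ => ⟨rfl, rfl⟩, fun q h4 h5 => absurd ⟨q, h4, h5⟩ h3⟩
  choose γ ν c1 c2 using hc
  have hS : ∀ x ∈ insert none (I.image fun q => some (pt q.1 q.2)),
      Gen x (γ x) ∧ b.1 (γ x) - hL T (γ x) (ν x) ∈ Dv 1 := fun x hx => by
    rcases Finset.mem_insert.1 hx with rfl | hx
    · rw [(c1 _ rfl).1, (c1 _ rfl).2]
      exact ⟨gen_sI, h0⟩
    · obtain ⟨q, h3, rfl⟩ := Finset.mem_image.1 hx
      rw [(c2 _ q h3 rfl).1, (c2 _ q h3 rfl).2]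
      have h4 := ((hI q).1 h3).1
      exact ⟨(p1 _ h4 _).2, orb_loc hb (hZ.dec _ h4).geo (h1 _ h4) _⟩
  rw [hB.two a b _ γ ν (fun x hx => ?_) (fun x hx => (hS x hx).1) fun x hx => (hS x hx).2,
    Finset.sum_insert (by simp), Finset.sum_image hinj, (c1 _ rfl).1, (c1 _ rfl).2,
    Finset.sum_congr rfl fun q h3 => by rw [(c2 _ q h3 rfl).1, (c2 _ q h3 rfl).2],
    Finset.sum_sigma]
  · refine congrArg _ (Finset.sum_congr rfl fun p hp => ?_)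
    rw [← hZ.orb_shift (orb_ch a.2.1 (μ p)) hp, ← map_sum]
    exact congrArg _ (map_sum (omL.flip (μ p)) _ _).symm
  · rcases x with _ | c
    · exact absurd (Finset.mem_insert_self _ _) hx
    · refine hg c fun p hp h3 => hx (Finset.mem_insert_of_mem ?_)
      obtain ⟨i, hi, rfl⟩ := p3 p hp c h3
      exact Finset.mem_image.2 ⟨⟨p, i⟩, (hI _).2 ⟨hp, hi⟩, rfl⟩

/-- An almost invariant cocycle extends to the Weil group. -/
theorem exists_w {m : ℕ} {a : Gam F → V} (ha : Cy T a) {t : V}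
    (h : ∀ g ∈ Geo F, tw T (ss F) a g - (a g + (T.ro g t - t)) ∈ Dv m) :
    ∃ n, CyL T (WW F) m n ∧ (∀ g ∈ Geo F, n g = a g) ∧ n (ss F) = t := by
  obtain ⟨φ, h1, h2, h3⟩ := (cyL_of_cy ha m).hm.ext_w
    (hq' m 0 (Nat.zero_le _) ⟨t, 0, PG T (ss F)⟩) fun g hg => by
      rw [eq_mul_inv_iff_mul_eq, ← map_mul, ← map_mul, hq_eq]
      refine ⟨?_, by simp, fun x => ?_⟩
      · have a1 := neg_mem (h _ (geo_conj' hg (ss F)))
        rw [tw, show (ss F)⁻¹ * (ss F * g * (ss F)⁻¹) * ss F = g by group] at a1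
        simp only [Hs.mul_n, PG_app]
        refine (congrArg (· ∈ Dv m) ?_).mp a1
        abel
      · simp only [Hs.mul_g, ← map_mul, inv_mul_cancel_right, sub_self, zero_mem]
  have hs : ss F ∉ Geo F := fun e => one_ne_zero (ss_pow_geo (i := 1) (by rwa [zpow_one]))
  have hr : ∀ g, ∃ r : Hs, (g ∈ WW F → hq' m 0 (Nat.zero_le _) r = φ g ∧ r.g = PG T g) ∧
      (g ∈ Geo F → r.n = a g) ∧ (g = ss F → r.n = t) := fun g => by
    by_cases c1 : g ∈ Geo F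
    · exact ⟨⟨a g, 0, PG T g⟩, fun _ => ⟨(h2 g c1).symm, rfl⟩, fun _ => rfl,
        fun e => absurd (e ▸ c1) hs⟩
    by_cases c2 : g = ss F
    · exact ⟨⟨t, 0, PG T (ss F)⟩, fun _ => ⟨c2 ▸ h3.symm, c2 ▸ rfl⟩, fun e => absurd e c1,
        fun _ => rfl⟩
    by_cases c3 : g ∈ WW F
    · obtain ⟨i, hi⟩ := c3
      have e : g = g * ss F ^ (-i) * ss F ^ i := by group
      refine ⟨⟨a (g * ss F ^ (-i)), 0, PG T (g * ss F ^ (-i))⟩ * ⟨t, 0, PG T (ss F)⟩ ^ i,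
        fun _ => ⟨?_, ?_⟩, fun e => absurd e c1, fun e => absurd e c2⟩
      · rw [map_mul, map_zpow, ← h2 _ hi, ← h3, ← h1.zpow ss_mem,
          ← h1.mul _ (geo_le hi) _ (zpow_mem ss_mem i), ← e]
      · rw [Hs.mul_g, show ((⟨t, 0, PG T (ss F)⟩ : Hs) ^ i).g = PG T (ss F) ^ i from
          map_zpow (MonoidHom.mk' Hs.g Hs.mul_g) _ i, ← map_zpow, ← map_mul, ← e]
    · exact ⟨1, fun e => absurd e c3, fun e => absurd e c1, fun e => absurd e c2⟩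
  choose r r1 r2 r3 using hr
  refine ⟨fun g => (r g).n, ⟨fun g hg l hl => ?_,
    (ha.near m).mono fun g hg c1 _ => (r2 g c1).symm ▸ hg c1⟩, r2, r3 _ rfl⟩
  have a1 := h1.mul g hg l hl
  rw [← (r1 _ (mul_mem hg hl)).1, ← (r1 g hg).1, ← (r1 l hl).1, ← map_mul, hq_eq, Hs.mul_n,
    (r1 g hg).2] at a1
  exact a1.1

end

end Pool.Agent.Lib.MP_16ef92_ag.GF.GV
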