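import Mathlib
import Pool.Agent.Lib.MP_16ef92_ag.GV.Rows

set_option autoImplicit false
set_option linter.unusedSectionVars false
set_option linter.unusedVariables false

namespace Pool.Agent.Lib.MP_16ef92_ag.GF.GV

open Polynomial
open scoped Classical

noncomputable section

variable [Sp]

variable {F : Type} [Field F] [Clos F] [Fintype F] [hq : Fact (Odd (Fintype.card F))] [Fro F]
  {Z : Finset F[X]} {bd : ℕ} {Λ I : Type} [Fintype Λ] [Fintype I] {T : RD F}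
  {R : Pres Z bd} {Ap : Par F Λ} {pr : I → F[X]} {t : Λ → Nb}

theorem cls_two (x : Vb) : x + x = 0 := by
  nth_rewrite 1 [← neg_vb x]
  exact neg_add_cancel x

theorem cls_odd {n : ℕ} (hn : Odd n) (x : Vb) : n • x = x := by
  obtain ⟨k, rfl⟩ := hn
  rw [succ_nsmul, mul_nsmul', two_nsmul, cls_two, zero_add]

theorem cls_nsv (g : Gam F) (x : V) : nsv (T.ro g) (rh x) = rh (hL T g x) := by
  have h : ∃ y : V, (2 : ℤ_[2]) • y = lb (rh x) - T.ro g (lb (rh x)) := ⟨_, two_hL T g _⟩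
  rw [nsv, dif_pos h, ← hL_eq h.choose_spec, rb_eq, ← map_sub]
  exact map_Dv _ (rb_eq.1 (rb_lb _))

theorem St2.hL_l (h : St2 T R Ap pr t) (l : Λ) (x : V) :
    rh (hL T (R.σ (Ap.lp l)) x) = nu (t l) (rh x) := by rw [← h.Hl, h.mult]

theorem Ai.exists_w {m : ℕ} {a U : Ad T} {x : V} (ha : Ai T m a x U) :
    ∃ n, CyL T (WW F) m n ∧ (∀ g ∈ Geo F, n g = a.1 g) ∧ n (ss F) = x :=
  GV.exists_w a.2.1 fun g hg => by
    rw [ha g hg, add_sub_cancel_left]
    exact smul_mem_Dv _ _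

/-- An almost invariant class comes from an almost invariant cocycle. -/
theorem St2.norm (h : St2 T R Ap pr t) {a U : Ad T} {m : ℕ} (hm : 1 ≤ m)
    (ha : FM T (ss F) ((Nu T).mkQ a) = (Nu T).mkQ a + (2 : ℤ_[2]) ^ m • (Nu T).mkQ U) :
    ∃ x, Ai T m a x U := by
  rw [FF_mk, ← map_smul, ← map_add, mk_eq_mk] at ha
  obtain ⟨r, hr⟩ := ha
  have h1 : ∀ g ∈ Geo F, GV.tw T (ss F) a.1 g =
    a.1 g + (2 : ℤ_[2]) ^ m • U.1 g + hL T g r := hr
  obtain ⟨i, hi⟩ := h.odd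
  have h2 := orb_tele a.2.1 (h.prm (.inr i)) (h.dec (.inr i)) (u := rh r) fun j => by
    rw [h1 _ (og_geo (h.dec _).geo _), add_assoc, add_sub_cancel_left, map_add,
      rh_eq_zero.2 (Dv_mono hm (smul_mem_Dv _ _)), zero_add]
    exact congrArg rh (h.hL_og i _ r)
  obtain ⟨z, rfl⟩ := mem_Dv_iff.1 (rh_eq_zero.1 ((cls_odd hi _).symm.trans h2))
  refine ⟨-z, fun g hg => ?_⟩
  rw [h1 g hg, map_smul, pow_one, two_hL, map_neg]
  abel

/-- An invariant cocycle that is even on the generators is even. -/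
theorem St2.zero_two (h : St2 T R Ap pr t) {a : Ad T} (ha : a ∈ I2 T)
    (h0 : ∀ k, rh (a.1 (R.σ (pk Ap pr k))) = 0) : ∀ g ∈ Geo F, a.1 g ∈ Dv 1 := by
  intro g hg
  refine rh_eq_zero.1 (R.lp.geo_ext pg_two ((cyL_of_cy a.2.1 1).ch le_rfl).hm hm_one
    (fun c O hO hc g hg => ?_) (fun _ _ _ _ _ _ => rfl) (fun p hp j _ => ?_) hg)
  · simp only [ad_good a hO (h.goodZ c hc O hO) hg, map_zero, ofAdd_zero]
  · rw [i2_og ha (R.dec p hp).geo, ofAdd_eq_one]
    by_cases hn : p ∈ Set.range (pk Ap pr)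
    · obtain ⟨k, rfl⟩ := hn
      exact h0 k
    · rw [(h.off hp hn).2.2 a, map_zero]

/-- A class in the image of `F - 1` has a constant type at the primes of odd degree. -/
theorem St2.const (h : St2 T R Ap pr t) {a y : Ad T} (ha : a ∈ I2 T)
    (hy : FM T (ss F) ((Nu T).mkQ y) = (Nu T).mkQ y + (Nu T).mkQ a) :
    ∃ r, ∀ i, Odd (pr i).natDegree → rh (a.1 (R.σ (pr i))) = r := by
  rw [FF_mk, ← map_add, mk_eq_mk] at hy
  obtain ⟨r, hr⟩ := hy
  have h1 : ∀ g ∈ Geo F, GV.tw T (ss F) y.1 g = y.1 g + a.1 g + hL T g r := hr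
  refine ⟨rh r, fun i hi => ?_⟩
  have h2 := orb_tele y.2.1 (h.prm (.inr i)) (h.dec (.inr i))
    (u := rh (a.1 (R.σ (pr i))) + rh r) fun j => by
      rw [h1 _ (og_geo (h.dec _).geo _), add_assoc, add_sub_cancel_left, map_add,
        i2_og ha (h.dec _).geo]
      exact congrArg (_ + rh ·) (h.hL_og i _ r)
  rw [← neg_vb (rh r)]
  exact eq_neg_of_add_eq_zero_left ((cls_odd hi _).symm.trans h2)

/-- A class with the type of a torsion point is divisible by two. -/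
theorem St2.div_two (h : St2 T R Ap pr t) {a : Ad T} (ha : a ∈ I2 T) {r : Vb}
    (h1 : ∀ i, rh (a.1 (R.σ (pr i))) = r) (h2 : ∀ l, rh (a.1 (R.σ (Ap.lp l))) = nu (t l) r) :
    ∃ b : MM T, (Nu T).mkQ a = (2 : ℤ_[2]) • b := by
  have h3 := h.zero_two (sub_mem ha (i2_hb (lb r))) fun k => by
    show rh (a.1 _ - hL T _ _) = 0
    rw [map_sub, sub_eq_zero]
    rcases k with l | i
    · exact (h2 l).trans ((h.hL_l l _).trans (by rw [rb_lb])).symm
    · exact (h1 i).trans ((congrArg rh (h.hL_s i _)).trans (rb_lb r)).symm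
  simpa only [pow_one] using (mk_div_iff a 1).2 ⟨lb r, h3⟩

/-- The row of an almost invariant cocycle modulo two. -/
theorem St2.row_eq (h : St2 T R Ap pr t) {a U : Ad T} {x : V} (ha : Ai T 1 a x U) (i : I) {y : Vb}
    (hU : ∀ j, rh (U.1 (og (R.σ (pr i)) (j + 1))) = y) :
    row1 t (sa R pr) (sb R Ap pr) (ty R Ap pr a x) i = ((pr i).natDegree : Z2) •
      (tg1 Ap t (fun i => (pr i).natDegree) (ty R Ap pr a x) i + y) := by
  obtain ⟨n, hn, h1, h2⟩ := ha.exists_w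
  have hd := h.dec (.inr i)
  obtain ⟨c, O, -, o1, o2, -, o3, -⟩ := dec_pair (h.prm _) hd
  obtain ⟨ν, hν⟩ := h.rp.adm a o1
  have e0 : a.1 (R.σ (pr i)) = ν := (hν _ o2).trans (h.hL_s i ν)
  have h3 := orb_cy hn a.2.1 (fun g hg => by rw [h1 g hg, sub_self]; exact zero_mem _)
    (fun g hg => by rw [h2, ha g hg, sub_self]; exact zero_mem _) hd.geo
    (hd.dg ▸ dg_spec hd.memF) (hν _ o2) (hν _ o3)
  have h4 : rh (n (R.f (pr i))) + rh (hL T (R.f (pr i)) ν) = ((pr i).natDegree : Z2) • y := by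
    have e : ∀ z, hL T (R.f (pk Ap pr (.inr i)) * R.σ (pk Ap pr (.inr i)) *
      (R.f (pk Ap pr (.inr i)))⁻¹) z = z := h.hL_f i
    rw [e, ← neg_sub ν, ← two_hL, pow_one, ← sub_eq_add_neg, ← smul_sub, ← smul_sub,
      ← pow_one (2 : ℤ_[2]), smul_mem_Dv_iff, ← rb_eq, map_sub, sub_eq_add_neg, neg_vb,
      map_sum] at h3
    rw [Nat.cast_smul_eq_nsmul]
    exact h3.trans ((Finset.sum_congr rfl fun j _ => hU j).trans (by simp [pk]))
  have h5 := R.lp.w_expand h.inj h.mem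
    ((hn.ch le_rfl).add ((cyL_hL T (WW F) 1 ν).ch le_rfl))
    (fun c O hO hc g hg => by
      have := h.goodZ c hc O hO
      simp only [h1 g hg.1, ad_good a hO this hg, hL_good this hg, map_zero, add_zero])
    (fun p hp hn => by
      simp only [h1 _ (R.dec p hp).geo, (h.off hp hn).2.2 a, (h.off hp hn).2.1, map_zero, add_zero])
    hd.memF
  have e1 : ∀ k, n (R.σ (pk Ap pr k)) = a.1 (R.σ (pk Ap pr k)) := fun k => h1 _ (h.dec k).geo
  simp only [e1, hd.dg, Int.cast_natCast, Fintype.sum_sum_type, h2] at h5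
  simp only [pk, Sum.elim_inl, Sum.elim_inr, h4, h.hL_l, h.hL_s, sub_eq_add_neg, neg_vb] at h5
  simp only [row1, tg1, sa, sb, ty, Option.elim, pk, Sum.elim_inl, Sum.elim_inr, e0, ← h.ros,
    cls_nsv]
  rw [smul_add _ _ y, h5, add_left_comm, cls_two, add_zero, add_comm]

/-- An almost invariant cocycle gives a parameter. -/
theorem St2.exists_ok (h : St2 T R Ap pr t) {m : ℕ} (hbd : 2 ^ bdx m ≤ bd) {a U : Ad T}
    {x : V} (ha : Ai T m a x U) :
    ∃ μ : Prs Λ I, Cgv Ap (ty R Ap pr a x) μ ∧ ∀ o, rws R Ap pr o μ ∈ Dv m := by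
  obtain ⟨n, hn, h1, h2⟩ := ha.exists_w
  have h0 : ∀ k, ∃ ν, a.1 (R.σ (pk Ap pr k)) = hL T (R.σ (pk Ap pr k)) ν := fun k => by
    obtain ⟨c, O, -, o1, o2, -⟩ := h.dec k
    exact (h.rp.adm a o1).imp fun ν hν => hν _ o2
  choose ν hν using h0
  obtain ⟨μ, m0, m1⟩ : ∃ μ : Prs Λ I, μ none = x ∧ ∀ k, μ (some k) = ν k :=
    ⟨fun o => o.elim x ν, rfl, fun _ => rfl⟩
  have one : ∀ g, n g = 0 → (∀ y, T.ro g y = y) →
      hq' m 0 (Nat.zero_le _) ⟨n g, 0, PG T g⟩ = 1 := fun g e1 e2 => by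
    rw [e1, show PG T g = 1 from Subtype.ext (Units.ext (LinearMap.ext e2))]
    rfl
  have h3 : ∀ g ∈ WW F, n g - (EU R Ap pr (R.wd g)).n μ ∈ Dv m := fun g hg => by
    have e1 := R.good _ hq_pg (hq_card.trans hbd) _ hn.hm (fun c O hO hc g hg => one g
      ((h1 g hg.1).trans (ad_good a hO (h.goodZ c hc O hO) hg)) (h.goodZ c hc O hO g hg)) g hg
    have e2 := R.lp.ev_eq hn.hm ((hq' m 0 (Nat.zero_le _)).comp (EM h μ))
      (by rw [MonoidHom.comp_apply, EM_none, h2, m0]) (fun ⟨p, hp⟩ => by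
        rw [MonoidHom.comp_apply]
        by_cases hk : p ∈ Set.range (pk Ap pr)
        · obtain ⟨k, rfl⟩ := hk
          rw [EM_pk, hq_eq, m1]
          refine ⟨?_, by simp, fun y => by simp [th_g]⟩
          show n _ - hL T _ _ ∈ _
          rw [h1 _ (h.dec k).geo, hν, sub_self]
          exact zero_mem _
        · rw [EM_off h μ hp hk, map_one]
          exact one _ ((h1 _ (R.dec p hp).geo).trans ((h.off hp hk).2.2 a)) (h.off hp hk).1)
      (R.wd g)
    exact (hq_eq.1 (e1.symm.trans e2)).1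
  obtain ⟨r0, r1⟩ := h.rows_orb hn (δ := a) (U := U)
    (fun g hg => by rw [h1 g hg, sub_self]; exact zero_mem _) (h2 ▸ ha) h3
    (by rw [h2, m0, sub_self]; exact zero_mem _)
    (fun k => by rw [hν, m1, sub_self]; exact zero_mem _)
  have key : ∀ {u w : V}, u - (2 : ℤ_[2]) ^ m • w ∈ Dv (m + 1) → u ∈ Dv m := fun {u w} e => by
    simpa using add_mem (Dv_mono m.le_succ e) (smul_mem_Dv m w)
  refine ⟨μ, ⟨by rw [m0]; rfl, fun l => ?_, fun i => ?_⟩, fun o => ?_⟩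
  · rw [m1, h.Hl]
    exact congrArg rh (hν (.inl l)).symm
  · rw [m1]
    exact congrArg rh ((hν (.inr i)).trans (h.hL_s i _)).symm
  · rcases o with _ | k
    exacts [key r0, key (r1 k)]

end

end Pool.Agent.Lib.MP_16ef92_ag.GF.GV
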