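import Mathlib
import Pool.Agent.Lib.MP_16ef92_ag.GV.Qd
import Pool.Agent.Lib.MP_16ef92_ag.GF.Rep
import Pool.Agent.Lib.MP_16ef92_ag.GF.Symb

set_option autoImplicit false
set_option linter.unusedSectionVars false
set_option linter.unusedVariables false

namespace Pool.Agent.Lib.MP_16ef92_ag.GF.GV

open Polynomial
open scoped Classical

noncomputable section

variable {F : Type} [Field F] [Clos F] [Fintype F] [hq : Fact (Odd (Fintype.card F))]
  {N D : F[X]} {O : ValuationSubring (Om F)} {c : kk F} {g : Gam F}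

theorem chi_good (hc : aeval c D ≠ 0) (hO : Over O (some c)) (hg : g ∈ Ine O) : chi D g = 1 := by
  rw [chi_eq fun e => hc (by rw [e, map_zero]), sg,
    hO.kap_unit prim_one hg (gam_ev _ _) (over_ev hO hc), sgz_zero]

theorem chi_root (hD : Squarefree D) (hc : aeval c D = 0) (hO : Over O (some c)) (hg : g ∈ Ine O) :
    chi D g = sgz (sg (pl (some c)) g) := by
  rw [chi_eq hD.ne_zero, sg, hO.kap_val prim_one hg (gam_ev _ _) (j := 1)
    (by rw [zpow_one, (simple_root (q := 1) (by rwa [mul_one]) hc).2 O hO]), Int.cast_one, one_mul,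
    sg]

theorem chi_inf (hD : D ≠ 0) (hO : Over O none) (hg : g ∈ Ine O) :
    chi D g = sgz (D.natDegree * sg (pl none) g) := by
  have h4 : sg (tt F) g = sg (pl none) g := by
    have := kap_inv_left prim_one (fix_neg_one g) (gam_tt g) tt_ne
    rw [neg_z2] at this
    exact this.symm
  rw [chi_eq hD, sg_split D hD, h4, sg, hO.kap_unit prim_one hg
    (by rw [map_div₀, map_pow, gam_tt, gam_ev]) (val_inf_poly hO hD), zero_add]

variable [Sp] {T : RD F} {r : ℕ} {t : F[X] → Nb}

/-- The local structure of a twist. -/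
structure Fam2 (T : RD F) (N D : F[X]) (r : ℕ) (t : F[X] → Nb) : Prop where
  ne : N * D ≠ 0
  geo : ∀ g ∈ Geo F, dt (T.ro g) = 1
  det : ∀ s, Fr s (Fintype.card F) → dt (T.ro s) = Fintype.card F
  good : ∀ c, aeval c (N * D) ≠ 0 → ∀ O, Over O (some c) → GoodAt T O
  mult : ∀ c, aeval c N = 0 → ∀ O, Over O (some c) → MultAt T O (some c)
  tw : ∀ c, aeval c D = 0 → ∀ O, Over O (some c) → TwistAt T O (some c)
  inf : ∀ O, Over O none → if Even (r + D.natDegree) then GoodAt T O else TwistAt T O none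
  typ : ∀ l, Prm l → l ∣ N → ∀ c, aeval c l = 0 → ∀ γ, Gen (some c) γ → ∀ y z,
    (2 : ℤ_[2]) • z = y - T.ro γ y → rh z = nu (t l) (rh y)

theorem Fam.twist (h : Fam T N r t) (hsq : Squarefree (N * D)) : Fam2 (T.twist D) N D r t := by
  have hd : ∀ g, dt ((T.twist D).ro g) = dt (T.ro g) := fun g => by
    rw [twist_ro, dt_smul, mul_self_eq_one_iff.2 (chi_cases D g), one_mul]
  have h1 : ∀ c : kk F, aeval c N = 0 → ∀ O, Over O (some c) → ∀ g ∈ Ine O,
      (T.twist D).ro g = T.ro g := fun c hc O hO g hg => by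
    rw [twist_ro, chi_good (simple_root hsq hc).1 hO hg, one_smul]
  refine ⟨hsq.ne_zero, fun g hg => (hd g).trans (h.geo g hg), fun s hs => (hd s).trans (h.det s hs),
    fun c hc O hO g hg y => ?_, fun c hc O hO => ?_, fun c hc O hO g hg y => ?_, fun O hO => ?_,
    fun l hl hN c hc γ hγ y z e => h.typ l hl hN c hc γ hγ y z ?_⟩
  · rw [map_mul, mul_ne_zero_iff] at hc
    rw [twist_ro, chi_good hc.2 hO hg, one_smul, h.good c hc.1 O hO g hg]
  · obtain ⟨ν, b, h2⟩ := h.mult c hc O hO
    exact ⟨ν, b, h2.skew, h2.sat, h2.par, fun g hg y => by rw [h1 c hc O hO g hg, h2.hb g hg]⟩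
  · rw [twist_ro, chi_root hsq.of_mul_right hc hO hg, LinearMap.smul_apply,
      h.good c (simple_root (by rwa [mul_comm] at hsq) hc).1 O hO g hg]
    rcases z2_cases (sg (pl (some c)) g) with e | e <;> simp [e, sgz_zero, sgz_one]
  · have h2 := h.inf O hO
    have h3 : ∀ g ∈ Ine O, ∀ y, (T.twist D).ro g y =
        sgz (((r + D.natDegree : ℕ) : Z2) * sg (pl none) g) • y := fun g hg y => by
      rw [twist_ro, chi_inf (right_ne_zero_of_mul hsq.ne_zero) hO hg, LinearMap.smul_apply,
        Nat.cast_add, add_mul, sgz_add, mul_comm (sgz _), mul_smul]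
      refine congrArg _ ?_
      split_ifs at h2 with e
      · rw [h2 g hg, (ZMod.natCast_eq_zero_iff_even (n := r)).2 e, zero_mul, sgz_zero, one_smul]
      · rw [h2 g hg, (ZMod.natCast_eq_one_iff_odd (n := r)).2 (Nat.not_even_iff_odd.1 e), one_mul]
        rcases z2_cases (sg (pl none) g) with e | e <;> simp [e, sgz_zero, sgz_one]
    split_ifs with e
    · intro g hg y
      rw [h3 g hg, (ZMod.natCast_eq_zero_iff_even (n := _)).2 e, zero_mul, sgz_zero, one_smul]
    · intro g hg y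
      rw [h3 g hg, (ZMod.natCast_eq_one_iff_odd (n := _)).2 (Nat.not_even_iff_odd.1 e), one_mul]
      rcases z2_cases (sg (pl none) g) with e | e <;> simp [e, sgz_zero, sgz_one]
  · obtain ⟨O, h2, h3, -⟩ := hγ
    rwa [h1 c (aeval_eq_zero_of_dvd_aeval_eq_zero hN hc) O h2 γ h3] at e

theorem Fam2.cls (h : Fam2 T N D r t) : Cls T := by
  rintro (_ | c) O hO
  · have := h.inf O hO
    split_ifs at this
    exacts [.inl this, .inr (.inl this)]
  · by_cases h1 : aeval c N = 0
    · exact .inr (.inr (h.mult c h1 O hO))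
    by_cases h2 : aeval c D = 0
    · exact .inr (.inl (h.tw c h2 O hO))
    · exact .inl (h.good c (by rw [map_mul]; exact mul_ne_zero h1 h2) O hO)

theorem Fam2.rp (h : Fam2 T N D r t) (hD : 0 < D.natDegree) : Rp T := by
  refine ⟨h.cls, h.geo, ?_, ?_⟩
  · refine ((((N * D).rootSet_finite (kk F)).image some).insert none).subset ?_
    rintro (_ | c) ⟨O, hO, h1⟩
    · exact Or.inl rfl
    · refine Or.inr ⟨c, mem_rootSet.2 ⟨h.ne, ?_⟩, rfl⟩
      by_contra h2
      exact h1 (h.good c h2 O hO)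
  · obtain ⟨c, hc⟩ := IsAlgClosed.exists_aeval_eq_zero (kk F) D (natDegree_pos_iff_degree_pos.1 hD).ne'
    exact ⟨c, h.tw c hc⟩

end

end Pool.Agent.Lib.MP_16ef92_ag.GF.GV
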