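import Mathlib
import Pool.Agent.Lib.MP_16ef92_ag.GV.Stg
import Pool.Agent.Lib.MP_16ef92_ag.GV.Tw

set_option autoImplicit false
set_option linter.unusedSectionVars false
set_option linter.unusedVariables false

namespace Pool.Agent.Lib.MP_16ef92_ag.GF.GV

open Polynomial
open scoped Classical

noncomputable section

variable [Sp]

variable {F : Type} [Field F] [Clos F] [Fintype F] [hq : Fact (Odd (Fintype.card F))] [Fro F]
  {Z : Finset F[X]} {bd : ℕ} {Λ I : Type} [Fintype Λ] [Fintype I] {T : RD F}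
  {R : Pres Z bd} {Ap : Par F Λ} {pr : I → F[X]} {t : Λ → Nb}

theorem st3_sq {N a b p : F[X]} (h : Squarefree N) (hp : Irreducible p) (hN : a * b ∣ N)
    (ha : p ∣ a) (hb : p ∣ b) : False :=
  hp.not_isUnit (h p ((mul_dvd_mul ha hb).trans hN))

theorem st3_sgz {ι : Type} (s : Finset ι) (f : ι → Z2) :
    sgz (∑ i ∈ s, f i) = ∏ i ∈ s, sgz (f i) := by
  induction s using Finset.induction_on with
  | empty => exact sgz_zero
  | insert a s ha ih => rw [Finset.sum_insert ha, Finset.prod_insert ha, sgz_add, ih]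

/-- The twist has the local structure. -/
theorem exists_st2 {N : F[X]} {r : ℕ} {τ : F[X] → Nb} {T₁ : RD F} (hF : Fam T₁ N r τ) {u : F}
    (hC : Cst N r T₁ R Ap u (∑ i, (pr i).natDegree)) (hsq : Squarefree (N * (C u * ∏ i, pr i)))
    (hZ : ∀ i, pr i ∈ Z) (hodd : ∃ i, Odd (pr i).natDegree) :
    St2 (T₁.twist (C u * ∏ i, pr i)) R Ap pr fun l => τ (Ap.lp l) := by
  have hD := right_ne_zero_of_mul hsq.ne_zero
  have hu : u ≠ 0 := C_ne_zero.1 (left_ne_zero_of_mul hD)
  have hp : ∀ i, Prm (pr i) := fun i => R.prm _ (hZ i)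
  have hl : ∀ l, Prm (Ap.lp l) := fun l => R.prm _ (hC.lpZ l)
  have hN : ∀ l, Ap.lp l ∣ N := fun l => (hC.lpN _ (hl l)).2 ⟨l, rfl⟩
  have hd : ∀ i, pr i ∣ C u * ∏ i, pr i := fun i =>
    (Finset.dvd_prod_of_mem _ (Finset.mem_univ i)).mul_left _
  have hT : (T₁.twist (C u * ∏ i, pr i)).ro = PP Ap.ρ pr := MonoidHom.ext fun g =>
    LinearMap.ext fun x => by
      rw [PP_apply, LinearMap.smul_apply, hC.rho, smul_smul, chi_prod hu fun i => (hp i).ne,
        ← chi_eq hD]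
      rfl
  have hG := hF.twist hsq
  generalize T₁.twist (C u * ∏ i, pr i) = T at *
  have hdeg : (C u * ∏ i, pr i).natDegree = ∑ i, (pr i).natDegree := by
    rw [natDegree_C_mul hu, natDegree_prod _ _ fun i _ => (hp i).ne]
  have hne : ∀ i l, pr i ≠ Ap.lp l := fun i l e =>
    st3_sq hsq (hp i).2 dvd_rfl (e ▸ hN l) (hd i)
  have hch : ∀ l, chs pr (R.σ (Ap.lp l)) = 1 := fun l => by
    rw [chs_apply]
    refine Finset.prod_eq_one fun i _ => ?_
    rw [chi_eq (hp i).ne, sg_dec (hp i) (hl l) (R.dec _ (hC.lpZ l)), if_neg (hne i l), sgz_zero]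
  have hH : ∀ l, Ap.Hl l = hL T (R.σ (Ap.lp l)) := fun l => LinearMap.ext fun x =>
    (hL_eq (by rw [hT, PP_apply, hch, one_smul, hC.Hl])).symm
  have hs : T.ro (ss F) = sd F (∑ i, (pr i).natDegree) • Ap.ρ (ss F) := by
    rw [hT, PP_apply, chs_apply, sd, Nat.cast_sum, Finset.sum_mul, st3_sgz]
    refine congrArg (· • _) (Finset.prod_congr rfl fun i _ => ?_)
    rw [chi_eq (hp i).ne, sg_ev_ss (hp i).1]
  refine ⟨hG.rp ?_, hT, hG.det _ Fro.fr, ?_, ?_,
    fun c hc O hO => hG.good c (fun h0 => ?_) O hO, fun i c hc O hO => hG.tw c ?_ O hO, hH,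
    fun l => LinearMap.ext fun x => (hL_eq ?_).symm, fun l x => ?_, ?_, hs, hodd⟩
  · obtain ⟨i, -⟩ := hodd
    exact (hp i).pos.trans_le (natDegree_le_of_dvd (hd i) hD)
  · rintro (l | i) (l' | i') e
    · exact congrArg _ (hC.lpI e)
    · exact absurd e.symm (hne i' l)
    · exact absurd e (hne i l')
    · by_contra h0
      have h6 : i' ≠ i := fun e' => h0 (by rw [e'])
      refine st3_sq hsq (hp i).2 (a := pr i) (b := ∏ j ∈ Finset.univ.erase i, pr j) ?_ dvd_rfl
        ((dvd_of_eq e).trans (Finset.dvd_prod_of_mem _ (Finset.mem_erase.2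
          ⟨h6, Finset.mem_univ _⟩)))
      rw [Finset.mul_prod_erase _ _ (Finset.mem_univ i)]
      exact (dvd_mul_left _ _).mul_left _
  · rintro (l | i)
    exacts [hC.lpZ l, hZ i]
  · rw [map_mul _ N, mul_eq_zero] at h0
    rcases h0 with h0 | h0
    · obtain ⟨l, e⟩ := (hC.lpN _ (prm_minpoly c)).1 (minpoly.dvd F c h0)
      exact hc (.inl l) ((congrArg (aeval c) e).trans (minpoly.aeval F c))
    · rw [map_mul, map_prod, aeval_C, mul_eq_zero, Finset.prod_eq_zero_iff] at h0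
      rcases h0 with h0 | ⟨i, -, h0⟩
      exacts [hu ((_root_.map_eq_zero _).1 h0), hc (.inr i) h0]
  · obtain ⟨q, e⟩ := hd i
    rw [e, map_mul, hc, zero_mul]
  · rw [hT, PP_apply, map_mul (chs pr), map_mul (chs pr), hch, mul_one, ← map_mul, mul_inv_cancel,
      map_one, one_smul, hC.Hl']
  · obtain ⟨c, h6, h7⟩ := (R.dec _ (hC.lpZ l)).gen
    rw [hH]
    exact hG.typ _ (hl l) (hN l) c h6 _ h7 x _ (two_hL T _ x)
  · have h7 := hG.inf _ Fro.ov
    rw [hdeg] at h7
    by_cases h6 : Even (r + ∑ i, (pr i).natDegree)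
    · exact Or.inl ⟨by rwa [if_pos h6] at h7, hC.ev h6⟩
    · refine Or.inr ⟨by rwa [if_neg h6] at h7, (hC.od h6).1, LinearMap.ext fun x => ?_⟩
      rw [LinearMap.neg_apply, hL_eq (T := T) (y := -Ap.E2 x), neg_neg]
      rw [smul_neg, (hC.od h6).2, neg_sub, hs, LinearMap.smul_apply]

end

end Pool.Agent.Lib.MP_16ef92_ag.GF.GV
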