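import Mathlib
import Pool.Agent.Lib.MP_16ef92_ag.GV.Stg

set_option autoImplicit false
set_option linter.unusedSectionVars false
set_option linter.unusedVariables false

namespace Pool.Agent.Lib.MP_16ef92_ag.GF.GV

open Polynomial
open scoped Classical

noncomputable section

variable [Sp]

variable {F : Type} [Field F] [Clos F] [Fintype F] [hq : Fact (Odd (Fintype.card F))] [Fro F]
  {Z : Finset F[X]} {bd : ℕ} {Λ I : Type} [Fintype Λ] [Fintype I] {T : RD F}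
  {R : Pres Z bd} {Ap : Par F Λ} {pr : I → F[X]} {t : Λ → Nb}

/-- The element of the Heisenberg group attached to `g`. -/
def eps (T : RD F) (R : Pres Z bd) (Ap : Par F Λ) (pr : I → F[X]) (μ : Prs Λ I) (m : ℕ)
    (g : Gam F) : HQ m (m + 1) le_rfl :=
  hq' m (m + 1) le_rfl ⟨(EU R Ap pr (R.wd g)).n μ, (EU R Ap pr (R.wd g)).z μ μ, PG T g⟩

theorem dsc_pg {O : ValuationSubring (Om F)} (h : GoodAt T O) {g : Gam F} (hg : g ∈ Ine O) :
    PG T g = 1 := Subtype.ext (Units.ext (LinearMap.ext (h g hg)))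

theorem dsc_eps (h : St2 T R Ap pr t) {m : ℕ} (hbd : 2 ^ bdx m ≤ bd) (μ : Prs Λ I)
    {g : Gam F} (hg : g ∈ WW F) :
    hq' m (m + 1) le_rfl (EM h μ (R.wd g)) = eps T R Ap pr μ m g := by
  have h1 := R.good _ hq_pg (hq_card.trans hbd) _
    (hm_th (m := m) (e := m + 1) (h := le_rfl) T (WW F) 0)
    (fun c O hO hc l hl => by simp only [dsc_pg (h.goodZ c hc O hO) hl, map_one]) g hg
  exact hq_eq.2 ⟨by rw [EM_n, sub_self]; exact zero_mem _, by rw [EM_z, sub_self]; exact dvd_zero _,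
    (hq_eq.1 h1).2.2⟩

theorem dsc_row (h : St2 T R Ap pr t) (μ : Prs Λ I) (k : Λ ⊕ I) :
    hL T (R.f (pk Ap pr k) * R.σ (pk Ap pr k) * (R.f (pk Ap pr k))⁻¹)
      ((2 : ℤ_[2]) • (EU R Ap pr (R.wd (R.f (pk Ap pr k)))).n μ +
        T.ro (R.f (pk Ap pr k)) (μ (some k)) - μ (some k)) = rws R Ap pr (some k) μ := by
  have h1 : (2 : ℤ_[2]) • (EU R Ap pr (R.wd (R.f (pk Ap pr k)))).n μ +
      T.ro (R.f (pk Ap pr k)) (μ (some k)) - μ (some k) =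
      rw0 R Ap pr (pk Ap pr k) (some k) μ := by
    rw [h.ro, add_sub_assoc]
    rfl
  rw [h1]
  rcases k with l | i
  · exact (DFunLike.congr_fun (h.Hl' l) _).symm
  · exact h.hL_f i _

theorem dsc_rel (h : St2 T R Ap pr t) {m : ℕ} {μ : Prs Λ I} (k : Λ ⊕ I)
    (h1 : rws R Ap pr (some k) μ ∈ Dv m) :
    hq' m (m + 1) le_rfl (th ((2 : ℤ_[2]) • (EU R Ap pr (R.wd (R.f (pk Ap pr k)))).n μ +
        T.ro (R.f (pk Ap pr k)) (μ (some k)))
        (PG T (R.f (pk Ap pr k) * R.σ (pk Ap pr k) * (R.f (pk Ap pr k))⁻¹))) =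
      hq' m (m + 1) le_rfl (th (μ (some k))
        (PG T (R.f (pk Ap pr k) * R.σ (pk Ap pr k) * (R.f (pk Ap pr k))⁻¹))) := by
  rw [← dsc_row h μ k] at h1
  refine th_congr' (h.rp.geo _ (geo_conj' (h.dec k).geo _)) ?_ h1
  rw [add_sub_assoc]
  exact add_mem (two_smul_Dv _) (T.triv _ _)

theorem dsc_conj (h : St2 T R Ap pr t) {m : ℕ} (μ : Prs Λ I) (f : Gam F) {σ : Gam F}
    (hσ : σ ∈ Geo F) (ν : V) :
    eps T R Ap pr μ m f * hq' m (m + 1) le_rfl (th ν (PG T σ)) * (eps T R Ap pr μ m f)⁻¹ =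
      hq' m (m + 1) le_rfl (th ((2 : ℤ_[2]) • (EU R Ap pr (R.wd f)).n μ + T.ro f ν)
        (PG T (f * σ * f⁻¹))) := by
  rw [eps, ← map_inv, ← map_mul, ← map_mul, th_conj (g := PG T σ) _ _ (h.rp.geo σ hσ), map_mul (PG T),
    map_mul (PG T), map_inv (PG T)]
  rfl

/-- A parameter with small rows defines a homomorphism on the Weil group. -/
theorem St2.descent (h : St2 T R Ap pr t) {m : ℕ} (hbd : 2 ^ bdx m ≤ bd) {μ : Prs Λ I}
    (h1 : ∀ k, rws R Ap pr (some k) μ ∈ Dv m) :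
    Hm (WW F) (eps T R Ap pr μ m) ∧
    eps T R Ap pr μ m (ss F) = hq' m (m + 1) le_rfl ⟨μ none, 0, PG T (ss F)⟩ ∧
    (∀ k, eps T R Ap pr μ m (R.σ (pk Ap pr k)) =
      hq' m (m + 1) le_rfl (th (μ (some k)) (PG T (R.σ (pk Ap pr k))))) ∧
    ∀ c, ∃ γ ν, Gen (some c) γ ∧ eps T R Ap pr μ m γ = hq' m (m + 1) le_rfl (th ν (PG T γ)) := by
  obtain ⟨φ, h2, h3, h4⟩ := R.descend hq_pg (hq_card.trans hbd)
    ((hq' m (m + 1) le_rfl).comp (EM h μ)) fun p => by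
      simp only [MonoidHom.comp_apply]
      by_cases hp : p.1 ∈ Set.range (pk Ap pr)
      · obtain ⟨p, hpZ⟩ := p
        obtain ⟨k, rfl⟩ := hp
        rw [dsc_eps h hbd μ (h.dec k).memF, EM_pk h μ k, dsc_conj h μ _ (h.dec k).geo]
        exact (dsc_rel h k (h1 k)).trans
          ((h.dec k).tame hq_pg (hm_th T (Geo F) (μ (some k))) (h.prm k))
      · rw [EM_off h μ p.2 hp, map_one, mul_one, mul_inv_cancel, one_pow]
  have h5 : ∀ g ∈ WW F, eps T R Ap pr μ m g = φ g := fun g hg => by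
    rw [← R.good _ hq_pg (hq_card.trans hbd) φ h2 h3 g hg, h4, ← dsc_eps h hbd μ hg]
    rfl
  have h6 : ∀ k, φ (R.σ (pk Ap pr k)) =
      hq' m (m + 1) le_rfl (th (μ (some k)) (PG T (R.σ (pk Ap pr k)))) := fun k => by
    rw [← EM_pk h μ k]
    exact (congrArg φ (evw_some R.σ ⟨_, h.mem k⟩).symm).trans (h4 _)
  have h7 : ∀ p ∈ Z, ∃ ν, φ (R.σ p) = hq' m (m + 1) le_rfl (th ν (PG T (R.σ p))) := fun p hp => by
    by_cases hn : p ∈ Set.range (pk Ap pr)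
    · obtain ⟨k, rfl⟩ := hn
      exact ⟨_, h6 k⟩
    · have h8 : PG T (R.σ p) = 1 := Subtype.ext (Units.ext (LinearMap.ext (h.off hp hn).1))
      refine ⟨0, ?_⟩
      rw [h8, map_one, ← EM_off h μ hp hn]
      exact (congrArg φ (evw_some R.σ ⟨p, hp⟩).symm).trans (h4 _)
  refine ⟨⟨fun g hg l hl => by rw [h5 g hg, h5 l hl, h5 _ (mul_mem hg hl), h2.mul g hg l hl],
    h2.near.mono fun g hg h8 h9 => (h5 g h9).trans (hg h8 h9)⟩, ?_,
    fun k => (h5 _ (h.dec k).memS).trans (h6 k), fun c => ?_⟩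
  · rw [h5 _ ss_mem, ← EM_none h μ]
    exact (congrArg φ (evw_none (Z := Z) R.σ).symm).trans (h4 _)
  by_cases hc : ∃ p ∈ Z, aeval c p = 0
  · obtain ⟨pt, h8, -, h9, -⟩ := R.lp.pts
    obtain ⟨p, hp, hc⟩ := hc
    obtain ⟨i, -, rfl⟩ := h9 p hp c hc
    obtain ⟨ν, hν⟩ := h7 p hp
    refine ⟨_, (2 : ℤ_[2]) • (EU R Ap pr (R.wd (ss F ^ i))).n μ + T.ro (ss F ^ i) ν,
      (h8 p hp i).2, ?_⟩
    rw [h5 _ (geo_le (og_geo (R.dec p hp).geo i)), og,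
      h2.conj (pow_mem ss_mem _) (R.dec p hp).memS, hν, ← h5 _ (pow_mem ss_mem _),
      dsc_conj h μ _ (R.dec p hp).geo]
  · obtain ⟨γ, hγ⟩ := exists_gen (some c)
    have h8 : ∀ p ∈ Z, aeval c p ≠ 0 := fun p hp e => hc ⟨p, hp, e⟩
    refine ⟨γ, 0, hγ, ?_⟩
    rw [h5 _ (geo_le hγ.geo), h3.gen h8 hγ]
    obtain ⟨O, h9, h10, -⟩ := hγ
    rw [dsc_pg (h.goodZ c h8 O h9) h10, map_one, map_one]

end

end Pool.Agent.Lib.MP_16ef92_ag.GF.GV
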