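import Mathlib
import Pool.Agent.Lib.MP_16ef92_ag.GV.Rows
import Pool.Agent.Lib.MP_16ef92_ag.GV.Dsc

set_option autoImplicit false
set_option linter.unusedSectionVars false
set_option linter.unusedVariables false

namespace Pool.Agent.Lib.MP_16ef92_ag.GF.GV

open Polynomial
open scoped Classical

noncomputable section

variable [Sp]

variable {F : Type} [Field F] [Clos F] [Fintype F] [hq : Fact (Odd (Fintype.card F))] [Fro F]
  {Z : Finset F[X]} {bd : ℕ} {Λ I : Type} [Fintype Λ] [Fintype I] {T : RD F}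
  {R : Pres Z bd} {Ap : Par F Λ} {pr : I → F[X]} {t : Λ → Nb}

theorem tst_half {m : ℕ} {a b : V} (ha : a ∈ Dv (m + 1))
    (h : a - (2 : ℤ_[2]) ^ m • b ∈ Dv (m + 1)) : b ∈ Dv 1 := by
  have := sub_mem ha h
  rwa [sub_sub_cancel, smul_mem_Dv_iff] at this

theorem tst_pair (h : St2 T R Ap pr t) {B : Ad T →ₗ[ℤ_[2]] Ad T →ₗ[ℤ_[2]] ℤ_[2]} (hB : BtS T B)
    {U y : Ad T} (hy : y ∈ I2 T) {w : I → V} (hw : ∀ i, rh (y.1 (R.σ (pr i))) = rh (w i))
    (h0 : U.1 (og (sI F) 1) ∈ Dv 1)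
    (h1 : ∀ l, ∑ j ∈ Finset.range (Ap.lp l).natDegree, U.1 (og (R.σ (Ap.lp l)) (j + 1)) ∈ Dv 1) :
    2 ^ 1 ∣ B U y - ∑ i,
      om (∑ j ∈ Finset.range (pr i).natDegree, U.1 (og (R.σ (pr i)) (j + 1))) (w i) := by
  have hi : Function.Injective pr := fun i j e =>
    Sum.inr_injective (h.inj (a₁ := .inr i) (a₂ := .inr j) e)
  obtain ⟨μ₀, hμ₀⟩ := h.rp.adm y Fro.ov
  have hν : ∀ p, ∃ v : V, (p ∈ Z → y.1 (R.σ p) - hL T (R.σ p) v ∈ Dv 1) ∧
      (∀ i, p = pr i → v = w i) ∧ ((∀ i, p ≠ pr i) → red 1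
        (om (∑ j ∈ Finset.range p.natDegree, U.1 (og (R.σ p) (j + 1))) v) = 0) := fun p => by
    by_cases c1 : ∃ i, p = pr i
    · obtain ⟨i, rfl⟩ := c1
      exact ⟨w i, fun _ => by rw [h.hL_s]; exact rb_eq.1 (hw i), fun j e => by rw [hi e],
        fun e => absurd rfl (e i)⟩
    by_cases c2 : ∃ l, p = Ap.lp l
    · obtain ⟨l, rfl⟩ := c2
      obtain ⟨c, O, -, a2, a3, -⟩ := h.dec (.inl l)
      obtain ⟨v, hv⟩ := h.rp.adm y a2
      exact ⟨v, fun _ => (sub_eq_zero.2 (hv _ a3)).symm ▸ zero_mem _,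
        fun i e => absurd ⟨i, e⟩ c1, fun _ => red_eq_zero.2 (om_dvd_left (h1 l) v)⟩
    · refine ⟨0, fun hp => ?_, fun i e => absurd ⟨i, e⟩ c1, fun _ => by
        rw [om_zero_right, map_zero]⟩
      rw [(h.off hp ?_).2.2 y, map_zero, sub_zero]
      · exact zero_mem _
      · rintro ⟨l | i, e⟩
        exacts [c2 ⟨l, e.symm⟩, c1 ⟨i, e.symm⟩]
  choose ν n1 n2 n3 using hν
  have key := hB.two_orb R.lp h.goodZ U y hy (μ₀ := μ₀)
    ((sub_eq_zero.2 (hμ₀ _ Fro.ine)).symm ▸ zero_mem _) fun p hp => n1 p hp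
  have g1 : Gen none (og (sI F) 1) := by
    rw [og_succ, og_zero]
    exact ⟨Fro.O, Fro.ov, inf_pair.1, inf_pair.2⟩
  have e1 : red 1 (om (U.1 (sI F)) μ₀) = 0 :=
    ((orb_ch U.2.1 μ₀).gen_eq gen_sI g1).trans (red_eq_zero.2 (om_dvd_left h0 μ₀))
  rw [e1, zero_add, ← Finset.sum_subset (s₁ := Finset.univ.image pr) (fun p hp => ?_)
    (fun p _ hp => n3 p fun i e => hp (Finset.mem_image.2 ⟨i, Finset.mem_univ _, e.symm⟩)),
    Finset.sum_image fun i _ j _ e => hi e] at key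
  · rw [← red_eq, key, map_sum]
    exact Finset.sum_congr rfl fun i _ => by rw [n2 _ i rfl]
  · obtain ⟨i, -, rfl⟩ := Finset.mem_image.1 hp
    exact h.mem (.inr i)

/-- The test of level `m`. -/
theorem St2.exists_test (h : St2 T R Ap pr t) {B : Ad T →ₗ[ℤ_[2]] Ad T →ₗ[ℤ_[2]] ℤ_[2]}
    (hB : BtS T B) {m : ℕ} (hm : 1 ≤ m) (hbd : 2 ^ bdx m ≤ bd) {μ : Prs Λ I}
    (h1 : ∀ i, rws R Ap pr (some (.inr i)) μ ∈ Dv m)
    (h2 : ∀ l, rws R Ap pr (some (.inl l)) μ ∈ Dv (m + 1)) (h3 : rws R Ap pr none μ ∈ Dv (m + 1)) :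
    ∃ (δ U : Ad T) (x : V) (u : ℤ_[2]), Ai T m δ x U ∧
      (∀ k, δ.1 (R.σ (pk Ap pr k)) - hL T (R.σ (pk Ap pr k)) (μ (some k)) ∈ Dv m) ∧
      2 ^ (m + 1) ∣ (dat R Ap pr).2 μ μ - (2 * u + 1) * B δ δ ∧
      ∀ y ∈ I2 T, ∀ w : I → V, (∀ i, rh (y.1 (R.σ (pr i))) = rh (w i)) →
        2 ^ (m + 1) ∣ 2 ^ m * B U y - ∑ i, om (w i) (rws R Ap pr (some (.inr i)) μ) := by
  obtain ⟨H, H0, Hk, Hc⟩ := h.descent hbd (μ := μ) fun k => by
    rcases k with l | i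
    exacts [Dv_mono m.le_succ (h2 l), h1 i]
  let N : Gam F → V := fun g => (EU R Ap pr (R.wd g)).n μ
  let z : Gam F → ℤ_[2] := fun g => (EU R Ap pr (R.wd g)).z μ μ
  have hN : CyL T (WW F) m N := ⟨fun g hg l hl => by
      have := H.mul g hg l hl
      rw [eps, eps, eps, ← map_mul, hq_eq] at this
      exact this.1,
    H.near.mono fun g hg a1 a2 => by
      have := hg a1 a2
      rw [eps, ← map_one (hq' m (m + 1) le_rfl), hq_eq, Hs.one_n, sub_zero] at this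
      exact this.1⟩
  have hNs : N (ss F) - μ none ∈ Dv m := (hq_eq.1 H0).1
  obtain ⟨δ, hδ⟩ := exists_lift h.rp (hN.mono geo_le le_rfl) fun x => by
    rcases x with _ | c
    · rcases h.inf with ⟨a1, a2, a3⟩ | ⟨a1, -, -⟩
      · refine ⟨sI F, 0, gen_sI, ?_⟩
        simp only [rws, a2, a3, LinearMap.add_apply, LinearMap.comp_apply, LinearMap.zero_apply,
          LinearMap.smul_apply, Module.End.one_apply, zero_add] at h3
        rw [← pow_one (2 : ℤ_[2]), add_comm, smul_mem_Dv_iff] at h3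
        rwa [map_zero, sub_zero]
      · exact ⟨sI F, N (sI F), gen_sI, by
          rw [hL_twist a1 Fro.ine Fro.sg1, sub_self]; exact zero_mem _⟩
    · obtain ⟨γ, ν, a1, a2⟩ := Hc c
      exact ⟨γ, ν, a1, (hq_eq.1 a2).1⟩
  have ea : ∀ g, (twL T (ss F) δ - δ - hb T (-((2 : ℤ_[2]) • N (ss F)))).1 g =
      GV.tw T (ss F) δ.1 g - δ.1 g - (T.ro g (N (ss F)) - N (ss F)) := fun g => by
    rw [← neg_sub (N (ss F)), ← two_hL, ← map_smul (hL T g), ← map_neg (hL T g)]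
    rfl
  obtain ⟨U, hU⟩ := exists_div (twL T (ss F) δ - δ - hb T (-((2 : ℤ_[2]) • N (ss F)))) (m := m)
    fun g hg => by
      have g' := geo_conj hg (ss F)
      have a1 := hN.mul _ ss_mem _ (geo_le g')
      have a2 := hN.mul _ (geo_le hg) _ ss_mem
      have a3 := map_Dv (T.ro (ss F)) (hδ _ g')
      rw [show ss F * ((ss F)⁻¹ * g * ss F) = g * ss F by group] at a1
      rw [map_sub] at a3
      rw [ea, GV.tw]
      refine (congrArg (· ∈ Dv m) ?_).mp (add_mem (sub_mem (sub_mem a3 (hδ g hg)) a1) a2)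
      abel
  have hA : Ai T m δ (N (ss F)) U := fun g hg => by
    rw [← hU g hg, ea]
    abel
  have h5 : ∀ k, δ.1 (R.σ (pk Ap pr k)) - hL T (R.σ (pk Ap pr k)) (μ (some k)) ∈ Dv m :=
    fun k => by
      have := add_mem (hδ _ (h.dec k).geo) (hq_eq.1 (Hk k)).1
      rwa [sub_add_sub_cancel] at this
  have he : ∀ g ∈ Geo F, hq' m (m + 1) le_rfl ⟨δ.1 g, z g, PG T g⟩ = eps T R Ap pr μ m g :=
    fun g hg => hq_eq.2 ⟨hδ g hg, (sub_self (z g)).symm ▸ dvd_zero _,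
      fun x => by rw [sub_self]; exact zero_mem _⟩
  obtain ⟨ν, hν⟩ := h.rp.adm δ Fro.ov
  obtain ⟨u, hu⟩ := hB.quad δ m z hm
    ⟨fun g hg l hl => by
      rw [he _ (mul_mem hg hl), he g hg, he l hl, H.mul g (geo_le hg) l (geo_le hl)],
      H.near.mono fun g hg a1 _ => (he g a1).trans (hg a1 (geo_le a1))⟩
    (fun c => by
      obtain ⟨γ, ν, a1, a2⟩ := Hc c
      exact ⟨γ, ν, a1, (he γ a1.geo).trans a2⟩) (sI F) ν gen_sI (hν _ Fro.ine)
  have h0 : om ν (hL T (sI F) ν) = 0 := by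
    rcases h.inf with ⟨a1, -, -⟩ | ⟨a1, -, -⟩
    · rw [hL_good a1 Fro.ine, om_zero_right]
    · rw [hL_twist a1 Fro.ine Fro.sg1, GV.om_self]
  rw [h0, sub_zero] at hu
  refine ⟨δ, U, N (ss F), u, hA, h5, hu, fun y hy w hw => ?_⟩
  obtain ⟨r0, rk⟩ := h.rows_orb hN hδ hA (fun g _ => (sub_self (N g)).symm ▸ zero_mem _) hNs h5
  obtain ⟨c, hc⟩ := tst_pair h hB hy hw (tst_half h3 r0) fun l => tst_half (h2 l) (rk (.inl l))
  have a1 := Finset.dvd_sum fun i (_ : i ∈ Finset.univ) => om_dvd_right (w i) (rk (.inr i))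
  simp only [om_sub_right, om_smul_right, Finset.sum_sub_distrib, ← Finset.mul_sum,
    om_swap (w _) (∑ _ ∈ _, _), Finset.sum_neg_distrib, pk, Sum.elim_inr] at a1
  obtain ⟨d, hd⟩ := a1
  exact ⟨c + ∑ i, om (∑ j ∈ Finset.range (pr i).natDegree, U.1 (og (R.σ (pr i)) (j + 1))) (w i) - d,
    by linear_combination 2 ^ m * hc - hd⟩

end

end Pool.Agent.Lib.MP_16ef92_ag.GF.GV
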