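import Mathlib
import Pool.Agent.Lib.MP_16ef92_ag.GV.ASd
import Pool.Agent.Lib.MP_16ef92_ag.GV.St3
import Pool.Agent.Lib.MP_16ef92_ag.GV.Cls
import Pool.Agent.Lib.MP_16ef92_ag.GV.Tst
import Pool.Agent.Lib.MP_16ef92_ag.GV.Bt
import Pool.Agent.Lib.MP_16ef92_ag.GV.Red
import Pool.Agent.Lib.MP_16ef92_ag.GF.Tri

set_option autoImplicit false
set_option linter.unusedSectionVars false
set_option linter.unusedVariables false

namespace Pool.Agent.Lib.MP_16ef92_ag.GF.GV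

open Polynomial
open scoped Classical

noncomputable section

variable [Sp]

variable {F : Type} [Field F] [Clos F] [Fintype F] [hq : Fact (Odd (Fintype.card F))] [Fro F]

section
variable {Z : Finset F[X]} {bd : ℕ} {Λ : Type} [Fintype Λ] {T : RD F}
  {R : Pres Z bd} {Ap : Par F Λ} {t : Λ → Nb} {B : Ad T →ₗ[ℤ_[2]] Ad T →ₗ[ℤ_[2]] ℤ_[2]}

/-- The pairing on classes. -/
def BtS.cl (hB : BtS T B) : MM T →ₗ[ℤ_[2]] MM T →ₗ[ℤ_[2]] ℤ_[2] :=
  B.liftQ₂ (Nu T) (Nu T) (fun a ha => LinearMap.ext (hB.null a ha))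
    fun a ha => LinearMap.ext fun b => (hB.symm b a).trans (hB.null a ha b)

theorem BtS.cl_mk (hB : BtS T B) (a b : Ad T) : hB.cl ((Nu T).mkQ a) ((Nu T).mkQ b) = B a b := rfl

theorem dat_fst {I : Type} [Fintype I] (pr : I → F[X]) (μ : Prs Λ I) (o : Option (Λ ⊕ I)) :
    (dat R Ap pr).1 μ o = rws R Ap pr o μ := rfl

theorem St2.ev {I : Type} [Fintype I] {pr : I → F[X]} (h : St2 T R Ap pr t) (hB : BtS T B)
    {M i : ℕ} (hi : i + 2 ≤ M) (hbd : 2 ^ bdx M ≤ bd) {a U y : Ad T} {x : V}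
    (ha : Ai T M a x U) (hy : y ∈ I2 T) {θ : ℤ_[2]}
    (ht : ∀ δ W d : MM T, FM T (ss F) δ = δ + (2 : ℤ_[2]) ^ (i + 1) • W →
      δ = (Nu T).mkQ a + (2 : ℤ_[2]) • d → ∀ u : ℤ_[2], 2 ^ (i + 1 + 1) ∣
        θ * ((2 * u + 1) * hB.cl δ δ) - 2 ^ (i + 1) * hB.cl W ((Nu T).mkQ y)) :
    Ev (Cgv Ap (ty R Ap pr a x)) (fun p => lb (rh (y.1 (R.σ (pr p))))) θ i (dat R Ap pr) := by
  have hb : ∀ j ≤ M, 2 ^ bdx j ≤ bd := fun j hj => bdx_le hbd hj
  obtain ⟨j, rfl⟩ := Nat.exists_eq_add_of_le hi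
  simp only [Ev, Ok, Tst, dat_fst]
  refine ⟨?_, fun μ ⟨h0, h1, h2, h3⟩ => ?_⟩
  · obtain ⟨μ, h0, h1⟩ := h.exists_ok (hb _ hi) ha.down
    exact ⟨μ, h0, fun p => Dv_mono (i + 1).le_succ (h1 _), fun l => h1 _, h1 _⟩
  obtain ⟨δ, W, z, u, h4, h5, h6, h7⟩ := h.exists_test hB (m := i + 1) (by omega)
    (hb _ (by omega)) h1 h2 h3
  have h8 := h.zero_two (sub_mem (h4.i2 (by omega)) (ha.i2 (by omega))) fun k => by
    change rh (δ.1 _ - a.1 _) = 0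
    rw [map_sub, sub_eq_zero, rb_eq.2 (Dv_mono (by omega) (h5 k))]
    rcases k with l | p
    · exact h.Hl l ▸ h0.2.1 l
    · exact (congrArg rh (h.hL_s p _)).trans (h0.2.2 p)
  obtain ⟨d, hd⟩ := (mk_div_iff (δ - a) 1).2 ⟨0, fun g hg => by simpa using h8 g hg⟩
  rw [map_sub, pow_one, sub_eq_iff_eq_add'] at hd
  have h9 := dvd_add (dvd_add (h6.mul_left θ) (ht _ _ d h4.ff hd u))
    (h7 y hy (fun p => lb (rh (y.1 (R.σ (pr p))))) fun p => (rb_lb _).symm)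
  rw [hB.cl_mk, hB.cl_mk] at h9
  convert h9 using 1
  ring

variable {I₀ : Type} [Fintype I₀] {m : ℕ} {pr : I₀ ⊕ Fin m → F[X]}

theorem St2.indep (h : St2 T R Ap pr t) {a y : Ad T} (ha : a ∈ I2 T) (hy : y ∈ I2 T)
    (hi : Ind2 ((Nu T).mkQ a) ((Nu T).mkQ y)) (x x' : V) :
    Indep t fun o => ![ty R Ap pr a x o, ty R Ap pr y x' o] := by
  rintro α h0 ⟨r, h1, h2⟩
  have h3 : ∀ g, rh ((((α 0).val : ℤ_[2]) • a + ((α 1).val : ℤ_[2]) • y).1 g) =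
      α 0 • rh (a.1 g) + α 1 • rh (y.1 g) := fun g => by
    change rh (((α 0).val : ℤ_[2]) • a.1 g + ((α 1).val : ℤ_[2]) • y.1 g) = _
    rw [map_add, rb_smul, rb_smul]
    simp
  obtain ⟨b, hb⟩ := h.div_two (r := r)
    (add_mem (Submodule.smul_mem _ ((α 0).val : ℤ_[2]) ha)
      (Submodule.smul_mem _ ((α 1).val : ℤ_[2]) hy))
    (fun i => by rw [h3, ← h1 i, Fin.sum_univ_two]; rfl)
    (fun l => by rw [h3, ← h2 l, Fin.sum_univ_two]; rfl)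
  rw [map_add, map_smul, map_smul] at hb
  have h4 : ∀ c : Z2, (2 : ℤ_[2]) ∣ (c.val : ℤ_[2]) → c = 0 := fun c hc => by
    simpa using (red_eq_zero (n := 1) (a := c.val)).2 (by rwa [pow_one])
  exact h0 (funext (Fin.forall_fin_two.2 ⟨h4 _ (hi _ _ ⟨b, hb⟩).1, h4 _ (hi _ _ ⟨b, hb⟩).2⟩))

/-- The targets in the first case. -/
def tga (Ap : Par F Λ) (t : Λ → Nb) (n : I₀ ⊕ Fin m → ℕ) (v : Ty Λ I₀ m 1) (i : I₀ ⊕ Fin m)
    (c : Fin 1) : Vb := (n i : Z2) • (tg1 Ap t n (fun o => v o c) i + 0)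

/-- The targets in the other cases. -/
def tgb (Ap : Par F Λ) (t : Λ → Nb) (n : I₀ ⊕ Fin m → ℕ) {k : ℕ} (o : Option (Fin (k + 1)))
    (v : Ty Λ I₀ m 2) (i : I₀ ⊕ Fin m) (c : Fin 2) : Vb :=
  (n i : Z2) • (tg1 Ap t n (fun o => v o c) i +
    ![0, red 1 (thv o) • v (some (.inr i)) 0] c)

theorem St2.alt (h : St2 T R Ap pr t) (k : ℕ) (hbd : 2 ^ bdx (3 * k + 3) ≤ bd)
    (hbad : Bad0 T (ss F)) :
    Alt R Ap t k (fun i => (pr i).natDegree) (tga Ap t fun i => (pr i).natDegree)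
      (tgb Ap t fun i => (pr i).natDegree) pr := by
  obtain ⟨B, hB⟩ := exists_bt h.rp
  have hs : ∀ x y, hB.cl x y = hB.cl y x := fun x y => by
    obtain ⟨a, rfl⟩ := (Nu T).mkQ_surjective x
    obtain ⟨b, rfl⟩ := (Nu T).mkQ_surjective y
    exact hB.symm a b
  have hF : ∀ x y, hB.cl (FM T (ss F) x) (FM T (ss F) y) = hB.cl x y := fun x y => by
    obtain ⟨a, rfl⟩ := (Nu T).mkQ_surjective x
    obtain ⟨b, rfl⟩ := (Nu T).mkQ_surjective y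
    exact hB.inv _ _ Fro.fr hq.out h.det a b
  have h2 : ∀ (j : ℕ) (U : Ad T) g, rh (((2 : ℤ_[2]) ^ (j + 1) • U).1 g) = 0 := fun j U g =>
    rh_eq_zero.2 (Dv_mono j.succ_pos (smul_mem_Dv _ _))
  have h0 : ∀ (a : Ad T) (j : ℕ), FM T (ss F) ((Nu T).mkQ a) = (Nu T).mkQ a →
      ∃ x, Ai T (1 + j) a x 0 := fun a j ha => h.norm (by omega) (by simpa using ha)
  rcases trichotomy h.rp.lt (FM T (ss F)) (k + 2) hbad with ⟨a, y, h3, h4, h5⟩ |
    ⟨a, y, a', y', h3, h4, h5⟩ | ⟨a, y, j, h3, h4, h5, h6, h7⟩ <;>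
    obtain ⟨a, rfl⟩ := (Nu T).mkQ_surjective a <;> obtain ⟨y, rfl⟩ := (Nu T).mkQ_surjective y
  · obtain ⟨x, hx⟩ := h0 a 0 h4
    refine Or.inl ⟨fun o _ => ty R Ap pr a x o, ?_, h.const (hx.i2 le_rfl) h5,
      fun i c => h.row_eq hx i fun j => map_zero rh⟩
    rintro α h6 ⟨r, h7, h8⟩
    have h9 : α 0 = 1 := (z2_cases _).resolve_left fun e => h6 (funext (Fin.forall_fin_one.2 e))
    simp only [Fin.sum_univ_one, h9, one_smul] at h7 h8
    exact h3 (h.div_two (hx.i2 le_rfl) h7 h8)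
  · obtain ⟨a', rfl⟩ := (Nu T).mkQ_surjective a'
    obtain ⟨y', rfl⟩ := (Nu T).mkQ_surjective y'
    obtain ⟨x, hx⟩ := h.norm (by omega) h4
    obtain ⟨x', hx'⟩ := h.norm (by omega) h5
    refine Or.inr ⟨none, _, h.indep (hx.i2 (by omega)) (hx'.i2 (by omega)) h3 x x', fun i => ?_,
      fun i hi => ?_⟩
    · rw [show k + 2 = 1 + (k + 1) by omega] at hx hx'
      refine Fin.forall_fin_two.2 ⟨h.row_eq hx.down i fun j => h2 _ _ _,
        h.row_eq hx'.down i fun j => (h2 _ _ _).trans ?_⟩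
      simp [thv]
    · simp only [stv, Option.elim, Finset.mem_Ico] at hi
      refine h.ev hB (by omega) (bdx_le hbd (by omega)) hx
        (hx'.i2 (by omega)) fun δ W d h6 h7 u => ?_
      obtain ⟨c, hc⟩ := test_two hF (by omega) h5 h6
      exact ⟨-c, by simp only [thv, Option.elim, hc]; ring⟩
  · obtain ⟨x, hx⟩ := h0 a (3 * k + 2) h5
    obtain ⟨x', hx'⟩ := h.norm (by omega) h6
    refine Or.inr ⟨some ⟨j, by omega⟩, _,
      h.indep (hx.i2 (by omega)) (hx'.i2 (by omega)) h4 x x', fun i => ?_, fun i hi => ?_⟩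
    · rw [add_comm j 1] at hx'
      refine Fin.forall_fin_two.2 ⟨h.row_eq hx.down i fun j => h2 _ _ _,
        h.row_eq hx'.down i fun l => (rb_smul _ _).trans ?_⟩
      exact congrArg _ (i2_og (hx.i2 (by omega)) (h.dec (.inr i)).geo _)
    · simp only [stv, Option.elim, Finset.mem_Ico] at hi
      exact h.ev hB (by omega) (bdx_le hbd (by omega)) hx
        (hx'.i2 (by omega)) fun δ W d h8 h9 u =>
        test_three h.rp.lt hs hF h3 (by omega) h4 h5 h6 h7 h8 h9 u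

end

/-- The exceptional twists. -/
def Bad (T : RD F) (N D : F[X]) : Prop := Squarefree (N * D) ∧ Bad0 (T.twist D) (ss F)

theorem Fam.sa {T : RD F} {N : F[X]} {r : ℕ} {τ : F[X] → Nb} (h : Fam T N r τ) {l : F[X]}
    (hl : Prm l) (hN : l ∣ N) (x y : Vb) : eb (nu (τ l) x) y = eb x (nu (τ l) y) := by
  obtain ⟨c, hc⟩ := IsAlgClosed.exists_aeval_eq_zero (kk F) l (degree_pos_of_irreducible hl.2).ne'
  obtain ⟨γ, hγ⟩ := exists_gen (some c)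
  have h1 := fun z => h.typ l hl hN c hc γ hγ (lb z) _ (two_hL T γ _)
  have h2 := congrArg (red 1) (om_hL (h.geo γ hγ.geo) (lb x) (lb y))
  rw [map_add, red_even, ← eb_rb, ← eb_rb, h1, h1, rb_lb, rb_lb] at h2
  exact (eq_neg_of_add_eq_zero_left h2).trans (neg_z2 _)

/-- The descent. -/
theorem redu {T : RD F} {N : F[X]} {r : ℕ} {τ : F[X] → Nb} (h : Fam T N r τ) :
    ∃ (Λ : Type) (_ : Fintype Λ) (lp : Λ → F[X]) (t : Λ → Nb), Function.Injective lp ∧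
      (∀ l, Prm (lp l) ∧ lp l ∣ N) ∧ Gn t ∧ Redu (Bad T N) lp t := by
  let S := (UniqueFactorizationMonoid.normalizedFactors N).toFinset
  have hS : ∀ p, p ∈ S ↔ Prm p ∧ p ∣ N := fun p => by
    rw [Multiset.mem_toFinset, Polynomial.mem_normalizedFactors_iff h.sq.ne_zero, Prm]
    tauto
  refine ⟨S, inferInstance, Subtype.val, fun l => τ l, Subtype.val_injective,
    fun l => (hS _).1 l.2, ⟨fun l => h.sa ((hS _).1 l.2).1 ((hS _).1 l.2).2, ?_⟩,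
    fun k => ⟨2 ^ bdx (3 * k + 3), fun Z bd R hbd hZ u hu d => ?_⟩⟩
  · rw [← h.gen]
    refine congrArg _ (Set.ext fun a => ⟨?_, ?_⟩)
    · rintro ⟨l, rfl⟩
      exact ⟨l, (hS _).1 l.2, rfl⟩
    · rintro ⟨l, hl, rfl⟩
      exact ⟨⟨l, (hS _).2 hl⟩, rfl⟩
  obtain ⟨P, hP, hc⟩ := exists_cst N r T R u d hZ Subtype.val_injective fun p hp =>
    ⟨fun e => ⟨⟨p, (hS p).2 ⟨hp, e⟩⟩, rfl⟩, fun ⟨l, e⟩ => e ▸ ((hS _).1 l.2).2⟩
  refine ⟨P, hP, fun I₀ _ m n hn hodd => ⟨tga P (fun l => τ l) n,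
    tgb P (fun l => τ l) n, fun x hx h2 => ?_⟩⟩
  obtain rfl : n = fun i => (x i).natDegree := funext fun i => (hx i).2.symm
  subst hn
  have h4 := exists_st2 h hc h2.1 (fun i => (hx i).1) hodd
  rw [hP] at h4
  exact h4.alt k hbd h2.2

end

end Pool.Agent.Lib.MP_16ef92_ag.GF.GV
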