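import Mathlib
import Pool.Agent.Lib.MP_16ef92_ag.GV.Lev
import Pool.Agent.Lib.MP_16ef92_ag.GV.Redu
import Pool.Agent.Lib.MP_16ef92_ag.GV.HB1
import Pool.Agent.Lib.MP_16ef92_ag.GV.HB2
import Pool.Agent.Lib.MP_16ef92_ag.GF.Anat

set_option autoImplicit false
set_option linter.unusedSectionVars false
set_option linter.unusedVariables false

namespace Pool.Agent.Lib.MP_16ef92_ag.GF.GV

open Polynomial Filter
open scoped Classical

noncomputable section

variable [Sp]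

variable {F : Type} [Field F] [Clos F] [Fintype F] [hq : Fact (Odd (Fintype.card F))] [Fro F]
  {Λ I₀ : Type} [Fintype Λ] [Fintype I₀] {m : ℕ}
  {Z : Finset F[X]} {bd : ℕ} {R : Pres Z bd} {P : Par F Λ} {t : Λ → Nb} {y : I₀ → F[X]}
  {n : Fin m → ℕ} {dN jm c L d : ℕ} {ε ζ : ℝ}

/-- The number of partners of a type assignment, normalised. -/
def un {j : ℕ} (t : Λ → Nb) (v : Ty Λ I₀ m j) : ℝ :=
  ((Finset.univ.filter fun w => Unl t v w).card : ℝ) / (nv ^ j) ^ (Fintype.card I₀ + m)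

theorem un_nonneg {j : ℕ} (v : Ty Λ I₀ m j) : 0 ≤ un t v := by unfold un; positivity

/-- The hypotheses on a pattern. -/
structure Hyp (R : Pres Z bd) (P : Par F Λ) (y : I₀ → F[X]) (n : Fin m → ℕ) (dN jm c L d : ℕ)
    (ε ζ : ℝ) : Prop where
  cfg : Cfg Z P.lp y n (L ^ c)
  num : Num (Fintype.card Sp.ι) (Fintype.card Λ) dN jm ε ζ c L
  few : Fintype.card I₀ + m ≤ L ^ 2
  lt : d < 2 ^ L
  deg : ∑ i, (y i).natDegree + ∑ i, n i = d
  dn : ∑ l, (P.lp l).natDegree = dN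
  big : 2 ^ ((jm + 2) * (L ^ 6) ^ (jm + 2)) ≤ bd
  pos : 0 < ε
  small : 3 * ε ≤ 1

theorem Hyp.rows (h : Hyp R P y n dN jm c L d ε ζ) {j : ℕ} (v : Ty Λ I₀ m j)
    (tg : I₀ ⊕ Fin m → Fin j → Vb) (S : Finset (Fin m)) :
    (((Fintype.piFinset fun i => Pn F (n i)).filter fun x =>
      RowsOff R.f P.lp t v tg S (Sum.elim y x)).card : ℝ) ≤
      2 * (nv ^ j) ^ S.card * un t v * ∏ i, ((Pn F (n i)).card : ℝ) := by
  have hq2 : (2 : ℝ) ≤ Fintype.card F := by exact_mod_cast Fintype.one_lt_card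
  have hL : (1 : ℝ) ≤ L := by exact_mod_cast h.num.pos
  have h1 : (m : ℝ) ≤ L ^ 2 := by exact_mod_cast le_trans (Nat.le_add_left _ _) h.few
  have h2 := count_rows (h.cfg.sym R.lp (δ := dN + d + 1) (η := 1 / (2 * L ^ 2))
    (by rw [h.dn, h.deg]) (by positivity) (by rw [div_le_one (by positivity)]; nlinarith)
    (by rw [one_div, inv_mul_le_iff₀ (by positivity)]; linarith) (pow_pos h.num.pos _) fun i =>
      (h.num.sym _ (h.cfg.le i) d h.lt _ h.few).trans (by gcongr)) t v S tg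
  rw [Fintype.card_piFinset, Nat.cast_prod] at h2
  have hnv : (0 : ℝ) < nv := by exact_mod_cast two_pos.trans_le two_le_nv
  rw [un, mul_div_assoc', div_mul_eq_mul_div, le_div_iff₀ (by positivity)]
  refine le_of_eq_of_le ?_ h2
  congr

theorem Hyp.rows0 (h : Hyp R P y n dN jm c L d ε ζ) {j : ℕ} (v : Ty Λ I₀ m j)
    (tg : I₀ ⊕ Fin m → Fin j → Vb) : (((Fintype.piFinset fun i => Pn F (n i)).filter fun x =>
      Rows R.f P.lp t v tg (Sum.elim y x)).card : ℝ) ≤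
      2 * un t v * ∏ i, ((Pn F (n i)).card : ℝ) := by
  simpa [RowsOff, Rows] using h.rows (t := t) v tg ∅

theorem Hyp.levels (h : Hyp R P y n dN jm c L d ε ζ) {O : Finset (Fin m)} {v : Ty Λ I₀ m 2}
    (hv : Gnr O jm v) (tg : I₀ ⊕ Fin m → Fin 2 → Vb) (θ : ℤ_[2]) {s : ℕ} (hs : 1 ≤ s) (l : ℕ)
    (hl : s + l ≤ jm + 1) : cnt R P t y n v tg θ (Finset.Ico s (s + l)) ≤
      ((2 * (1 / 2) ^ l + 24 * ε * (nv ^ 2) ^ (jm + 2)) * un t v + 2 * (jm + 2) *
        (2 ^ (Fintype.card Λ + (Fintype.card I₀ + m)) * (1 / 2) ^ ((2 * Fintype.card Sp.ι + 4) * L ^ 2))) *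
        ∏ i, ((Pn F (n i)).card : ℝ) := by
  have h0 := un_nonneg (t := t) v
  have hε := h.pos
  have h1 := h.rows0 (t := t) v tg
  have h2 := h.rows (t := t) v tg
  have h3 := fun j hj hjm Ls hLs => level (R := R) (t := t) h.cfg rfl h.num h.few h.lt (fun i =>
    h.deg ▸ (Finset.single_le_sum (fun j _ => Nat.zero_le (n j)) (Finset.mem_univ i)).trans
      (Nat.le_add_left _ _)) h.big h.pos h.small hv tg θ (j := j) hj hjm (Ls := Ls) hLs
  have h4 : 0 ≤ ∏ i, ((Pn F (n i)).card : ℝ) := by positivity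
  generalize ∏ i, ((Pn F (n i)).card : ℝ) = N at *
  have h5 : (0 : ℝ) ≤ 2 ^ (Fintype.card Λ + (Fintype.card I₀ + m)) * (1 / 2) ^ ((2 * Fintype.card Sp.ι + 4) * L ^ 2) * N := by
    positivity
  have h6 : 0 ≤ ε * (nv ^ 2) ^ (jm + 2) * un t v * N := by positivity
  induction l with
  | zero =>
    simp only [cnt, add_zero, Finset.Ico_self, Finset.notMem_empty, false_imp_iff, implies_true,
      and_true, pow_zero]
    nlinarith [mul_nonneg (Nat.cast_nonneg jm) h5]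
  | succ l ih =>
    obtain ⟨S, h7, h8⟩ := h3 (s + l) (by omega) (by omega) (Finset.Ico s (s + l))
      fun i hi => (Finset.mem_Ico.1 hi).2
    have h9 := (h2 S).trans (show _ ≤ 2 * (nv ^ 2) ^ (jm + 2) * un t v * N by
      rw [h7]
      gcongr
      · exact one_le_pow₀ (by exact_mod_cast one_le_two.trans two_le_nv)
      · omega)
    have h10 : ((s + l : ℕ) : ℝ) ≤ jm := by exact_mod_cast (show s + l ≤ jm by omega)
    rw [← add_assoc, Nat.Ico_succ_right_eq_insert_Ico (by omega), pow_succ]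
    nlinarith [ih (by omega), mul_le_mul_of_nonneg_left h9 hε.le, mul_le_mul_of_nonneg_right h10 h5]

theorem card_Ty (j : ℕ) : (Fintype.card (Ty Λ I₀ m j) : ℝ) =
    (nv ^ j) ^ (Fintype.card Λ + (Fintype.card I₀ + m) + 1) := by
  simp [nv]

theorem Hyp.alt {k : ℕ} (h : Hyp R P y n dN (3 * k + 2) c L d ε ζ) {n' : I₀ ⊕ Fin m → ℕ}
    (hn : ∀ i, n' (.inr i) = n i) (tg₁ tg₂) {δ C : ℝ} {O : Finset (Fin m)} (hO : ∀ i ∈ O, Odd (n i))
    (h1 : ∑ v ∈ Finset.univ.filter fun v : Ty Λ I₀ m 1 => Indep t v ∧ ¬ Gnr O 1 v, un t v ≤ δ)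
    (h2 : ∑ v ∈ Finset.univ.filter fun v : Ty Λ I₀ m 2 => Indep t v ∧ ¬ Gnr O (3 * k + 2) v,
      un t v ≤ δ) (h3 : ∑ v : Ty Λ I₀ m 2, un t v ≤ C) :
    (((Fintype.piFinset fun i => Pn F (n i)).filter fun x =>
      Alt R P t k n' tg₁ tg₂ (Sum.elim y x)).card : ℝ) ≤
      (2 * δ + (k + 2) * (2 * δ + (2 * (1 / 2) ^ k + 24 * ε * (nv ^ 2) ^ (3 * k + 2 + 2)) * C +
        2 * ((3 * k + 2 : ℕ) + 2) * ζ)) * ∏ i, ((Pn F (n i)).card : ℝ) := by
  set X := Fintype.piFinset fun i => Pn F (n i)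
  have h4 : X.filter (fun x => Alt R P t k n' tg₁ tg₂ (Sum.elim y x)) ⊆
      ((Finset.univ.filter fun v : Ty Λ I₀ m 1 => Indep t v ∧ ¬ Gnr O 1 v).biUnion fun v =>
        X.filter fun x => Rows R.f P.lp t v (tg₁ v) (Sum.elim y x)) ∪ Finset.univ.biUnion fun o =>
      ((Finset.univ.filter fun v : Ty Λ I₀ m 2 => Indep t v ∧ ¬ Gnr O (3 * k + 2) v).biUnion
        fun v => X.filter fun x => Rows R.f P.lp t v (tg₂ o v) (Sum.elim y x)) ∪
      (Finset.univ.filter fun v : Ty Λ I₀ m 2 => Gnr O (3 * k + 2) v).biUnion fun v =>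
        X.filter fun x => Rows R.f P.lp t v (tg₂ o v) (Sum.elim y x) ∧
          ∀ i ∈ Finset.Ico (stv o) (stv o + k), Ev (Cg P.Hl fun a => v a 0)
            (fun i => lb (v (some (.inr i)) 1)) (thv o) i (dat R P (Sum.elim y x)) := by
    intro x hx
    simp only [Finset.mem_filter, Finset.mem_union, Finset.mem_biUnion, Finset.mem_univ,
      true_and] at hx ⊢
    rcases hx with ⟨hx, ⟨v, h5, ⟨r, h6⟩, h7⟩ | ⟨o, v, h5, h6, h7⟩⟩
    · refine Or.inl ⟨v, ⟨h5, fun e => ?_⟩, hx, h7⟩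
      obtain ⟨i, hi⟩ := Finset.card_pos.1 (e fun _ => r + va)
      rw [Finset.mem_filter] at hi
      have := (congrFun hi.2 0).symm.trans (h6 _ (hn i ▸ hO i hi.1))
      exact va_ne (add_eq_left.1 this)
    · by_cases e : Gnr O (3 * k + 2) v
      · exact Or.inr ⟨o, Or.inr ⟨v, e, hx, h6, h7⟩⟩
      · exact Or.inr ⟨o, Or.inl ⟨v, ⟨h5, e⟩, hx, h6⟩⟩
  have h5 := (Finset.card_le_card h4).trans ((Finset.card_union_le _ _).trans
    (add_le_add Finset.card_biUnion_le (Finset.card_biUnion_le.trans (Finset.sum_le_sum fun o _ =>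
      (Finset.card_union_le _ _).trans (add_le_add Finset.card_biUnion_le Finset.card_biUnion_le)))))
  have hN : 0 ≤ ∏ i, ((Pn F (n i)).card : ℝ) := by positivity
  have hε := h.pos
  refine (Nat.cast_le.2 h5).trans ?_
  push_cast
  rw [add_mul, mul_assoc ((k : ℝ) + 2)]
  refine add_le_add ((Finset.sum_le_sum fun v _ => h.rows0 v _).trans ?_)
    (le_of_le_of_eq (Finset.sum_le_card_nsmul _ _ _ fun o _ => ?_) (by
      rw [Finset.card_univ, Fintype.card_option, Fintype.card_fin, nsmul_eq_mul]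
      congr 1
      push_cast
      ring))
  · rw [← Finset.sum_mul, ← Finset.mul_sum]
    gcongr
  rw [add_assoc, add_mul]
  refine add_le_add ((Finset.sum_le_sum fun v _ => h.rows0 v _).trans ?_)
    ((Finset.sum_le_sum fun v hv => h.levels (Finset.mem_filter.1 hv).2 _ _
      (by cases o <;> simp [stv]) k (by cases o <;> simp [stv] <;> omega)).trans ?_)
  · rw [← Finset.sum_mul, ← Finset.mul_sum]
    gcongr
  rw [← Finset.sum_mul]
  refine mul_le_mul_of_nonneg_right ((Finset.sum_le_univ_sum_of_nonneg fun v => by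
    have := un_nonneg (t := t) v
    positivity).trans ?_) hN
  rw [Finset.sum_add_distrib, ← Finset.mul_sum, Finset.sum_const, Finset.card_univ, nsmul_eq_mul,
    card_Ty, mul_left_comm]
  have h6 := h.num.cell _ h.few
  rw [show (2 : ℝ) ^ Fintype.card Sp.ι = nv by simp [nv]] at h6
  push_cast
  gcongr
  linarith

theorem exists_k {C δ : ℝ} (hδ : 0 < δ) : ∃ k : ℕ, ((k : ℝ) + 2) * (2 * (1 / 2) ^ k * C) ≤ δ := by
  have h1 := tendsto_self_mul_const_pow_of_lt_one (r := (1 / 2 : ℝ)) (by norm_num) (by norm_num)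
  have h2 := tendsto_pow_atTop_nhds_zero_of_lt_one (r := (1 / 2 : ℝ)) (by norm_num) (by norm_num)
  have h3 := ((h1.add (h2.const_mul 2)).mul_const (2 * C)).eventually_le_const
    (show (0 + 2 * 0) * (2 * C) < δ by simpa using hδ)
  obtain ⟨k, hk⟩ := h3.exists
  exact ⟨k, le_of_eq_of_le (by ring) hk⟩

theorem tendsto_lam : Tendsto lam atTop atTop :=
  tendsto_atTop.2 fun b => eventually_atTop.2 ⟨2 ^ b, fun d hd =>
    (Nat.le_log_of_pow_le one_lt_two hd).trans (Nat.le_succ _)⟩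

theorem main {T : RD F} {N : F[X]} {r : ℕ} {τ : F[X] → Nb} (hF : Fam T N r τ) :
    Tendsto (fun d : ℕ => (({D : F[X] | D.natDegree = d ∧ Bad T N D}.ncard : ℝ)) /
      (Fintype.card F : ℝ) ^ d) atTop (nhds 0) := by
  obtain ⟨Λ, _, lp, t, hi, hp, ht, hR⟩ := redu hF
  have hnv : (0 : ℝ) < nv := by exact_mod_cast two_pos.trans_le two_le_nv
  refine anat _ (fun D hD => hD.1.of_mul_right) fun δ hδ => ?_
  obtain ⟨C, hC0, hC1⟩ : ∃ C : ℝ, 0 < C ∧
      2 ^ ((nv ^ 2) ^ 2) * (nv ^ 2) ^ (Fintype.card Λ + 1) + 1 ≤ C := ⟨_, by positivity, le_rfl⟩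
  obtain ⟨k, hk⟩ := exists_k (C := C) (show 0 < δ / 4 by positivity)
  obtain ⟨δ', h1, h2, h3⟩ : ∃ δ' : ℝ, 0 < δ' ∧ δ' ≤ 1 ∧ δ' * (2 * (k + 3)) ≤ δ / 4 :=
    ⟨min 1 (δ / 4 / (2 * (k + 3))), by positivity, min_le_left _ _,
      (le_div_iff₀ (by positivity)).1 (min_le_right _ _)⟩
  obtain ⟨ε, h4, h5, h6⟩ : ∃ ε : ℝ, 0 < ε ∧ ε ≤ 1 / 3 ∧
      ε * ((k + 2) * (24 * (nv ^ 2) ^ (3 * k + 2 + 2) * C)) ≤ δ / 4 :=
    ⟨min (1 / 3) (δ / 4 / ((k + 2) * (24 * (nv ^ 2) ^ (3 * k + 2 + 2) * C))), by positivity,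
      min_le_left _ _, (le_div_iff₀ (by positivity)).1 (min_le_right _ _)⟩
  obtain ⟨ζ, h7, h8⟩ : ∃ ζ : ℝ, 0 < ζ ∧ ζ * ((k + 2) * (2 * ((3 * k + 2 : ℕ) + 2))) ≤ δ / 4 :=
    ⟨δ / 4 / ((k + 2) * (2 * ((3 * k + 2 : ℕ) + 2))), by positivity,
      (div_mul_cancel₀ _ (by positivity)).le⟩
  obtain ⟨M₁, hM₁⟩ := count_unl 1 1 (Fintype.card Λ) h1
  obtain ⟨M₂, hM₂⟩ := count_unl 2 (3 * k + 2) (Fintype.card Λ) h1
  obtain ⟨c, hc, hN⟩ := num_ev (Fintype.card Sp.ι) (Fintype.card Λ) (∑ l, (lp l).natDegree) (3 * k + 2) h4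
    (by linarith) h7
  obtain ⟨bd₀, hR⟩ := hR k
  refine ⟨c, M₁ + M₂ + 1, hc, (tendsto_lam.eventually hN).mono fun d hN u hu Y m n hP => ?_⟩
  by_cases hY : ∃ l, lp l ∈ Y
  · obtain ⟨l, hl⟩ := hY
    rw [Finset.filter_false_of_mem fun x _ e => st3_sq e.1 (hp l).1.2 dvd_rfl (hp l).2
      (((Finset.dvd_prod_of_mem id hl).mul_left _).mul_right _)]
    simp only [Finset.card_empty, Nat.cast_zero]
    positivity
  let Z := Finset.univ.image lp ∪ Y ∪ Finset.univ.biUnion fun i => Pn F (n i)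
  obtain ⟨R⟩ := exists_pres (Z := Z) (fun p hp' => by
    simp only [Z, Finset.mem_union, Finset.mem_image, Finset.mem_biUnion] at hp'
    rcases hp' with (⟨l, _, rfl⟩ | hp') | ⟨i, _, hp'⟩
    exacts [(hp l).1, hP.prm p hp', (mem_Pn.1 hp').1])
    (bd₀ + 2 ^ ((3 * k + 2 + 2) * (lam d ^ 6) ^ (3 * k + 2 + 2)))
  obtain ⟨P, rfl, hR⟩ := hR Z _ R (Nat.le_add_right _ _) (fun l => by simp [Z]) u hu d
  have h9 : ∑ i : Y, i.1.natDegree + ∑ i, n i = d := by
    rw [Finset.sum_coe_sort Y natDegree, hP.deg]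
  have h10 := hP.odd
  rw [← Fintype.card_coe Y] at h10
  obtain ⟨i₀, hi₀⟩ := Finset.card_pos.1 (lt_of_lt_of_le (by positivity) h10)
  obtain ⟨tg₁, tg₂, hR⟩ := hR Y m (Sum.elim (fun i => i.1.natDegree) n)
    (by rw [Fintype.sum_sum_type]; exact h9) ⟨.inr i₀, (Finset.mem_filter.1 hi₀).2⟩
  have h11 : Hyp R P (Subtype.val : Y → F[X]) n _ _ c (lam d) d ε ζ :=
    ⟨⟨hi.sumElim Subtype.val_injective fun l i e => hY ⟨l, e ▸ i.2⟩, fun l => by simp [Z],
      fun i => by simp [Z], fun i p hp' => Finset.mem_union_right _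
        (Finset.mem_biUnion.2 ⟨i, Finset.mem_univ _, hp'⟩), by
      rintro (l | i)
      · exact (Finset.single_le_sum (f := fun l => (P.lp l).natDegree) (fun _ _ => Nat.zero_le _)
          (Finset.mem_univ l)).trans_lt hN.big.2
      · exact hP.small i i.2, hP.large, hP.inj⟩, hN, by simpa using hP.few,
      Nat.lt_pow_succ_log_self one_lt_two d, h9, rfl, Nat.le_add_left _ _, h4, by linarith⟩
  obtain ⟨-, h12⟩ := hM₁ Λ Y m t _ rfl ht (le_trans (by gcongr; omega) h10)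
  obtain ⟨h13, h14⟩ := hM₂ Λ Y m t _ rfl ht (le_trans (by gcongr; omega) h10)
  have h15 : ∀ x : Fin m → F[X], Polynomial.C u * (∏ p ∈ Y, p) * ∏ i, x i =
      Polynomial.C u * ∏ i, Sum.elim (Subtype.val : Y → F[X]) x i := fun x => by
    rw [Fintype.prod_sum_type, mul_assoc, ← Finset.prod_coe_sort Y]
    rfl
  refine le_trans (Nat.cast_le.2 (Finset.card_le_card (Finset.monotone_filter_right _
    fun x hx e => hR _ (fun i => ⟨h11.cfg.mem hx i, ?_⟩) ?_))) ((h11.alt (t := t)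
      (fun _ => rfl) tg₁ tg₂ (δ := δ') (C := C) (O := Finset.univ.filter fun i => Odd (n i))
      (fun i hi => (Finset.mem_filter.1 hi).2) ?_ ?_ ?_).trans (mul_le_mul_of_nonneg_right (by linarith only [h3, hk, h6, h8]) (by positivity)))
  · rcases i with i | i
    exacts [rfl, (mem_Pn.1 (Fintype.mem_piFinset.1 hx i)).2]
  · exact h15 x ▸ e
  · simp only [un, ← Finset.sum_div]
    rwa [div_le_iff₀ (by positivity)]
  · simp only [un, ← Finset.sum_div]
    rwa [div_le_iff₀ (by positivity)]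
  · simp only [un, ← Finset.sum_div]
    rw [div_le_iff₀ (by positivity)]
    exact h13.trans (mul_le_mul_of_nonneg_right (by linarith only [h2, hC1]) (by positivity))

end

end Pool.Agent.Lib.MP_16ef92_ag.GF.GV
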