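import Mathlib
import Pool.Agent.Lib.MP_16ef92_ag.GV.Fin
import Pool.Agent.Lib.MP_16ef92_ag.GV.Dic
import Pool.Agent.Lib.MP_16ef92_ag.GF.Adm

set_option autoImplicit false
set_option linter.unusedSectionVars false
set_option linter.unusedVariables false

namespace Pool.Agent.Lib.MP_16ef92_ag.GF.GV

open Polynomial Filter
open scoped Classical

noncomputable section

variable {F : Type} [Field F] [Fintype F]

/-- Density zero. -/
def DZ (B : F[X] → Prop) : Prop :=
  Tendsto (fun d : ℕ => (({D : F[X] | D.natDegree = d ∧ B D}.ncard : ℝ)) /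
    (Fintype.card F : ℝ) ^ d) atTop (nhds 0)

variable {B B' Q : F[X] → Prop} {N C : F[X]}

theorem dz_fin (B : F[X] → Prop) (d : ℕ) : {D : F[X] | D.natDegree = d ∧ B D}.Finite :=
  (finite_deg d).subset fun D hD => hD.1

theorem DZ.mono (h : DZ B) (hB : ∀ D, B' D → B D) : DZ B' := by
  refine squeeze_zero (fun d => by positivity) (fun d => div_le_div_of_nonneg_right (Nat.cast_le.2
    (Set.ncard_le_ncard (fun D hD => ?_) (dz_fin B d))) (by positivity)) h
  exact ⟨hD.1, hB D hD.2⟩

theorem dz_false : DZ fun _ : F[X] => False := by simp [DZ]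

theorem DZ.or (h : DZ B) (h' : DZ B') : DZ fun D => B D ∨ B' D := by
  refine squeeze_zero (fun d => by positivity) (fun d => ?_) (add_zero (0 : ℝ) ▸ h.add h')
  rw [← add_div, ← Nat.cast_add]
  refine div_le_div_of_nonneg_right (Nat.cast_le.2 (.trans (le_of_eq ?_) (Set.ncard_union_le _ _)))
    (by positivity)
  congr 1
  ext D
  exact and_or_left

theorem dz_exists {J : Type} [Finite J] {B : J → F[X] → Prop} (h : ∀ j, DZ (B j)) :
    DZ fun D => ∃ j, B j D := by
  have := Fintype.ofFinite J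
  have key : ∀ s : Finset J, DZ fun D => ∃ j ∈ s, B j D := fun s => by
    induction s using Finset.induction_on with
    | empty => exact dz_false.mono (by simp)
    | insert a s _ ih => exact ((h a).or ih).mono (by simp)
  exact (key Finset.univ).mono fun D ⟨j, hj⟩ => ⟨j, Finset.mem_univ j, hj⟩

theorem DZ.mul (h : DZ B) (hC : C ≠ 0) : DZ fun D => B (C * D) := by
  have h0 : (0 : ℝ) < Fintype.card F := by exact_mod_cast Fintype.card_pos
  have h1 := ((tendsto_add_atTop_iff_nat C.natDegree).2 h).mul_const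
    ((Fintype.card F : ℝ) ^ C.natDegree)
  rw [zero_mul] at h1
  refine squeeze_zero' (.of_forall fun d => by positivity)
    ((eventually_gt_atTop 0).mono fun d hd => ?_) h1
  rw [pow_add, div_mul_eq_mul_div, mul_div_mul_right _ _ (pow_pos h0 _).ne']
  refine div_le_div_of_nonneg_right (Nat.cast_le.2 (Set.ncard_le_ncard_of_injOn (C * ·)
    (fun D hD => ⟨?_, hD.2⟩) (fun a _ b _ e => mul_left_cancel₀ hC e) (dz_fin B _))) (by positivity)
  have : D ≠ 0 := fun e => by
    have := hD.1
    rw [e, natDegree_zero] at this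
    omega
  rw [natDegree_mul hC this, hD.1, add_comm]

/-- Outside a set of density zero means for almost all admissible `D`. -/
theorem dens_one (hq : Odd (Fintype.card F)) (hN : Squarefree N) (h1 : DZ B)
    (hQ : ∀ D, 0 < D.natDegree → Squarefree (N * D) → ¬ B D → Q D) :
    Tendsto (fun d : ℕ => (({D : F[X] | D.natDegree = d ∧ Squarefree (N * D) ∧ Q D}.ncard : ℝ)) /
      ({D : F[X] | D.natDegree = d ∧ Squarefree (N * D)}.ncard : ℝ)) atTop (nhds 1) := by
  obtain ⟨κ, h2, h3⟩ := adm_lower hq hN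
  have h4 := (h1.div_const κ).const_sub 1
  rw [zero_div, sub_zero] at h4
  refine tendsto_of_tendsto_of_tendsto_of_le_of_le' h4 tendsto_const_nhds
    ((h3.and (eventually_gt_atTop 0)).mono fun d ⟨hd, hd0⟩ => ?_)
    (.of_forall fun d => div_le_one_of_le₀ (Nat.cast_le.2
      (Set.ncard_le_ncard (fun D hD => ⟨hD.1, hD.2.1⟩) (dz_fin _ d))) (Nat.cast_nonneg _))
  have h5 : (0 : ℝ) < (Fintype.card F : ℝ) ^ d := by
    have := Fintype.card_pos (α := F)
    positivity
  have h6 := (Set.ncard_le_ncard (s := {D : F[X] | D.natDegree = d ∧ Squarefree (N * D)})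
    (t := {D : F[X] | D.natDegree = d ∧ Squarefree (N * D) ∧ Q D} ∪
      {D : F[X] | D.natDegree = d ∧ B D}) (fun D hD => by
      by_cases e : B D
      exacts [Or.inr ⟨hD.1, e⟩, Or.inl ⟨hD.1, hD.2, hQ D (hD.1 ▸ hd0) hD.2 e⟩])
    ((dz_fin _ d).union (dz_fin _ d))).trans (Set.ncard_union_le _ _)
  have h7 := (Nat.cast_le (α := ℝ)).2 h6
  have h8 := (mul_pos h2 h5).trans_le hd
  rw [le_div_iff₀ h8, div_div, mul_comm _ κ, sub_mul, one_mul]
  have h9 := mul_le_mul_of_nonneg_left hd (div_nonneg (Nat.cast_nonneg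
    {D : F[X] | D.natDegree = d ∧ B D}.ncard) (mul_pos h2 h5).le)
  rw [div_mul_cancel₀ _ (mul_pos h2 h5).ne'] at h9
  push_cast at h7
  linarith

variable [Clos F] [hq : Fact (Odd (Fintype.card F))]

/-- The bad twists by `C D` have density zero. -/
theorem dz_bad [Sp] {T : RD F} {r : ℕ} {τ : F[X] → Nb} (hF : Fam T N r τ) (hC : C ≠ 0) :
    DZ fun D => Squarefree (N * (C * D)) ∧
      ∃ s, Fr s (Fintype.card F) ∧ Bad0 (T.twist (C * D)) s := by
  by_cases e : ∃ s : Gam F, Fr s (Fintype.card F)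
  · obtain ⟨s, hs⟩ := e
    obtain ⟨Z, -⟩ := exists_fro hs
    exact (DZ.mul (B := Bad T N) (main hF) hC).mono fun D ⟨h1, s, h2, h3⟩ =>
      ⟨h1, h3.congr h2 Z.fr⟩
  · exact dz_false.mono fun D ⟨_, s, h2, _⟩ => e ⟨s, h2⟩

end

end Pool.Agent.Lib.MP_16ef92_ag.GF.GV
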