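import Mathlib
import Pool.Agent.Lib.MP_16ef92_ag.GF.Rep

set_option autoImplicit false
set_option linter.unusedSectionVars false
set_option linter.unusedVariables false

namespace Pool.Agent.Lib.MP_16ef92_ag.GV

open Polynomial Module GF
open scoped Classical

noncomputable section

/-- The determinant pairing on pairs. -/
def o2 {R : Type} [CommRing R] (x y : Fin 2 → R) : R := x 0 * y 1 - x 1 * y 0

/-- The nilpotent operator `y ↦ o2 r y • r`. -/
def n2 {R : Type} [CommRing R] (r : Fin 2 → R) : End R (Fin 2 → R) where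
  toFun y := o2 r y • r
  map_add' y z := by rw [← add_smul]; exact congrArg (· • r) (by simp [o2]; ring)
  map_smul' c y := by rw [RingHom.id_apply, smul_smul]; exact congrArg (· • r) (by simp [o2]; ring)

theorem n2_apply {R : Type} [CommRing R] (r y : Fin 2 → R) : n2 r y = o2 r y • r := rfl

variable {F : Type} [Field F] [Clos F] [Fintype F] [hq : Fact (Odd (Fintype.card F))]

/-- The properties of the 2-adic Tate module of an elliptic curve with full two-torsion and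
conductor `N`; `δ` is the determinant, `r` the parity at infinity, `t` the types of the primes. -/
structure R2 (ρ : Gam F →* End ℤ_[2] (Fin 2 → ℤ_[2])) (δ : Gam F →* ℤ_[2]) (N : F[X]) (r : ℕ)
    (t : F[X] → Fin 2 → Z2) : Prop where
  triv : ∀ g x i, 2 ∣ (ρ g x - x) i
  near : ∀ n, Near fun g => ∀ x i, 2 ^ n ∣ (ρ g x - x) i
  sim : ∀ g x y, o2 (ρ g x) (ρ g y) = δ g * o2 x y
  geo : ∀ g ∈ Geo F, δ g = 1
  det : ∀ s, Fr s (Fintype.card F) → δ s = Fintype.card F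
  good : ∀ c, aeval c N ≠ 0 → ∀ O, Over O (some c) → ∀ g ∈ Ine O, ρ g = 1
  mult : ∀ l, Prm l → l ∣ N → ∀ c, aeval c l = 0 → ∀ O, Over O (some c) →
    ∃ (v : Fin 2 → ℤ_[2]) (b : Gam F → ℤ_[2]), (∀ i, red 1 (v i) = t l i) ∧
      (∀ g ∈ Ine O, red 1 (b g) = sg (pl (some c)) g ∧ ρ g = 1 + (2 * b g) • n2 v) ∧
      ∀ f ∈ St O, ∀ Q : ℕ, Fr f Q → f (pl (some c)) = pl (some c) → δ f = Q →
        ρ f v = (Q : ℤ_[2]) • v ∨ ρ f v = -(Q : ℤ_[2]) • v
  inf : ∀ O, Over O none → ∀ g ∈ Ine O, ρ g = sgz (r * sg (pl none) g) • 1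
  ne : ∀ l, Prm l → l ∣ N → t l ≠ 0
  surj : ∀ v, v ≠ 0 → ∃ l, Prm l ∧ l ∣ N ∧ t l = v
  hasse : ∀ x : Option (kk F), (∀ c, x = some c → aeval c N ≠ 0) → ∀ O, Over O x → ∀ f ∈ St O,
    ∀ d, 0 < d → Fr f (Fintype.card F ^ d) → ∃ a : ℤ, a ^ 2 ≤ 4 * (Fintype.card F ^ d : ℕ) ∧
      ∀ y, ρ f (ρ f y) - a • ρ f y + ((Fintype.card F ^ d : ℕ) : ℤ) • y = 0

end

end Pool.Agent.Lib.MP_16ef92_ag.GV
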