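import Mathlib
import Pool.Agent.Lib.MP_16ef92_ag.GV.Kr
import Pool.Agent.Lib.MP_16ef92_ag.GV.R2

set_option autoImplicit false
set_option linter.unusedSectionVars false
set_option linter.unusedVariables false

namespace Pool.Agent.Lib.MP_16ef92_ag.GV

open Module Function Finset

noncomputable section

variable {R ι κ : Type} [CommRing R] [Fintype ι] [Fintype κ] (e : κ ≃ (ι → Fin 2)) [DecidableEq ι]

theorem sl_apply (i : ι) (φ : End R (Fin 2 → R)) (x : κ → R) (a : κ) :
    sl e i φ x a = φ (fun k => x (e.symm (update (e a) i k))) (e a i) := by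
  have : (LinearMap.proj a).comp (sl e i φ) = (LinearMap.proj (e a i)).comp
      (φ.comp (LinearMap.pi fun k => LinearMap.proj (e.symm (update (e a) i k)))) :=
    pu_ext e fun y => by
      have h : (fun k => pu e y (e.symm (update (e a) i k))) =
          (∏ j ∈ univ.erase i, y j (e a j)) • y i := funext fun k => by
        rw [pu, e.apply_symm_apply, ← prod_erase_mul _ _ (mem_univ i), update_self]
        exact congrArg (· * _) (prod_congr rfl fun j hj => by
          rw [update_of_ne (ne_of_mem_erase hj)])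
      change sl e i φ (pu e y) a = φ (fun k => pu e y (e.symm (update (e a) i k))) (e a i)
      rw [h, map_smul, sl_pu, Pi.smul_apply, smul_eq_mul, mul_comm]
      exact pu_update e y i _ a
  exact LinearMap.congr_fun this x

theorem sl_slice (i : ι) (φ : End R (Fin 2 → R)) (x : κ → R) (a : ι → Fin 2) :
    (fun k => sl e i φ x (e.symm (update a i k))) = φ fun k => x (e.symm (update a i k)) :=
  funext fun k => by simp only [sl_apply, e.apply_symm_apply, update_idem, update_self]

theorem sl_sat' (i : ι) {φ : End R (Fin 2 → R)} {c : R} (h : ∀ y z, c • y = φ z → ∃ w, y = φ w)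
    (y z : κ → R) (h0 : c • y = sl e i φ z) : ∃ w, y = sl e i φ w := by
  have h1 : ∀ a : ι → Fin 2, ∃ w, (fun k => y (e.symm (update a i k))) = φ w := fun a =>
    h _ (fun k => z (e.symm (update a i k))) (by rw [← sl_slice, ← h0]; rfl)
  choose w hw using h1
  refine ⟨fun a => w (update (e a) i 0) (e a i), funext fun a => ?_⟩
  have := congrFun (hw (update (e a) i 0)) (e a i)
  rw [sl_apply]
  simpa only [update_idem, update_self, update_eq_self, e.apply_symm_apply, e.symm_apply_apply]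
    using this

theorem sl_ker' (i : ι) {φ ψ : End R (Fin 2 → R)} (h : ∀ y, φ y = 0 → ψ y = 0) {w : κ → R}
    (h0 : sl e i φ w = 0) : sl e i ψ w = 0 := funext fun a => by
  rw [sl_apply, h _ (by rw [← sl_slice, h0]; rfl)]
  rfl

theorem adjoin_slot {T : ι → Set (End R (Fin 2 → R))} (h : ∀ i, Algebra.adjoin R (T i) = ⊤)
    {U : Set (End R (κ → R))} (hU : ∀ i, ∀ φ ∈ T i, sl e i φ ∈ U) : Algebra.adjoin R U = ⊤ := by
  classical
  have h1 : ∀ (i : ι) φ, sl e i φ ∈ Algebra.adjoin R U := fun i φ => by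
    have h2 : (Algebra.adjoin R (T i)).map (sl e i) ≤ Algebra.adjoin R U := by
      rw [AlgHom.map_adjoin]
      exact Algebra.adjoin_mono fun _ ⟨ψ, h3, h4⟩ => h4 ▸ hU i ψ h3
    exact h2 ⟨φ, h i ▸ Algebra.mem_top, rfl⟩
  have h2 : ∀ f : ι → End R (Fin 2 → R), kr e f ∈ Algebra.adjoin R U := fun f => by
    rw [kr_noncommProd]
    exact (Algebra.adjoin R U).toSubmonoid.noncommProd_mem _ _ _ fun i _ => h1 i _
  refine top_unique fun φ _ => ?_
  have h3 : φ = ∑ b, ∑ a, φ (pu e fun i => Pi.single (e b i) 1) a • kr e fun i =>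
      (LinearMap.proj (e b i) : (Fin 2 → R) →ₗ[R] R).smulRight (Pi.single (e a i) 1) := by
    refine pu_ext e fun x => ?_
    conv_lhs => rw [pu_expand e (pu e x), map_sum]
    simp only [LinearMap.sum_apply, LinearMap.smul_apply, kr_pu, LinearMap.smulRight_apply,
      LinearMap.proj_apply, pu_smul, map_smul]
    refine sum_congr rfl fun b _ => ?_
    conv_lhs => rw [pu_expand e (φ _), smul_sum]
    exact sum_congr rfl fun a _ => smul_comm _ _ _
  rw [h3]
  exact sum_mem fun a _ => sum_mem fun b _ => Subalgebra.smul_mem _ (h2 _) _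

theorem n2_skew (r x y : Fin 2 → R) : o2 (n2 r x) y = -o2 x (n2 r y) := by
  simp only [n2_apply, o2, Pi.smul_apply, smul_eq_mul]
  ring

theorem n2_sat {r s : Fin 2 → R} (hs : o2 r s = 1) {c : R} (hc : c ∈ nonZeroDivisors R)
    (y z : Fin 2 → R) (e : c • y = n2 r z) : ∃ w, y = n2 r w := by
  have h0 := congrFun e 0
  have h1 := congrFun e 1
  simp only [n2_apply, o2, Pi.smul_apply, smul_eq_mul] at h0 h1 hs
  have h2 : r 0 * y 1 - r 1 * y 0 = 0 :=
    (mul_left_mem_nonZeroDivisors_eq_zero_iff hc).1 (by linear_combination r 0 * h1 - r 1 * h0)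
  refine ⟨o2 y s • s, funext fun k => ?_⟩
  fin_cases k <;> simp only [n2_apply, o2, Pi.smul_apply, smul_eq_mul, Fin.zero_eta, Fin.mk_one]
  · linear_combination (-y 0 - (y 0 * s 1 - y 1 * s 0) * r 0) * hs + s 0 * h2
  · linear_combination (-y 1 - (y 0 * s 1 - y 1 * s 0) * r 1) * hs + s 1 * h2

theorem n2_ker {r s : Fin 2 → R} (hs : o2 r s = 1) {y : Fin 2 → R} (h : n2 r y = 0) :
    y = o2 y s • r := by
  have h0 := congrFun h 0
  have h1 := congrFun h 1
  simp only [n2_apply, o2, Pi.smul_apply, smul_eq_mul, Pi.zero_apply] at h0 h1 hs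
  have h2 : r 0 * y 1 - r 1 * y 0 = 0 := by
    linear_combination s 1 * h0 - s 0 * h1 - (r 0 * y 1 - r 1 * y 0) * hs
  funext k
  fin_cases k <;> simp only [o2, Pi.smul_apply, smul_eq_mul, Fin.zero_eta, Fin.mk_one]
  · linear_combination -y 0 * hs + s 0 * h2
  · linear_combination -y 1 * hs + s 1 * h2

theorem adjoin_n2 {T : Set (End R (Fin 2 → R))} (h0 : n2 ![1, 0] ∈ T) (h1 : n2 ![0, 1] ∈ T) :
    Algebra.adjoin R T = ⊤ := by
  refine top_unique fun φ _ => ?_
  have a0 := Algebra.subset_adjoin (R := R) h0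
  have a1 := Algebra.subset_adjoin (R := R) h1
  have h3 : φ = φ (Pi.single 1 1) 0 • n2 ![1, 0] - φ (Pi.single 0 1) 1 • n2 ![0, 1] -
      φ (Pi.single 0 1) 0 • (n2 ![1, 0] * n2 ![0, 1]) -
      φ (Pi.single 1 1) 1 • (n2 ![0, 1] * n2 ![1, 0]) := by
    refine (Pi.basisFun R (Fin 2)).ext fun t => funext fun k => ?_
    fin_cases k <;> fin_cases t <;> simp [n2_apply, o2]
  rw [h3]
  exact sub_mem (sub_mem (sub_mem (Subalgebra.smul_mem _ a0 _) (Subalgebra.smul_mem _ a1 _))
    (Subalgebra.smul_mem _ (mul_mem a0 a1) _)) (Subalgebra.smul_mem _ (mul_mem a1 a0) _)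

theorem exists_o2 {r : Fin 2 → ℤ_[2]} (hr : (fun t => red 1 (r t)) ≠ 0) : ∃ s, o2 r s = 1 := by
  obtain ⟨t, ht⟩ := Function.ne_iff.1 hr
  obtain ⟨u, hu⟩ := (unit_of_odd (a := r t) fun h => ht (red_eq_zero.2 (by rwa [pow_one])))
    |>.exists_right_inv
  fin_cases t
  exacts [⟨![0, u], by simpa [o2] using hu⟩, ⟨![-u, 0], by simpa [o2] using hu⟩]

end

end Pool.Agent.Lib.MP_16ef92_ag.GV
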