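import Mathlib
import Pool.Agent.Lib.MP_16ef92_ag.GV.Kr2
import Pool.Agent.Lib.MP_16ef92_ag.GV.Pad

set_option autoImplicit false
set_option linter.unusedSectionVars false
set_option linter.unusedVariables false

namespace Pool.Agent.Lib.MP_16ef92_ag.GF.GV

open Module Pool.Agent.Lib.MP_16ef92_ag.GV
open scoped Classical

noncomputable section

/-- An odd number of factors and an enumeration of the basis of the tensor product. -/
class Tn where
  ι : Type
  fin : Fintype ι
  j : ℕ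
  card : Fintype.card ι = 2 * j + 1
  d : ℕ
  e : Fin d ≃ (ι → Fin 2)

instance [P : Tn] : Fintype P.ι := P.fin

variable [P : Tn]

/-- The symplectic structure on the tensor product. -/
instance spT : Sp where
  ι := Fin P.d
  fin := inferInstance
  bar a := P.e.symm fun i => (P.e a i).rev
  ε a := ∏ i, ![1, -1] (P.e a i)
  bb a := by simp
  sq a := by
    rw [← Finset.prod_mul_distrib]
    exact Finset.prod_eq_one fun i _ => by
      generalize P.e a i = t
      fin_cases t <;> simp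
  neg a := by
    have h : ∀ t : Fin 2, (![1, -1] t.rev : ℤ_[2]) = -1 * ![1, -1] t := fun t => by
      fin_cases t <;> simp [Fin.rev]
    simp only [Equiv.apply_symm_apply, h, Finset.prod_mul_distrib, Finset.prod_const,
      Finset.card_univ, P.card, pow_succ, pow_mul]
    simp
  pt := P.e.symm 0

theorem om_pu (x y : P.ι → Fin 2 → ℤ_[2]) :
    om (pu P.e x : V) (pu P.e y : V) = ∏ i, o2 (x i) (y i) := by
  have h : ∀ i, o2 (x i) (y i) = ∑ k : Fin 2, ![1, -1] k * x i k * y i k.rev :=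
    fun i => by simp [o2, sub_eq_add_neg]
  simp only [h]
  rw [← sum_prod P.e]
  refine Finset.sum_congr rfl fun a _ => ?_
  change (∏ i, _) * pu P.e x a * pu P.e y (P.e.symm _) = _
  simp only [pu, Equiv.apply_symm_apply, Finset.prod_mul_distrib]

theorem om_kr' {f g f' g' : P.ι → End ℤ_[2] (Fin 2 → ℤ_[2])} {c : P.ι → ℤ_[2]}
    (h : ∀ i x y, o2 (f i x) (g i y) = c i * o2 (f' i x) (g' i y)) (v w : V) :
    om (kr P.e f v : V) (kr P.e g w : V) = (∏ i, c i) * om (kr P.e f' v : V) (kr P.e g' w : V) := by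
  have : omL.compl₁₂ (kr P.e f) (kr P.e g) = (∏ i, c i) • omL.compl₁₂ (kr P.e f') (kr P.e g') :=
    pu_ext P.e fun x => pu_ext P.e fun y => by
      change om (kr P.e f (pu P.e x) : V) (kr P.e g (pu P.e y) : V) =
        _ * om (kr P.e f' (pu P.e x) : V) (kr P.e g' (pu P.e y) : V)
      simp only [kr_pu]
      rw [om_pu, om_pu, ← Finset.prod_mul_distrib]
      exact Finset.prod_congr rfl fun i _ => h i _ _
  exact LinearMap.congr_fun₂ this v w

theorem om_kr {f : P.ι → End ℤ_[2] (Fin 2 → ℤ_[2])} {c : P.ι → ℤ_[2]}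
    (h : ∀ i x y, o2 (f i x) (f i y) = c i * o2 x y) (v w : V) :
    om (kr P.e f v : V) (kr P.e f w : V) = (∏ i, c i) * om v w := by
  have := om_kr' (f' := 1) (g' := 1) h v w
  rwa [kr_one] at this

theorem sl_skew (i : P.ι) (r : Fin 2 → ℤ_[2]) (v w : V) :
    om (sl P.e i (n2 r) v : V) w = -om v (sl P.e i (n2 r) w : V) := by
  have := om_kr' (f := Pi.mulSingle i (n2 r)) (g := 1) (f' := 1) (g' := Pi.mulSingle i (n2 r))
    (c := Pi.mulSingle i (-1)) (fun j x y => by
      by_cases e : j = i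
      · subst e
        simp only [Pi.mulSingle_eq_same, Pi.one_apply, End.one_apply, n2_skew, neg_one_mul]
      · simp only [Pi.mulSingle_eq_of_ne e, Pi.one_apply, one_mul]) v w
  rwa [kr_one, Finset.prod_pi_mulSingle', if_pos (Finset.mem_univ _), neg_one_mul] at this

theorem sl_sat (i : P.ι) {r : Fin 2 → ℤ_[2]} (hr : (fun t => red 1 (r t)) ≠ 0) (y z : V)
    (h : (2 : ℤ_[2]) • y = sl P.e i (n2 r) z) : ∃ w, y = sl P.e i (n2 r) w :=
  have ⟨_, hs⟩ := exists_o2 hr
  sl_sat' P.e i (n2_sat hs (mem_nonZeroDivisors_of_ne_zero two_ne_zero)) y z h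

theorem sl_ker (i : P.ι) {r : Fin 2 → ℤ_[2]} (hr : (fun t => red 1 (r t)) ≠ 0)
    {f : End ℤ_[2] (Fin 2 → ℤ_[2])} {c : ℤ_[2]} (hf : f r = c • r) {w : V}
    (h : sl P.e i (n2 r) w = 0) : sl P.e i f w = c • w := by
  obtain ⟨s, hs⟩ := exists_o2 hr
  have := sl_ker' P.e i (ψ := f - c • 1) (fun y hy => by
    rw [n2_ker hs hy, map_smul, LinearMap.sub_apply, hf]
    simp) h
  rwa [map_sub, map_smul, map_one, LinearMap.sub_apply, sub_eq_zero] at this

theorem rh_sl (i : P.ι) (r : Fin 2 → ℤ_[2]) (y : V) :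
    rh (sl P.e i (n2 r) y : V) = sl P.e i (n2 fun t => red 1 (r t)) (rh y) := funext fun a => by
  rw [rh_apply, sl_apply, sl_apply]
  simp only [n2_apply, o2, Pi.smul_apply, smul_eq_mul, map_mul, map_sub, rh_apply]

theorem adjoin_sl {G : Set Nb} (h : ∀ i (v : Fin 2 → Z2), v ≠ 0 → sl P.e i (n2 v) ∈ G) :
    Algebra.adjoin Z2 G = ⊤ :=
  adjoin_slot P.e (T := fun _ => n2 '' {v | v ≠ 0}) (fun _ => adjoin_n2
    ⟨_, fun e => absurd (congrFun e 0) (by decide), rfl⟩
    ⟨_, fun e => absurd (congrFun e 1) (by decide), rfl⟩) fun i _ ⟨v, hv, e⟩ => e ▸ h i v hv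

end

end Pool.Agent.Lib.MP_16ef92_ag.GF.GV
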