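import Mathlib
import Pool.Agent.Lib.MP_16ef92_ag.GV.SpT
import Pool.Agent.Lib.MP_16ef92_ag.GV.Tw

set_option autoImplicit false
set_option linter.unusedSectionVars false
set_option linter.unusedVariables false

namespace Pool.Agent.Lib.MP_16ef92_ag.GF.GV

open Polynomial Module Pool.Agent.Lib.MP_16ef92_ag.GV
open scoped Classical

noncomputable section

variable [P : Tn] {F : Type} [Field F] [Clos F] [Fintype F] [hq : Fact (Odd (Fintype.card F))]
  {ρ : P.ι → Gam F →* End ℤ_[2] (Fin 2 → ℤ_[2])} {δ : P.ι → Gam F →* ℤ_[2]} {N : P.ι → F[X]}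
  {r : P.ι → ℕ} {t : P.ι → F[X] → Fin 2 → Z2}

theorem del_inv (δ : Gam F →* ℤ_[2]) (g : Gam F) : δ g⁻¹ * δ g = 1 := by
  rw [← map_mul, inv_mul_cancel, map_one]

theorem del_dvd {ρ : Gam F →* End ℤ_[2] (Fin 2 → ℤ_[2])} {δ : Gam F →* ℤ_[2]}
    (h : ∀ g x y, o2 (ρ g x) (ρ g y) = δ g * o2 x y) {c : ℤ_[2]} {g : Gam F}
    (hg : ∀ x i, c ∣ (ρ g x - x) i) : c ∣ δ g⁻¹ - 1 := by
  obtain ⟨a, ha⟩ := hg ![1, 0] 0
  obtain ⟨b, hb⟩ := hg ![1, 0] 1
  obtain ⟨u, hu⟩ := hg ![0, 1] 0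
  obtain ⟨v, hv⟩ := hg ![0, 1] 1
  have h1 := h g ![1, 0] ![0, 1]
  simp only [o2, Pi.sub_apply, Matrix.cons_val_zero, Matrix.cons_val_one, sub_zero,
    sub_eq_iff_eq_add] at ha hb hu hv h1
  rw [ha, hb, hu, hv] at h1
  exact ⟨-δ g⁻¹ * (a + v + c * (a * v - b * u)), by
    linear_combination del_inv δ g + δ g⁻¹ * h1⟩

theorem ten_dv {c : ℤ_[2]} {f : EV} {n : ℕ} (hc : 2 ^ n ∣ c - 1) (j : ℕ) {x : V}
    (hf : f x - x ∈ Dv n) : (c ^ j • f) x - x ∈ Dv n := by
  obtain ⟨a, ha⟩ := hc.trans (sub_one_dvd_pow_sub_one c j)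
  rw [show (c ^ j • f) x - x = (c ^ j - 1) • f x + (f x - x) by
    rw [LinearMap.smul_apply]; module, ha, mul_smul]
  exact add_mem (smul_mem_Dv _ _) hf

theorem near_fin {I : Type} [Fintype I] {Q : I → Gam F → Prop} (h : ∀ i, Near (Q i)) :
    Near fun g => ∀ i, Q i g := by
  have key : ∀ s : Finset I, Near fun g => ∀ i ∈ s, Q i g := fun s => by
    induction s using Finset.induction_on with
    | empty => exact .of_forall (by simp)
    | insert a s _ ih => exact ((h a).and ih).mono fun g hg => by simpa using hg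
  exact (key Finset.univ).mono fun g hg i => hg i (Finset.mem_univ i)

/-- The normalised tensor product. -/
def ten (h : ∀ i, R2 (ρ i) (δ i) (N i) (r i) (t i)) (i₀ : P.ι) : RD F where
  ro := { toFun := fun g => δ i₀ g⁻¹ ^ P.j • krH P.e ρ g
          map_one' := by simp
          map_mul' := fun g l => by
            rw [mul_inv_rev, map_mul, map_mul, mul_pow, mul_comm, ← smul_mul_smul_comm] }
  triv g x := ten_dv (f := krH P.e ρ g) (by simpa using del_dvd (h i₀).sim ((h i₀).triv g)) _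
    fun a => (pow_one (2 : ℤ_[2])).symm ▸ kr_dvd P.e (fun i => (h i).triv g) x a
  near n := (near_fin fun i => (h i).near n).mono fun g hg x =>
    ten_dv (f := krH P.e ρ g) (del_dvd (h i₀).sim (hg i₀)) _ (kr_dvd P.e hg x)
  sim g := (sim_of (om_kr fun i => (h i).sim g)).2.smul _

variable (h : ∀ i, R2 (ρ i) (δ i) (N i) (r i) (t i)) (i₀ : P.ι)

theorem ten_ro (g : Gam F) : (ten h i₀).ro g = δ i₀ g⁻¹ ^ P.j • kr P.e fun i => ρ i g := rfl

theorem ten_geo {g : Gam F} (hg : g ∈ Geo F) : (ten h i₀).ro g = kr P.e fun i => ρ i g := by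
  rw [ten_ro, (h i₀).geo _ (inv_mem hg), one_pow, one_smul]

theorem ten_dt (g : Gam F) :
    dt ((ten h i₀).ro g) = δ i₀ g⁻¹ ^ P.j * δ i₀ g⁻¹ ^ P.j * ∏ i, δ i g :=
  (dt_smul _ _).trans (congrArg _ (sim_of (om_kr fun i => (h i).sim g)).1)

theorem only_one (hN : Squarefree (∏ i, N i)) {c : kk F} {i j : P.ι} (hc : aeval c (N i) = 0)
    (hj : j ≠ i) : aeval c (N j) ≠ 0 := by
  rw [← Finset.mul_prod_erase _ _ (Finset.mem_univ i)] at hN
  have := (simple_root hN hc).1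
  rw [map_prod, Finset.prod_ne_zero_iff] at this
  exact this j (Finset.mem_erase.2 ⟨hj, Finset.mem_univ _⟩)

theorem ten_mult (hN : Squarefree (∏ i, N i)) {c : kk F} {i : P.ι} (hc : aeval c (N i) = 0)
    {O : ValuationSubring (Om F)} (hO : Over O (some c)) {g : Gam F} (hg : g ∈ Ine O)
    {a : ℤ_[2]} {v : Fin 2 → ℤ_[2]} (e : ρ i g = 1 + a • n2 v) (y : V) :
    (ten h i₀).ro g y = y + a • sl P.e i (n2 v) y := by
  rw [ten_geo h i₀ hg.1, kr_eq_sl P.e (i := i) fun j hj =>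
    (h j).good c (only_one hN hc hj) O hO g hg, e, map_add, map_one, map_smul]
  rfl

theorem root_prm {p : F[X]} {c : kk F} (hc : aeval c p = 0) :
    ∃ l, Prm l ∧ l ∣ p ∧ aeval c l = 0 :=
  have hi : IsIntegral F c := Algebra.IsIntegral.isIntegral c
  ⟨_, ⟨minpoly.monic hi, minpoly.irreducible hi⟩, minpoly.dvd F c hc, minpoly.aeval F c⟩

theorem ten_fam (hN : Squarefree (∏ i, N i)) :
    ∃ τ, Fam (ten h i₀) (∏ i, N i) (∑ i, r i) τ := by
  have hk : ∀ l : F[X], ∃ i, ∀ i', Prm l → l ∣ N i' → i' = i := fun l => by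
    by_cases e : ∃ i, l ∣ N i
    · obtain ⟨i, hi⟩ := e
      refine ⟨i, fun i' hl h' => by_contra fun e => ?_⟩
      obtain ⟨c, hc⟩ := IsAlgClosed.exists_aeval_eq_zero (kk F) l
        (degree_pos_of_irreducible hl.2).ne'
      exact only_one hN (aeval_eq_zero_of_dvd_aeval_eq_zero hi hc) e
        (aeval_eq_zero_of_dvd_aeval_eq_zero h' hc)
    · exact ⟨i₀, fun i' _ h' => (e ⟨i', h'⟩).elim⟩
  choose k hk using hk
  refine ⟨fun l => sl P.e (k l) (n2 (t (k l) l)), hN, fun g hg => ?_, fun s hs => ?_,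
    fun c hc O hO g hg y => ?_, fun c hc O hO => ?_, fun O hO => ?_,
    fun l hl hd c hc γ ⟨O, hO, hγ, h1⟩ y z e => ?_, adjoin_sl fun i v hv => ?_⟩
  · simp [ten_dt, (h _).geo _ hg, (h _).geo _ (inv_mem hg)]
  · have h1 := del_inv (δ i₀) s
    rw [(h i₀).det s hs] at h1
    simp only [ten_dt, (h _).det s hs, Finset.prod_const, Finset.card_univ, P.card]
    rw [show ∀ a b : ℤ_[2], a ^ P.j * a ^ P.j * b ^ (2 * P.j + 1) = (a * b) ^ (2 * P.j) * b from
      fun a b => by ring, h1, one_pow, one_mul]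
  · rw [map_prod, Finset.prod_ne_zero_iff] at hc
    rw [ten_geo h i₀ hg.1, funext fun i => (h i).good c (hc i (Finset.mem_univ _)) O hO g hg]
    exact LinearMap.congr_fun (kr_one P.e) y
  · rw [map_prod, Finset.prod_eq_zero_iff] at hc
    obtain ⟨i, -, hi⟩ := hc
    obtain ⟨l, hl, hd, h1⟩ := root_prm hi
    obtain ⟨v, b, h2, h3, -⟩ := (h i).mult l hl hd c h1 O hO
    exact ⟨sl P.e i (n2 v), b, sl_skew i v, sl_sat i (funext h2 ▸ (h i).ne l hl hd),
      fun g hg => (h3 g hg).1, fun g hg => ten_mult h i₀ hN hi hO hg (h3 g hg).2⟩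
  · have h3 : ∀ g ∈ Ine O, ∀ y, (ten h i₀).ro g y =
        sgz (((∑ i, r i : ℕ) : Z2) * sg (pl none) g) • y := fun g hg y => by
      rw [ten_geo h i₀ hg.1, funext fun i => (h i).inf O hO g hg]
      refine (LinearMap.congr_fun (kr_smul P.e _ 1) y).trans ?_
      rw [kr_one, Nat.cast_sum, Finset.sum_mul]
      refine congrArg (fun c : ℤ_[2] => c • y) ?_
      induction (Finset.univ : Finset P.ι) using Finset.induction_on with
      | empty => simp [sgz_zero]
      | insert a s ha ih => rw [Finset.prod_insert ha, Finset.sum_insert ha, sgz_add, ih]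
    split_ifs with e
    · intro g hg y
      rw [h3 g hg, (ZMod.natCast_eq_zero_iff_even (n := _)).2 e, zero_mul, sgz_zero, one_smul]
    · intro g hg y
      rw [h3 g hg, (ZMod.natCast_eq_one_iff_odd (n := _)).2 (Nat.not_even_iff_odd.1 e), one_mul]
      rcases z2_cases (sg (pl none) g) with e | e <;> simp [e, sgz_zero, sgz_one]
  · obtain ⟨i, -, hi⟩ := (hl.2.prime.dvd_finsetProd_iff _).1 hd
    obtain ⟨v, b, h2, h3, -⟩ := (h i).mult l hl hi c hc O hO
    rw [ten_mult h i₀ hN (aeval_eq_zero_of_dvd_aeval_eq_zero hi hc) hO hγ (h3 γ hγ).2] at e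
    rw [two_smul_inj (x := z) (y := (-b γ) • sl P.e i (n2 v) y) (e.trans (by module)), rb_smul,
      map_neg, neg_z2, (h3 γ hγ).1, h1, one_smul, rh_sl, funext h2, ← hk l i hl hi]
    rfl
  · obtain ⟨l, hl, hd, e⟩ := (h i).surj v hv
    exact ⟨l, ⟨hl, hd.trans (Finset.dvd_prod_of_mem _ (Finset.mem_univ i))⟩, by
      beta_reduce
      rw [← hk l i hl hd, e]⟩

end

end Pool.Agent.Lib.MP_16ef92_ag.GF.GV
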