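import Mathlib
import Pool.Agent.Lib.MP_16ef92_ag.GV.Dic
import Pool.Agent.Lib.MP_16ef92_ag.ET.W2

set_option autoImplicit false
set_option linter.unusedSectionVars false
set_option linter.unusedVariables false

namespace Pool.Agent.Lib.MP_16ef92_ag.GF.GV

open Polynomial Module
open scoped Classical

noncomputable section

variable [Sp] {F : Type} [Field F] [Clos F] [Fintype F] [hq : Fact (Odd (Fintype.card F))]

/-- No local Frobenius element fixes an invariant of inertia. -/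
def NoFix (T : RD F) : Prop :=
  ∀ x O, Over O x → ∀ f ∈ St O, ∀ d, 0 < d → Fr f (Fintype.card F ^ d) → f (pl x) = pl x →
    ∀ w, (∀ g ∈ Ine O, T.ro g w = w) → T.ro f w = w → w = 0

theorem wt_dual (μ : V →ₗ[ℤ_[2]] ℤ_[2]) : ∃ w, ∀ v, om w v = μ v := by
  refine ⟨fun a => Sp.ε a * μ (Pi.single (Sp.bar a) 1), fun v => ?_⟩
  conv_rhs => rw [pi_expand v, map_sum, ← barE.sum_comp]
  refine Finset.sum_congr rfl fun a _ => ?_
  rw [map_smul, smul_eq_mul, ← mul_assoc, Sp.sq, one_mul, mul_comm]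
  rfl

/-- A vector orthogonal to the orthogonal of the image lies in the saturation of the image. -/
theorem wt_sat (A : EV) {y : V} (h : ∀ w, (∀ v, om w (A v) = 0) → om w y = 0) :
    ∃ (j : ℕ) (m : V), (2 : ℤ_[2]) ^ j • y = A m := by
  obtain ⟨W, _, _, _, _, p, -, -, -, hp, -⟩ := AL.exists_quot (ι := A) (g := 1) (t := 1) fun _ => rfl
  obtain ⟨c, hc, m, e⟩ := (hp y).1 ((Module.forall_dual_apply_eq_zero_iff ℤ_[2] _).1 fun μ => by
    obtain ⟨w, hw⟩ := wt_dual (μ ∘ₗ p)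
    exact (hw y).symm.trans (h w fun v => by
      rw [hw, LinearMap.comp_apply, (hp _).2 ⟨1, one_ne_zero, v, one_smul _ _⟩, map_zero]))
  obtain ⟨u, j, hu⟩ := dic_unit hc
  exact ⟨j, u • m, by rw [← hu, mul_smul, e, map_smul]⟩

/-- An injective endomorphism of a sublattice has torsion cokernel. -/
theorem wt_inj (K : Submodule ℤ_[2] V) (B : EV) (h1 : ∀ w ∈ K, B w ∈ K)
    (h2 : ∀ w ∈ K, B w = 0 → w = 0) {w : V} (hw : w ∈ K) :
    ∃ c : ℤ_[2], c ≠ 0 ∧ ∃ v ∈ K, c • w = B v := by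
  have hi : Function.Injective (B.restrict h1) := (injective_iff_map_eq_zero _).2 fun x hx =>
    Subtype.ext (h2 x x.2 (congrArg Subtype.val hx))
  have h3 := Submodule.finrank_quotient_add_finrank (LinearMap.range (B.restrict h1))
  rw [LinearMap.finrank_range_of_inj hi, add_eq_right, Module.finrank_eq_zero_iff_isTorsion] at h3
  obtain ⟨c, hc⟩ := @h3 ((LinearMap.range (B.restrict h1)).mkQ ⟨w, hw⟩)
  rw [Submonoid.smul_def, ← map_smul, Submodule.mkQ_apply, Submodule.Quotient.mk_eq_zero] at hc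
  obtain ⟨v, hv⟩ := hc
  exact ⟨c, nonZeroDivisors.coe_ne_zero c, v, v.2, (congrArg Subtype.val hv).symm⟩

variable {T : RD F} {O : ValuationSubring (Om F)} {x : Option (kk F)} {f : Gam F} {Q : ℕ}
  {a : Gam F → V}

theorem cy_cob (m : V) : Cy T fun g => T.ro g m - m :=
  ⟨fun g _ h _ => by rw [ro_mul, map_sub]; abel, fun n => (T.near n).mono fun g hg _ => hg m⟩

theorem cy_zero : Cy T fun _ => 0 := ⟨by simp, fun n => .of_forall fun _ _ => zero_mem _⟩

/-- A cocycle is determined on inertia by its value at a generator. -/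
theorem cy_ext (hO : Over O x) (ha : Cy T a) {γ : Gam F} (hγ : γ ∈ Ine O)
    (h1 : sg (pl x) γ = 1) (h0 : a γ = 0) {g : Gam F} (hg : g ∈ Ine O) : a g = 0 :=
  eq_zero_of_Dv fun m => by
    simpa using (hq_eq.1 (ine_ext hq_pg hO ((cyL_of_cy ha m).mono inf_le_left le_rfl).hm
      ((cyL_of_cy cy_zero m).mono inf_le_left le_rfl).hm hγ h1 (by rw [h0]) hg)).1

theorem w_loc (hgeo : ∀ g ∈ Geo F, dt (T.ro g) = 1) (hO : Over O x) (hf : f ∈ St O) (hQ : Fr f Q)
    (hp : f (pl x) = pl x) (h0 : Q ≠ 0) (hd : dt (T.ro f) = Q)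
    (hn : ∀ w, (∀ g ∈ Ine O, T.ro g w = w) → T.ro f w = w → w = 0) (ha : Cy T a) {j : ℕ} {m : V}
    (h : ∀ g ∈ Ine O, (2 : ℤ_[2]) ^ j • (tw T f a g - a g) = T.ro g m - m) :
    ∃ (j : ℕ) (m : V), ∀ g ∈ Ine O, (2 : ℤ_[2]) ^ j • a g = T.ro g m - m := by
  obtain ⟨γ, hγ, h1⟩ := hO.exists_sg
  let K : Submodule ℤ_[2] V := LinearMap.ker (T.ro γ - 1)
  have hK : ∀ w, w ∈ K ↔ ∀ g ∈ Ine O, T.ro g w = w := fun w =>
    ⟨fun e g hg => sub_eq_zero.1 (cy_ext hO (cy_cob w) hγ h1 e hg),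
      fun e => sub_eq_zero.2 (e γ hγ)⟩
  have h2 : ∀ w ∈ K, ∀ g ∈ Ine O, ∀ v, om w (T.ro g v) = om w v := fun w hw g hg v => by
    conv_lhs => rw [← (hK w).1 hw g hg, om_map, hgeo g hg.1, one_mul]
  have h3 : ∀ w ∈ K, T.ro f w ∈ K := fun w hw => (hK _).2 fun g hg => by
    rw [← ro_mul, show g * f = f * (f⁻¹ * g * f⁻¹⁻¹) by group, ro_mul,
      (hK w).1 hw _ (st_conj (inv_mem hf) hg)]
  have h4 : ∀ w ∈ K, om w (T.ro f (a γ)) = Q * om w (a γ) := fun w hw => by
    have h5 := congrArg (om w) (h _ (st_conj hf hγ))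
    rw [om_sub_right w (T.ro _ m), h2 w hw _ (st_conj hf hγ), sub_self, om_smul_right, mul_eq_zero,
      or_iff_right (by simp), om_sub_right, tw, show f⁻¹ * (f * γ * f⁻¹) * f = γ by group,
      sub_eq_zero] at h5
    rw [h5]
    exact ET.conj_of hf hQ hp (fun g => om w (a g)) (fun n z hz => hO.local_char hz _
      (fun g hg l hl => by rw [ha.mul g hg.1 l hl.1, om_add_right, h2 w hw g hg, map_add])
      ((ha.near n).mono fun g h hg => red_eq_zero.2 (om_dvd_right _ (h hg.1)))) hγ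
  have h5 : ∀ w ∈ K, om w (a γ) = 0 := fun w hw => by
    obtain ⟨c, hc, v, hv, e⟩ := wt_inj K (T.ro f - 1) (fun w hw => sub_mem (h3 w hw) hw)
      (fun w hw e => hn w ((hK w).1 hw) (sub_eq_zero.1 e)) hw
    have h6 := h4 _ (h3 v hv)
    rw [om_map, hd] at h6
    refine mul_left_cancel₀ hc ?_
    rw [← om_smul_left, e, LinearMap.sub_apply, om_sub_left, End.one_apply, mul_zero, sub_eq_zero]
    exact (mul_left_cancel₀ (Nat.cast_ne_zero.2 h0) h6).symm
  obtain ⟨i, z, e⟩ := wt_sat (T.ro γ - 1) (y := a γ) fun w hw => h5 w (om_nd fun v => by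
    have h6 := hw (T.ro γ⁻¹ v)
    have h7 := om_map (T := T) γ w (T.ro γ⁻¹ v)
    rw [LinearMap.sub_apply, End.one_apply, om_sub_right, ro_inv'] at h6
    rw [ro_inv', hgeo γ hγ.1, one_mul] at h7
    rw [LinearMap.sub_apply, End.one_apply, om_sub_left, h7]
    linear_combination -h6)
  exact ⟨i, z, fun g hg => sub_eq_zero.1
    (cy_ext hO ((ha.smul _).sub (cy_cob z)) hγ h1 (sub_eq_zero.2 e) hg)⟩

variable {s : Gam F}

theorem tw_mul (s t : Gam F) (a : Gam F → V) : tw T (s * t) a = tw T s (tw T t a) :=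
  funext fun g => by
    simp only [tw, ro_mul]
    rw [show (s * t)⁻¹ * g * (s * t) = t⁻¹ * (s⁻¹ * g * s) * t by group]

theorem lt_pow (h : LT T fun g => tw T s a g - a g) (d : ℕ) :
    LT T fun g => tw T (s ^ d) a g - a g := by
  induction d with
  | zero => exact fun O x hO => ⟨0, 0, fun g _ => by simp [tw]⟩
  | succ d ih =>
    have := (ih.tw s).sub (h.smul (-1))
    convert this using 2 with g
    rw [pow_succ', tw_mul]
    simp only [tw, map_sub]
    module

theorem lt_geo (ha : Cy T a) {l : Gam F} (hl : l ∈ Geo F) : LT T fun g => tw T l a g - a g :=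
  fun O x hO => ⟨0, a l, fun g hg => by
    have h1 := ha.mul l hl _ (geo_conj hg.1 l)
    rw [show l * (l⁻¹ * g * l) = g * l by group, ha.mul g hg.1 l hl] at h1
    unfold tw
    linear_combination (norm := module) -h1⟩

/-- The eigenvalue one does not occur in the local cohomology. -/
theorem w_key (hgeo : ∀ g ∈ Geo F, dt (T.ro g) = 1) (hs : Fr s (Fintype.card F))
    (hd : dt (T.ro s) = Fintype.card F) (h : NoFix T) (ha : Cy T a) (hl : LT T (so T s a)) :
    LT T a := by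
  intro O x hO
  obtain ⟨d, hd0, l, hl0, h1, h2⟩ := ET.exists_frob hs hO
  have h3 : dt (T.ro (l * s ^ d)) = (Fintype.card F ^ d : ℕ) := by
    rw [map_mul, (T.sim _).dt_mul, hgeo l hl0, one_mul]
    clear hd0 h1 h2
    induction d with
    | zero => simpa using dt_one
    | succ d ih => rw [pow_succ, map_mul, (T.sim _).dt_mul, ih, hd, pow_succ, Nat.cast_mul]
  obtain ⟨j, m, hm⟩ := ((lt_geo (ha.tw (s ^ d)) hl0).sub ((lt_pow hl d).smul (-1))) O x hO
  have h5 := (hs.pow d).geo_mul hl0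
  exact w_loc hgeo hO h1 h5 h2 (pow_ne_zero _ Fintype.card_ne_zero) h3 (h x O hO _ h1 d hd0 h5 h2)
    ha (j := j) (m := m) fun g hg => by
      rw [← hm g hg, tw_mul]
      congr 1
      module

theorem wt_of {T : RD F} (hgeo : ∀ g ∈ Geo F, dt (T.ro g) = 1) {s : Gam F}
    (hs : Fr s (Fintype.card F)) (hd : dt (T.ro s) = Fintype.card F) (h : NoFix T) (N : F[X]) :
    Wt T N s := fun a ha _ ⟨j, m, e⟩ =>
  w_key hgeo hs hd h ha (w_key hgeo hs hd h ((ha.tw s).sub ha)
    fun O x hO => ⟨j, m, fun g hg => e g hg.1⟩)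

end

end Pool.Agent.Lib.MP_16ef92_ag.GF.GV
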