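import Mathlib

set_option autoImplicit false
set_option linter.unusedSectionVars false
set_option linter.unusedVariables false

namespace Pool.Agent.Lib.MP_16ef92_ag.GV

noncomputable section

/-- A complex root of `X ^ 2 - t X + Q` with `t ^ 2 ≤ 4 Q` has norm `Q`. -/
theorem wt_normSq {z : ℂ} {t Q : ℤ} (ht : t ^ 2 ≤ 4 * Q) (hz : z * z - t * z + Q = 0) :
    Complex.normSq z = Q := by
  have h1 := congrArg Complex.re hz
  have h2 := congrArg Complex.im hz
  simp only [Complex.add_re, Complex.sub_re, Complex.mul_re, Complex.intCast_re, Complex.intCast_im,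
    Complex.add_im, Complex.sub_im, Complex.mul_im, Complex.zero_re, Complex.zero_im] at h1 h2
  have ht' : (t : ℝ) ^ 2 ≤ 4 * Q := by exact_mod_cast ht
  rw [Complex.normSq_apply]
  by_cases h : z.im = 0
  · rw [h] at h1 ⊢
    have h3 : (2 * z.re - t) ^ 2 ≤ 0 := by nlinarith
    have h4 : 2 * z.re - t = 0 := by
      exact pow_eq_zero_iff two_ne_zero |>.1 (le_antisymm h3 (sq_nonneg _))
    have h5 : (t : ℝ) = 2 * z.re := by linarith
    rw [h5] at h1
    linarith
  · have h5 : (t : ℝ) = 2 * z.re := mul_right_cancel₀ h (by linarith)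
    rw [h5] at h1
    linarith

/-- Weights, for a commutative ring of operators. -/
theorem wt_comm {R M ι : Type} [CommRing R] [AddCommGroup M] [Module R M]
    (htf : ∀ (n : ℤ) (x : M), n ≠ 0 → n • x = 0 → x = 0) (S : Finset ι) (m : ι → R) (t Q : ι → ℤ)
    (ht : ∀ i ∈ S, t i ^ 2 ≤ 4 * Q i) (hm : ∀ i ∈ S, m i * m i - t i * m i + Q i = 0)
    {a b : ℤ} (hab : a ^ 2 * ∏ i ∈ S, Q i ≠ b ^ 2) {x : M}
    (hx : a • (∏ i ∈ S, m i) • x = b • x) : x = 0 := by
  classical
  by_contra h0
  let I : Ideal R := (Submodule.span R {x}).annihilator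
  have hI : ∀ r, r ∈ I ↔ r • x = 0 := fun r => Submodule.mem_annihilator_span_singleton x r
  obtain ⟨P, hP, hIP, hd⟩ := I.exists_le_prime_disjoint
    ((nonZeroDivisors ℤ).map (Int.castRingHom R)) (Set.disjoint_left.2 (by
      rintro _ h ⟨n, hn, rfl⟩
      refine h0 (htf n x (nonZeroDivisors.ne_zero hn) ?_)
      rw [← Int.cast_smul_eq_zsmul R]
      exact (hI _).1 h))
  let π := Ideal.Quotient.mk P
  have hz : CharZero (R ⧸ P) := charZero_of_inj_zero fun n hn => by
    by_contra h
    have h1 : (n : R) ∈ P := Ideal.Quotient.eq_zero_iff_mem.1 (by simpa using hn)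
    exact Set.disjoint_left.1 hd h1 ⟨n, mem_nonZeroDivisors_of_ne_zero (by simpa), by simp⟩
  let B := integralClosure ℤ (R ⧸ P)
  have hi : ∀ i ∈ S, π (m i) ∈ B := fun i hi => by
    refine ⟨Polynomial.X ^ 2 - Polynomial.C (t i) * Polynomial.X + Polynomial.C (Q i), ?_, ?_⟩
    · monicity!
    · have := congrArg π (hm i hi)
      rw [Polynomial.eval₂_add, Polynomial.eval₂_sub, Polynomial.eval₂_mul, Polynomial.eval₂_C,
        Polynomial.eval₂_C, Polynomial.eval₂_X_pow, Polynomial.eval₂_X]
      simpa [pow_two] using this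
  have : Algebra.IsAlgebraic ℤ B := Algebra.IsIntegral.isAlgebraic
  let ψ : B →ₐ[ℤ] ℂ := IsAlgClosed.lift
  let z : ι → B := fun i => if h : i ∈ S then ⟨_, hi i h⟩ else 0
  have hzv : ∀ i ∈ S, (z i : R ⧸ P) = π (m i) := fun i h => by simp [z, h]
  have h1 : ∀ i ∈ S, Complex.normSq (ψ (z i)) = Q i := fun i h => wt_normSq (ht i h) (by
    have e : z i * z i - t i * z i + Q i = 0 := Subtype.ext (by
      have := congrArg π (hm i h)
      simpa [hzv i h] using this)
    simpa using congrArg ψ e)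
  have h2 : (a : B) * ∏ i ∈ S, z i = b := Subtype.ext (by
    have h3 : (a : R) * ∏ i ∈ S, m i - b ∈ I := by
      rw [hI, sub_smul, mul_smul, Int.cast_smul_eq_zsmul, Int.cast_smul_eq_zsmul, hx, sub_self]
    have h4 := Ideal.Quotient.eq_zero_iff_mem.2 (hIP h3)
    rw [map_sub, sub_eq_zero, map_mul, map_prod, ← Finset.prod_congr rfl hzv] at h4
    simpa using h4)
  have h5 := congrArg (fun y => Complex.normSq (ψ y)) h2
  simp only [map_mul, map_prod, map_intCast, Complex.normSq_intCast, Finset.prod_congr rfl h1] at h5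
  refine hab ?_
  rw [pow_two, pow_two]
  exact_mod_cast h5

/-- Weights, for commuting operators. -/
theorem wt_end {K M ι : Type} [CommRing K] [AddCommGroup M] [Module K M]
    (htf : ∀ (n : ℤ) (x : M), n ≠ 0 → n • x = 0 → x = 0) (S : Finset ι) (m : ι → Module.End K M)
    (hc : (S : Set ι).Pairwise (Function.onFun Commute m)) (t Q : ι → ℤ)
    (ht : ∀ i ∈ S, t i ^ 2 ≤ 4 * Q i)
    (hm : ∀ i ∈ S, ∀ y, m i (m i y) - t i • m i y + Q i • y = 0)
    {a b : ℤ} (hab : a ^ 2 * ∏ i ∈ S, Q i ≠ b ^ 2) {x : M}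
    (hx : a • S.noncommProd m hc x = b • x) : x = 0 := by
  classical
  let R := Subring.closure (m '' S)
  have hR : IsMulCommutative R := Subring.isMulCommutative_closure (by
    rintro _ ⟨i, hi, rfl⟩ _ ⟨j, hj, rfl⟩
    by_cases h : i = j
    · rw [h]
    · exact hc hi hj h)
  let _ : CommRing R := { (inferInstance : Ring R) with mul_comm := hR.is_comm.comm }
  let z : ι → R := fun i => if h : i ∈ S then ⟨m i, Subring.subset_closure ⟨i, h, rfl⟩⟩ else 0
  have hz : ∀ i ∈ S, (z i : Module.End K M) = m i := fun i h => by simp [z, h]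
  refine wt_comm htf S z t Q ht (fun i hi => Subtype.ext (LinearMap.ext fun y => ?_)) hab ?_
  · have := hm i hi y
    simpa [hz i hi] using this
  · rw [← hx, ← Finset.noncommProd_eq_prod]
    congr 1
    have h := Finset.map_noncommProd S z (fun _ _ _ _ _ => Commute.all _ _) R.subtype
    exact (congrArg (fun e : Module.End K M => e x) h).trans
      (congrArg (fun e : Module.End K M => e x) (Finset.noncommProd_congr rfl hz _))

end

end Pool.Agent.Lib.MP_16ef92_ag.GV
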