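import Mathlib
import Pool.Agent.Lib.MP_16ef92_ag.GV.Ten
import Pool.Agent.Lib.MP_16ef92_ag.GV.Wt
import Pool.Agent.Lib.MP_16ef92_ag.GV.Wt0

set_option autoImplicit false
set_option linter.unusedSectionVars false
set_option linter.unusedVariables false

namespace Pool.Agent.Lib.MP_16ef92_ag.GF.GV

open Polynomial Module Pool.Agent.Lib.MP_16ef92_ag.GV
open scoped Classical

noncomputable section

variable [P : Tn] {F : Type} [Field F] [Clos F] [Fintype F] [hq : Fact (Odd (Fintype.card F))]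
  {ρ : P.ι → Gam F →* End ℤ_[2] (Fin 2 → ℤ_[2])} {δ : P.ι → Gam F →* ℤ_[2]} {N : P.ι → F[X]}
  {r : P.ι → ℕ} {t : P.ι → F[X] → Fin 2 → Z2}

theorem kr_wt {f : P.ι → End ℤ_[2] (Fin 2 → ℤ_[2])} {Q : P.ι → ℤ}
    (h : ∀ i, ∃ a : ℤ, a ^ 2 ≤ 4 * Q i ∧ ∀ y, f i (f i y) - a • f i y + Q i • y = 0) {a b : ℤ}
    (hab : a ^ 2 * ∏ i, Q i ≠ b ^ 2) {w : V} (hw : a • kr P.e f w = b • w) : w = 0 := by
  choose t h1 h2 using h
  rw [kr_noncommProd] at hw
  refine wt_end (K := ℤ_[2]) (fun n x hn hx => ?_) _ _ _ t Q (fun i _ => h1 i) (fun i _ y => ?_)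
    hab hw
  · rw [← Int.cast_smul_eq_zsmul ℤ_[2], smul_eq_zero] at hx
    exact hx.resolve_left (Int.cast_ne_zero.2 hn)
  · have := congrArg (sl P.e i · y) (LinearMap.ext (h2 i) : f i * f i - t i • f i + Q i • 1 = 0)
    simp only [map_add, map_sub, map_mul, map_zsmul, map_one, map_zero] at this
    exact this

theorem ten_noFix (h : ∀ i, R2 (ρ i) (δ i) (N i) (r i) (t i)) (i₀ : P.ι) {D : F[X]}
    (hN : Squarefree ((∏ i, N i) * D)) {s : Gam F} (hs : Fr s (Fintype.card F)) :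
    NoFix ((ten h i₀).twist D) := by
  intro x O hO f hf d hd hF hp w h1 h2
  have hδ : ∀ i, δ i f = (Fintype.card F ^ d : ℕ) := fun i => by
    have := (h i).geo _ (red_geo (hs.pow d) hF)
    rw [← inv_mul_cancel_right f (s ^ d), map_mul, this, map_pow, (h i).det s hs, one_mul,
      Nat.cast_pow]
  have hH := fun i hx => (h i).hasse x hx O hO f hf d hd hF
  have hQ : 1 < Fintype.card F ^ d := Nat.one_lt_pow hd.ne' Fintype.one_lt_card
  generalize Fintype.card F ^ d = Q at hδ hH hQ hF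
  have hQ' : (1 : ℤ) < Q := by exact_mod_cast hQ
  obtain ⟨ε, hε, h3⟩ : ∃ ε : ℤ, ε ^ 2 = 1 ∧ ε • kr P.e (fun i => ρ i f) w = (Q : ℤ) ^ P.j • w := by
    have h4 := del_inv (δ i₀) f
    have h5 : chi D f • kr P.e (fun i => ρ i f) w = (Q : ℤ) ^ P.j • w := by
      conv_rhs => rw [← h2, twist_ro, ten_ro, ← Int.cast_smul_eq_zsmul ℤ_[2], LinearMap.smul_apply,
        LinearMap.smul_apply, smul_comm, smul_smul _ (_ ^ _), Int.cast_pow, Int.cast_natCast,
        ← mul_pow, ← hδ i₀, mul_comm, h4, one_pow, one_smul]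
    rcases chi_cases D f with e | e <;> rw [e] at h5
    exacts [⟨1, rfl, by simpa using h5⟩, ⟨-1, rfl, by simpa using h5⟩]
  by_cases hx : ∃ c i, x = some c ∧ aeval c (N i) = 0
  · obtain ⟨c, i, rfl, hc⟩ := hx
    obtain ⟨l, hl, h4, h5⟩ := root_prm hc
    obtain ⟨v, b, h6, h7, h8⟩ := (h i).mult l hl h4 c h5 O hO
    obtain ⟨γ, hγ, h9⟩ := hO.exists_sg
    have k1 := h1 γ hγ
    rw [twist_ro, chi_good (simple_root hN (by
      rw [map_prod]; exact Finset.prod_eq_zero (Finset.mem_univ i) hc)).1 hO hγ, one_smul,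
      ten_mult h i₀ hN.of_mul_left hc hO hγ (h7 γ hγ).2, add_eq_left, smul_eq_zero,
      or_iff_right (mul_ne_zero two_ne_zero (unit_of_red ((h7 γ hγ).1.trans h9)).ne_zero)] at k1
    obtain ⟨η, hη, k2⟩ : ∃ η : ℤ, η ^ 2 = Q ^ 2 ∧ sl P.e i (ρ i f) w = η • w := by
      rcases h8 f hf Q hF hp (hδ i) with e | e
      · exact ⟨Q, rfl, (sl_ker i (funext h6 ▸ (h i).ne l hl h4) e k1).trans (by
          rw [← Int.cast_smul_eq_zsmul ℤ_[2], Int.cast_natCast])⟩
      · exact ⟨-Q, neg_sq _, (sl_ker i (funext h6 ▸ (h i).ne l hl h4) e k1).trans (by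
          rw [← Int.cast_smul_eq_zsmul ℤ_[2], Int.cast_neg, Int.cast_natCast])⟩
    have k3 : (fun j => ρ j f) = Function.update (fun j => ρ j f) i 1 * Pi.mulSingle i (ρ i f) :=
      funext fun j => by
        by_cases e : j = i
        · subst e
          simp
        · simp [e]
    rw [k3, kr_mul, End.mul_apply, ← sl_eq, k2, map_zsmul, smul_smul] at h3
    refine kr_wt (Q := Function.update (fun _ => (Q : ℤ)) i 1) (fun j => ?_) ?_ h3
    · by_cases e : j = i
      · subst e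
        exact ⟨2, by simp, fun y => by simp [two_smul]⟩
      · rw [Function.update_of_ne e, Function.update_of_ne e]
        exact hH j fun c' e' => Option.some.inj e' ▸ only_one hN.of_mul_left hc e
    · rw [Finset.prod_update_of_mem (Finset.mem_univ i), Finset.prod_const, mul_pow, hε, hη,
        Finset.card_sdiff_of_subset (Finset.subset_univ _), Finset.card_univ, P.card,
        Finset.card_singleton, one_mul, one_mul, ← pow_add, ← pow_mul]
      exact fun e => by have := pow_right_injective₀ (by omega) hQ'.ne' e; omega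
  · refine kr_wt (Q := fun _ => (Q : ℤ)) (fun i => hH i fun c e e' => hx ⟨c, i, e, e'⟩) ?_ h3
    rw [Finset.prod_const, hε, Finset.card_univ, P.card, one_mul, ← pow_mul]
    exact fun e => by have := pow_right_injective₀ (by omega) hQ'.ne' e; omega

end

end Pool.Agent.Lib.MP_16ef92_ag.GF.GV
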