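import Mathlib
import Pool.Agent.Lib.MP_16ef92_ag.AL.NDic
import Pool.Agent.Lib.MP_16ef92_ag.GF.Rep

set_option autoImplicit false
set_option linter.unusedSectionVars false
set_option linter.unusedVariables false

namespace Pool.Agent.Lib.MP_16ef92_ag.AL

open Polynomial Module GF
open scoped Classical

noncomputable section

variable {F : Type} [Field F] [Clos F] [Fintype F] [hq : Fact (Odd (Fintype.card F))]
  {N : F[X]} {l : ℕ} [hl : Fact l.Prime] {W W' : WeierstrassCurve (RatFunc F)}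
  {a : kk F → ℕ → ℤ}

/-- Two coordinate systems on the Tate module differ by a linear isomorphism. -/
theorem TM.iso (T T' : TM l W) : ∃ φ : (Fin 2 → ℤ_[l]) ≃ₗ[ℤ_[l]] (Fin 2 → ℤ_[l]),
    (∀ x, T'.ev (φ x) = T.ev x) ∧ ∀ g x, φ (T.ro g x) = T'.ro g (φ x) := by
  choose f hf using fun x => T'.surj _ (T.mem x)
  let φ : (Fin 2 → ℤ_[l]) →ₗ[ℤ_[l]] (Fin 2 → ℤ_[l]) :=
    { toFun := f
      map_add' := fun x y => T'.inj (by rw [map_add, hf, hf, hf, map_add])
      map_smul' := fun b x => T'.inj (funext fun n => by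
        rw [RingHom.id_apply, T'.smul, hf, hf, T.smul]) }
  refine ⟨LinearEquiv.ofBijective φ ⟨fun x y e => T.inj (by
    rw [← hf, ← hf]; exact congrArg _ e), fun y => ?_⟩, hf, fun g x => T'.inj ?_⟩
  · obtain ⟨x, hx⟩ := T.surj _ (T'.mem y)
    exact ⟨x, T'.inj ((hf x).trans hx)⟩
  · change T'.ev (f _) = T'.ev (T'.ro g (f x))
    rw [T'.equiv, hf, hf, T.equiv]

theorem TM.Good.congr {T : TM l W} (hT : T.Good N a) (T' : TM l W) : T'.Good N a := by
  obtain ⟨φ, -, h⟩ := T'.iso T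
  refine ⟨fun c hc O hO g hg => LinearMap.ext fun x => φ.injective ?_,
    fun c hc O hO f hf r hr hF => ?_, fun c hc O hO f hf r hr hF x hx => ?_⟩
  · rw [h, hT.unr c hc O hO g hg]
    rfl
  · rw [← hT.tr c hc O hO f hf r hr hF, ← LinearMap.trace_conj' (T'.ro f) φ]
    congr 1
    refine LinearMap.ext fun x => ?_
    rw [LinearEquiv.conj_apply_apply, h, φ.apply_symm_apply]
  · refine φ.injective ((hT.wt c hc O hO f hf r hr hF _ ?_).trans (map_zero φ).symm)
    rw [← h, ← map_smul]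
    exact hx.imp (congrArg φ) (congrArg φ)

theorem TM.near (T : TM l W) (n : ℕ) :
    Near fun g => ∀ x i, (l : ℤ_[l]) ^ n ∣ (T.ro g x - x) i := by
  refine ((near_pm (T.ev (Pi.single 0 1) n)).and (near_pm (T.ev (Pi.single 1 1) n))).mono
    fun g hg x i => ?_
  have h : ∀ j, (l : ℤ_[l]) ^ n ∣ ((T.ro g - 1) (Pi.single j 1)) i := fun j =>
    (T.zero n _).1 (by
      rw [LinearMap.sub_apply, map_sub, Pi.sub_apply, T.equiv, act_apply,
        (Fin.forall_fin_two (p := fun j => pm g (T.ev (Pi.single j 1) n) =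
          T.ev (Pi.single j 1) n)).2 hg j]
      exact sub_self _) i
  change _ ∣ (T.ro g - 1) x i
  rw [pi_eq_sum_univ' x, map_sum, Finset.sum_apply]
  exact Finset.dvd_sum fun j _ => by rw [map_smul]; exact (h j).mul_left _

variable {A B D : F[X]}

/-- The standard coordinates. -/
abbrev e2 : V ≃ₗ[ℤ_[2]] (Fin 2 → ℤ_[2]) := (LinearEquiv.finTwoArrow ℤ_[2] ℤ_[2]).symm

theorem e2_dv {n : ℕ} {x : V} :
    (∀ i, (2 : ℤ_[2]) ^ n ∣ e2 x i) ↔ x ∈ MP_16ef92_ag.Dv n := by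
  rw [Fin.forall_fin_two, MP_16ef92_ag.mem_Dv]
  rfl

/-- A representation on pairs, written on functions. -/
def td2 (ro : Gam F →* End ℤ_[2] V) : Gam F →* End ℤ_[2] (Fin 2 → ℤ_[2]) :=
  (e2.conjRingEquiv : End ℤ_[2] V →* _).comp ro

theorem td2_e2 (ro : Gam F →* End ℤ_[2] V) (g : Gam F) (x : V) : td2 ro g (e2 x) = e2 (ro g x) :=
  congrArg (fun y => e2 (ro g y)) (e2.symm_apply_apply x)

/-- The twists of the representation on the two-adic Tate module. -/
theorem exists_TM_two (h0 : A * B * (A - B) * D ≠ 0) {ro : Gam F →* End ℤ_[2] V}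
    {ev₁ : V →+ ℕ → Pt (curve A B 1)} (hin : ∀ x, InTate (ev₁ x))
    (hsurj : ∀ P, InTate P → ∃ x, ev₁ x = P)
    (hker : ∀ n x, ev₁ x n = 0 ↔ x ∈ MP_16ef92_ag.Dv n)
    (hro : ∀ g x, ev₁ (ro g x) = act g (ev₁ x)) :
    ∃ T : TM 2 (curve A B D), ∀ g, T.ro g = chi D g • td2 ro g := by
  have hD := right_ne_zero_of_mul h0
  obtain ⟨ev', h1, h2, h3, h4⟩ := exists_twist_curve A B hD hin hsurj hker hro
  obtain ⟨a, ha⟩ := exists_TM h0
  obtain ⟨T₀, -⟩ := ha 2 (by exact_mod_cast two_neF)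
  have h5 : ∀ P, InT 2 P → ∃ x, ev' (e2.symm x) = P := fun P hP =>
    (h2 P hP).elim fun x hx => ⟨e2 x, by rw [e2.symm_apply_apply, hx]⟩
  refine ⟨⟨{ toFun := fun g => chi D g • td2 ro g
             map_one' := by simp
             map_mul' := fun g l => by rw [map_mul, map_mul, smul_mul_smul_comm] },
    ev'.comp e2.symm.toLinearMap.toAddMonoidHom, fun x => h1 _, h5, fun n P hP => ?_,
    fun n x => ?_, fun g x => ?_⟩, fun g => rfl⟩
  · obtain ⟨y, rfl⟩ := T₀.lvl n P hP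
    obtain ⟨x, hx⟩ := h5 _ (T₀.mem y)
    exact ⟨x, congrFun hx n⟩
  · obtain ⟨y, rfl⟩ := e2.surjective x
    change ev' (e2.symm (e2 y)) n = 0 ↔ _
    rw [e2.symm_apply_apply, h3, Nat.cast_ofNat, e2_dv]
  · obtain ⟨y, rfl⟩ := e2.surjective x
    change ev' (e2.symm (chi D g • td2 ro g (e2 y))) = act g (ev' (e2.symm (e2 y)))
    rw [td2_e2, ← map_smul, e2.symm_apply_apply, e2.symm_apply_apply, chi_eq hD, h4]

end

end Pool.Agent.Lib.MP_16ef92_ag.AL
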