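import Mathlib
import Pool.Agent.Lib.MP_16ef92_ag.AL.EMain
import Pool.Agent.Lib.MP_16ef92_ag.GF.Twist

set_option autoImplicit false
set_option linter.unusedSectionVars false
set_option linter.unusedVariables false

namespace Pool.Agent.Lib.MP_16ef92_ag.GV

open Polynomial WeierstrassCurve AL AL.EC

noncomputable section

theorem hasse_int {t Q : ℤ} {p : ℕ} (hp : p.Prime) (hQ : 0 < Q)
    (h : ∀ b : ℤ, ¬ (p : ℤ) ∣ b → 0 < b ^ 2 + (t ^ 2 - 2 * Q) * b + Q ^ 2) : t ^ 2 ≤ 4 * Q := by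
  by_contra h0
  have h1 : 5 ≤ (t ^ 2 - 2 * Q) ^ 2 - 4 * Q ^ 2 := by nlinarith
  generalize t ^ 2 - 2 * Q = u at h h1
  obtain ⟨m, hm⟩ : ∃ m, u = 2 * m ∨ u = 2 * m + 1 := ⟨u / 2, by omega⟩
  by_cases h2 : (p : ℤ) ∣ -m
  · have h3 := h (-m - 1) fun e => (Nat.prime_iff_prime_int.1 hp).not_dvd_one (by
      simpa using h2.sub e)
    rcases hm with rfl | rfl <;> nlinarith
  · have h3 := h _ h2
    rcases hm with rfl | rfl <;> nlinarith

/-- The theorem of Hasse. -/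
theorem frob_hasse {k : Type} [Field k] [IsAlgClosed k] [DecidableEq k] {E : Affine k} (hE : Sh E)
    {p r : ℕ} [hp : Fact p.Prime] [CharP k p] (hr : 0 < r) {σ : k →+* k}
    (hσ : ∀ z, σ z = z ^ p ^ r) (e : E = WeierstrassCurve.map E σ) {φ : E.Point →+ E.Point}
    (hφ : IsMap σ φ) : ∃ t : ℤ, t ^ 2 ≤ 4 * (p ^ r : ℕ) ∧
      ∀ P, φ (φ P) - t • φ P + ((p ^ r : ℕ) : ℤ) • P = 0 := by
  obtain ⟨t, h1, -⟩ := frob_char hE hr hσ e hφ
  obtain ⟨u, h2, h3⟩ := frob_char hE (p := p) (r := r + r) (by omega) (σ := σ.comp σ)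
    (fun z => by rw [RingHom.comp_apply, hσ, hσ, ← pow_mul, ← pow_add])
    (by rw [← WeierstrassCurve.map_map, ← e, ← e]) (φ := φ.comp φ)
    ⟨fun P h => hφ.ne _ (hφ.ne P h), fun P => by simp [hφ.x], fun P => by simp [hφ.y]⟩
  rw [pow_add, Nat.cast_mul] at h2 h3
  have hQ : (0 : ℤ) < (p ^ r : ℕ) := Int.natCast_pos.2 (pow_pos hp.out.pos r)
  generalize ((p ^ r : ℕ) : ℤ) = Q at *
  have h4 : ∀ P : E.Point, (t ^ 2 - 2 * Q - u) • P = 0 := fun P => hφ.inj (hφ.inj (by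
    have a0 := h1 P
    have a1 := h1 (φ P)
    have a2 := h1 (φ (φ P))
    have a3 := h2 P
    simp only [AddMonoidHom.comp_apply] at a3
    simp only [map_zsmul, map_zero]
    linear_combination (norm := module) a3 - a2 - t • a1 - Q • a0))
  have h5 : t ^ 2 - 2 * Q - u = 0 := by
    by_contra h6
    generalize t ^ 2 - 2 * Q - u = d at h4 h6
    have h7 := card_tors_sep (n := d.natAbs * p + 1) hE (by simp)
    have h8 : Nat.card {P : E.Point // (d.natAbs * p + 1) • P = 0} = 1 := by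
      rw [Nat.card_eq_one_iff_exists]
      refine ⟨⟨0, smul_zero _⟩, fun ⟨P, h9⟩ => Subtype.ext ?_⟩
      rwa [add_smul, mul_comm, mul_smul, natAbs_nsmul_eq_zero.2 (h4 _), smul_zero, zero_add,
        one_smul] at h9
    have := Nat.mul_pos (Int.natAbs_pos.2 h6) hp.out.pos
    nlinarith
  refine ⟨t, hasse_int hp.out hQ fun b hb => ?_, h1⟩
  obtain ⟨h6, h7⟩ := h3 b fun e => hb ((CharP.intCast_eq_zero_iff k p b).1 e)
  rw [show t ^ 2 - 2 * Q = u by omega, pow_two Q, ← h7]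
  exact_mod_cast h6

variable {F : Type} [Field F] [Fintype F] [Clos F] [hq : Fact (Odd (Fintype.card F))]

/-- The curve has good reduction at `O` after scaling by `u`. -/
structure PG (A B D : F[X]) (O : ValuationSubring (Om F)) (u : Om F) : Prop where
  ne : u ≠ 0
  a : O.valuation (ev (D * A) / u ^ 2) = 1
  b : O.valuation (ev (D * B) / u ^ 2) = 1
  c : O.valuation (ev (D * (A - B)) / u ^ 2) = 1

variable {A B D : F[X]} {O : ValuationSubring (Om F)} {x : Option (kk F)} {u : Om F}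

theorem PG.ne0 (h : PG A B D O u) : A * B * (A - B) * D ≠ 0 := by
  have h1 : ∀ p : F[X], O.valuation (ev (D * p) / u ^ 2) = 1 → p ≠ 0 ∧ D ≠ 0 := fun p hp => by
    constructor <;> rintro rfl <;> simp [ev] at hp
  exact mul_ne_zero (mul_ne_zero (mul_ne_zero (h1 _ h.a).1 (h1 _ h.b).1) (h1 _ h.c).1) (h1 _ h.a).2

open scoped Classical in
/-- Potentially good reduction. -/
theorem PG.spec (h : PG A B D O u) (hO : Over O x) :
    ∃ (E : Affine (kk F)) (π : Pt (curve A B D) →+ E.Point), Sh E ∧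
      (∀ n : ℕ, (n : F) ≠ 0 → ∀ P, n • P = 0 → π P = 0 → P = 0) ∧
      ∀ f ∈ St O, ∀ ε : ℤ, (ε = 1 ∨ ε = -1) → f u = ε * u → ∀ σ : kk F →+* kk F,
        (∀ z : kk F, f z = σ z) → E = WeierstrassCurve.map E σ ∧
        ∀ φ : E.Point →+ E.Point, IsMap σ φ → ∀ P, π (pm f P) = ε • φ (π P) := by
  obtain ⟨π, he⟩ := e7_ev hO
  have hu : ∀ (z : O.toSubring) (d : kk F), O.valuation ((z : Om F) - d) < 1 → π z = d :=
    fun z d h => const_eq O (by
      have := Valuation.map_sub_lt _ h (he z)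
      rwa [sub_sub_sub_cancel_left] at this)
  have hu0 := h.ne
  have h1 : ∀ z : O.toSubring, O.valuation (z : Om F) = 1 → π z ≠ 0 := fun z hz e => by
    have := he z
    rw [e, ZeroMemClass.coe_zero, sub_zero, hz] at this
    exact lt_irrefl _ this
  let a : O.toSubring := ⟨ev (D * A) / u ^ 2, (O.valuation_le_one_iff _).1 h.a.le⟩
  let b : O.toSubring := ⟨ev (D * B) / u ^ 2, (O.valuation_le_one_iff _).1 h.b.le⟩
  have hab : O.valuation ((a - b : O.toSubring) : Om F) = 1 := by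
    rw [← h.c, mul_sub, ev, map_sub, sub_div]
    rfl
  let W : Affine (Om F) := ⟨0, -(1 * a + 1 * b), 0, 1 * a * (1 * b), 0⟩
  let E : Affine (kk F) := ⟨0, -(1 * π a + 1 * π b), 0, 1 * π a * (1 * π b), 0⟩
  have hE : Sh E := e7_sh (fun e => two_ne (F := F) (congrArg Subtype.val e)) (mul_ne_zero
    (mul_ne_zero (mul_ne_zero (h1 a h.a) (h1 b h.b)) (by rw [← map_sub]; exact h1 _ hab)) one_ne_zero)
  have hv : ∀ z : Om F, O.valuation z = 1 → z ≠ 0 := fun z hz e => by simp [e] at hz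
  have hW : Sh W := e7_sh two_ne (mul_ne_zero
    (mul_ne_zero (mul_ne_zero (hv _ h.a) (hv _ h.b)) (hv _ hab)) one_ne_zero)
  have S : SpecData O.toSubring π W E := by
    refine ⟨O.mem_or_inv_mem, fun z hz => ?_, rfl, rfl, rfl, rfl, ?_, ?_, ?_, hE.Δ⟩
    · refine (O.valuation_le_one_iff _).1 ?_
      rw [map_inv₀, val_one_of_sub O (val_const O hz) (he z), inv_one]
    · exact ⟨(-(1 * a + 1 * b)).2, show π (-(1 * a + 1 * b)) = _ by simp [E]⟩
    · exact ⟨(1 * a * (1 * b)).2, show π (1 * a * (1 * b)) = _ by simp [E]⟩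
    · exact ⟨zero_mem _, map_zero π⟩
  have sc : GF.Sc W ((curve A B D).baseChange (Om F)).toAffine u := by
    refine ⟨rfl, rfl, by simp [curve], by simp [curve], ?_, ?_, by simp [curve, W], hu0⟩
    · have : ((curve A B D).baseChange (Om F)).a₂ = -(ev (D * A) + ev (D * B)) := by
        simp only [ev, ← rf_eq]
        simp [curve]
      rw [this]
      simp only [W, a, b]
      field_simp
    · have : ((curve A B D).baseChange (Om F)).a₄ = ev (D * A) * ev (D * B) := by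
        simp only [ev, ← rf_eq]
        simp [curve]
      rw [this]
      simp only [W, a, b]
      field_simp
  refine ⟨E, S.hom.comp sc.symm.hom, hE, fun n hn P hP e => ?_, fun f hf ε hε hfu σ hσ => ?_⟩
  · exact sc.symm.hom_eq_zero.1 (S.tors_inj hW (cast_kk hn) (by rw [← map_nsmul, hP, map_zero]) e)
  have h2 : ∀ z (h : z ∈ O.toSubring) (h' : (f : Om F →+* Om F) z ∈ O.toSubring),
      π ⟨_, h'⟩ = σ (π ⟨z, h⟩) := fun z h h' => hu _ _ (by
    have h1 := st_lt hf (he ⟨z, h⟩)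
    rwa [map_sub, hσ] at h1)
  have h3 : (ε : Om F) ^ 2 = 1 := by rcases hε with rfl | rfl <;> simp
  have h4 : ∀ p : F[X], (f : Om F →+* Om F) (ev p / u ^ 2) = ev p / u ^ 2 := fun p => by
    rw [RingHom.coe_coe, map_div₀, map_pow, gam_ev, hfu, mul_pow, h3, one_mul]
  have ha : σ (π a) = π a := (h2 _ a.2 (by rw [h4]; exact a.2)).symm.trans
    (congrArg π (Subtype.ext (h4 _)))
  have hb : σ (π b) = π b := (h2 _ b.2 (by rw [h4]; exact b.2)).symm.trans
    (congrArg π (Subtype.ext (h4 _)))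
  refine ⟨by ext <;> simp [E, ha, hb], fun φ hφ P => ?_⟩
  obtain ⟨ψ, hψ⟩ := exists_isMap (E' := W) hW (f : Om F →+* Om F) (by
    have ha' : (f : Om F →+* Om F) a = a := h4 _
    have hb' : (f : Om F →+* Om F) b = b := h4 _
    ext <;> simp only [W, WeierstrassCurve.map, map_zero, map_neg, map_add, map_mul, map_one, ha',
      hb'])
  rw [AddMonoidHom.comp_apply, AddMonoidHom.comp_apply, ← S.equiv hψ hφ hf h2, ← map_zsmul]
  congr 1
  rcases P with _ | ⟨y, z, n⟩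
  · rw [← Affine.Point.zero_def]
    simp
  have hn : ψ (sc.symm.hom (.some y z n)) ≠ 0 := hψ.ne _ (Affine.Point.some_ne_zero _)
  have hx := hψ.x (sc.symm.hom (.some y z n))
  have hy := hψ.y (sc.symm.hom (.some y z n))
  obtain ⟨n', e⟩ := pm_some f n
  rw [e]
  generalize ψ (sc.symm.hom (.some y z n)) = R at hn hx hy
  rcases R with _ | ⟨y', z', n''⟩
  · exact (hn rfl).elim
  simp only [GF.Sc.hom_some, xc, yc, RingHom.coe_coe, map_mul, map_pow, map_inv₀, hfu] at hx hy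
  rcases hε with rfl | rfl
  · rw [one_smul, GF.Sc.hom_some, Affine.Point.some.injEq, hx, hy]
    simp
  · rw [neg_smul, one_smul, GF.Sc.hom_some, Affine.Point.neg_some, Affine.Point.some.injEq,
      Affine.negY, hx, hy]
    simp only [W]
    push_cast
    constructor <;> field_simp <;> ring

/-- Inertia acts on torsion points through a sign. -/
theorem PG.ine (h : PG A B D O u) (hO : Over O x) {g : Gam F} (hg : g ∈ Ine O) {ε : ℤ}
    (hε : ε = 1 ∨ ε = -1) (hu : g u = ε * u) {n : ℕ} (hn : (n : F) ≠ 0) {P : Pt (curve A B D)}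
    (hP : n • P = 0) : pm g P = ε • P := by
  classical
  obtain ⟨E, π, -, h1, h2⟩ := h.spec hO
  rw [← sub_eq_zero]
  refine h1 n hn _ (by rw [smul_sub, ← map_nsmul, smul_comm, hP]; simp) ?_
  rw [map_sub, (h2 g hg.2 ε hε hu (RingHom.id _) fun z => geo_fix hg.1 z).2 _ isMap_id, map_zsmul]
  exact sub_self _

/-- Frobenius elements satisfy a Weil polynomial on torsion points. -/
theorem PG.frob (h : PG A B D O u) (hO : Over O x) {f : Gam F} (hf : f ∈ St O) {r : ℕ}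
    (hr : 0 < r) (hF : Fr f (Fintype.card F ^ r)) (hu : f u = u ∨ f u = -u) :
    ∃ t : ℤ, t ^ 2 ≤ 4 * (Fintype.card F ^ r : ℕ) ∧ ∀ n : ℕ, (n : F) ≠ 0 →
      ∀ P : Pt (curve A B D), n • P = 0 →
        pm f (pm f P) - t • pm f P + ((Fintype.card F ^ r : ℕ) : ℤ) • P = 0 := by
  classical
  obtain ⟨p, hp⟩ := CharP.exists F
  obtain ⟨⟨n, hn0⟩, hpp, hn⟩ := FiniteField.card F p
  replace hn : Fintype.card F = p ^ n := hn
  have := Fact.mk hpp
  have : CharP (kk F) p := charP_of_injective_algebraMap (algebraMap F _).injective p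
  have hQ : Fintype.card F ^ r = p ^ (n * r) := by rw [hn, pow_mul]
  obtain ⟨ε, hε, hu⟩ : ∃ ε : ℤ, (ε = 1 ∨ ε = -1) ∧ f u = ε * u :=
    hu.elim (fun e => ⟨1, Or.inl rfl, by simpa⟩) fun e => ⟨-1, Or.inr rfl, by simpa⟩
  obtain ⟨E, π, hE, h1, h2⟩ := h.spec hO
  obtain ⟨e, h3⟩ := h2 f hf ε hε hu (iterateFrobenius (kk F) p (n * r)) fun z => by
    rw [hF, hQ]
    rfl
  obtain ⟨φ, hφ⟩ := exists_isMap hE _ e
  obtain ⟨t, h4, h5⟩ := frob_hasse hE (Nat.mul_pos hn0 hr) (fun _ => rfl) e hφ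
  have h6 : ε * ε = 1 := by rcases hε with rfl | rfl <;> rfl
  rw [hQ]
  refine ⟨ε * t, by rwa [mul_pow, pow_two ε, h6, one_mul], fun m hm P hP => h1 m hm _ ?_ ?_⟩
  · rw [smul_add, smul_sub, smul_comm, smul_comm _ (_ : ℤ), ← map_nsmul, ← map_nsmul, hP]
    simp
  · rw [map_add, map_sub, map_zsmul, map_zsmul, h3 φ hφ, h3 φ hφ, map_zsmul, smul_smul, smul_smul,
      h6, one_smul, mul_right_comm, h6, one_mul, h5]

/-- The polynomial whose square root gives good reduction. -/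
def pz (A D : F[X]) : Option (kk F) → F[X]
  | none => D * X ^ A.natDegree
  | some _ => D

/-- `x` is a place of potentially good reduction. -/
def PGAt (A B : F[X]) : Option (kk F) → Prop
  | none => A * B * (A - B) ≠ 0 ∧ B.natDegree = A.natDegree ∧ (A - B).natDegree = A.natDegree
  | some c => aeval c (A * B * (A - B)) ≠ 0

theorem pz_ne (A : F[X]) (hD : D ≠ 0) (x : Option (kk F)) : pz A D x ≠ 0 := by
  cases x
  exacts [mul_ne_zero hD (pow_ne_zero _ X_ne_zero), hD]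

theorem PGAt.pg (h : PGAt A B x) (hD : D ≠ 0) (hO : Over O x) (hu : u ^ 2 = ev (pz A D x)) :
    PG A B D O u := by
  have h0 : u ≠ 0 := fun e => ev_ne (pz_ne A hD x) (by rw [← hu, e]; simp)
  have hD' : ev D ≠ 0 := ev_ne hD
  cases x with
  | none =>
    obtain ⟨h1, h2, h3⟩ := h
    simp only [ne_eq, mul_eq_zero, not_or] at h1
    have h4 : ∀ p : F[X], p ≠ 0 → p.natDegree = A.natDegree →
        O.valuation (ev (D * p) / u ^ 2) = 1 := fun p hp hd => by
      rw [hu, pz, ev, ev, map_mul, map_mul, mul_div_mul_left _ _ hD', map_pow, aeval_X, ← hd]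
      exact val_inf_poly hO hp
    exact ⟨h0, h4 A h1.1.1 rfl, h4 B h1.1.2 h2, h4 _ h1.2 h3⟩
  | some c =>
    simp only [PGAt, map_mul, ne_eq, mul_eq_zero, not_or] at h
    have h4 : ∀ p : F[X], aeval c p ≠ 0 → O.valuation (ev (D * p) / u ^ 2) = 1 := fun p hp => by
      rw [hu, pz, ev, map_mul, mul_div_cancel_left₀ _ hD']
      exact over_ev hO hp
    exact ⟨h0, h4 A h.1.1, h4 B h.1.2, h4 _ h.2⟩

/-- Inertia acts on torsion points through the quadratic character of `pz`. -/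
theorem PGAt.ine (h : PGAt A B x) (hD : D ≠ 0) (hO : Over O x) {g : Gam F} (hg : g ∈ Ine O) {n : ℕ}
    (hn : (n : F) ≠ 0) {P : Pt (curve A B D)} (hP : n • P = 0) :
    pm g P = (-1 : ℤ) ^ (sg (ev (pz A D x)) g).val • P := by
  obtain ⟨u, hu⟩ := exists_sq (ev (pz A D x))
  refine (h.pg hD hO hu).ine hO hg (neg_one_pow_eq_or ℤ _) ?_ hn hP
  rw [sg_spec (gam_ev g _) (ev_ne (pz_ne A hD x)) hu, ch]
  simp

/-- The Weil polynomial of a Frobenius element at a place of potentially good reduction. -/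
theorem PGAt.frob (h : PGAt A B x) (hD : D ≠ 0) (hO : Over O x) {f : Gam F} (hf : f ∈ St O) {r : ℕ}
    (hr : 0 < r) (hF : Fr f (Fintype.card F ^ r)) :
    ∃ t : ℤ, t ^ 2 ≤ 4 * (Fintype.card F ^ r : ℕ) ∧ ∀ n : ℕ, (n : F) ≠ 0 →
      ∀ P : Pt (curve A B D), n • P = 0 →
        pm f (pm f P) - t • pm f P + ((Fintype.card F ^ r : ℕ) : ℤ) • P = 0 := by
  obtain ⟨u, hu⟩ := exists_sq (ev (pz A D x))
  refine (h.pg hD hO hu).frob hO hf hr hF (sq_eq_sq_iff_eq_or_eq_neg.1 ?_)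
  rw [← map_pow, hu, gam_ev]

variable {l : ℕ} [hl : Fact l.Prime]

theorem tm_ta {W : WeierstrassCurve (RatFunc F)} (T : TM l W) : TA l T.ev :=
  ⟨T.mem, T.surj, T.lvl, T.zero⟩

theorem PGAt.ineT (h : PGAt A B x) (hD : D ≠ 0) (hF : (l : F) ≠ 0) (T : TM l (curve A B D))
    (hO : Over O x) {g : Gam F} (hg : g ∈ Ine O) (y : Fin 2 → ℤ_[l]) :
    T.ro g y = (-1 : ℤ) ^ (sg (ev (pz A D x)) g).val • y :=
  (tm_ta T).inj (funext fun n => by
    rw [T.equiv, map_zsmul, act_apply, Pi.smul_apply]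
    exact h.ine hD hO hg (n := l ^ n) (by simpa using pow_ne_zero n hF) ((tm_ta T).tors y n))

theorem PGAt.frobT (h : PGAt A B x) (hD : D ≠ 0) (hF : (l : F) ≠ 0) (T : TM l (curve A B D))
    (hO : Over O x) {f : Gam F} (hf : f ∈ St O) {r : ℕ} (hr : 0 < r)
    (hQ : Fr f (Fintype.card F ^ r)) :
    ∃ t : ℤ, t ^ 2 ≤ 4 * (Fintype.card F ^ r : ℕ) ∧ ∀ y,
      T.ro f (T.ro f y) - t • T.ro f y + ((Fintype.card F ^ r : ℕ) : ℤ) • y = 0 := by
  obtain ⟨t, h1, h2⟩ := h.frob hD hO hf hr hQ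
  refine ⟨t, h1, fun y => ?_⟩
  have := e6b_char (tm_ta T) (f := pm f) (fun y n => congrFun (T.equiv f y) n)
    (fun n P hP => h2 (l ^ n) (by simpa using pow_ne_zero n hF) P hP) y
  rwa [Int.cast_smul_eq_zsmul, Int.cast_smul_eq_zsmul] at this

/-- The same for the coordinates used at the prime two. -/
theorem PGAt.frob2 (h : PGAt A B x) (hD : D ≠ 0) {ro : Gam F → Module.End ℤ_[2] V}
    {e : V →+ ℕ → Pt (curve A B D)} (hker : ∀ n y, e y n = 0 ↔ y ∈ Dv n)
    (hro : ∀ g y, e (ro g y) = act g (e y)) (hO : Over O x) {f : Gam F} (hf : f ∈ St O) {r : ℕ}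
    (hr : 0 < r) (hQ : Fr f (Fintype.card F ^ r)) :
    ∃ t : ℤ, t ^ 2 ≤ 4 * (Fintype.card F ^ r : ℕ) ∧ ∀ y,
      ro f (ro f y) - t • ro f y + ((Fintype.card F ^ r : ℕ) : ℤ) • y = 0 := by
  obtain ⟨t, h1, h2⟩ := h.frob hD hO hf hr hQ
  refine ⟨t, h1, fun y => eq_zero_of_Dv fun n => (hker n _).1 ?_⟩
  rw [map_add, map_sub, map_zsmul, map_zsmul, hro, hro]
  refine h2 (2 ^ n) (by simpa using pow_ne_zero n (two_neF (F := F))) _ ?_
  rw [← Pi.smul_apply, ← map_nsmul, hker]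
  exact mem_Dv_iff.2 ⟨y, by rw [← Nat.cast_smul_eq_nsmul ℤ_[2]]; simp⟩

end

end Pool.Agent.Lib.MP_16ef92_ag.GV
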