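import Mathlib
import Pool.Agent.Lib.MP_16ef92_ag.GV.R2
import Pool.Agent.Lib.MP_16ef92_ag.GV.Hasse
import Pool.Agent.Lib.MP_16ef92_ag.GV.Brg
import Pool.Agent.Lib.MP_16ef92_ag.ET.W1

set_option autoImplicit false
set_option linter.unusedSectionVars false
set_option linter.unusedVariables false

namespace Pool.Agent.Lib.MP_16ef92_ag.GV

open Polynomial Module GF AL
open scoped Classical

noncomputable section

variable {F : Type} [Field F] [Clos F] [Fintype F] [hq : Fact (Odd (Fintype.card F))]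

theorem o2_e2 (x y : V) : o2 (e2 x) (e2 y) = om x y := rfl

theorem td2_ext {ro : Gam F →* End ℤ_[2] V} {g : Gam F} {f : End ℤ_[2] (Fin 2 → ℤ_[2])}
    (h : ∀ x, e2 (ro g x) = f (e2 x)) : td2 ro g = f := LinearMap.ext fun x => by
  obtain ⟨y, rfl⟩ := e2.surjective x
  rw [td2_e2, h]

/-- A Frobenius element at a multiplicative place multiplies the vanishing cycle by `± Q`. -/
theorem r2_eigen {e : Fin 3 → Om F} {T : TD e} {O : ValuationSubring (Om F)} {x : Option (kk F)}
    {i j k : Fin 3} {r : V} {b : Gam F → ℤ_[2]} (hm : MP e O x i j k) (ht : TV T O k r b)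
    {f : Gam F} (hf : f ∈ St O) {Q : ℕ} (hQ : Fr f Q) (hp : f (pl x) = pl x)
    (hd : dt (T.ro f) = Q) : T.ro f r = (Q : ℤ_[2]) • r ∨ T.ro f r = -(Q : ℤ_[2]) • r := by
  obtain ⟨g, hg, hg1⟩ := hm.ov.exists_sg
  obtain ⟨v, hv⟩ := (unit_of_red ((ht.par hm hg).trans hg1)).exists_right_inv
  obtain ⟨s, hs⟩ := exists_dual (tv_prim ht.hr)
  have h1 := ht.hb _ (st_conj hf hg) (T.ro f s)
  rw [← ro_mul, inv_mul_cancel_right, ro_mul, ht.hb g hg, map_add, map_smul, hs,
    ET.conj_of hf hQ hp b (fun n z hz => ht.exists_u hm.ov hz) hg, add_right_inj] at h1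
  have h2 : T.ro f r = (Q * om r (T.ro f s)) • r := two_smul_inj (by
    linear_combination (norm := skip) v • h1
    match_scalars
    · linear_combination (-2) * hv
    · linear_combination (2 * Q * om r (T.ro f s)) * hv)
  have h3 := om_map (T.ro f) r s
  rw [h2, om_smul_left, hd, hs, mul_one, mul_assoc] at h3
  have h4 : (Q : ℤ_[2]) ≠ 0 := fun e0 => by
    have := dt_mul (T.ro f) (T.ro f⁻¹)
    rw [← map_mul, mul_inv_cancel, map_one, dt_one, hd, e0, zero_mul] at this
    exact one_ne_zero this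
  rcases mul_self_eq_one_iff.1 (mul_left_cancel₀ h4 (h3.trans (mul_one _).symm)) with h5 | h5
  · exact Or.inl (by rw [h2, h5, mul_one])
  · exact Or.inr (by rw [h2, h5, mul_neg_one])

/-- The Tate module of the untwisted curve, and the Tate modules of its twists. -/
theorem exists_r2 {A B : F[X]} (h : Fam0 A B 1) {s : Gam F} (hs : Fr s (Fintype.card F)) :
    ∃ ρ δ t, R2 ρ δ (A * B * (A - B)) A.natDegree t ∧ ∀ D : F[X], D ≠ 0 →
      ∃ T : TM 2 (curve A B D), ∀ g, T.ro g = chi D g • ρ g := by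
  obtain ⟨T, ev₁, hin, hsurj, hker, hro⟩ := exists_TD (e := fun i => ev (EE A B 1 i)) h.cub
    fun g i => gam_ev g _
  have h0 := left_ne_zero_of_mul h.sq.ne_zero
  have h1 : ∀ n g, (∀ x, T.ro g x - x ∈ MP_16ef92_ag.Dv n) →
      ∀ x a, 2 ^ n ∣ (td2 T.ro g x - x) a := fun n g hg x => by
    obtain ⟨y, rfl⟩ := e2.surjective x
    rw [td2_e2, ← map_sub]
    exact e2_dv.2 (hg y)
  have h2 : ∀ k : Fin 3, (fun a => red 1 (e2 (tv k) a)) = ![![1, 0], ![0, 1], ![1, 1]] k :=
    fun k => funext fun a => by fin_cases k <;> fin_cases a <;> simp [tv, e2]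
  refine ⟨td2 T.ro, ⟨⟨fun g => dt (T.ro g), by rw [map_one, dt_one]⟩,
    fun g l => (congrArg dt (map_mul T.ro g l)).trans (dt_mul _ _)⟩, fun l a => red 1 (e2 (tv (ix A B l)) a),
    ⟨fun g => by simpa only [pow_one] using h1 1 g (T.triv g), fun n => (T.near n).mono (h1 n),
    fun g x y => ?_, fun g hg => T.dt_geo hs hg, fun s hs => h.det T hin hker hro hs,
    fun c hc O hO g hg => td2_ext fun x => ?_, fun l hl hN c hc O hO => ?_,
    fun O hO g hg => td2_ext fun y => ?_, fun l _ _ => ?_, fun v hv => ?_,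
    fun x hx O hO f hf d hd hQ => ?_⟩,
    fun D hD => exists_TM_two (mul_ne_zero h0 hD) hin hsurj hker hro⟩
  · obtain ⟨x, rfl⟩ := e2.surjective x
    obtain ⟨y, rfl⟩ := e2.surjective y
    rw [td2_e2, td2_e2, o2_e2, o2_e2, om_map]
    rfl
  · rw [good_fin T hO (by rwa [mul_one]) g hg]
    rfl
  · obtain ⟨i, j, hm⟩ := h.mult hl hN hc
    obtain ⟨v, b, ht⟩ := (hm O hO).exists_tv (fun g hg => T.dt_geo hs hg) (T := T)
    refine ⟨e2 v, b, fun a => red_eq.2 ?_, fun g hg => ⟨ht.par (hm O hO) hg,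
      td2_ext fun x => ?_⟩, fun f hf Q hQ hp hd => ?_⟩
    · rw [← Pi.sub_apply, ← map_sub]
      exact e2_dv.2 ht.hr a
    · rw [ht.hb g hg, map_add, map_smul, LinearMap.add_apply, LinearMap.smul_apply, n2_apply,
        o2_e2, smul_smul]
      rfl
    · rw [td2_e2, ← map_smul, ← map_smul]
      exact (r2_eigen (hm O hO) ht hf hQ hp hd).imp (congrArg e2) (congrArg e2)
  · rw [LinearMap.smul_apply, End.one_apply, ← map_smul]
    refine congrArg _ ?_
    by_cases hd : Even (A.natDegree + (1 : F[X]).natDegree)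
    · rw [h.good_inf T hd hO g hg, (ZMod.natCast_eq_zero_iff_even (n := A.natDegree)).2
        (by simpa using hd), zero_mul, sgz_zero, one_smul]
    · rw [h.twist_inf T hd hO g hg, (ZMod.natCast_eq_one_iff_odd (n := A.natDegree)).2
        (by simpa using hd), one_mul]
      rcases z2_cases (sg (pl none) g) with e | e <;> simp [e, sgz_zero, sgz_one]
  · rw [h2]
    generalize ix A B l = k
    revert k
    decide
  · obtain ⟨k, rfl⟩ : ∃ k : Fin 3, ![![1, 0], ![0, 1], ![1, 1]] k = v := by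
      revert v
      decide
    obtain ⟨l, a, b, e⟩ := h.ix_surj k
    exact ⟨l, a, b, by rw [h2, e]⟩
  · have h3 : PGAt A B x := by
      cases x with
      | none => exact ⟨h0, h.dB, h.dC⟩
      | some c => exact hx c rfl
    obtain ⟨a, h4, h5⟩ := h3.frob2 one_ne_zero hker hro hO hf hd hQ
    refine ⟨a, h4, fun y => ?_⟩
    obtain ⟨y, rfl⟩ := e2.surjective y
    rw [td2_e2, td2_e2, ← map_zsmul e2, ← map_zsmul e2 _ y, ← map_sub, ← map_add, h5, map_zero]

end

end Pool.Agent.Lib.MP_16ef92_ag.GV
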