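import Mathlib
import Pool.Agent.Lib.MP_16ef92_ag.GV.Hasse
import Pool.Agent.Lib.MP_16ef92_ag.GV.LInd
import Pool.Agent.Lib.MP_16ef92_ag.GV.Kr
import Pool.Agent.Lib.MP_16ef92_ag.GV.Brg

set_option autoImplicit false
set_option linter.unusedSectionVars false
set_option linter.unusedVariables false

namespace Pool.Agent.Lib.MP_16ef92_ag.GV

open Polynomial Module AL

noncomputable section

variable {F : Type} [Field F] [Clos F] [Fintype F] [hq : Fact (Odd (Fintype.card F))]

/-- The traces do not depend on the prime or on the coordinates. -/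
theorem exists_a {A B D : F[X]} (h0 : A * B * (A - B) * D ≠ 0) :
    ∃ a : kk F → ℕ → ℤ, ∀ (l : ℕ) [Fact l.Prime], (l : F) ≠ 0 →
      ∀ T : TM l (curve A B D), T.Good (A * B * (A - B) * D) a := by
  obtain ⟨a, ha⟩ := exists_TM h0
  exact ⟨a, fun l _ hF T => (ha l hF).elim fun T₀ h => h.congr T⟩

/-- Inertia at a simple root of the twisting polynomial. -/
theorem tm_neg {l : ℕ} [Fact l.Prime] (hF : (l : F) ≠ 0) {A B D : F[X]}
    (hsq : Squarefree (A * B * (A - B) * D)) (T : TM l (curve A B D)) {c : kk F}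
    (hc : aeval c D = 0) {O : ValuationSubring (Om F)} (hO : Over O (some c)) {g : Gam F}
    (hg : g ∈ Ine O) (h1 : sg (pl (some c)) g = 1) : T.ro g = -1 := by
  obtain ⟨h2, h3⟩ := simple_root (p := D) (q := A * B * (A - B)) (by rwa [mul_comm]) hc
  refine LinearMap.ext fun y => ?_
  rw [PGAt.ineT (x := some c) h2 (right_ne_zero_of_mul hsq.ne_zero) hF T hO hg, pz, sg,
    hO.kap_val prim_one hg (gam_ev _ _) (j := 1) (by rw [zpow_one, h3 O hO]), Int.cast_one, one_mul,
    ← sg, h1, show (1 : ZMod (2 ^ 1)).val = 1 from rfl, pow_one, neg_one_zsmul]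
  rfl

variable {ι : Type} [Fintype ι] {A B E : ι → F[X]} {N : F[X]} {l d : ℕ} [Fact l.Prime]

/-- The tensor product of the Tate modules. -/
abbrev tm (e : Fin d ≃ (ι → Fin 2)) (T : ∀ i, TM l (curve (A i) (B i) (E i))) :
    Gam F →* End ℤ_[l] (Fin d → ℤ_[l]) := krH e fun i => (T i).ro

theorem tm_cr (hF : (l : F) ≠ 0) (hN : N ≠ 0) (h : ∀ i, A i * B i * (A i - B i) * E i ∣ N)
    (e : Fin d ≃ (ι → Fin 2)) (T : ∀ i, TM l (curve (A i) (B i) (E i))) :
    Cr (fam N) (rg (tm e T)) := by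
  refine cr_of (fun n => ?_) fun c hc O hO g hg => ?_
  · classical
    have key : ∀ s : Finset ι, Near fun g => ∀ i ∈ s, ∀ x a,
        (l : ℤ_[l]) ^ n ∣ ((T i).ro g x - x) a := fun s => by
      induction s using Finset.induction_on with
      | empty => exact .of_forall (by simp)
      | insert a s _ ih => exact (((T a).near n).and ih).mono fun g hg => by simpa using hg
    exact (key Finset.univ).mono fun g hg => kr_dvd e fun i => hg i (Finset.mem_univ i)
  · refine (congrArg (kr e) (funext fun i => ?_)).trans (kr_one e)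
    obtain ⟨a, ha⟩ := exists_a (ne_zero_of_dvd_ne_zero hN (h i))
    exact (ha l hF (T i)).unr c (fun e0 => hc (aeval_eq_zero_of_dvd_aeval_eq_zero (h i) e0))
      O hO g hg

theorem exists_trR (hN : N ≠ 0) (h : ∀ i, A i * B i * (A i - B i) * E i ∣ N) :
    ∃ a, ∀ (l : ℕ) [Fact l.Prime], (l : F) ≠ 0 → ∀ (d : ℕ) (e : Fin d ≃ (ι → Fin 2))
      (T : ∀ i, TM l (curve (A i) (B i) (E i))), TrR N (tm e T) a := by
  choose a ha using fun i => exists_a (ne_zero_of_dvd_ne_zero hN (h i))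
  refine ⟨fun c r => ∏ i, a i c r, fun l _ hF d e T c hc O hO f hf r hr hQ => ?_⟩
  rw [krH_apply, trace_kr, Int.cast_prod]
  exact Finset.prod_congr rfl fun i _ => (ha i l hF (T i)).tr c
    (fun e0 => hc (aeval_eq_zero_of_dvd_aeval_eq_zero (h i) e0)) O hO f hf r hr hQ

theorem tml_sq {C : ι → F[X]} {D : F[X]}
    (hsq : Squarefree ((∏ i, A i * B i * (A i - B i) * C i) * D)) (i : ι) :
    Squarefree (A i * B i * (A i - B i) * (D * C i)) := by
  refine hsq.squarefree_of_dvd ?_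
  rw [mul_comm D, ← mul_assoc]
  exact mul_dvd_mul_right (Finset.dvd_prod_of_mem (fun i => A i * B i * (A i - B i) * C i)
    (Finset.mem_univ i)) D

/-- An element of the geometric Galois group that is `-1` on one factor and `1` on the others. -/
theorem exists_gi {C : ι → F[X]} {D : F[X]}
    (hsq : Squarefree ((∏ i, A i * B i * (A i - B i) * C i) * D)) {i : ι}
    (hi : 0 < (C i).natDegree) : ∃ g ∈ Geo F, ∀ (l : ℕ) [Fact l.Prime], (l : F) ≠ 0 →
      (∀ T : TM l (curve (A i) (B i) (D * C i)), T.ro g = -1) ∧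
        ∀ j, j ≠ i → ∀ T : TM l (curve (A j) (B j) (D * C j)), T.ro g = 1 := by
  classical
  obtain ⟨c, hc⟩ := IsAlgClosed.exists_aeval_eq_zero (kk F) (C i)
    (natDegree_pos_iff_degree_pos.1 hi).ne'
  obtain ⟨O, hO⟩ := exists_over (some c)
  obtain ⟨g, hg, h1⟩ := hO.exists_sg
  refine ⟨g, hg.1, fun l _ hF => ⟨fun T => tm_neg hF (tml_sq hsq i) T
    (by rw [map_mul, hc, mul_zero]) hO hg h1, fun j hj T => ?_⟩⟩
  obtain ⟨a, ha⟩ := exists_a (tml_sq hsq j).ne_zero
  refine (ha l hF T).unr c ?_ O hO g hg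
  rw [← Finset.mul_prod_erase _ _ (Finset.mem_univ i), mul_assoc] at hsq
  have h2 := (simple_root hsq (by rw [map_mul, hc, mul_zero])).1
  rw [map_mul, map_prod, mul_ne_zero_iff, Finset.prod_ne_zero_iff] at h2
  have h3 := mul_ne_zero (h2.1 j (Finset.mem_erase.2 ⟨hj, Finset.mem_univ j⟩)) h2.2
  rwa [← map_mul, mul_assoc, mul_comm (C j)] at h3

/-- An element of the geometric Galois group that is `-1` on every factor. -/
theorem exists_gD {C : ι → F[X]} {D : F[X]}
    (hsq : Squarefree ((∏ i, A i * B i * (A i - B i) * C i) * D)) (hD : 0 < D.natDegree) :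
    ∃ g ∈ Geo F, ∀ (l : ℕ) [Fact l.Prime], (l : F) ≠ 0 →
      ∀ i (T : TM l (curve (A i) (B i) (D * C i))), T.ro g = -1 := by
  obtain ⟨c, hc⟩ := IsAlgClosed.exists_aeval_eq_zero (kk F) D
    (natDegree_pos_iff_degree_pos.1 hD).ne'
  obtain ⟨O, hO⟩ := exists_over (some c)
  obtain ⟨g, hg, h1⟩ := hO.exists_sg
  exact ⟨g, hg.1, fun l _ hF i T => tm_neg hF (tml_sq hsq i) T
    (by rw [map_mul, hc, zero_mul]) hO hg h1⟩

end

end Pool.Agent.Lib.MP_16ef92_ag.GV
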