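import Mathlib
import Pool.Agent.Lib.MP_16ef92_ag.GV.NoF
import Pool.Agent.Lib.MP_16ef92_ag.GV.TMl
import Pool.Agent.Lib.MP_16ef92_ag.GV.R2x
import Pool.Agent.Lib.MP_16ef92_ag.GV.Dens

set_option autoImplicit false
set_option linter.unusedSectionVars false
set_option linter.unusedVariables false

namespace Pool.Agent.Lib.MP_16ef92_ag.GV

open Polynomial Module Filter AL

noncomputable section

variable {F : Type} [Field F] [Clos F] [Fintype F] [hq : Fact (Odd (Fintype.card F))]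
  {ι : Type} [Fintype ι]

/-- For every prime and every Frobenius element the eigenvalue `q ^ j` on the cohomology of the
tensor product of the Tate modules is simple or absent. -/
def SimT (A B C : ι → F[X]) (N D : F[X]) (j : ℕ) : Prop :=
  ∀ (l : ℕ) [Fact l.Prime], (l : F) ≠ 0 → ∀ (d : ℕ) (e : Fin d ≃ (ι → Fin 2))
    (T : ∀ i, TM l (curve (A i) (B i) (D * C i))) (s : Gam F), Fr s (Fintype.card F) →
    ∀ u : ℤ_[l], u * (Fintype.card F : ℤ_[l]) ^ j = 1 →
    ∀ hC : Cr (fam (N * D)) (rg (tm e T)), Sim (cob hC) (u • Ps (N * D) (tm e T) s)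

theorem one_chi {p r : F[X]} (hp : p ≠ 0) (hr : r ≠ 0) (g : Gam F) :
    GF.chi (p * r) g = GF.chi p g * GF.chi r g := GF.rep_chi hp hr g

theorem one_prod {C : ι → F[X]} {D : F[X]} {j : ℕ} (hj : Fintype.card ι = 2 * j + 1)
    (hC : ∀ i, C i ≠ 0) (hD : D ≠ 0) (g : Gam F) :
    ∏ i, GF.chi (D * C i) g = GF.chi ((∏ i, C i) * D) g := by
  classical
  have h1 : ∀ s : Finset ι, GF.chi (∏ i ∈ s, C i) g = ∏ i ∈ s, GF.chi (C i) g := fun s => by
    induction s using Finset.induction_on with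
    | empty =>
      have := one_chi (F := F) one_ne_zero one_ne_zero g
      rw [mul_one, mul_self_eq_one_iff.2 (GF.chi_cases 1 g)] at this
      simpa using this
    | insert a s ha ih =>
      rw [Finset.prod_insert ha, Finset.prod_insert ha,
        one_chi (hC a) (Finset.prod_ne_zero_iff.2 fun i _ => hC i), ih]
  simp only [one_chi hD (hC _)]
  rw [one_chi (Finset.prod_ne_zero_iff.2 fun i _ => hC i) hD, h1, Finset.prod_mul_distrib,
    Finset.prod_const, Finset.card_univ, hj, pow_succ, pow_mul, pow_two,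
    mul_self_eq_one_iff.2 (GF.chi_cases D g), one_pow, one_mul, mul_comm]

theorem one_h0 {A B C : ι → F[X]} {D : F[X]} {j : ℕ} (hj : Fintype.card ι = 2 * j + 1)
    (hsq : Squarefree ((∏ i, A i * B i * (A i - B i) * C i) * D)) (hD : 0 < D.natDegree)
    {l d : ℕ} [Fact l.Prime] (hF : (l : F) ≠ 0) (e : Fin d ≃ (ι → Fin 2))
    (T : ∀ i, TM l (curve (A i) (B i) (D * C i))) {x : Fin d → ℤ_[l]}
    (h : ∀ g ∈ Geo F, tm e T g x = x) : x = 0 := by
  obtain ⟨g, hg, h1⟩ := exists_gD hsq hD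
  have h2 := h g hg
  have h3 : (fun i => (T i).ro g) = fun i => (-1 : ℤ_[l]) • (1 : ι → End ℤ_[l] (Fin 2 → ℤ_[l])) i :=
    funext fun i => (h1 l hF i (T i)).trans (neg_one_smul _ _).symm
  rw [krH_apply, h3, kr_smul, kr_one, Finset.prod_const, Finset.card_univ, hj, pow_succ, pow_mul,
    neg_one_sq, one_pow, one_mul, LinearMap.smul_apply, End.one_apply, neg_one_smul,
    neg_eq_iff_add_eq_zero, ← two_smul ℤ_[l]] at h2
  exact (smul_eq_zero.1 h2).resolve_left two_ne_zero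

theorem dz_deg : GF.GV.DZ fun D : F[X] => D.natDegree = 0 :=
  tendsto_const_nhds.congr' ((eventually_gt_atTop 0).mono fun d hd => by
    beta_reduce
    rw [show {D : F[X] | D.natDegree = d ∧ D.natDegree = 0} = ∅ from
      Set.eq_empty_of_forall_notMem fun D hD => hd.ne (hD.2.symm.trans hD.1)]
    simp)

section
open GF.GV

variable [P : Tn] {A B C : P.ι → F[X]} {N D : F[X]}
  {ρ : P.ι → Gam F →* End ℤ_[2] (Fin 2 → ℤ_[2])} {δ : P.ι → Gam F →* ℤ_[2]} {M : P.ι → F[X]}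
  {r : P.ι → ℕ} {t : P.ι → F[X] → Fin 2 → GF.Z2}

theorem one_ro (hR : ∀ i, R2 (ρ i) (δ i) (M i) (r i) (t i)) (i₀ : P.ι) (hC : ∀ i, C i ≠ 0)
    (hD : D ≠ 0) {T : ∀ i, TM 2 (curve (A i) (B i) (D * C i))}
    (hT : ∀ i g, (T i).ro g = GF.chi (D * C i) g • ρ i g) (g : Gam F) :
    ((ten hR i₀).twist ((∏ i, C i) * D)).ro g = δ i₀ g⁻¹ ^ P.j • tm P.e T g := by
  rw [twist_ro, ten_ro, krH_apply, funext (hT · g), kr_smul, one_prod P.card hC hD]
  exact smul_comm _ _ _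

theorem one_two (hR : ∀ i, R2 (ρ i) (δ i) (M i) (r i) (t i)) (i₀ : P.ι) {τ : F[X] → Nb}
    (hF : GF.GV.Fam (ten hR i₀) (∏ i, M i) (∑ i, r i) τ) (hN : N ≠ 0)
    (h2 : (∏ i, M i) * ((∏ i, C i) * D) ∣ N) (h3 : Squarefree ((∏ i, M i) * ((∏ i, C i) * D)))
    (hD : D.natDegree ≠ 0) {T : ∀ i, TM 2 (curve (A i) (B i) (D * C i))}
    (hT : ∀ i g, (T i).ro g = GF.chi (D * C i) g • ρ i g) (hC : Cr (fam N) (rg (tm P.e T)))
    {s : Gam F} (hs : Fr s (Fintype.card F))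
    (hb : ¬ Bad0 ((ten hR i₀).twist ((∏ i, C i) * D)) s) :
    AL.Sim (cob hC) (δ i₀ s⁻¹ ^ P.j • Ps N (tm P.e T) s) := by
  have h0 := mul_ne_zero_iff.1 (right_ne_zero_of_mul h3.ne_zero)
  have h7 := one_ro hR i₀ (fun i => Finset.prod_ne_zero_iff.1 h0.1 i (Finset.mem_univ i)) h0.2 hT
  have h6 := hF.twist h3
  have h8 : 0 < ((∏ i, C i) * D).natDegree := by
    rw [natDegree_mul h0.1 h0.2]
    omega
  have h9 := wt_of h6.geo hs (h6.det s hs) (ten_noFix hR i₀ h3 hs) N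
  have h4 := h6.good
  have h5 := h6.rp h8
  generalize (ten hR i₀).twist ((∏ i, C i) * D) = T' at *
  generalize tm P.e T = σ at *
  refine sim_of_good (φ := LinearEquiv.refl ℤ_[2] (Fin P.d → ℤ_[2])) h5
    (fun c hc => h4 c fun e => hc (aeval_eq_zero_of_dvd_aeval_eq_zero h2 e))
    (fun g hg x => ?_) (fun x => ?_) hC h9 hb
  · rw [h7, (hR i₀).geo _ (inv_mem hg), one_pow, one_smul]
    rfl
  · rw [h7]
    rfl

theorem one_dz (hN : Squarefree N) (hd : (∏ i, A i * B i * (A i - B i) * C i) ∣ N)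
    (hA : ∀ i, 0 < (A i).natDegree) (hB : ∀ i, (B i).natDegree = (A i).natDegree)
    (hC : ∀ i, (A i - B i).natDegree = (A i).natDegree) :
    DZ fun D => Squarefree (N * D) ∧ ¬ SimT A B C N D P.j := by
  by_cases e0 : ∃ s : Gam F, Fr s (Fintype.card F)
  swap
  · exact dz_false.mono fun D hD => hD.2 fun l _ _ d e T s hs => (e0 ⟨s, hs⟩).elim
  obtain ⟨s₀, hs₀⟩ := e0
  have h1 : ∀ i, A i * B i * (A i - B i) * C i ∣ N := fun i =>
    dvd_trans (Finset.dvd_prod_of_mem (fun i => A i * B i * (A i - B i) * C i)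
      (Finset.mem_univ i)) hd
  have hC0 : ∀ i, C i ≠ 0 := fun i => right_ne_zero_of_mul (ne_zero_of_dvd_ne_zero hN.ne_zero (h1 i))
  choose ρ δ t hR hT using fun i => exists_r2 (A := A i) (B := B i)
    ⟨by rw [mul_one]; exact (hN.squarefree_of_dvd (h1 i)).of_mul_left, hB i, hC i, hA i⟩ hs₀
  obtain ⟨i₀⟩ : Nonempty P.ι := Fintype.card_pos_iff.1 (P.card ▸ Nat.succ_pos _)
  rw [Finset.prod_mul_distrib] at hd
  obtain ⟨τ, hF⟩ := ten_fam hR i₀ (hN.squarefree_of_dvd hd).of_mul_left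
  have h0 := dz_deg.or (dz_bad hF (C := ∏ i, C i) (Finset.prod_ne_zero_iff.2 fun i _ => hC0 i))
  refine h0.mono fun D hD => ?_
  obtain ⟨hsq, hS⟩ := hD
  have h2 : (∏ i, A i * B i * (A i - B i)) * ((∏ i, C i) * D) ∣ N * D := by
    rw [← mul_assoc]
    exact mul_dvd_mul_right hd D
  have h3 := hsq.squarefree_of_dvd h2
  by_contra hb
  rw [not_or, not_and, not_exists] at hb
  obtain ⟨hD, hb⟩ := hb
  replace hb := hb h3
  apply hS
  intro l _ hl d e T s hs u hu hCr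
  have hD0 : D ≠ 0 := right_ne_zero_of_mul hsq.ne_zero
  have h4 : ∀ i, A i * B i * (A i - B i) * (D * C i) ∣ N * D := fun i => by
    rw [mul_comm D, ← mul_assoc]
    exact mul_dvd_mul_right (h1 i) D
  have h5 : Squarefree ((∏ i, A i * B i * (A i - B i) * C i) * D) := by
    rwa [Finset.prod_mul_distrib, mul_assoc]
  have h2F : ((2 : ℕ) : F) ≠ 0 := by exact_mod_cast two_neF
  choose T₂ hT₂ using fun i => hT i (D * C i) (mul_ne_zero hD0 (hC0 i))
  obtain ⟨a, ha⟩ := exists_trR hsq.ne_zero h4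
  have hC₂ := tm_cr h2F hsq.ne_zero h4 P.e T₂
  refine sim_transfer hsq.ne_zero h2F hl hC₂ hCr (ha 2 h2F _ P.e T₂) (ha l hl d e T) hs hs ?_ hu
    (fun x hx _ => one_h0 P.card h5 (Nat.pos_of_ne_zero hD) h2F P.e T₂ hx)
    (fun x hx _ => one_h0 P.card h5 (Nat.pos_of_ne_zero hD) hl e T hx)
    (one_two hR i₀ hF hsq.ne_zero h2 h3 hD hT₂ hC₂ hs fun e => hb s ⟨hs, e⟩)
  rw [← mul_pow, ← (hR i₀).det s hs, ← map_mul, inv_mul_cancel, map_one, one_pow]

end

theorem bad_tends {A B C : ι → F[X]} {N : F[X]} {j : ℕ} (hj : Fintype.card ι = 2 * j + 1)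
    (hN : Squarefree N) (hd : (∏ i, A i * B i * (A i - B i) * C i) ∣ N)
    (hA : ∀ i, 0 < (A i).natDegree) (hB : ∀ i, (B i).natDegree = (A i).natDegree)
    (hC : ∀ i, (A i - B i).natDegree = (A i).natDegree) :
    Tendsto (fun d : ℕ => (({D : F[X] | D.natDegree = d ∧ Squarefree (N * D) ∧
      ¬ SimT A B C N D j}.ncard : ℝ)) / (Fintype.card F : ℝ) ^ d) atTop (nhds 0) := by
  classical
  exact one_dz (P := ⟨ι, inferInstance, j, hj, _, (Fintype.equivFin (ι → Fin 2)).symm⟩)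
    hN hd hA hB hC

end

end Pool.Agent.Lib.MP_16ef92_ag.GV
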