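import Mathlib
import Pool.Agent.Lib.MP_16ef92_ag.GV.One
import Pool.Agent.Lib.MP_16ef92_ag.GF.Adm

set_option autoImplicit false
set_option linter.unusedSectionVars false
set_option linter.unusedVariables false

namespace Pool.Agent.Lib.MP_16ef92_ag.GV

open Polynomial Module Filter AL

noncomputable section

variable {F : Type} [Field F] [Clos F] [Fintype F] [hq : Fact (Odd (Fintype.card F))]
  {I : Type} [Fintype I]

/-- Simplicity for every subfamily of odd size. -/
def SimAll (A B C : I → F[X]) (N D : F[X]) : Prop :=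
  ∀ (S : Finset I) (j : ℕ), S.card = 2 * j + 1 →
    SimT (fun i : S => A i) (fun i => B i) (fun i => C i) N D j

/-- A property that follows from simplicity holds for almost all admissible twists. -/
theorem final {A B C : I → F[X]} {N : F[X]} (hN : Squarefree N)
    (hd : (∏ i, A i * B i * (A i - B i) * C i) ∣ N)
    (hA : ∀ i, 0 < (A i).natDegree) (hB : ∀ i, (B i).natDegree = (A i).natDegree)
    (hC : ∀ i, (A i - B i).natDegree = (A i).natDegree) {G : F[X] → Prop}
    (hG : ∀ D, Squarefree (N * D) → 0 < D.natDegree → SimAll A B C N D → G D) :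
    Tendsto (fun d : ℕ => (({D : F[X] | D.natDegree = d ∧ Squarefree (N * D) ∧ G D}.ncard : ℝ)) /
      ({D : F[X] | D.natDegree = d ∧ Squarefree (N * D)}.ncard : ℝ)) atTop (nhds 1) := by
  classical
  refine GF.GV.dens_one hq.out hN (GF.GV.dz_exists (J := Finset I) (B := fun S D =>
    Odd S.card ∧ Squarefree (N * D) ∧
      ¬ SimT (fun i : S => A i) (fun i => B i) (fun i => C i) N D (S.card / 2)) fun S => ?_)
    fun D h1 h2 h3 => hG D h2 h1 fun S j hj => not_not.1 fun e =>
      h3 ⟨S, ⟨j, hj⟩, h2, by rwa [show S.card / 2 = j by omega]⟩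
  by_cases e : Odd S.card
  · refine GF.GV.DZ.mono (bad_tends (ι := S) (j := S.card / 2) ?_ hN (.trans ?_ hd) (fun i => hA i)
      (fun i => hB i) fun i => hC i) fun D hD => hD.2
    · rw [Fintype.card_coe, Nat.two_mul_div_two_add_one_of_odd e]
    · rw [Finset.prod_coe_sort S fun i => A i * B i * (A i - B i) * C i]
      exact Finset.prod_dvd_prod_of_subset _ _ _ S.subset_univ
  · exact GF.GV.dz_false.mono fun D hD => e hD.1

/-- The lattice of cocycles is free of finite rank. -/
theorem zi_tm {ι : Type} [Fintype ι] {A B E : ι → F[X]} {N : F[X]} {l d : ℕ} [Fact l.Prime]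
    (hF : (l : F) ≠ 0) (hN : N ≠ 0) (h : ∀ i, A i * B i * (A i - B i) * E i ∣ N)
    (e : Fin d ≃ (ι → Fin 2)) (T : ∀ i, TM l (curve (A i) (B i) (E i))) {s : Gam F}
    (hs : Fr s (Fintype.card F)) :
    Module.Free ℤ_[l] (Zi (fam N) (rg (tm e T))) ∧ Module.Finite ℤ_[l] (Zi (fam N) (rg (tm e T))) :=
  zi_free hN hF (tm_cr hF hN h e T) ((exists_trR hN h).choose_spec l hF d e T) hs

end

end Pool.Agent.Lib.MP_16ef92_ag.GV
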